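import Pool.Agent.Work.MP_b730b2_lc.Full.Main
import Pool.Agent.Work.MP_b730b2_lc.FO

/-! Order-invariant sentences on graphs of bounded tree-width. -/

namespace Pool.Agent.Work.MP_b730b2_lc.Full

open Set FirstOrder FirstOrder.Language

/-- A coloured graph with an apex relation. -/
def apexRl {c : ℕ} {V : Type} (G : Gr c V) (v0 : V) : Rl (Fin c ⊕ Bool) V
  | Sum.inl i => fun x y => x = y ∧ G.C i x
  | Sum.inr false => G.E
  | Sum.inr true => fun x _ => x = v0

theorem apex_diam {c : ℕ} {V : Type} (G : Gr c V) (v0 x y : V) :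
    Wk (apexRl G v0).adj (fun _ => True) 2 x y := by
  have h : ∀ x, Wk (apexRl G v0).adj (fun _ => True) 1 v0 x := by
    intro x
    by_cases e : v0 = x
    · exact e ▸ Wk.refl trivial
    · exact Wk.one trivial ⟨e, Sum.inr true, Or.inl rfl⟩ trivial
  exact ((h x).symm (Rl.adj_symm _)).trans (h y)

theorem apex_wid {c k : ℕ} {V : Type} [Finite V] (G : Gr c V) (v0 : V) (h : G.TW k) :
    Wid (apexRl G v0).adj (2 * (k + 2)) := by
  obtain ⟨m, T, B, hT, h1, h2, h3, h4⟩ := h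
  refine wid_tw v0 B hT h1 ?_ h3 h4
  rintro x y ⟨hne, i | _ | _, h⟩
  · exact absurd (h.elim (fun h => h.1) (fun h => h.1.symm)) hne
  · exact Or.inr (Or.inr (h2 x y (h.elim id (G.symm _ _))))
  · exact h.imp id Or.inl

theorem tw_orders (k c q : ℕ) : ∃ n, ∀ (V W : Type) [Finite V] [Finite W] (G : Gr c V)
    (H : Gr c W), G.TW k → H.TW k → EF G.str H.str n ∅ →
    ∃ (o : LinearOrder V) (o' : LinearOrder W),
      EF (G.ostr (@LT.lt V o.toLT)) (H.ostr (@LT.lt W o'.toLT)) q ∅ := by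
  obtain ⟨n, hn⟩ := wid_main (Fin c ⊕ Bool) (2 * (k + 2)) q
  refine ⟨n + 1, fun V W _ _ G H hG hH h => ?_⟩
  rcases isEmpty_or_nonempty V with hV | ⟨⟨v0⟩⟩
  · have hW : IsEmpty W := ⟨fun w => let ⟨a, _⟩ := h.2.2 w trivial; hV.elim a⟩
    exact ⟨LinearOrder.lift' (Finite.equivFin V) (Finite.equivFin V).injective,
      LinearOrder.lift' (Finite.equivFin W) (Finite.equivFin W).injective,
      EF.of_iso (T := ∅) (fun _ h => h.elim) (fun a => hV.elim a) (fun b => hW.elim b) q⟩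
  obtain ⟨w0, -, h0⟩ := h.2.1 v0 trivial
  have h1 : EF (apexRl G v0).str (apexRl H w0).str n ∅ := by
    refine EF.of_inv (fun n S => EF G.str H.str n (insert (v0, w0) S)) ?_ ?_ ?_ n ∅ h0
    · intro n S h
      refine PI_str.2 fun p hp p' hp' => ?_
      have e := h.pi p (Or.inr hp) p' (Or.inr hp')
      refine ⟨e.1, ?_⟩
      rintro (i | _ | _)
      · exact and_congr e.1 (e.2.1 i)
      · exact e.2.2 ()
      · exact (h.pi p (Or.inr hp) _ (Or.inl rfl)).1
    · intro n S h a _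
      obtain ⟨b, -, h'⟩ := h.2.1 a trivial
      exact ⟨b, trivial, by rwa [insert_comm]⟩
    · intro n S h b _
      obtain ⟨a, -, h'⟩ := h.2.2 b trivial
      exact ⟨a, trivial, by rwa [insert_comm]⟩
  obtain ⟨pos, pos', i1, i2, h2⟩ := hn
    ⟨V, inferInstance, apexRl G v0, ⟨v0⟩, apex_diam G v0, apex_wid G v0 hG⟩
    ⟨W, inferInstance, apexRl H w0, ⟨w0⟩, apex_diam H w0, apex_wid H w0 hH⟩ h1
  refine ⟨LinearOrder.lift' pos i1, LinearOrder.lift' pos' i2, EF.reduct (by rfl) (by rfl) ?_ h2⟩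
  intro p p' _ _ _ _ a1 _ a2 _
  refine ⟨a2.1, fun i => ?_, ?_⟩
  · have := a1.2.2 (some (Sum.inl i))
    exact ⟨fun h => (this.1 ⟨rfl, h⟩).2, fun h => (this.2 ⟨rfl, h⟩).2⟩
  · rintro (_ | _)
    · exact a2.2.2 (some (Sum.inr false))
    · exact a2.2.2 none

theorem main_full (k c : ℕ) (φ : ((gl c).sum Language.order).Sentence)
    (hφ : ∀ (V : Type) [Finite V] (S : (gl c).Structure V), IsGraph S → TwLe k S →
      ∀ o₁ o₂ : LinearOrder V, Holds φ S o₁ ↔ Holds φ S o₂) :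
    ∃ ψ : (gl c).Sentence, ∀ (V : Type) [Finite V] (S : (gl c).Structure V), IsGraph S →
      TwLe k S → ∀ o : LinearOrder V, (Holds φ S o ↔ @Sentence.Realize (gl c) V S ψ) := by
  obtain ⟨n, hn⟩ := tw_orders k c (qr φ)
  obtain ⟨ψ, hψ⟩ := (MP_b730b2_lc.Df.fall fun τ : Ty (Fin c) Unit n 0 => (df_tp n τ).imp
    (MP_b730b2_lc.Df.const (∃ (W : Type) (_ : Finite W) (S' : (gl c).Structure W)
      (h : IsGraph S') (_ : TwLe k S') (o' : LinearOrder W),
        Holds φ S' o' ∧ tp0 (toGr S' h.1).str n = τ)))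
  refine ⟨ψ, fun V _ S g1 t1 o => ?_⟩
  have e := hψ V S g1.1 Fin.elim0
  have e0 : (default : Fin 0 → V) = Fin.elim0 := Subsingleton.elim _ _
  have e' : @Sentence.Realize (gl c) V S ψ ↔
      @BoundedFormula.Realize _ V S _ _ ψ default Fin.elim0 := by
    rw [← e0]; rfl
  rw [e', e]
  constructor
  · rintro H _ rfl
    exact ⟨V, inferInstance, S, g1, t1, o, H, rfl⟩
  · intro H
    obtain ⟨W, _, S', g2, t2, o', H', e1⟩ := H _ rfl
    obtain ⟨o1, o2, e2⟩ := hn V W (toGr S g1.1) (toGr S' g2.1) t1 t2 (tp0_iff.1 e1.symm)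
    have := realize_of_EF S S' g1.1 g2.1 o1 o2 φ (qr φ) default default le_rfl
      (by rwa [Set.range_eq_empty])
    exact (hφ V S g1 t1 o o1).2 (this.2 ((hφ W S' g2 t2 o' o2).1 H'))

end Pool.Agent.Work.MP_b730b2_lc.Full
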