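import Pool.Agent.Work.MP_b730b2_lc.Full.Walk

/-! Games for tuples in binary relational structures. -/

namespace Pool.Agent.Work.MP_b730b2_lc.Full

open Set

section general
variable {ι κ V W Z : Type} {A : Str ι κ V} {B : Str ι κ W} {C : Str ι κ Z}

/-- Composition of games. -/
theorem EF_comp : ∀ {n : ℕ} {S : Set (V × W)} {T : Set (W × Z)}, EF A B n S → EF B C n T →
    EF A C n {p | ∃ b, (p.1, b) ∈ S ∧ (b, p.2) ∈ T} := by
  have pi : ∀ {S : Set (V × W)} {T : Set (W × Z)}, PI A B S → PI B C T →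
      PI A C {p | ∃ b, (p.1, b) ∈ S ∧ (b, p.2) ∈ T} := by
    rintro S T h1 h2 p ⟨b, a1, a2⟩ p' ⟨b', a3, a4⟩
    have e1 := h1 _ a1 _ a3
    have e2 := h2 _ a2 _ a4
    exact ⟨e1.1.trans e2.1, fun i => (e1.2.1 i).trans (e2.2.1 i),
      fun k => (e1.2.2 k).trans (e2.2.2 k)⟩
  intro n
  induction n with
  | zero => exact fun h1 h2 => pi h1 h2
  | succ n ih =>
    intro S T h1 h2
    refine ⟨pi h1.1 h2.1, fun a ha => ?_, fun c hc => ?_⟩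
    · obtain ⟨b, hb, e1⟩ := h1.2.1 a ha
      obtain ⟨c, hc, e2⟩ := h2.2.1 b hb
      refine ⟨c, hc, (ih e1 e2).mono ?_⟩
      rintro p (rfl | ⟨b', a1, a2⟩)
      · exact ⟨b, Or.inl rfl, Or.inl rfl⟩
      · exact ⟨b', Or.inr a1, Or.inr a2⟩
    · obtain ⟨b, hb, e2⟩ := h2.2.2 c hc
      obtain ⟨a, ha, e1⟩ := h1.2.2 b hb
      refine ⟨a, ha, (ih e1 e2).mono ?_⟩
      rintro p (rfl | ⟨b', a1, a2⟩)
      · exact ⟨b, Or.inl rfl, Or.inl rfl⟩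
      · exact ⟨b', Or.inr a1, Or.inr a2⟩

theorem EF_diag (A : Str ι κ V) (n : ℕ) : EF A A n {p | p.1 = p.2} := by
  refine EF.of_inv (fun _ S => S ⊆ {p | p.1 = p.2}) ?_ ?_ ?_ n _ Subset.rfl
  · rintro _ S h ⟨a, b⟩ hp ⟨a', b'⟩ hp'
    obtain rfl : a = b := h hp
    obtain rfl : a' = b' := h hp'
    exact ⟨Iff.rfl, fun _ => Iff.rfl, fun _ => Iff.rfl⟩
  · exact fun _ S h a ha => ⟨a, ha, insert_subset rfl h⟩
  · exact fun _ S h a ha => ⟨a, ha, insert_subset rfl h⟩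

/-- Passing to an atomically definable substructure of an atomically definable reduct. -/
theorem EF_sub {ι' κ' : Type} {A' : Str ι' κ' V} {B' : Str ι' κ' W} (hA : A'.dom ⊆ A.dom)
    (hB : B'.dom ⊆ B.dom)
    (hd : ∀ a ∈ A.dom, ∀ b ∈ B.dom, Ag A B (a, b) (a, b) → (a ∈ A'.dom ↔ b ∈ B'.dom))
    (h : ∀ p p' : V × W, p.1 ∈ A'.dom → p.2 ∈ B'.dom → p'.1 ∈ A'.dom → p'.2 ∈ B'.dom →
      Ag A B p p → Ag A B p' p' → Ag A B p p' → Ag A B p' p → Ag A' B' p p')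
    {n : ℕ} (hn : EF A B n ∅) : EF A' B' n ∅ := by
  refine EF.of_inv (fun n S => (∀ p ∈ S, p.1 ∈ A'.dom ∧ p.2 ∈ B'.dom) ∧ EF A B n S) ?_ ?_ ?_ n ∅
    ⟨by simp, hn⟩
  · rintro n S ⟨h1, h2⟩ p hp p' hp'
    exact h p p' (h1 p hp).1 (h1 p hp).2 (h1 p' hp').1 (h1 p' hp').2 (h2.pi p hp p hp)
      (h2.pi p' hp' p' hp') (h2.pi p hp p' hp') (h2.pi p' hp' p hp)
  · rintro n S ⟨h1, h2⟩ a ha
    obtain ⟨b, hb, h'⟩ := h2.2.1 a (hA ha)
    have hb' := (hd a (hA ha) b hb (h'.pi _ (Or.inl rfl) _ (Or.inl rfl))).1 ha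
    refine ⟨b, hb', ?_, h'⟩
    rintro p (rfl | hp)
    · exact ⟨ha, hb'⟩
    · exact h1 p hp
  · rintro n S ⟨h1, h2⟩ b hb
    obtain ⟨a, ha, h'⟩ := h2.2.2 b (hB hb)
    have ha' := (hd a ha b (hB hb) (h'.pi _ (Or.inl rfl) _ (Or.inl rfl))).2 hb
    refine ⟨a, ha', ?_, h'⟩
    rintro p (rfl | hp)
    · exact ⟨ha', hb⟩
    · exact h1 p hp

end general

/-- Binary relational structures on a type. -/
abbrev Rl (σ V : Type) : Type := σ → V → V → Prop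

variable {σ V W Z α β : Type}

/-- The structure of a family of relations. -/
def Rl.str (A : Rl σ V) : Str Empty σ V := ⟨univ, fun e _ => e.elim, A⟩

/-- The Gaifman graph. -/
def Rl.adj (A : Rl σ V) (x y : V) : Prop := x ≠ y ∧ ∃ r, A r x y ∨ A r y x

theorem Rl.adj_symm (A : Rl σ V) (x y : V) (h : A.adj x y) : A.adj y x :=
  ⟨h.1.symm, let ⟨r, h⟩ := h.2; ⟨r, h.symm⟩⟩

/-- Two tuples have the same rank `n` type. -/
def Eqv (A : Rl σ V) (B : Rl σ W) (n : ℕ) (x : α → V) (y : α → W) : Prop :=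
  EF A.str B.str n (range fun i => (x i, y i))

variable {A : Rl σ V} {B : Rl σ W} {C : Rl σ Z} {n m : ℕ} {x : α → V} {y : α → W} {z : α → Z}

theorem PI_str {S : Set (V × W)} : PI A.str B.str S ↔ ∀ p ∈ S, ∀ p' ∈ S,
    (p.1 = p'.1 ↔ p.2 = p'.2) ∧ ∀ r, A r p.1 p'.1 ↔ B r p.2 p'.2 :=
  ⟨fun h p hp p' hp' => ⟨(h p hp p' hp').1, (h p hp p' hp').2.2⟩,
    fun h p hp p' hp' => ⟨(h p hp p' hp').1, fun e => e.elim, (h p hp p' hp').2⟩⟩

theorem PI.adj {S : Set (V × W)} (h : PI A.str B.str S) {a a' : V} {b b' : W} (h1 : (a, b) ∈ S)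
    (h2 : (a', b') ∈ S) : A.adj a a' ↔ B.adj b b' :=
  and_congr (not_congr (h _ h1 _ h2).1)
    (exists_congr fun r => or_congr ((h _ h1 _ h2).2.2 r) ((h _ h2 _ h1).2.2 r))

theorem tp_eq_iff {l : ℕ} {x : Fin l → V} {y : Fin l → W} :
    tp A.str n x = tp B.str n y ↔ Eqv A B n x y := tp_iff n x y

theorem Eqv.refl (A : Rl σ V) (n : ℕ) (x : α → V) : Eqv A A n x x :=
  (EF_diag A.str n).mono (by rintro _ ⟨i, rfl⟩; rfl)

theorem Eqv.symm (h : Eqv A B n x y) : Eqv B A n y x :=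
  (EF.symm h).mono (by rintro _ ⟨i, rfl⟩; exact ⟨_, ⟨i, rfl⟩, rfl⟩)

theorem Eqv.trans (h : Eqv A B n x y) (h' : Eqv B C n y z) : Eqv A C n x z :=
  (EF_comp h h').mono (by rintro _ ⟨i, rfl⟩; exact ⟨y i, ⟨i, rfl⟩, ⟨i, rfl⟩⟩)

theorem Eqv.le (h : Eqv A B n x y) (hm : m ≤ n) : Eqv A B m x y := EF.of_le h hm

/-- Passing to a tuple whose pairs occur in the given tuple. -/
theorem Eqv.of_sub (h : Eqv A B n x y) {x' : β → V} {y' : β → W}
    (hs : ∀ b, ∃ a, x a = x' b ∧ y a = y' b) : Eqv A B n x' y' :=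
  EF.mono h (by
    rintro _ ⟨b, rfl⟩
    obtain ⟨a, h1, h2⟩ := hs b
    exact ⟨a, Prod.ext h1 h2⟩)

theorem Eqv.comp (h : Eqv A B n x y) (e : β → α) :
    Eqv A B n (fun b => x (e b)) (fun b => y (e b)) := h.of_sub fun b => ⟨e b, rfl, rfl⟩

theorem Eqv.eq_iff (h : Eqv A B n x y) (i j : α) : x i = x j ↔ y i = y j :=
  (EF.pi h _ ⟨i, rfl⟩ _ ⟨j, rfl⟩).1

theorem Eqv.rel (h : Eqv A B n x y) (r : σ) (i j : α) : A r (x i) (x j) ↔ B r (y i) (y j) :=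
  (EF.pi h _ ⟨i, rfl⟩ _ ⟨j, rfl⟩).2.2 r

theorem Eqv.adj (h : Eqv A B n x y) (i j : α) : A.adj (x i) (x j) ↔ B.adj (y i) (y j) :=
  PI.adj (EF.pi h) ⟨i, rfl⟩ ⟨j, rfl⟩

/-- One move. -/
theorem Eqv.move (h : Eqv A B (n + 1) x y) (a : V) :
    ∃ b, Eqv A B n (fun o : Option α => o.elim a x) (fun o => o.elim b y) := by
  obtain ⟨b, -, h'⟩ := h.2.1 a trivial
  refine ⟨b, EF.mono h' ?_⟩
  rintro _ ⟨_ | i, rfl⟩
  · exact Or.inl rfl
  · exact Or.inr ⟨i, rfl⟩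

/-- Many moves. -/
theorem Eqv.moves (l : ℕ) : ∀ {α : Type} {x : α → V} {y : α → W}, Eqv A B (n + l) x y →
    ∀ u : Fin l → V, ∃ v : Fin l → W, Eqv A B n (Sum.elim x u) (Sum.elim y v) := by
  induction l with
  | zero =>
    intro α x y h u
    refine ⟨Fin.elim0, h.of_sub ?_⟩
    rintro (a | a)
    · exact ⟨a, rfl, rfl⟩
    · exact a.elim0
  | succ l ih =>
    intro α x y h u
    obtain ⟨b, h1⟩ := Eqv.move (n := n + l) h (u 0)
    obtain ⟨v, h2⟩ := ih h1 (fun i => u i.succ)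
    refine ⟨Fin.cons b v, h2.of_sub ?_⟩
    rintro (a | a)
    · exact ⟨Sum.inl (some a), rfl, rfl⟩
    · refine Fin.cases ?_ (fun i => ?_) a
      · exact ⟨Sum.inl none, rfl, rfl⟩
      · exact ⟨Sum.inr i, rfl, rfl⟩

theorem Eqv.moves' [Finite β] (h : Eqv A B (n + Nat.card β) x y) (u : β → V) :
    ∃ v : β → W, Eqv A B n (Sum.elim x u) (Sum.elim y v) := by
  let e := Finite.equivFin β
  obtain ⟨v, h'⟩ := Eqv.moves _ h (fun i => u (e.symm i))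
  refine ⟨fun b => v (e b), h'.of_sub ?_⟩
  rintro (a | a)
  · exact ⟨Sum.inl a, rfl, rfl⟩
  · exact ⟨Sum.inr (e a), by simp, rfl⟩

/-- Walks are transferred by games of linear rank. -/
theorem EF_wk {P : V → Prop} {Q : W → Prop} {S0 : Set (V × W)}
    (hP : ∀ v w, PI A.str B.str (insert (v, w) S0) → P v → Q w) {d : ℕ} {a b : V}
    (hw : Wk A.adj P d a b) : ∀ {n : ℕ} {S : Set (V × W)} {a' b' : W}, S0 ⊆ S →
      EF A.str B.str n S → d ≤ n → (a, a') ∈ S → (b, b') ∈ S → Wk B.adj Q d a' b' := by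
  induction hw with
  | @refl d a h =>
    intro n S a' b' hS e _ h1 h2
    obtain rfl : a' = b' := (e.pi _ h1 _ h2).1.1 rfl
    exact .refl (hP a a' (e.pi.mono (insert_subset h1 hS)) h)
  | @step d a c b _ e' h ih =>
    intro n S a' b' hS e hn h1 h2
    obtain ⟨n, rfl⟩ : ∃ n', n = n' + 1 := ⟨n - 1, by omega⟩
    obtain ⟨c', -, e2⟩ := e.2.1 c trivial
    exact .step (ih (hS.trans (subset_insert _ _)) e2 (by omega) (Or.inr h1) (Or.inl rfl))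
      ((PI.adj e2.pi (Or.inl rfl) (Or.inr h2)).1 e')
      (hP b b' (e.pi.mono (insert_subset h2 hS)) h)

/-- The answer to a move at the end of a walk is at the end of a walk. -/
theorem EF_att {P : V → Prop} {Q : W → Prop} {S : Set (V × W)}
    (hP : ∀ v w, PI A.str B.str (insert (v, w) S) → P v → Q w) {d : ℕ} {a b : V} {a' b' : W}
    (hw : Att A.adj P d a b) (e : EF A.str B.str n S) (hn : d + 1 ≤ n) (h1 : (a, a') ∈ S)
    (h2 : (b, b') ∈ S) : Att B.adj Q d a' b' := by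
  obtain ⟨c, hw, e'⟩ := hw
  obtain ⟨n, rfl⟩ : ∃ n', n = n' + 1 := ⟨n - 1, by omega⟩
  obtain ⟨c', -, e2⟩ := e.2.1 c trivial
  exact ⟨c', EF_wk hP hw (subset_insert _ _) e2 (by omega) (Or.inr h1) (Or.inl rfl),
    (PI.adj e2.pi (Or.inl rfl) (Or.inr h2)).1 e'⟩

/-- Avoiding a part of a tuple is an atomic condition. -/
theorem avoid_of_PI (p : α → Prop) (v : V) (w : W)
    (h : PI A.str B.str (insert (v, w) (range fun i => (x i, y i))))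
    (hv : v ∉ {u | ∃ i, p i ∧ x i = u}) : w ∉ {u | ∃ i, p i ∧ y i = u} := by
  rintro ⟨i, hi, e⟩
  exact hv ⟨i, hi, (h _ (Or.inr ⟨i, rfl⟩) _ (Or.inl rfl)).1.2 e⟩

theorem Eqv.wk (h : Eqv A B n x y) (p : α → Prop) {d : ℕ} (hd : d ≤ n) {i j : α}
    (hw : Wk A.adj (fun v => v ∉ {u | ∃ i, p i ∧ x i = u}) d (x i) (x j)) :
    Wk B.adj (fun v => v ∉ {u | ∃ i, p i ∧ y i = u}) d (y i) (y j) :=
  EF_wk (avoid_of_PI p) hw Subset.rfl h hd ⟨i, rfl⟩ ⟨j, rfl⟩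

theorem Eqv.att (h : Eqv A B n x y) (p : α → Prop) {d : ℕ} (hd : d + 1 ≤ n) {i j : α}
    (hw : Att A.adj (fun v => v ∉ {u | ∃ i, p i ∧ x i = u}) d (x i) (x j)) :
    Att B.adj (fun v => v ∉ {u | ∃ i, p i ∧ y i = u}) d (y i) (y j) :=
  EF_att (avoid_of_PI p) hw h hd ⟨i, rfl⟩ ⟨j, rfl⟩

/-- Passing to a reduct. -/
theorem Eqv.reduct {σ' : Type} {A' : Rl σ' V} {B' : Rl σ' W} (g : σ' → σ)
    (hA : ∀ r, A' r = A (g r)) (hB : ∀ r, B' r = B (g r)) (h : Eqv A B n x y) :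
    Eqv A' B' n x y := by
  refine EF.of_inv (A := A'.str) (B := B'.str) (fun n S => EF A.str B.str n S) ?_ ?_ ?_ n _ h
  · intro n S h
    refine PI_str.2 fun p hp p' hp' => ⟨(h.pi p hp p' hp').1, fun r => ?_⟩
    rw [hA, hB]
    exact (h.pi p hp p' hp').2.2 _
  · exact fun n S h a _ => h.2.1 a trivial
  · exact fun n S h a _ => h.2.2 a trivial

theorem eqv_empty [IsEmpty α] : Eqv A B n x y ↔ EF A.str B.str n ∅ := by
  rw [Eqv, range_eq_empty]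

end Pool.Agent.Work.MP_b730b2_lc.Full
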