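import Pool.Agent.Work.MP_b730b2_lc.Pump
import Pool.Agent.Work.MP_b730b2_lc.Full.Eqv

/-! Finite multi-ordered arrangements, their ordered sums and an absorbing arrangement. -/

namespace Pool.Agent.Work.MP_b730b2_lc.Full

open Set

/-- An absorbing element in a finite aperiodic semigroup. -/
theorem semigroup_absorb {S : Type 1} [Semigroup S] [Finite S] [Nonempty S]
    (hp : ∀ u : S, ∃ p : ℕ → S, p 0 = u ∧ (∀ n, p (n + 1) = p n * u) ∧ ∃ N, p (N + 1) = p N) :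
    ∃ c : S, ∀ x x', c * (x * c) = c * (x' * c) := by
  obtain ⟨a, ha⟩ := exists_minimalFor_of_wellFoundedLT (fun _ : S => True)
    (fun a => (range fun x => a * x).ncard) ⟨Classical.arbitrary S, trivial⟩
  obtain ⟨b, hb⟩ := exists_minimalFor_of_wellFoundedLT (fun _ : S => True)
    (fun b => (range fun x => x * b).ncard) ⟨Classical.arbitrary S, trivial⟩
  have h1 : ∀ z, (range fun x => a * z * x) = range fun x => a * x := by
    intro z
    have sub : (range fun x => a * z * x) ⊆ range fun x => a * x := by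
      rintro _ ⟨x, rfl⟩
      exact ⟨z * x, (mul_assoc _ _ _).symm⟩
    refine eq_of_subset_of_ncard_le sub ?_
    exact ha.2 trivial (ncard_le_ncard sub)
  have h2 : ∀ z, (range fun x => x * (z * b)) = range fun x => x * b := by
    intro z
    have sub : (range fun x => x * (z * b)) ⊆ range fun x => x * b := by
      rintro _ ⟨x, rfl⟩
      exact ⟨x * z, mul_assoc _ _ _⟩
    refine eq_of_subset_of_ncard_le sub ?_
    exact hb.2 trivial (ncard_le_ncard sub)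
  refine ⟨a * b, fun x x' => ?_⟩
  obtain ⟨u, hu⟩ : a * (b * (x' * (a * b))) ∈ range fun t => a * (b * (x * (a * b))) * t := by
    rw [h1]; exact ⟨_, rfl⟩
  obtain ⟨v, hv⟩ : a * b * x * a * b ∈ range fun t => t * (a * b * x' * a * b) := by
    rw [h2]; exact ⟨_, rfl⟩
  have e1 : a * (b * (x * (a * b))) = a * b * (x * (a * b)) := by simp only [mul_assoc]
  have e2 : a * (b * (x' * (a * b))) = a * b * (x' * (a * b)) := by simp only [mul_assoc]
  have e3 : a * b * x * a * b = a * b * (x * (a * b)) := by simp only [mul_assoc]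
  have e4 : a * b * x' * a * b = a * b * (x' * (a * b)) := by simp only [mul_assoc]
  simp only [e1, e2] at hu
  simp only [e3, e4] at hv
  generalize a * b * (x * (a * b)) = y at hu hv ⊢
  generalize a * b * (x' * (a * b)) = y' at hu hv ⊢
  subst hu
  obtain ⟨p, p0, ps, N, hN⟩ := hp u
  have key : ∀ n, ∃ w, y = w * y * p n := by
    intro n
    induction n with
    | zero => exact ⟨v, by rw [p0, mul_assoc, hv]⟩
    | succ n ih =>
      obtain ⟨w, hw⟩ := ih
      refine ⟨v * w, ?_⟩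
      calc y = v * (y * u) := hv.symm
        _ = v * (w * y * p n * u) := by rw [← hw]
        _ = v * w * y * p (n + 1) := by simp only [ps, mul_assoc]
  obtain ⟨w, hw⟩ := key N
  calc y = w * y * p (N + 1) := by rw [hN]; exact hw
    _ = w * y * p N * u := by simp only [ps, mul_assoc]
    _ = y * u := by rw [← hw]

/-- Finite coloured sets with many linear orders. -/
structure Ar (Θ Γ : Type) where
  V : Type
  fin : Finite V
  θ : V → Θ
  lt : Γ → V → V → Prop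
  rk : ∀ γ, ∃ r : V → ℕ, Function.Injective r ∧ ∀ x y, lt γ x y ↔ r x < r y

variable {Θ Γ : Type}

instance Ar.finite_V (x : Ar Θ Γ) : Finite x.V := x.fin

/-- The structure of an arrangement. -/
def Ar.str (x : Ar Θ Γ) : Str Θ Γ x.V := ⟨univ, fun τ u => x.θ u = τ, x.lt⟩

/-- The ordered sum. -/
def Ar.add (x y : Ar Θ Γ) : Ar Θ Γ where
  V := x.V ⊕ y.V
  fin := inferInstance
  θ := Sum.elim x.θ y.θ
  lt γ := Sum.Lex (x.lt γ) (y.lt γ)
  rk γ := by
    obtain ⟨r, h1, h2⟩ := x.rk γ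
    obtain ⟨s, h3, h4⟩ := y.rk γ
    obtain ⟨pos, h5, h6⟩ := exists_pos (V := x.V ⊕ y.V) (β := ℕ ×ₗ ℕ)
      (Sum.elim (fun a => toLex (0, r a)) (fun b => toLex (1, s b))) (by
        rintro (a | a) (b | b) h <;> simp only [Sum.elim_inl, Sum.elim_inr, toLex_inj,
          Prod.mk.injEq] at h
        · rw [h1 h.2]
        · omega
        · omega
        · rw [h3 h.2])
    refine ⟨pos, h5, ?_⟩
    rintro (a | a) (b | b) <;> simp [h6, h2, h4, Prod.Lex.toLex_lt_toLex]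

/-- The ordered sum of `n` copies. -/
def Ar.rep (x : Ar Θ Γ) (n : ℕ) : Ar Θ Γ where
  V := Fin n × x.V
  fin := inferInstance
  θ p := x.θ p.2
  lt γ p p' := p.1.1 < p'.1.1 ∨ (p.1.1 = p'.1.1 ∧ x.lt γ p.2 p'.2)
  rk γ := by
    obtain ⟨r, h1, h2⟩ := x.rk γ
    obtain ⟨pos, h5, h6⟩ := exists_pos (V := Fin n × x.V) (β := ℕ ×ₗ ℕ)
      (fun p => toLex (p.1.1, r p.2)) (by
        rintro ⟨a, u⟩ ⟨b, v⟩ h
        simp only [toLex_inj, Prod.mk.injEq] at h
        rw [Fin.ext h.1, h1 h.2])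
    refine ⟨pos, h5, ?_⟩
    rintro ⟨a, u⟩ ⟨b, v⟩
    simp [h6, h2, Prod.Lex.toLex_lt_toLex]

/-- An isomorphism from an arrangement onto a structure. -/
theorem Ar.ef_of_map {V : Type} (A : Str Θ Γ V) (x : Ar Θ Γ) (g : x.V → V)
    (hi : Function.Injective g) (hs : ∀ u, u ∈ A.dom ↔ ∃ s, g s = u)
    (hU : ∀ τ s, A.U τ (g s) ↔ x.θ s = τ) (hR : ∀ γ s s', A.R γ (g s) (g s') ↔ x.lt γ s s')
    (q : ℕ) : EF A x.str q ∅ := by
  refine EF.of_iso (T := {p | p.1 = g p.2}) ?_ ?_ ?_ q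
  · rintro ⟨a, s⟩ (rfl : a = g s) ⟨a', s'⟩ (rfl : a' = g s')
    exact ⟨hi.eq_iff, fun τ => hU τ s, fun γ => hR γ s s'⟩
  · intro a ha
    obtain ⟨s, rfl⟩ := (hs a).1 ha
    exact ⟨s, trivial, rfl⟩
  · exact fun s _ => ⟨g s, (hs _).2 ⟨s, rfl⟩, rfl⟩

theorem Ar.ef_assoc (x y z : Ar Θ Γ) (q : ℕ) :
    EF ((x.add y).add z).str (x.add (y.add z)).str q ∅ := by
  refine Ar.ef_of_map ((x.add y).add z).str (x.add (y.add z))
    (Equiv.sumAssoc x.V y.V z.V).symm (Equiv.injective _)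
    (fun u => ⟨fun _ => Equiv.surjective _ u, fun _ => trivial⟩) ?_ ?_ q
  · rintro τ (a | a | a) <;> exact Iff.rfl
  · rintro γ (a | a | a) (b | b | b) <;> simp [Ar.str, Ar.add]

theorem Ar.ef_one (x : Ar Θ Γ) (q : ℕ) : EF (x.rep 1).str x.str q ∅ := by
  refine Ar.ef_of_map (x.rep 1).str x (fun s => ((0 : Fin 1), s))
    (fun _ _ h => congrArg Prod.snd h)
    (fun u => ⟨fun _ => ⟨u.2, Prod.ext (Subsingleton.elim _ _) rfl⟩, fun _ => trivial⟩) ?_ ?_ q
  · exact fun _ _ => Iff.rfl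
  · intro γ s s'
    simp [Ar.str, Ar.rep]

theorem Ar.ef_succ (x : Ar Θ Γ) (n q : ℕ) :
    EF (x.rep (n + 1)).str ((x.rep n).add x).str q ∅ := by
  refine Ar.ef_of_map _ _ (Sum.elim (fun p : Fin n × x.V => (p.1.castSucc, p.2))
    (fun s => (Fin.last n, s))) ?_ ?_ ?_ ?_ q
  · rintro (⟨i, a⟩ | a) (⟨j, b⟩ | b) h <;>
      obtain ⟨h1, h2⟩ := Prod.mk.inj h
    · obtain rfl : i = j := Fin.castSucc_injective _ h1
      obtain rfl : a = b := h2
      rfl
    · exact absurd h1 (Fin.castSucc_ne_last _)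
    · exact absurd h1.symm (Fin.castSucc_ne_last _)
    · obtain rfl : a = b := h2
      rfl
  · rintro ⟨i, a⟩
    refine ⟨fun _ => ?_, fun _ => trivial⟩
    refine Fin.lastCases ⟨Sum.inr a, rfl⟩ (fun i => ⟨Sum.inl (i, a), rfl⟩) i
  · rintro τ (a | a) <;> exact Iff.rfl
  · rintro γ (⟨i, a⟩ | a) (⟨j, b⟩ | b)
    · simp [Ar.str, Ar.add, Ar.rep]
    · simp [Ar.str, Ar.add, Ar.rep]
    · have := j.2
      simp only [Ar.str, Ar.add, Ar.rep, Sum.elim_inl, Sum.elim_inr, Fin.val_last,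
        Fin.val_castSucc, Sum.lex_inr_inl, iff_false]
      omega
    · simp [Ar.str, Ar.add, Ar.rep]

/-- The linear order with `n` points. -/
def lin (n : ℕ) : Str Empty Unit ℕ := ⟨{i | i < n}, fun e _ => e.elim, fun _ i j => i < j⟩

theorem lin_pump (q : ℕ) : EF (lin (2 ^ q)) (lin (2 ^ q + 1)) q ∅ := by
  refine EF.pump (n := 2 ^ q) (s := 0) (e := 2 ^ q) (g := 0) rfl rfl le_rfl (by omega) ?_
  rintro l u - h1 - ⟨a, b⟩ hp ⟨a', b'⟩ hp'
  simp only [mem_ofPred_eq] at hp hp'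
  refine ⟨?_, fun e => e.elim, fun _ => ?_⟩
  · simp only; omega
  · simp only [lin]; omega

theorem Ar.ef_rep (x : Ar Θ Γ) {n m q : ℕ} (h : EF (lin n) (lin m) q ∅) :
    EF (x.rep n).str (x.rep m).str q ∅ := by
  let C : ∀ n : ℕ, ℕ → Str Θ Γ (Fin n × x.V) := fun n i =>
    ⟨{p | p.1.1 = i}, fun τ p => x.θ p.2 = τ, fun γ p p' => x.lt γ p.2 p'.2⟩
  have hC : ∀ n i, i < n → EF (C n i) x.str q ∅ := by
    intro n i hi
    refine Ar.ef_of_map _ _ (fun s => (⟨i, hi⟩, s)) (fun _ _ h => congrArg Prod.snd h) ?_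
      (fun _ _ => Iff.rfl) (fun _ _ _ => Iff.rfl) q
    rintro ⟨j, a⟩
    constructor
    · rintro (rfl : j.1 = i)
      exact ⟨a, rfl⟩
    · rintro ⟨s, h⟩
      exact (congrArg (fun p : Fin n × x.V => p.1.1) h).symm
  refine EF.gsum (A := (x.rep n).str) (B := (x.rep m).str) (X := lin n) (Y := lin m)
    (fun p => p.1.1) (fun p => p.1.1) (C n) (C m) (fun a _ => a.1.2) (fun a _ => a.1.2) ?_ ?_ ?_ ?_ ?_ h
  · exact fun i _ a => ⟨fun h => ⟨trivial, h⟩, fun h => h.2⟩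
  · exact fun i _ a => ⟨fun h => ⟨trivial, h⟩, fun h => h.2⟩
  · exact fun i hi j hj _ => (hC n i hi).trans0 (hC m j hj).symm0
  · rintro ⟨a, b⟩ ⟨a', b'⟩ - - - - h1 h2 - h3 -
    refine ⟨h3.1, h3.2.1, fun γ => ?_⟩
    have := h3.2.2 γ
    simp only at h1 h2
    simp only [C] at this
    simp only [Ar.str, Ar.rep, h1, h2, this, lt_irrefl]
  · rintro ⟨a, b⟩ ⟨a', b'⟩ - - - - h1 h2 h3 - h4 -
    simp only at h1 h2
    refine ⟨?_, h4.2.1, fun γ => ?_⟩
    · exact ⟨fun e => absurd (congrArg (fun p : Fin n × x.V => p.1.1) e) h1,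
        fun e => absurd (congrArg (fun p : Fin m × x.V => p.1.1) e) h2⟩
    · have := h3.2.2 ()
      simp only [lin] at this
      simp only [Ar.str, Ar.rep, this, h1, h2, false_and]

theorem Ar.ef_add {x x' y y' : Ar Θ Γ} {q : ℕ} (h : EF x.str x'.str q ∅)
    (h' : EF y.str y'.str q ∅) : EF (x.add y).str (x'.add y').str q ∅ := by
  let X : Str Bool Unit Bool := ⟨univ, fun b i => i = b, fun _ _ _ => False⟩
  let C : ∀ x y : Ar Θ Γ, Bool → Str Θ Γ (x.V ⊕ y.V) := fun x y i =>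
    ⟨{p | p.isLeft = i}, (x.add y).str.U, (x.add y).str.R⟩
  have hl : ∀ x y : Ar Θ Γ, EF (C x y true) x.str q ∅ := by
    intro x y
    refine Ar.ef_of_map _ _ Sum.inl Sum.inl_injective ?_ (fun _ _ => Iff.rfl) ?_ q
    · rintro (a | a) <;> simp [C]
    · intro γ s s'
      simp [C, Ar.str, Ar.add]
  have hr : ∀ x y : Ar Θ Γ, EF (C x y false) y.str q ∅ := by
    intro x y
    refine Ar.ef_of_map _ _ Sum.inr Sum.inr_injective ?_ (fun _ _ => Iff.rfl) ?_ q
    · rintro (a | a) <;> simp [C]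
    · intro γ s s'
      simp [C, Ar.str, Ar.add]
  refine EF.gsum (A := (x.add y).str) (B := (x'.add y').str) (X := X) (Y := X) Sum.isLeft
    Sum.isLeft (C x y) (C x' y') (fun _ _ => trivial) (fun _ _ => trivial) ?_ ?_ ?_ ?_ ?_
    (EF.refl0 X q)
  · exact fun i _ a => ⟨fun h => ⟨trivial, h⟩, fun h => h.2⟩
  · exact fun i _ a => ⟨fun h => ⟨trivial, h⟩, fun h => h.2⟩
  · intro i _ j _ hij
    obtain rfl : j = i := (hij.2.1 i).1 rfl
    cases j
    · exact ((hr x y).trans0 h').trans0 (hr x' y').symm0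
    · exact ((hl x y).trans0 h).trans0 (hl x' y').symm0
  · rintro p p' - - - - - - - h3 -
    exact h3
  · rintro ⟨a, b⟩ ⟨a', b'⟩ - - - - h1 h2 h3 - h4 -
    have h5 : b.isLeft = a.isLeft := (h3.2.1 a.isLeft).1 rfl
    refine ⟨?_, h4.2.1, fun γ => ?_⟩
    · exact ⟨fun e => absurd (congrArg Sum.isLeft e) h1, fun e => absurd (congrArg Sum.isLeft e) h2⟩
    · rcases a with a | a <;> rcases a' with a' | a' <;> rcases b with b | b <;>
        rcases b' with b' | b' <;> simp_all [Ar.str, Ar.add]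

/-- An absorbing arrangement with colours in `T`. -/
theorem Ar.exists_absorb [Finite Θ] [Finite Γ] (T : Set Θ) (q : ℕ) :
    ∃ c : Ar Θ Γ, (∀ v, c.θ v ∈ T) ∧ ∀ x x' : Ar Θ Γ, (∀ v, x.θ v ∈ T) → (∀ v, x'.θ v ∈ T) →
      EF (c.add (x.add c)).str (c.add (x'.add c)).str q ∅ := by
  let M : Type 1 := {x : Ar Θ Γ // ∀ v, x.θ v ∈ T}
  let ty : M → Ty Θ Γ q 0 := fun x => tp0 x.1.str q
  let op : M → M → M := fun x y => ⟨x.1.add y.1, by
    rintro (a | a)
    · exact x.2 a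
    · exact y.2 a⟩
  let S : Type 1 := Quotient (Setoid.ker ty)
  let mk : M → S := Quotient.mk _
  have mk_eq : ∀ x y, mk x = mk y ↔ EF x.1.str y.1.str q ∅ := fun x y =>
    Quotient.eq.trans tp0_iff
  let _ : Semigroup S :=
    { mul := Quotient.map₂ op fun x x' h y y' h' =>
        tp0_iff.2 (Ar.ef_add (tp0_iff.1 h) (tp0_iff.1 h'))
      mul_assoc := fun x y z => Quotient.inductionOn₃ x y z fun x y z =>
        (mk_eq _ _).2 (Ar.ef_assoc x.1 y.1 z.1 q) }
  have mk_op : ∀ x y, mk x * mk y = mk (op x y) := fun _ _ => rfl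
  have : Finite S := Finite.of_injective _ (Setoid.kerLift_injective ty)
  have : Nonempty S := ⟨mk ⟨⟨Empty, inferInstance, fun e => e.elim, fun _ _ _ => False,
    fun _ => ⟨fun e => e.elim, fun e => e.elim, fun e => e.elim⟩⟩, fun e => e.elim⟩⟩
  obtain ⟨c, hc⟩ := semigroup_absorb (S := S) (by
    intro u
    obtain ⟨u, rfl⟩ := Quotient.exists_rep u
    refine ⟨fun n => mk ⟨u.1.rep (n + 1), fun p => u.2 p.2⟩, (mk_eq _ _).2 (u.1.ef_one q),
      fun n => (mk_eq _ _).2 (u.1.ef_succ (n + 1) q), 2 ^ q - 1, (mk_eq _ _).2 ?_⟩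
    have e : 2 ^ q - 1 + 1 = 2 ^ q := Nat.sub_add_cancel Nat.one_le_two_pow
    refine u.1.ef_rep ?_
    rw [e]
    exact (lin_pump q).symm0)
  obtain ⟨c, rfl⟩ := Quotient.exists_rep c
  exact ⟨c.1, c.2, fun x x' h h' => (mk_eq _ _).1 (hc (mk ⟨x, h⟩) (mk ⟨x', h'⟩))⟩

end Pool.Agent.Work.MP_b730b2_lc.Full
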