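import Pool.Agent.Work.MP_b730b2_lc.Pump
import Pool.Agent.Work.MP_b730b2_lc.Full.Eqv
import Pool.Agent.Work.MP_b730b2_lc.Full.AbsA

/-! Absorption for multi-ordered arrangements.

Proof plan. For `T : Set Θ` consider finite arrangements (finite set, colours in `T`, a linear
order for each `γ`) with the ordered sum (for all `γ` simultaneously). The rank `q` type `tp0` is a
congruence for the sum (`EF.gsum` over a two point index), takes finitely many values, and
`x ^ N ≡ x ^ (N+1)` for `N ≥ 2 ^ q` (`EF.gsum` over linear orders and `EF.pump` with `g = 0`).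
Choose `a` with the fewest types `a + x`, `b` with the fewest types `x + b`, and `c = a + b`.
For `y = c + x + c`, `y' = c + x' + c` minimality gives `y' ≡ y + u` and `y ≡ v + y'`, so
`y ≡ v^N + y + u^N ≡ v^N + y + u^(N+1) ≡ y + u ≡ y'`. So `c + x + c` has a type independent of `x`.
Let `n` bound the sizes of the `c_T`, `J = (Θ × Fin (2 * n)) ⊕ (Bool × Fin n)`. A state `s` is good
if there is `T ⊇ s.2` such that the names `inr (b, i)` carry exactly the colours of `c_T`; fix such
a `T` for each good state; the names `inl _` get pairwise different very negative marks, the names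
`inr (false, i)` negative marks and the names `inr (true, i)` positive marks following the orders
of `c_T`, and `none` gets mark `0`. Then the arrangement is `P + c_T + (unnamed items) + c_T` where
`P` is the same on both sides. Existence of names: let `T` be the set of colours occurring at least
`2 * n` times; name all items of the other colours by `inl`, and two disjoint copies of `c_T`. -/

namespace Pool.Agent.Work.MP_b730b2_lc.Full

open Set

variable {V J Θ Γ : Type}

/-- Injective names for some elements of `I`. -/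
def Nm (I : Set V) (f : J → Option V) : Prop :=
  (∀ j j' u, f j = some u → f j' = some u → j = j') ∧ ∀ j u, f j = some u → u ∈ I

/-- The colours of the named elements and the set of colours of the unnamed elements. -/
def stt (I : Set V) (θ : V → Θ) (f : J → Option V) : (J → Option Θ) × Set Θ :=
  (fun j => (f j).map θ, {τ | ∃ u ∈ I, θ u = τ ∧ ∀ j, f j ≠ some u})

open Classical in
/-- The name of an element. -/
noncomputable def nameOf (f : J → Option V) (u : V) : Option J :=
  if h : ∃ j, f j = some u then some h.choose else none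

/-- Coloured sets with many orders, each given by a mark and a rank. -/
def Arr (I : Set V) (θ : V → Θ) (mk : Γ → V → ℤ) (r : Γ → V → ℕ) : Str Θ Γ V where
  dom := I
  U τ u := θ u = τ
  R γ u u' := mk γ u < mk γ u' ∨ (mk γ u = mk γ u' ∧ r γ u < r γ u')

theorem nameOf_some {I : Set V} {f : J → Option V} (h : Nm I f) {j : J} {u : V}
    (e : f j = some u) : nameOf f u = some j := by
  have h1 : ∃ j, f j = some u := ⟨j, e⟩
  rw [nameOf, dif_pos h1, h.1 _ _ _ h1.choose_spec e]

theorem nameOf_none {f : J → Option V} {u : V} (e : ∀ j, f j ≠ some u) : nameOf f u = none := by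
  rw [nameOf, dif_neg]
  exact fun ⟨j, h⟩ => e j h

/-- The decomposition of a marked arrangement. -/
theorem absorb_core [Finite J] [Finite Γ] (c : Ar Θ Γ) (nm : Bool × c.V → J)
    (hnm : Function.Injective nm) :
    ∃ mk : Γ → Option J → ℤ, ∀ s1 : J → Option Θ, (∀ p, s1 (nm p) = some (c.θ p.2)) →
      ∃ P : Ar Θ Γ, ∀ (V : Type) [Finite V] (I : Set V) (θ : V → Θ) (f : J → Option V)
        (r : Γ → V → ℕ), Nm I f → (∀ j, (f j).map θ = s1 j) → (∀ γ, InjOn (r γ) I) →
        ∃ x : Ar Θ Γ, (∀ v, ∃ u ∈ I, θ u = x.θ v ∧ ∀ j, f j ≠ some u) ∧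
          ∀ q, EF (Arr I θ (fun γ u => mk γ (nameOf f u)) r)
            (P.add (c.add (x.add c))).str q ∅ := by
  classical
  choose ρ ρi ρl using c.rk
  obtain ⟨B, hB⟩ := (finite_range fun p : Γ × c.V => ρ p.1 p.2).bddAbove
  have hB' : ∀ γ v, ρ γ v ≤ B := fun γ v => hB ⟨(γ, v), rfl⟩
  obtain ⟨e, ei⟩ := exists_injective_nat J
  obtain ⟨E, hE⟩ := (finite_range e).bddAbove
  have hE' : ∀ j, e j ≤ E := fun j => hE ⟨j, rfl⟩
  let m1 : Γ → J → ℤ := fun γ => Function.extend nm
    (fun p => if p.1 = true then (ρ γ p.2 : ℤ) + 1 else (ρ γ p.2 : ℤ) - B - 1)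
    (fun j => (e j : ℤ) - E - B - 2)
  have mt : ∀ γ v, m1 γ (nm (true, v)) = (ρ γ v : ℤ) + 1 := fun γ v => by
    simp only [m1, hnm.extend_apply, if_true]
  have mf : ∀ γ v, m1 γ (nm (false, v)) = (ρ γ v : ℤ) - B - 1 := fun γ v => by
    simp only [m1, hnm.extend_apply, Bool.false_eq_true, if_false]
  have mo : ∀ γ j, j ∉ range nm → m1 γ j = (e j : ℤ) - E - B - 2 := fun γ j hj =>
    Function.extend_apply' _ _ _ hj
  refine ⟨fun γ o => o.elim 0 (m1 γ), fun s1 hs1 => ?_⟩
  let P : Ar Θ Γ := ⟨{j // j ∉ range nm ∧ (s1 j).isSome}, inferInstance,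
    fun j => (s1 j.1).get j.2.2, fun _ j j' => e j.1 < e j'.1,
    fun _ => ⟨fun j => e j.1, fun _ _ h => Subtype.ext (ei h), fun _ _ => Iff.rfl⟩⟩
  refine ⟨P, fun V _ I θ f r hN hf hr => ?_⟩
  let x : Ar Θ Γ := ⟨{u // u ∈ I ∧ ∀ j, f j ≠ some u}, inferInstance, fun u => θ u.1,
    fun γ u u' => r γ u.1 < r γ u'.1,
    fun γ => ⟨fun u => r γ u.1, fun u u' h => Subtype.ext (hr γ u.2.1 u'.2.1 h),
      fun _ _ => Iff.rfl⟩⟩
  refine ⟨x, fun v => ⟨v.1, v.2.1, rfl, v.2.2⟩, fun q => ?_⟩
  have ex : ∀ j, (s1 j).isSome → ∃ u, f j = some u := by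
    intro j hj
    rw [← hf j, Option.isSome_map] at hj
    exact Option.isSome_iff_exists.1 hj
  choose G hG using ex
  have Gθ : ∀ j h, s1 j = some (θ (G j h)) := fun j h => by rw [← hf j, hG j h]; rfl
  have sn : ∀ p, (s1 (nm p)).isSome := fun p => by rw [hs1]; rfl
  let g : (P.add (c.add (x.add c))).V → V := Sum.elim (fun j => G j.1 j.2.2)
    (Sum.elim (fun v => G _ (sn (false, v))) (Sum.elim (fun u => u.1) fun v => G _ (sn (true, v))))
  have n1 : ∀ j : P.V, nameOf f (g (Sum.inl j)) = some j.1 := fun j => nameOf_some hN (hG _ _)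
  have n2 : ∀ v, nameOf f (g (Sum.inr (Sum.inl v))) = some (nm (false, v)) := fun v =>
    nameOf_some hN (hG _ _)
  have n3 : ∀ u : x.V, nameOf f (g (Sum.inr (Sum.inr (Sum.inl u)))) = none := fun u =>
    nameOf_none u.2.2
  have n4 : ∀ v, nameOf f (g (Sum.inr (Sum.inr (Sum.inr v)))) = some (nm (true, v)) := fun v =>
    nameOf_some hN (hG _ _)
  refine Ar.ef_of_map _ _ g ?_ ?_ ?_ ?_ q
  · intro s s' h
    have h' := congrArg (nameOf f) h
    rcases s with j | v | u | v <;> rcases s' with j' | v' | u' | v' <;>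
      simp only [n1, n2, n3, n4, Option.some.injEq, hnm.eq_iff, Prod.mk.injEq, reduceCtorEq,
        Bool.false_eq_true, Bool.true_eq_false, false_and, true_and] at h'
    · rw [Subtype.ext h']
    · exact absurd ⟨_, h'.symm⟩ j.2.1
    · exact absurd ⟨_, h'.symm⟩ j.2.1
    · exact absurd ⟨_, h'⟩ j'.2.1
    · rw [h']
    · obtain rfl : u = u' := Subtype.ext h
      rfl
    · exact absurd ⟨_, h'⟩ j'.2.1
    · rw [h']
  · intro u
    constructor
    · intro hu
      by_cases c1 : ∃ j, f j = some u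
      · obtain ⟨j, hj⟩ := c1
        have hj' : (s1 j).isSome := by rw [← hf j, hj]; rfl
        have e1 : G j hj' = u := Option.some.inj ((hG j hj').symm.trans hj)
        by_cases c2 : j ∈ range nm
        · obtain ⟨⟨_ | _, v⟩, rfl⟩ := c2
          · exact ⟨Sum.inr (Sum.inl v), e1⟩
          · exact ⟨Sum.inr (Sum.inr (Sum.inr v)), e1⟩
        · exact ⟨Sum.inl ⟨j, c2, hj'⟩, e1⟩
      · exact ⟨Sum.inr (Sum.inr (Sum.inl ⟨u, hu, fun j hj => c1 ⟨j, hj⟩⟩)), rfl⟩
    · rintro ⟨j | v | u | v, rfl⟩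
      · exact hN.2 _ _ (hG _ _)
      · exact hN.2 _ _ (hG _ _)
      · exact u.2.1
      · exact hN.2 _ _ (hG _ _)
  · have key : ∀ s, θ (g s) = (P.add (c.add (x.add c))).θ s := by
      rintro (j | v | u | v)
      · exact Option.some.inj ((Gθ _ _).symm.trans (Option.some_get j.2.2).symm)
      · exact Option.some.inj ((Gθ _ _).symm.trans (hs1 _))
      · rfl
      · exact Option.some.inj ((Gθ _ _).symm.trans (hs1 _))
    intro τ s
    rw [← key]
    exact Iff.rfl
  · intro γ s s'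
    have l1 : ∀ j j' : P.V, P.lt γ j j' ↔ e j.1 < e j'.1 := fun _ _ => Iff.rfl
    have l3 : ∀ u u' : x.V, x.lt γ u u' ↔ r γ (g (Sum.inr (Sum.inr (Sum.inl u)))) <
      r γ (g (Sum.inr (Sum.inr (Sum.inl u')))) := fun _ _ => Iff.rfl
    have m0 : ∀ j : P.V, m1 γ j.1 = (e j.1 : ℤ) - E - B - 2 := fun j => mo γ _ j.2.1
    rcases s with j | v | u | v <;> rcases s' with j' | v' | u' | v' <;>
      simp only [Arr, n1, n2, n3, n4, Option.elim, mt, mf, m0] <;>
      simp only [Ar.add, Sum.lex_inl_inl, Sum.lex_inr_inr, Sum.lex_inr_inl, Sum.Lex.sep, l1, l3,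
        ρl, iff_true, iff_false]
    · rcases eq_or_ne j j' with rfl | h
      · omega
      · have := ei.ne (Subtype.val_injective.ne h)
        omega
    · have := hE' j.1; omega
    · have := hE' j.1; omega
    · have := hE' j.1; omega
    · have := hE' j'.1; omega
    · rcases eq_or_ne v v' with rfl | h
      · omega
      · have := (ρi γ).ne h
        omega
    · have := hB' γ v; omega
    · have := hB' γ v; omega
    · have := hE' j'.1; omega
    · have := hB' γ v'; omega
    · simp only [lt_irrefl, false_or, true_and]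
    · omega
    · have := hE' j'.1; omega
    · have := hB' γ v'; omega
    · omega
    · rcases eq_or_ne v v' with rfl | h
      · omega
      · have := (ρi γ).ne h
        omega

theorem emb_of_le {A B : Type} [Finite A] [Finite B] (h : Nat.card A ≤ Nat.card B) :
    Nonempty (A ↪ B) := by
  have := Fintype.ofFinite A
  have := Fintype.ofFinite B
  exact Function.Embedding.nonempty_of_card_le (by simpa only [Nat.card_eq_fintype_card] using h)

/-- Existence of names. -/
theorem exists_names [Finite Θ] (c : Set Θ → Ar Θ Γ) (hc : ∀ T v, (c T).θ v ∈ T) {m : ℕ}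
    (hm : ∀ T, Nat.card (Bool × (c T).V) ≤ m) (V : Type) [Finite V] (I : Set V) (θ : V → Θ) :
    ∃ f : (Fin (Nat.card Θ * m) ⊕ Σ T : Set Θ, Bool × (c T).V) → Option V, Nm I f ∧
      ∃ T, (stt I θ f).2 ⊆ T ∧ ∀ p, (stt I θ f).1 (Sum.inr ⟨T, p⟩) = some ((c T).θ p.2) := by
  classical
  let T : Set Θ := {τ | m ≤ {u | u ∈ I ∧ θ u = τ}.ncard}
  have h1 : ∀ τ : T, ∃ em : Bool × (c T).V → V, Function.Injective em ∧
      ∀ p, em p ∈ I ∧ θ (em p) = τ.1 := fun τ => by
    obtain ⟨k⟩ : Nonempty ((Bool × (c T).V) ↪ {u | u ∈ I ∧ θ u = τ.1}) :=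
      emb_of_le ((hm T).trans τ.2)
    exact ⟨fun p => (k p).1, Subtype.val_injective.comp k.injective, fun p => (k p).2⟩
  choose em em1 em2 using h1
  let hh : Bool × (c T).V → V := fun p => em ⟨_, hc T p.2⟩ p
  have hh1 : ∀ p, hh p ∈ I ∧ θ (hh p) = (c T).θ p.2 := fun p => em2 ⟨_, hc T p.2⟩ p
  have hh2 : Function.Injective hh := by
    intro p p' h
    have e : (c T).θ p.2 = (c T).θ p'.2 := by rw [← (hh1 p).2, h, (hh1 p').2]
    have e' : (⟨_, hc T p.2⟩ : T) = ⟨_, hc T p'.2⟩ := Subtype.ext e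
    simp only [hh] at h
    rw [e'] at h
    exact em1 _ h
  have h2 : {u | u ∈ I ∧ θ u ∉ T}.ncard ≤ Nat.card Θ * m := by
    have sub : {u | u ∈ I ∧ θ u ∉ T} ⊆ ⋃ τ ∈ Tᶜ, {u | u ∈ I ∧ θ u = τ} :=
      fun u hu => mem_biUnion hu.2 ⟨hu.1, rfl⟩
    refine (ncard_le_ncard sub).trans ((ncard_biUnion_le _ (toFinite _) _ m ?_).trans
      (Nat.mul_le_mul_right _ (ncard_le_card _)))
    exact fun τ hτ => (Nat.lt_of_not_le hτ).le
  obtain ⟨k⟩ : Nonempty ({u | u ∈ I ∧ θ u ∉ T} ↪ Fin (Nat.card Θ * m)) :=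
    emb_of_le (by simpa using h2)
  let g : {u | u ∈ I ∧ θ u ∉ T} ⊕ (Bool × (c T).V) → V := Sum.elim (fun u => u.1) hh
  let n : {u | u ∈ I ∧ θ u ∉ T} ⊕ (Bool × (c T).V) →
      (Fin (Nat.card Θ * m) ⊕ Σ T : Set Θ, Bool × (c T).V) := Sum.map k fun p => ⟨T, p⟩
  have gi : Function.Injective g := by
    rintro (u | p) (u' | p') h
    · rw [Subtype.ext h]
    · exact absurd (((congrArg θ h).trans (hh1 p').2).symm ▸ hc T p'.2) u.2.2
    · exact absurd (((congrArg θ h).symm.trans (hh1 p).2).symm ▸ hc T p.2) u'.2.2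
    · rw [hh2 h]
  have ni : Function.Injective n := k.injective.sumMap
    (sigma_mk_injective (β := fun T : Set Θ => Bool × (c T).V))
  let f := Function.extend n (fun a => some (g a)) (fun _ => none)
  have f1 : ∀ a, f (n a) = some (g a) := fun a => ni.extend_apply _ _ a
  have f2 : ∀ j u, f j = some u → ∃ a, n a = j ∧ g a = u := by
    intro j u h
    by_cases c1 : ∃ a, n a = j
    · obtain ⟨a, rfl⟩ := c1
      exact ⟨a, rfl, Option.some.inj ((f1 a).symm.trans h)⟩
    · rw [show f j = none from Function.extend_apply' _ _ _ c1] at h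
      exact absurd h (by simp)
  refine ⟨f, ⟨fun j j' u h h' => ?_, fun j u h => ?_⟩, T, ?_, fun p => ?_⟩
  · obtain ⟨a, rfl, e⟩ := f2 j u h
    obtain ⟨a', rfl, e'⟩ := f2 j' u h'
    rw [gi (e.trans e'.symm)]
  · obtain ⟨u | p, -, rfl⟩ := f2 j u h
    · exact u.2.1
    · exact (hh1 p).1
  · rintro _ ⟨u, hu, rfl, h⟩
    by_contra c1
    exact h _ (f1 (Sum.inl ⟨u, hu, c1⟩))
  · exact (congrArg (Option.map θ) (f1 (Sum.inr p))).trans (congrArg some (hh1 p).2)

theorem absorb (Θ Γ : Type) [Finite Θ] [Finite Γ] (q : ℕ) :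
    ∃ (J : Type) (_ : Finite J) (Gd : Set ((J → Option Θ) × Set Θ))
      (mark : (J → Option Θ) × Set Θ → Γ → Option J → ℤ),
      (∀ (V : Type) [Finite V] (I : Set V) (θ : V → Θ),
        ∃ f : J → Option V, Nm I f ∧ stt I θ f ∈ Gd) ∧
      ∀ (V V' : Type) [Finite V] [Finite V'] (I : Set V) (I' : Set V') (θ : V → Θ) (θ' : V' → Θ)
        (f : J → Option V) (f' : J → Option V') (r : Γ → V → ℕ) (r' : Γ → V' → ℕ),
        Nm I f → Nm I' f' → stt I θ f ∈ Gd → stt I θ f = stt I' θ' f' →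
        (∀ γ, InjOn (r γ) I) → (∀ γ, InjOn (r' γ) I') →
        EF (Arr I θ (fun γ u => mark (stt I θ f) γ (nameOf f u)) r)
          (Arr I' θ' (fun γ u => mark (stt I θ f) γ (nameOf f' u)) r') q ∅ := by
  classical
  choose c hc ha using fun T : Set Θ => Ar.exists_absorb (Γ := Γ) T q
  obtain ⟨m, hm⟩ := (finite_range fun T => Nat.card (Bool × (c T).V)).bddAbove
  let J : Type := Fin (Nat.card Θ * m) ⊕ Σ T : Set Θ, Bool × (c T).V
  choose mk hmk using fun T : Set Θ => absorb_core (J := J) (c T) (fun p => Sum.inr ⟨T, p⟩)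
    (Sum.inr_injective.comp sigma_mk_injective)
  let Q : (J → Option Θ) × Set Θ → Set Θ → Prop := fun s T =>
    s.2 ⊆ T ∧ ∀ p, s.1 (Sum.inr ⟨T, p⟩) = some ((c T).θ p.2)
  refine ⟨J, inferInstance, {s | ∃ T, Q s T}, fun s => mk (Classical.epsilon (Q s)),
    fun V _ I θ => exists_names c hc (fun T => hm ⟨T, rfl⟩) V I θ, ?_⟩
  intro V V' _ _ I I' θ θ' f f' r r' hN hN' hG e hr hr'
  obtain ⟨h1, h2⟩ := Classical.epsilon_spec hG
  beta_reduce
  generalize Classical.epsilon (Q (stt I θ f)) = T at h1 h2 ⊢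
  obtain ⟨P, hP⟩ := hmk T _ h2
  obtain ⟨x, x1, x2⟩ := hP V I θ f r hN (fun _ => rfl) hr
  obtain ⟨x', x1', x2'⟩ := hP V' I' θ' f' r' hN' (fun j => (congrFun (congrArg Prod.fst e) j).symm)
    hr'
  refine ((x2 q).trans0 (Ar.ef_add (EF.refl0 _ q) (ha T x x' (fun v => h1 (x1 v))
    fun v => h1 ?_))).trans0 (x2' q).symm0
  rw [e]
  exact x1' v

end Pool.Agent.Work.MP_b730b2_lc.Full
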