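import Pool.Agent.Work.MP_b730b2_lc.Full.BuildExA

/-! The planting process.

Proof plan. For any selection `s` define: `key s v = (tm E, E.1 + 1, enc E, a, b)` if `v = s.Ys E a b`
for some chosen `(E, a, b)` with `s.on E`, `¬ hb b`, and `(pos0 v + 1, 0, 0, 0, 0)` otherwise
(lexicographic product of five copies of the naturals); the colouring `col s` by well-founded
recursion along `key s` (pattern colour if planted, otherwise a free colour if there is one); use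
`WR`-like walks `Wk adj (fun z => key u ≤ key z)` or first convert the key with `exists_pos`.
Construct `s` by recursion along `Ev.Lt` (finite linear order): `s` at `E` is chosen from the
restriction `s|E` of `s` to the events before `E`: it is on iff all members satisfy the condition
for the context computed from `s|E` and a far family of candidates exists (candidates only depend
on `s|E`). Equivalently prove by induction over initial segments of the events that a selection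
with these properties exists. Selected tuples have `Shape` (via `hP.cond`), lie in their balls, so
`(E, a, b)` is unique for a planted vertex (candidates miss earlier plantings; `Far`; injectivity)
and `key` is injective. Stability: let `S = {z | key (s|E) z < (tm E, E.1 + 1, enc E, 0, 0)}`. The keys
for `s` and `s|E` agree on `S` and `S` is a lower set for both (a vertex planted at `E' ≥ E` has
`tm E ≤ tm E' ≤ pos0 z`), the hubs of `E` are in `S`; for `u ∈ S` the set `{z | key u ≤ key z}` is the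
same for both, so weak reachability to `u` and (by induction) the colours on `S` agree; hence the
context of `E` for `s` is the one for `s|E`. Choices: the pattern on inner planted vertices
(`Core.inn`), otherwise from `val_ex`. `χ > 0` by `hX.chi`. -/

namespace Pool.Agent.Work.MP_b730b2_lc.Full

open Set

variable {σ : Type} {X : Cx σ} {P : ℕ → Lv X}

section sel
variable {V : Type}

/-- The vertex `v` occupies the slot `x`. -/
def Sel.Px (s : Sel P V) (x : Slot P V) (v : V) : Prop :=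
  s.on x.1 ∧ ¬ x.1.2.π.hb x.2.2 ∧ s.Ys x.1 x.2.1 x.2.2 = v

/-- Slots are unique and planted vertices lie after the time of their event. -/
def Sel.Uq (s : Sel P V) (pos0 : V → ℕ) : Prop :=
  (∀ x y v, s.Px x v → s.Px y v → x = y) ∧ ∀ x v, s.Px x v → x.1.2.tm pos0 ≤ pos0 v

open Classical in
/-- The order of a selection. -/
noncomputable def Sel.ps (s : Sel P V) (r0 : V → ℕ) (r1 : Slot P V → ℕ) (v : V) : ℕ :=
  if h : ∃ x, s.Px x v then r1 h.choose else r0 v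

open Classical in
/-- The prescribed colours of a selection. -/
noncomputable def Sel.pre (s : Sel P V) (v : V) : Option (Fin X.χ) :=
  if h : ∃ x, s.Px x v then some (h.choose.1.2.π.cl h.choose.2.2) else none

open Classical in
/-- The choices of a selection. -/
noncomputable def Sel.ff (s : Sel P V) (g : V → X.J → Option V) (v : V) : X.J → Option V :=
  if h : ∃ x, s.Px x v ∧ x.1.2.π.inn x.2.2 then
    fun j => (h.choose.1.2.π.ch h.choose.2.2 j).map (s.Ys h.choose.1 h.choose.2.1) else g v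

/-- The expansion of a selection. -/
noncomputable def Sel.xp (s : Sel P V) (adj : V → V → Prop) (r0 : V → ℕ) (r1 : Slot P V → ℕ)
    (d : Fin X.χ) (g : V → X.J → Option V) : Xp V X.χ X.J :=
  ⟨s.ps r0 r1, gc adj (s.ps r0 r1) X.R0 s.pre d, s.ff g⟩

variable {s s' : Sel P V} {pos0 : V → ℕ} {enc : Ev P V → ℕ} {r0 : V → ℕ} {r1 : Slot P V → ℕ}
  {r2 : Ev P V → ℕ}

theorem Sel.pl_iff {v : V} : s.Pl v ↔ ∃ x, s.Px x v :=
  ⟨fun ⟨E, a, h, b, h1, h2⟩ => ⟨⟨E, a, b⟩, h, h1, h2⟩,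
    fun ⟨x, h, h1, h2⟩ => ⟨x.1, x.2.1, h, x.2.2, h1, h2⟩⟩

theorem Sel.Uq.ps_pl (h : s.Uq pos0) {x v} (hx : s.Px x v) : s.ps r0 r1 v = r1 x := by
  have c : ∃ x, s.Px x v := ⟨x, hx⟩
  rw [Sel.ps, dif_pos c, h.1 _ _ _ c.choose_spec hx]

theorem Sel.ps_np {v} (hx : ¬ ∃ x, s.Px x v) : s.ps r0 r1 v = r0 v := by
  rw [Sel.ps, dif_neg hx]

theorem Sel.Uq.pre_pl (h : s.Uq pos0) {x v} (hx : s.Px x v) :
    s.pre v = some (x.1.2.π.cl x.2.2) := by
  have c : ∃ x, s.Px x v := ⟨x, hx⟩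
  rw [Sel.pre, dif_pos c, h.1 _ _ _ c.choose_spec hx]

theorem Sel.pre_np {v} (hx : ¬ ∃ x, s.Px x v) : s.pre v = none := by
  rw [Sel.pre, dif_neg hx]

theorem Sel.Uq.ff_pl (h : s.Uq pos0) (g : V → X.J → Option V) {x v} (hx : s.Px x v)
    (hi : x.1.2.π.inn x.2.2) (j : X.J) :
    s.ff g v j = (x.1.2.π.ch x.2.2 j).map (s.Ys x.1 x.2.1) := by
  have c : ∃ x, s.Px x v ∧ x.1.2.π.inn x.2.2 := ⟨x, hx, hi⟩
  rw [Sel.ff, dif_pos c, h.1 _ _ _ c.choose_spec.1 hx]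

theorem Rho.inj1 (hr : Rho pos0 enc r0 r1 r2) (he : Function.Injective enc) :
    Function.Injective r1 := by
  rintro ⟨E, a, b⟩ ⟨E', a', b'⟩ e
  rcases Ev.Lt.tri pos0 he E E' with c | rfl | c
  · exact absurd e (hr.ss ⟨E, a, b⟩ ⟨E', a', b'⟩ c).ne
  · rcases lt_trichotomy a a' with c | rfl | c
    · exact absurd e (hr.sa E a b a' b' c).ne
    · rcases lt_trichotomy b b' with c | rfl | c
      · exact absurd e (hr.sb E a b b' c).ne
      · rfl
      · exact absurd e (hr.sb E a b' b c).ne'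
    · exact absurd e (hr.sa E a' b' a b c).ne'
  · exact absurd e (hr.ss ⟨E', a', b'⟩ ⟨E, a, b⟩ c).ne'

theorem Sel.Uq.inj (h : s.Uq pos0) (hr : Rho pos0 enc r0 r1 r2) (he : Function.Injective enc)
    (h0 : Function.Injective pos0) : Function.Injective (s.ps r0 r1) := by
  intro u v e
  by_cases cu : ∃ x, s.Px x u <;> by_cases cv : ∃ x, s.Px x v
  · obtain ⟨x, hx⟩ := cu
    obtain ⟨y, hy⟩ := cv
    rw [h.ps_pl hx, h.ps_pl hy] at e
    obtain rfl := hr.inj1 he e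
    exact hx.2.2.symm.trans hy.2.2
  · obtain ⟨x, hx⟩ := cu
    rw [h.ps_pl hx, Sel.ps_np cv] at e
    have := hr.sv x v
    have := hr.vs x v
    omega
  · obtain ⟨x, hx⟩ := cv
    rw [h.ps_pl hx, Sel.ps_np cu] at e
    have := hr.sv x u
    have := hr.vs x u
    omega
  · rw [Sel.ps_np cu, Sel.ps_np cv] at e
    have := hr.vv u v
    have := hr.vv v u
    exact h0 (by omega)

/-- The vertices which are fixed before the event `E`. -/
def Sel.Low (s : Sel P V) (pos0 : V → ℕ) (enc : Ev P V → ℕ) (E : Ev P V) : Set V :=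
  {z | pos0 z < E.2.tm pos0 ∨ ∃ x, s.Px x z ∧ Ev.Lt pos0 enc x.1 E}

theorem Sel.Uq.low_iff (h : s.Uq pos0) (hr : Rho pos0 enc r0 r1 r2) (E : Ev P V) (z : V) :
    z ∈ s.Low pos0 enc E ↔ s.ps r0 r1 z < r2 E := by
  by_cases c : ∃ x, s.Px x z
  · obtain ⟨x, hx⟩ := c
    rw [h.ps_pl hx, hr.se]
    constructor
    · rintro (c | ⟨y, hy, c⟩)
      · exact Or.inl ((h.2 x z hx).trans_lt c)
      · exact h.1 _ _ _ hy hx ▸ c
    · exact fun c => Or.inr ⟨x, hx, c⟩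
  · rw [Sel.ps_np c, hr.ve]
    exact ⟨fun h => h.resolve_right fun ⟨x, hx, _⟩ => c ⟨x, hx⟩, Or.inl⟩

/-- The two selections agree before `E`. -/
def Sel.Ag (s s' : Sel P V) (pos0 : V → ℕ) (enc : Ev P V → ℕ) (E : Ev P V) : Prop :=
  ∀ E', Ev.Lt pos0 enc E' E → (s.on E' ↔ s'.on E') ∧ s.Ys E' = s'.Ys E'

theorem Sel.Ag.symm {E} (h : s.Ag s' pos0 enc E) : s'.Ag s pos0 enc E :=
  fun E' c => ⟨(h E' c).1.symm, (h E' c).2.symm⟩

theorem Sel.Ag.px {E} (h : s.Ag s' pos0 enc E) {x v} (hx : s.Px x v)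
    (c : Ev.Lt pos0 enc x.1 E) : s'.Px x v :=
  ⟨(h _ c).1.1 hx.1, hx.2.1, (h _ c).2 ▸ hx.2.2⟩

theorem Sel.Ag.low {E} (h : s.Ag s' pos0 enc E) {z} (hz : z ∈ s.Low pos0 enc E) :
    z ∈ s'.Low pos0 enc E :=
  hz.imp id fun ⟨x, hx, c⟩ => ⟨x, h.px hx c, c⟩

theorem Sel.Uq.lt_of_low (h : s.Uq pos0) {E z x} (hz : z ∈ s.Low pos0 enc E) (hx : s.Px x z) :
    Ev.Lt pos0 enc x.1 E := by
  rcases hz with c | ⟨y, hy, c⟩
  · exact Or.inl ((h.2 x z hx).trans_lt c)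
  · exact h.1 _ _ _ hy hx ▸ c

theorem Sel.Ag.eq_on {E} (h : s.Ag s' pos0 enc E) (hs : s.Uq pos0) (hs' : s'.Uq pos0) {z}
    (hz : z ∈ s.Low pos0 enc E) : s.ps r0 r1 z = s'.ps r0 r1 z ∧ s.pre z = s'.pre z := by
  by_cases c : ∃ x, s.Px x z
  · obtain ⟨x, hx⟩ := c
    have hx' := h.px hx (hs.lt_of_low hz hx)
    rw [hs.ps_pl hx, hs'.ps_pl hx', hs.pre_pl hx, hs'.pre_pl hx']
    exact ⟨rfl, rfl⟩
  · have c' : ¬ ∃ x, s'.Px x z := fun ⟨x, hx⟩ =>
      c ⟨x, h.symm.px hx (hs'.lt_of_low (h.low hz) hx)⟩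
    rw [Sel.ps_np c, Sel.ps_np c', Sel.pre_np c, Sel.pre_np c']
    exact ⟨rfl, rfl⟩

theorem Sel.Ag.ctx_sub {E} (h : s.Ag s' pos0 enc E) (hs : s.Uq pos0) (hs' : s'.Uq pos0)
    (hr : Rho pos0 enc r0 r1 r2) (adj : V → V → Prop) (d : Fin X.χ) (g : V → X.J → Option V)
    (u i) : E.2.ctx adj (s.xp adj r0 r1 d g) u i ⊆ E.2.ctx adj (s'.xp adj r0 r1 d g) u i := by
  have h1 : ∀ u ∈ s.Low pos0 enc E, ∀ z, s.ps r0 r1 z ≤ s.ps r0 r1 u → z ∈ s.Low pos0 enc E :=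
    fun u hu z hz => (hs.low_iff hr E z).2 (hz.trans_lt ((hs.low_iff hr E u).1 hu))
  have h2 : ∀ u ∈ s.Low pos0 enc E, ∀ z, s'.ps r0 r1 z ≤ s'.ps r0 r1 u → z ∈ s.Low pos0 enc E :=
    fun u hu z hz => h.symm.low
      ((hs'.low_iff hr E z).2 (hz.trans_lt ((hs'.low_iff hr E u).1 (h.low hu))))
  have h3 : ∀ u ∈ s.Low pos0 enc E, s.ps r0 r1 u = s'.ps r0 r1 u :=
    fun u hu => (h.eq_on hs hs' hu).1
  have h4 : ∀ u ∈ s.Low pos0 enc E, s.pre u = s'.pre u :=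
    fun u hu => (h.eq_on (r0 := r0) (r1 := r1) hs hs' hu).2
  rintro c ⟨v, hv, z, hz, hc⟩
  have hv' : v ∈ s.Low pos0 enc E := Or.inl (E.2.le_tm pos0 hv)
  obtain ⟨b1, b2⟩ := WR.of_low h1 h2 h3 hv' hz
  exact ⟨v, hv, z, b2, (gc_low h1 h2 h3 h4 X.R0 d _ z b1 rfl).symm.trans hc⟩

theorem Sel.Ag.ctx {E} (h : s.Ag s' pos0 enc E) (hs : s.Uq pos0) (hs' : s'.Uq pos0)
    (hr : Rho pos0 enc r0 r1 r2) (adj : V → V → Prop) (d : Fin X.χ) (g : V → X.J → Option V) :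
    E.2.ctx adj (s.xp adj r0 r1 d g) = E.2.ctx adj (s'.xp adj r0 r1 d g) := by
  funext u i
  exact (h.ctx_sub hs hs' hr adj d g u i).antisymm (h.symm.ctx_sub hs' hs hr adj d g u i)

theorem Sel.Ag.cand {E} (h : s.Ag s' pos0 enc E) {A : Rl σ V} {Y} (hY : s.Cand A pos0 enc E Y) :
    s'.Cand A pos0 enc E Y :=
  ⟨hY.1, fun z hz => ⟨(hY.2 z hz).1, fun E' a h1 h2 =>
    (h E' h2).2 ▸ (hY.2 z hz).2 E' a ((h E' h2).1.2 h1) h2⟩⟩

end sel

variable {K : X.Φ.K} {pos0 : X.Φ.V K → ℕ} {enc : Ev P (X.Φ.V K) → ℕ} {s : Sel P (X.Φ.V K)}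

theorem AllC.core (hP : Good P) {e : Xp (X.Φ.V K) X.χ X.J} {E : Ev P (X.Φ.V K)} (h : AllC K e E)
    {Y} (hY : E.2.Mem (X.Φ.R K) Y) :
    Core X K {p | ∃ l' ≤ E.1.1, p = ((P l').Rc, (P l').κ)} (P E.1).Rc ((P E.1).lam E.2.i)
      Y E.2.π (E.2.ctx (X.Φ.R K).adj e) :=
  ((hP.cond _ _ _ _ _ _ _).1 (h Y hY)).1

theorem uq_of (hP : Good P) (he : Function.Injective enc) {e : Xp (X.Φ.V K) X.χ X.J}
    (h1 : ∀ E, s.on E → AllC K e E)
    (h2 : ∀ E a, s.on E → s.Cand (X.Φ.R K) pos0 enc E (s.Ys E a))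
    (h3 : ∀ E, s.on E → Far (X.Φ.R K).adj E.2.π.hb ((P E.1).sg E.2.i) (s.Ys E)) :
    s.Uq pos0 := by
  have bl : ∀ x v, s.Px x v →
      Bl (X.Φ.R K).adj x.1.2.π.hb (s.Ys x.1 x.2.1) ((P x.1.1).sg x.1.2.i) v := fun x v hx =>
    (((h1 _ hx.1).core hP (h2 _ x.2.1 hx.1).1).shape.bl ⟨_, hx.2.1, hx.2.2⟩).le
      (by have := hP.sg_ge x.1.1 x.1.2.i; omega)
  refine ⟨?_, fun x v hx => ((h2 _ x.2.1 hx.1).2 v (bl x v hx)).1⟩
  rintro ⟨E, a, b⟩ ⟨E', a', b'⟩ v hx hy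
  rcases Ev.Lt.tri pos0 he E E' with c | rfl | c
  · exact absurd ⟨b, hx.2.1, hx.2.2⟩ (((h2 E' a' hy.1).2 v (bl _ v hy)).2 E a hx.1 c)
  · by_cases ca : a = a'
    · subst ca
      obtain rfl : b = b' :=
        ((h1 _ hx.1).core hP (h2 _ a hx.1).1).shape.1 (hx.2.2.trans hy.2.2.symm)
      rfl
    · exfalso
      have c := ((h2 E a hx.1).1.cls _).1 (h2 E a' hx.1).1
      have b1 : Bl (X.Φ.R K).adj E.2.π.hb (s.Ys E a) ((P E.1).sg E.2.i) v := bl _ v hx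
      have b2 : Bl (X.Φ.R K).adj E.2.π.hb (s.Ys E a') ((P E.1).sg E.2.i) v := bl _ v hy
      rw [Bl, c.hubs_eq] at b2
      exact h3 E hx.1 a a' ca ((b1.wk (b2.symm (X.Φ.R K).adj_symm)).le (by omega))
  · exact absurd ⟨b', hy.2.1, hy.2.2⟩ (((h2 E a hx.1).2 v (bl _ v hx)).2 E' a' hy.1 c)

/-- The invariant after the events of rank less than `j`. -/
structure BInv (K : X.Φ.K) (pos0 : X.Φ.V K → ℕ) (enc : Ev P (X.Φ.V K) → ℕ)
    (r2 : Ev P (X.Φ.V K) → ℕ) (xp : Sel P (X.Φ.V K) → Xp (X.Φ.V K) X.χ X.J) (j : ℕ)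
    (s : Sel P (X.Φ.V K)) : Prop where
  lt : ∀ E, s.on E → r2 E < j
  allC : ∀ E, s.on E → AllC K (xp s) E
  cand : ∀ E a, s.on E → s.Cand (X.Φ.R K) pos0 enc E (s.Ys E a)
  far : ∀ E, s.on E → Far (X.Φ.R K).adj E.2.π.hb ((P E.1).sg E.2.i) (s.Ys E)
  maxi : ∀ E, r2 E < j → AllC K (xp s) E → ∀ Ys : Fin (P E.1).t → Fin (E.2.n + 1) → X.Φ.V K,
    (∀ a, s.Cand (X.Φ.R K) pos0 enc E (Ys a)) →
    Far (X.Φ.R K).adj E.2.π.hb ((P E.1).sg E.2.i) Ys → s.on E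

theorem BInv.step (hP : Good P) (he : Function.Injective enc) {r0 r1 r2}
    (hr : Rho pos0 enc r0 r1 r2) (d : Fin X.χ) (g : X.Φ.V K → X.J → Option (X.Φ.V K)) {j : ℕ}
    (h : BInv K pos0 enc r2 (fun s => s.xp (X.Φ.R K).adj r0 r1 d g) j s) :
    ∃ s', BInv K pos0 enc r2 (fun s => s.xp (X.Φ.R K).adj r0 r1 d g) (j + 1) s' := by
  classical
  by_cases c : ∃ E, r2 E = j ∧ AllC K (s.xp (X.Φ.R K).adj r0 r1 d g) E ∧
      ∃ Ys : Fin (P E.1).t → Fin (E.2.n + 1) → X.Φ.V K,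
        (∀ a, s.Cand (X.Φ.R K) pos0 enc E (Ys a)) ∧
        Far (X.Φ.R K).adj E.2.π.hb ((P E.1).sg E.2.i) Ys
  swap
  · refine ⟨s, fun E hE => (h.lt E hE).trans (Nat.lt_succ_self j), h.allC, h.cand, h.far,
      fun E hE h1 Ys h2 h3 => ?_⟩
    rcases Nat.lt_succ_iff_lt_or_eq.1 hE with hE | hE
    · exact h.maxi E hE h1 Ys h2 h3
    · exact absurd ⟨E, hE, h1, Ys, h2, h3⟩ c
  obtain ⟨E0, hj, c1, Y0, c2, c3⟩ := c
  let s' : Sel P (X.Φ.V K) := ⟨fun E => s.on E ∨ E = E0, Function.update s.Ys E0 Y0⟩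
  have ag : ∀ E, r2 E < j + 1 → s.Ag s' pos0 enc E := by
    intro E hE E' hE'
    have hne : E' ≠ E0 := by
      rintro rfl
      have := (hr.ee _ _).2 hE'
      omega
    exact ⟨⟨Or.inl, fun h => h.resolve_right hne⟩, (Function.update_of_ne hne _ _).symm⟩
  have hY : ∀ E, s.on E → s'.Ys E = s.Ys E := by
    intro E hE
    have hne : E ≠ E0 := by
      rintro rfl
      have := h.lt _ hE
      omega
    exact Function.update_of_ne hne _ _
  have hY0 : s'.Ys E0 = Y0 := Function.update_self _ _ _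
  have hlt : ∀ E, s'.on E → r2 E < j + 1 := by
    rintro E (hE | rfl)
    · exact (h.lt E hE).trans (Nat.lt_succ_self j)
    · omega
  have a1 : ∀ E, s'.on E → AllC K (s.xp (X.Φ.R K).adj r0 r1 d g) E := by
    rintro E (hE | rfl)
    · exact h.allC E hE
    · exact c1
  have a2 : ∀ E a, s'.on E → s'.Cand (X.Φ.R K) pos0 enc E (s'.Ys E a) := by
    intro E a hE
    refine (ag E (hlt E hE)).cand ?_
    rcases hE with hE | rfl
    · rw [hY E hE]; exact h.cand E a hE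
    · rw [hY0]; exact c2 a
  have a3 : ∀ E, s'.on E → Far (X.Φ.R K).adj E.2.π.hb ((P E.1).sg E.2.i) (s'.Ys E) := by
    rintro E (hE | rfl)
    · rw [hY E hE]; exact h.far E hE
    · rw [hY0]; exact c3
  have u1 : s.Uq pos0 := uq_of hP he h.allC h.cand h.far
  have u2 : s'.Uq pos0 := uq_of hP he a1 a2 a3
  have hc : ∀ E, r2 E < j + 1 → (AllC K (s.xp (X.Φ.R K).adj r0 r1 d g) E ↔
      AllC K (s'.xp (X.Φ.R K).adj r0 r1 d g) E) := by
    intro E hE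
    simp only [AllC, (ag E hE).ctx u1 u2 hr]
  refine ⟨s', hlt, fun E hE => (hc E (hlt E hE)).1 (a1 E hE), a2, a3,
    fun E hE h1 Ys h2 h3 => ?_⟩
  rcases Nat.lt_succ_iff_lt_or_eq.1 hE with hE' | hE'
  · exact Or.inl (h.maxi E hE' ((hc E hE).2 h1) Ys (fun a => (ag E hE).symm.cand (h2 a)) h3)
  · right
    rcases Ev.Lt.tri pos0 he E E0 with c | c | c
    · have := (hr.ee _ _).2 c; omega
    · exact c
    · have := (hr.ee _ _).2 c; omega

theorem exists_built (hX : X.Ok) {P : ℕ → Lv X} (hP : Good P) (K : X.Φ.K)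
    (hne : Nonempty (X.Φ.V K)) {pos0 : X.Φ.V K → ℕ} (h0 : Function.Injective pos0) :
    ∃ (enc : Ev P (X.Φ.V K) → ℕ) (s : Sel P (X.Φ.V K)) (e : Xp (X.Φ.V K) X.χ X.J),
      Built K pos0 enc s e := by
  classical
  have := hX.finσ
  have := hX.finJ
  obtain ⟨v0⟩ := hne
  obtain ⟨enc, he⟩ := Countable.exists_injective_nat (Ev P (X.Φ.V K))
  obtain ⟨r0, r1, r2, hr⟩ := exists_rho (P := P) pos0 enc
  let d : Fin X.χ := ⟨0, by have := hX.chi; omega⟩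
  choose g hg using hX.val_ex K
  have all : ∀ j, ∃ s, BInv K pos0 enc r2 (fun s => s.xp (X.Φ.R K).adj r0 r1 d g) j s := by
    intro j
    induction j with
    | zero =>
      exact ⟨⟨fun _ => False, fun _ _ _ => v0⟩, fun _ h => h.elim, fun _ h => h.elim,
        fun _ _ h => h.elim, fun _ h => h.elim, fun _ h => absurd h (Nat.not_lt_zero _)⟩
    | succ j ih =>
      obtain ⟨s, hs⟩ := ih
      exact hs.step hP he hr d g
  obtain ⟨B, hB⟩ := (Set.finite_range r2).bddAbove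
  obtain ⟨s, hs⟩ := all (B + 1)
  have u : s.Uq pos0 := uq_of hP he hs.allC hs.cand hs.far
  have hinj := u.inj hr he h0
  have px : ∀ {E a x}, s.on E → x ∈ nhs E.2.π.hb (s.Ys E a) → ∃ b, s.Px ⟨E, a, b⟩ x :=
    fun hE ⟨b, h1, h2⟩ => ⟨b, hE, h1, h2⟩
  refine ⟨enc, s, s.xp (X.Φ.R K).adj r0 r1 d g, he, hinj, hs.cand, hs.far, hs.allC,
    fun E => hs.maxi E (Nat.lt_succ_of_le (hB ⟨E, rfl⟩)), ?_, ?_, ?_, ?_, ?_, ?_, ?_, ?_, ?_⟩
  · intro x y hx hy
    simp only [Sel.xp, Sel.ps_np (Sel.pl_iff.not.1 hx), Sel.ps_np (Sel.pl_iff.not.1 hy), hr.vv]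
  · intro E a x y hE hx hy
    obtain ⟨b, hb⟩ := px hE hx
    simp only [Sel.xp, u.ps_pl hb, Sel.ps_np (Sel.pl_iff.not.1 hy), hr.sv]
  · intro E a x E' a' y hE hE' hx hy c
    obtain ⟨b, hb⟩ := px hE hx
    obtain ⟨b', hb'⟩ := px hE' hy
    simp only [Sel.xp, u.ps_pl hb, u.ps_pl hb']
    exact hr.ss _ _ c
  · intro E a a' x y hE hx hy c
    obtain ⟨b, hb⟩ := px hE hx
    obtain ⟨b', hb'⟩ := px hE hy
    simp only [Sel.xp, u.ps_pl hb, u.ps_pl hb']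
    exact hr.sa _ _ _ _ _ c
  · intro E a b b' hE hb hb' c
    have p1 : s.Px ⟨E, a, b⟩ (s.Ys E a b) := ⟨hE, hb, rfl⟩
    have p2 : s.Px ⟨E, a, b'⟩ (s.Ys E a b') := ⟨hE, hb', rfl⟩
    simp only [Sel.xp, u.ps_pl p1, u.ps_pl p2]
    exact hr.sb _ _ _ _ c
  · intro E a b hE hb
    have p1 : s.Px ⟨E, a, b⟩ (s.Ys E a b) := ⟨hE, hb, rfl⟩
    simp only [Sel.xp]
    rw [gc_eq, u.pre_pl p1]
    rfl
  · rintro v hv ⟨c, hc⟩ w hw hne e
    simp only [Sel.xp] at hc hw e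
    have hlt : ∀ {z}, WR (X.Φ.R K).adj (s.ps r0 r1) X.R0 v z → z ≠ v →
        s.ps r0 r1 z < s.ps r0 r1 v := fun hz hn => lt_of_le_of_ne hz.pos_le fun e => hn (hinj e)
    rw [gc_eq _ _ _ _ _ v, Sel.pre_np (Sel.pl_iff.not.1 hv), Option.getD_none] at e
    refine pick_spec d (A := {c | ∃ u, s.ps r0 r1 u < s.ps r0 r1 v ∧
      WR (X.Φ.R K).adj (s.ps r0 r1) X.R0 v u ∧
      gc (X.Φ.R K).adj (s.ps r0 r1) X.R0 s.pre d u = c}) ⟨c, ?_⟩ ⟨w, hlt hw hne, hw, e⟩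
    rintro ⟨z, h1, h2, h3⟩
    exact hc z h2 (fun e => by rw [e] at h1; exact lt_irrefl _ h1) h3
  · intro E a b j hE hb
    have p1 : s.Px ⟨E, a, b⟩ (s.Ys E a b) :=
      ⟨hE, ((hs.allC E hE).core hP (hs.cand E a hE).1).inn b hb, rfl⟩
    exact u.ff_pl g p1 hb j
  · intro v
    by_cases c : ∃ x, s.Px x v ∧ x.1.2.π.inn x.2.2
    · obtain ⟨x, h1, h2⟩ := c
      exact Or.inl ⟨x.1, x.2.1, x.2.2, h1.1, h2, h1.2.2⟩
    · right
      simp only [Sel.xp, Sel.ff, dif_neg c]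
      exact hg v

/-- The empty structure is trivially rich. -/
theorem rich_of_empty (P : ℕ → Lv X) (K : X.Φ.K) [IsEmpty (X.Φ.V K)] : ∃ e, Rich P K e :=
  ⟨⟨fun v => isEmptyElim v, fun v => isEmptyElim v, fun v => isEmptyElim v⟩,
    ⟨fun v => isEmptyElim v, fun _ _ v => isEmptyElim v, fun v => isEmptyElim v,
      fun v => isEmptyElim v⟩, fun _ _ v => isEmptyElim v,
    fun _ _ _ _ _ _ _ Y0 => isEmptyElim (Y0 0)⟩

end Pool.Agent.Work.MP_b730b2_lc.Full
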