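import Pool.Agent.Work.MP_b730b2_lc.Full.Built

/-! Tools for the planting process: ranks and greedy colourings. -/

namespace Pool.Agent.Work.MP_b730b2_lc.Full

open Set

/-- Every key into a linear order is represented by a rank function. -/
theorem exists_rank {Z : Type} [Finite Z] {β : Type} [LinearOrder β] (key : Z → β) :
    ∃ ρ : Z → ℕ, ∀ x y, ρ x < ρ y ↔ key x < key y := by
  have h1 : ∀ x y, key x < key y →
      {z | key z < key x}.ncard < {z | key z < key y}.ncard := by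
    intro x y h
    refine ncard_lt_ncard ⟨fun z hz => lt_trans hz h, fun hs => ?_⟩
    exact lt_irrefl _ (hs (show x ∈ {z | key z < key y} from h))
  refine ⟨fun x => {z | key z < key x}.ncard, fun x y => ⟨fun h => ?_, h1 x y⟩⟩
  rcases lt_trichotomy (key x) (key y) with c | c | c
  · exact c
  · simp only [c] at h; exact absurd h (lt_irrefl _)
  · exact absurd (h1 y x c) (not_lt.2 h.le)

section colour
variable {V C : Type}

open Classical in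
/-- A colour outside `A`, if there is one. -/
noncomputable def pick (d : C) (A : Set C) : C := if h : ∃ c, c ∉ A then h.choose else d

theorem pick_spec (d : C) {A : Set C} (h : ∃ c, c ∉ A) : pick d A ∉ A := by
  rw [pick, dif_pos h]
  exact h.choose_spec

/-- The greedy colouring with prescribed values. -/
noncomputable def gc (adj : V → V → Prop) (pos : V → ℕ) (R : ℕ) (pre : V → Option C) (d : C) :
    V → C :=
  (measure pos).wf.fix fun v g =>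
    (pre v).getD (pick d {c | ∃ u, ∃ h : pos u < pos v, WR adj pos R v u ∧ g u h = c})

theorem gc_eq (adj : V → V → Prop) (pos : V → ℕ) (R : ℕ) (pre : V → Option C) (d : C) (v : V) :
    gc adj pos R pre d v = (pre v).getD
      (pick d {c | ∃ u, pos u < pos v ∧ WR adj pos R v u ∧ gc adj pos R pre d u = c}) := by
  rw [gc, WellFounded.fix_eq]
  simp only [exists_prop]

variable {adj : V → V → Prop} {pos pos' : V → ℕ} {S : Set V}

theorem le_of_low (h2 : ∀ u ∈ S, ∀ z, pos' z ≤ pos' u → z ∈ S) (h3 : ∀ u ∈ S, pos u = pos' u)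
    {u z : V} (hu : u ∈ S) (h : pos u ≤ pos z) : pos' u ≤ pos' z := by
  by_contra c
  have c' := not_le.1 c
  have := h3 z (h2 u hu z c'.le)
  have := h3 u hu
  omega

theorem WR.of_low (h1 : ∀ u ∈ S, ∀ z, pos z ≤ pos u → z ∈ S)
    (h2 : ∀ u ∈ S, ∀ z, pos' z ≤ pos' u → z ∈ S) (h3 : ∀ u ∈ S, pos u = pos' u)
    {d : ℕ} {v u : V} (hv : v ∈ S) (h : WR adj pos d v u) : u ∈ S ∧ WR adj pos' d v u :=
  ⟨h1 v hv u h.pos_le, Wk.mono h fun _ hz => le_of_low h2 h3 (h1 v hv u h.pos_le) hz⟩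

theorem gc_low (h1 : ∀ u ∈ S, ∀ z, pos z ≤ pos u → z ∈ S)
    (h2 : ∀ u ∈ S, ∀ z, pos' z ≤ pos' u → z ∈ S) (h3 : ∀ u ∈ S, pos u = pos' u)
    {pre pre' : V → Option C} (h4 : ∀ u ∈ S, pre u = pre' u) (R : ℕ) (d : C) :
    ∀ n, ∀ v ∈ S, pos v = n → gc adj pos R pre d v = gc adj pos' R pre' d v := by
  intro n
  induction n using Nat.strong_induction_on with
  | _ n ih =>
    intro v hv hn
    rw [gc_eq adj pos, gc_eq adj pos', h4 v hv]
    congr 2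
    ext c
    constructor
    · rintro ⟨u, a1, a2, a3⟩
      obtain ⟨b1, b2⟩ := a2.of_low h1 h2 h3 hv
      exact ⟨u, by rw [← h3 u b1, ← h3 v hv]; exact a1, b2,
        (ih _ (hn ▸ a1) u b1 rfl).symm.trans a3⟩
    · rintro ⟨u, a1, a2, a3⟩
      obtain ⟨b1, b2⟩ := a2.of_low h2 h1 (fun u hu => (h3 u hu).symm) hv
      have a4 : pos u < pos v := by rw [h3 u b1, h3 v hv]; exact a1
      exact ⟨u, a4, b2, (ih _ (hn ▸ a4) u b1 rfl).trans a3⟩

end colour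

variable {σ : Type} {X : Cx σ} {P : ℕ → Lv X}

/-- Slots for planted vertices. -/
abbrev Slot (P : ℕ → Lv X) (V : Type) : Type :=
  Σ E : Ev P V, Fin (P E.1).t × Fin (E.2.n + 1)

/-- Ranks for vertices, slots and events. -/
structure Rho {V : Type} (pos0 : V → ℕ) (enc : Ev P V → ℕ) (r0 : V → ℕ) (r1 : Slot P V → ℕ)
    (r2 : Ev P V → ℕ) : Prop where
  vv : ∀ u v, r0 u < r0 v ↔ pos0 u < pos0 v
  sv : ∀ x v, r1 x < r0 v ↔ x.1.2.tm pos0 ≤ pos0 v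
  vs : ∀ x v, r0 v < r1 x ↔ pos0 v < x.1.2.tm pos0
  ss : ∀ x y, Ev.Lt pos0 enc x.1 y.1 → r1 x < r1 y
  sa : ∀ E a b a' b', a < a' → r1 ⟨E, a, b⟩ < r1 ⟨E, a', b'⟩
  sb : ∀ E a b b', b < b' → r1 ⟨E, a, b⟩ < r1 ⟨E, a, b'⟩
  se : ∀ x E, r1 x < r2 E ↔ Ev.Lt pos0 enc x.1 E
  ve : ∀ v E, r0 v < r2 E ↔ pos0 v < E.2.tm pos0
  ee : ∀ E E', r2 E < r2 E' ↔ Ev.Lt pos0 enc E E'

theorem exists_rho {V : Type} [Finite V] [Finite σ] [Finite X.J] (pos0 : V → ℕ)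
    (enc : Ev P V → ℕ) : ∃ r0 r1 r2, Rho pos0 enc r0 r1 r2 := by
  let k5 : ℕ → ℕ → ℕ → ℕ → ℕ → ℕ ×ₗ ℕ ×ₗ ℕ ×ₗ ℕ ×ₗ ℕ := fun a b c d e =>
    toLex (a, toLex (b, toLex (c, toLex (d, e))))
  have hk : ∀ a b c d e a' b' c' d' e', k5 a b c d e < k5 a' b' c' d' e' ↔
      a < a' ∨ a = a' ∧ (b < b' ∨ b = b' ∧ (c < c' ∨ c = c' ∧ (d < d' ∨ d = d' ∧ e < e'))) := by
    intro a b c d e a' b' c' d' e'
    simp only [k5, Prod.Lex.toLex_lt_toLex]
  let key : V ⊕ Slot P V ⊕ Ev P V → ℕ ×ₗ ℕ ×ₗ ℕ ×ₗ ℕ ×ₗ ℕ := fun z =>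
    match z with
    | Sum.inl v => k5 (pos0 v + 1) 0 0 0 0
    | Sum.inr (Sum.inl x) => k5 (x.1.2.tm pos0) (x.1.1.1 + 1) (enc x.1) (x.2.1.1 + 1) x.2.2.1
    | Sum.inr (Sum.inr E) => k5 (E.2.tm pos0) (E.1.1 + 1) (enc E) 0 0
  obtain ⟨ρ, hρ⟩ := exists_rank key
  refine ⟨fun v => ρ (Sum.inl v), fun x => ρ (Sum.inr (Sum.inl x)),
    fun E => ρ (Sum.inr (Sum.inr E)), ?_, ?_, ?_, ?_, ?_, ?_, ?_, ?_, ?_⟩
  all_goals
    intros
    simp only [hρ, key, hk, Ev.Lt, Fin.lt_def, Fin.ext_iff, true_and] at *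
    omega

theorem Ev.Lt.irrefl {V : Type} {pos0 : V → ℕ} {enc : Ev P V → ℕ} (E : Ev P V) :
    ¬ Ev.Lt pos0 enc E E := by
  simp [Ev.Lt]

theorem Ev.Lt.trans {V : Type} {pos0 : V → ℕ} {enc : Ev P V → ℕ} {E E' E'' : Ev P V}
    (h : Ev.Lt pos0 enc E E') (h' : Ev.Lt pos0 enc E' E'') : Ev.Lt pos0 enc E E'' := by
  simp only [Ev.Lt, Fin.lt_def, Fin.ext_iff] at *
  omega

end Pool.Agent.Work.MP_b730b2_lc.Full
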