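import Pool.Agent.Work.MP_b730b2_lc.Full.Built

/-! The planted order is valid and the colouring is proper.

Proof plan for `Built.valid` (level `l`, vertex `v`, radius `Rc = (P l).Rc`). If `v` is a non-hub of
a planting of level `≥ l`, use `Core.hit` for the pair `(Rc, κ)`: a walk avoiding the hitting set
avoids the hubs (split at the first hub), so stays in the ball, and `Wit.ini`, `Wit.lt_iff` show that
its end is a smaller non-hub. Otherwise call a planting `(E, a)` relevant if `tm E ≤ pos0 v` and some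
non-hub `u` of it has `Wk adj (pos0 v ≤ pos0 ·) Rc v u`. Its hubs have `pos0 < pos0 v`. Let `K` be the
union of `SR adj pos0 v`, of the non-hubs other than `v` of all relevant plantings of level `< l`,
and of the projection (`Core.prj`, `Rc_mono`) of `v` on the relevant planting of level `≥ l`, which is
unique: two of them would be joined off the hubs by a walk of length `≤ 2 Rc`, so the earlier one
would meet the ball of the later one (`sg_ge`, `Cand`, `Built.not_bl`). The hubs of a relevant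
planting of level `l' < l` are in `{h | WR adj pos0 (2 * Rc) v h}` (`Gd.wr`, `EvL.Mem.gd_iff`,
`S_Rc`), so there are at most `EB (Wb k (2 Rc)) * t` of them (`EvL.count`); use `kap`. A walk avoiding
`K` stays above `v` for `pos0` (`Wk.above`), and its end is handled by `Built.lt_cases`.
`Built.fine`: `bd` by `WR_bound` from validity at level `0`; properness for planted vertices by
`Wit.wf`, `Core.cl1`, `Core.cl2`, for the others by `col2` and counting (`W0 < χ`). -/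

namespace Pool.Agent.Work.MP_b730b2_lc.Full

open Set

variable {σ : Type} {X : Cx σ} {P : ℕ → Lv X} {K : X.Φ.K} {pos0 : X.Φ.V K → ℕ}
  {enc : Ev P (X.Φ.V K) → ℕ} {s : Sel P (X.Φ.V K)} {e : Xp (X.Φ.V K) X.χ X.J}

/-- Counting the vertices planted at levels below `l` by events with hubs in a small set. -/
theorem Sel.count_lt [Finite σ] [Finite X.J] {V : Type} [Finite V] (s : Sel P V) (S : Set V)
    {w : ℕ} (hS : S.ncard ≤ w) (l : ℕ) :
    {z | ∃ (E : Ev P V) (a : Fin (P E.1).t), E.1.1 < l ∧ (∀ u v, E.2.h u = some v → v ∈ S) ∧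
      z ∈ nhs E.2.π.hb (s.Ys E a)}.ncard ≤
      ∑ l' ∈ Finset.range l, (P l').EB w * (P l').t * ((P l').N + 1) := by
  induction l with
  | zero => simp
  | succ l ih =>
    rw [Finset.sum_range_succ]
    by_cases hl : l < X.Q
    · have sub : {z | ∃ (E : Ev P V) (a : Fin (P E.1).t), E.1.1 < l + 1 ∧
          (∀ u v, E.2.h u = some v → v ∈ S) ∧ z ∈ nhs E.2.π.hb (s.Ys E a)} ⊆
          {z | ∃ (E : Ev P V) (a : Fin (P E.1).t), E.1.1 < l ∧
            (∀ u v, E.2.h u = some v → v ∈ S) ∧ z ∈ nhs E.2.π.hb (s.Ys E a)} ∪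
          ⋃ E ∈ {E : EvL (P l) V | ∀ u v, E.h u = some v → v ∈ S},
            ⋃ a ∈ (univ : Set (Fin (P l).t)), nhs E.π.hb (s.Ys ⟨⟨l, hl⟩, E⟩ a) := by
        rintro z ⟨⟨⟨l', hl'⟩, E⟩, a, h1, h2, h3⟩
        rcases (Nat.lt_succ_iff.1 h1).eq_or_lt with h1 | h1
        · obtain rfl : l' = l := h1
          exact Or.inr (mem_biUnion h2 (mem_biUnion (mem_univ a) h3))
        · exact Or.inl ⟨_, a, h1, h2, h3⟩
      refine (ncard_le_ncard sub).trans ((ncard_union_le _ _).trans (Nat.add_le_add ih ?_))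
      refine (ncard_biUnion_le _ (toFinite _) _ ((P l).t * ((P l).N + 1)) ?_).trans ?_
      · intro E _
        refine (ncard_biUnion_le _ (toFinite _) _ ((P l).N + 1) ?_).trans ?_
        · intro a _
          exact ncard_nhs_le.trans E.n.2
        · simp [ncard_univ]
      · rw [mul_assoc]
        exact Nat.mul_le_mul_right _ (EvL.count (P l) S hS)
    · refine le_trans (ncard_le_ncard ?_) (ih.trans (Nat.le_add_right _ _))
      rintro z ⟨E, a, -, h2, h3⟩
      exact ⟨E, a, E.1.2.trans_le (not_lt.1 hl), h2, h3⟩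

/-- The hubs of a planting are before the time of its event. -/
theorem Built.hub_lt (h : Built K pos0 enc s e) {E} (hE : s.on E) {a x}
    (hx : x ∈ hubs E.2.π.hb (s.Ys E a)) : pos0 x < E.2.tm pos0 := by
  obtain ⟨u, hu, rfl⟩ := hx
  exact E.2.le_tm pos0 ((h.cand E a hE).1.1 u hu)

/-- Validity at a vertex planted at a level which is high enough. -/
theorem Built.valid_own (hP : Good P) (h : Built K pos0 enc s e) {l : ℕ} {E} (hE : s.on E)
    (hl : l ≤ E.1.1) {a v} (hv : v ∈ nhs E.2.π.hb (s.Ys E a)) :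
    Hit (X.Φ.R K).adj (P l).Rc (P l).κ v (fun u => e.pos u < e.pos v) := by
  have hc := h.core hP hE a
  have hw := h.wit hP hE a
  have hbl := hc.shape.bl hv
  obtain ⟨b, hb, rfl⟩ := hv
  obtain ⟨S, h1, h2, h3⟩ := hc.hit ((P l).Rc, (P l).κ) ⟨l, hl, rfl⟩ b hb
  refine ⟨S, h1, h2, fun u hu hk => ?_⟩
  rcases hk.split (· ∈ hubs E.2.π.hb (s.Ys E a)) with h4 | h4 | ⟨n1, n2, y, z, hn, h4, e', hz, h5⟩
  · have r1 := hP.Rc_mono l E.1 hl
    have r2 := hP.sg_ge E.1 E.2.i
    obtain ⟨b', hb', rfl⟩ := hw.ini u b ((hbl.wk (h4.mono fun _ h => h.2)).le (by omega)) hb hu.le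
    exact h3 _ (Or.inr ⟨b', hb', not_le.1 ((hw.lt_iff hb hb').not.1 (not_le.2 hu)), rfl⟩) hk
  · exact hbl.not_hub h4
  · exact h3 z (Or.inl hz) ((Wk.step (h4.mono fun _ h => h.1) e' h5.fst).le
      (show n1 + 1 ≤ (P l).Rc by omega))

/-- A planting is relevant for `v` if it is early and close to `v` above `v`. -/
def Sel.Rel {V : Type} (s : Sel P V) (adj : V → V → Prop) (pos0 : V → ℕ) (r : ℕ) (v : V)
    (E : Ev P V) (a : Fin (P E.1).t) : Prop :=
  s.on E ∧ E.2.tm pos0 ≤ pos0 v ∧ ∃ u ∈ nhs E.2.π.hb (s.Ys E a),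
    Wk adj (fun z => pos0 v ≤ pos0 z) r v u

/-- A vertex close to `v` above `v` lies in the ball of a relevant planting of high level. -/
theorem Built.rel_bl (hP : Good P) (h : Built K pos0 enc s e) {l : ℕ} {v E a}
    (hr : s.Rel (X.Φ.R K).adj pos0 (P l).Rc v E a) (hl : l ≤ E.1.1) {u}
    (hu : Wk (X.Φ.R K).adj (fun z => pos0 v ≤ pos0 z) (P l).Rc v u) :
    Bl (X.Φ.R K).adj E.2.π.hb (s.Ys E a) ((P E.1).sg E.2.i) u := by
  obtain ⟨hE, ht, u', hu', hw⟩ := hr
  have r1 := hP.Rc_mono l E.1 hl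
  have r2 := hP.sg_ge E.1 E.2.i
  refine (((h.core hP hE a).shape.bl hu').wk
    (((hw.symm (X.Φ.R K).adj_symm).trans hu).mono fun z hz hh => ?_)).le (by omega)
  have := h.hub_lt hE hh
  omega

theorem Built.rel_ev (hP : Good P) (h : Built K pos0 enc s e) {l : ℕ} {v E a E' a'}
    (hr : s.Rel (X.Φ.R K).adj pos0 (P l).Rc v E a) (hl : l ≤ E.1.1)
    (hr' : s.Rel (X.Φ.R K).adj pos0 (P l).Rc v E' a') (hl' : l ≤ E'.1.1) : E = E' := by
  rcases Ev.Lt.tri pos0 h.enc_inj E E' with c | c | c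
  · obtain ⟨hE, -, u, hu, hw⟩ := hr
    exact absurd hu (((h.cand E' a' hr'.1).2 u (h.rel_bl hP hr' hl' hw)).2 E a hE c)
  · exact c
  · obtain ⟨hE', -, u, hu, hw⟩ := hr'
    exact absurd hu (((h.cand E a hr.1).2 u (h.rel_bl hP hr hl hw)).2 E' a' hE' c)

theorem Built.rel_idx (hP : Good P) (h : Built K pos0 enc s e) {l : ℕ} {v E a a'}
    (hr : s.Rel (X.Φ.R K).adj pos0 (P l).Rc v E a) (hl : l ≤ E.1.1)
    (hr' : s.Rel (X.Φ.R K).adj pos0 (P l).Rc v E a') : a = a' := by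
  by_contra c
  exact h.not_bl hr.1 c (h.rel_bl hP hr hl (.refl le_rfl)) (h.rel_bl hP hr' hl (.refl le_rfl))

/-- The hubs of a relevant planting of low level are weakly reachable. -/
theorem Built.rel_hub (hP : Good P) (h : Built K pos0 enc s e) {l : ℕ} {v E a}
    (hr : s.Rel (X.Φ.R K).adj pos0 (P l).Rc v E a) (hl : E.1.1 < l) (u x)
    (hx : E.2.h u = some x) : WR (X.Φ.R K).adj pos0 (2 * (P l).Rc) v x := by
  obtain ⟨hE, ht, y, hy, hw⟩ := hr
  have hc := h.cand E a hE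
  obtain ⟨hu, rfl⟩ := hc.1.some_iff.1 hx
  have hg := (hc.1.gd_iff pos0 _).2 fun z hz => (hc.2 z hz).1
  have hs := (h.core hP hE a).shape
  have r1 := hP.sg_ge E.1 E.2.i
  have r2 := hP.sg_S E.1 E.2.i E.2.i.2
  have r3 := hP.S_Rc E.1 l hl
  have r4 := h.hub_lt hE (show s.Ys E a u ∈ hubs E.2.π.hb (s.Ys E a) from ⟨u, hu, rfl⟩)
  have h1 := hg.wr (X.Φ.R K).adj_symm hs (by omega) (by omega) (hs.bl hy) hu
  exact Wk.le (Wk.trans (hw.mono fun z hz => by omega) h1) (by omega)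

theorem Built.valid (hX : X.Ok) (hP : Good P) (h0 : Elim (X.Φ.R K).adj pos0 X.k)
    (h : Built K pos0 enc s e) (l : ℕ) : Valid (P l) K e := by
  intro v
  by_cases hv : ∃ E a, s.on E ∧ l ≤ E.1.1 ∧ v ∈ nhs E.2.π.hb (s.Ys E a)
  · obtain ⟨E, a, hE, hl, hv⟩ := hv
    exact h.valid_own hP hE hl hv
  have := hX.finσ
  have := hX.finJ
  let A : Set (X.Φ.V K) := {z | ∃ (E : Ev P (X.Φ.V K)) (a : Fin (P E.1).t), E.1.1 < l ∧
    (∀ u x, E.2.h u = some x → x ∈ {x | WR (X.Φ.R K).adj pos0 (2 * (P l).Rc) v x}) ∧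
    z ∈ nhs E.2.π.hb (s.Ys E a)}
  let B : Set (X.Φ.V K) := {y | ∃ (E : Ev P (X.Φ.V K)) (a : Fin (P E.1).t),
    s.Rel (X.Φ.R K).adj pos0 (P l).Rc v E a ∧ l ≤ E.1.1 ∧ y ∈ nhs E.2.π.hb (s.Ys E a) ∧
    Att (X.Φ.R K).adj (fun z => z ∉ range (s.Ys E a)) (P E.1).Rc v y}
  have hA := s.count_lt _ (h0.WR_bound (2 * (P l).Rc) v) l
  have out : ∀ E a, s.Rel (X.Φ.R K).adj pos0 (P l).Rc v E a → l ≤ E.1.1 →
      v ∉ range (s.Ys E a) := by
    rintro E a hr hl ⟨b, hb⟩
    by_cases c : E.2.π.hb b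
    · exact absurd (h.hub_lt hr.1 ⟨b, c, hb⟩) (not_lt.2 hr.2.1)
    · exact hv ⟨E, a, hr.1, hl, b, c, hb⟩
  have hB : B.ncard ≤ 2 * X.k + 1 := by
    rcases B.eq_empty_or_nonempty with c | ⟨_, E, a, hr, hl, -⟩
    · simp [c]
    · refine (ncard_le_ncard ?_).trans ((h.core hP hr.1 a).prj v (out E a hr hl))
      rintro y ⟨E', a', hr', hl', hy⟩
      obtain rfl := h.rel_ev hP hr hl hr' hl'
      obtain rfl := h.rel_idx hP hr hl hr'
      exact hy
  refine ⟨SR (X.Φ.R K).adj pos0 v ∪ (A \ {v}) ∪ B, ?_, ?_, fun u hu hk => ?_⟩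
  · have e1 := h0.2 v
    have e2 : (A \ {v}).ncard ≤ A.ncard := ncard_le_ncard sdiff_subset
    have e3 := hP.kap l
    have e4 := ncard_union_le (SR (X.Φ.R K).adj pos0 v ∪ (A \ {v})) B
    have e5 := ncard_union_le (SR (X.Φ.R K).adj pos0 v) (A \ {v})
    have e6 : A.ncard ≤ _ := hA
    omega
  · rintro ((c | c) | ⟨E, a, hr, hl, hy, -⟩)
    · exact lt_irrefl _ c.1
    · exact c.2 rfl
    · exact hv ⟨E, a, hr.1, hl, hy⟩
  · have hk' := hk.above (pos := pos0) fun z hz c => hz (Or.inl (Or.inl c))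
    rcases h.lt_cases hP hu with c | ⟨E, a, hE, hu', ht⟩
    · exact absurd hk'.lst.2 (not_le.2 c)
    · have hr : s.Rel (X.Φ.R K).adj pos0 (P l).Rc v E a :=
        ⟨hE, ht, u, hu', hk'.mono fun _ h => h.2⟩
      by_cases hl : l ≤ E.1.1
      · obtain ⟨b, -, hb⟩ := hu'
        obtain ⟨n1, n2, y, hn, h1, ⟨c, rfl⟩, h2⟩ :=
          hk'.first (· ∈ range (s.Ys E a)) (out E a hr hl) ⟨b, hb⟩
        have r1 := hP.Rc_mono l E.1 hl
        refine h2.fst.1 (Or.inr ⟨E, a, hr, hl, ⟨c, fun hc => ?_, rfl⟩,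
          (h1.mono fun _ h => h.2).le (by omega)⟩)
        have r2 := h.hub_lt hE (show s.Ys E a c ∈ hubs E.2.π.hb (s.Ys E a) from ⟨c, hc, rfl⟩)
        have r3 := h2.fst.2
        omega
      · refine hk.lst (Or.inl (Or.inr ⟨⟨E, a, not_le.1 hl, h.rel_hub hP hr (not_le.1 hl), hu'⟩,
          fun c => ?_⟩))
        rw [mem_singleton_iff.1 c] at hu
        exact lt_irrefl _ hu

theorem Built.fine (hX : X.Ok) (hP : Good P) (h0 : Elim (X.Φ.R K).adj pos0 X.k)
    (h : Built K pos0 enc s e) : X.Fine K e := by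
  have bd : ∀ d ≤ X.R, ∀ v,
      {u | WR (X.Φ.R K).adj e.pos d v u}.ncard ≤ Wb (3 * X.k + 1) d := fun d hd v =>
    hP.kap0 ▸ WR_bound h.inj (h.valid hX hP h0 0) (hd.trans hP.R_le) v
  refine ⟨h.inj, bd, fun v u hw hne => ?_, fun v => ?_⟩
  · by_cases c : s.Pl v
    · obtain ⟨E, a, hE, b, hb, rfl⟩ := c
      have hc := h.core hP hE a
      have hwit := h.wit hP hE a
      have r1 := hX.R0_le
      have r2 := hP.R_le
      have r3 := hP.Rc_mono 0 E.1 (Nat.zero_le _)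
      have r4 := hP.sg_ge E.1 E.2.i
      rw [hwit.col b hb]
      rcases (hwit.wf hc.shape (by omega) hb u).1 hw with
        ⟨b', hb', rfl, h1⟩ | ⟨w, d1, d2, hw', hn, h1, h2⟩
      · rw [hwit.col b' hb']
        exact (hc.cl1 b b' hb hb' (fun c => hne (by rw [c])) h1).symm
      · intro c
        exact hc.cl2 b w ⟨d1, by omega⟩ ⟨d2, by omega⟩ hb hw' hn h1 ⟨hw', u, h2, c⟩
    · refine h.col2 v c ?_ u hw hne
      by_contra hn
      have sub : (univ : Set (Fin X.χ)) ⊆ e.col '' {u | WR (X.Φ.R K).adj e.pos X.R0 v u} := by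
        intro c _
        by_contra hc
        exact hn ⟨c, fun u hu _ e' => hc ⟨u, hu, e'⟩⟩
      have e1 := (ncard_le_ncard sub).trans ((ncard_image_le (toFinite _)).trans (bd _ hX.R0_le v))
      have e2 := hX.chi
      simp only [ncard_univ, Nat.card_eq_fintype_card, Fintype.card_fin] at e1
      rw [Cx.W0] at e2
      omega
  · rcases h.f2 v with ⟨E, a, b, hE, hb, rfl⟩ | c
    · have := (h.core hP hE a).val b hb
      rwa [← funext fun j => h.f1 E a b j hE hb] at this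
    · exact c

end Pool.Agent.Work.MP_b730b2_lc.Full
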