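import Mathlib.Data.Set.Card.Arithmetic
import Pool.Agent.Work.MP_b730b2_lc.Full.BuildEx
import Pool.Agent.Work.MP_b730b2_lc.Full.BuildVal

/-! The planted expansion is saturated.

Proof plan. Let `E` be the event of `Y0` (`EvL.exists_mem`); `AllC K e E` holds (`EvL.Mem.ctx`,
`actx_cls`). If `s.on E`, use `Built.wit`. Otherwise there is no far family of `t` candidates
(`maxi`). Let `H` be the union of the non-hubs of all plantings `(E', a)`, `E' < E`, of level `≤ l`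
that meet the ball of a good member of `E`. Their hubs lie in `{h | WR adj pos0 (4 S) v h}` for the
last hub `v` of `E` (walk from `v` to the centre, to the common point, `Gd.wr`; if `tm E = 0` then
`tm E' = 0` and there are no hubs), so `|H|` is bounded by the sum in `Th1` (`EvL.count`).
Claim: `Th` far members whose balls, if good, miss all earlier plantings of higher level give a
contradiction (`Fm.good`, `Fm.avoid`, `Th1`). Earlier plantings of higher level have `tm < tm E`; at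
most one of them, `Y*`, meets the ball of a good member: two would be joined by a walk of length
`≤ 4 sg ≤ 2 Rc` through `v` and good balls, which avoids the hubs of the later one. If there is none
apply the claim. Otherwise use `CP` for `Y*` from `Built.cond`: (i) the claim; (iii) one of the
`g + 1` members is good, so a hub `w` of `Y*` has `tm E ≤ pos0 w < tm E*`; (iv) gives `tm E ≤ tm E*`;
(ii) the induced context is the actual one by `Wit.ictx`, and `SubWit.wit` gives witnesses. -/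

namespace Pool.Agent.Work.MP_b730b2_lc.Full

open Set

variable {σ : Type} {X : Cx σ} {P : ℕ → Lv X} {K : X.Φ.K}

section aux
variable {pos0 : X.Φ.V K → ℕ} {enc : Ev P (X.Φ.V K) → ℕ} {s : Sel P (X.Φ.V K)}
  {e : Xp (X.Φ.V K) X.χ X.J}

theorem AllC.satCore (hP : Good P) {E : Ev P (X.Φ.V K)} (hC : AllC K e E) {Y}
    (hY : E.2.Mem (X.Φ.R K) Y) :
    Core X K {p | ∃ l' ≤ E.1.1, p = ((P l').Rc, (P l').κ)} (P E.1).Rc ((P E.1).lam E.2.i)
      Y E.2.π (E.2.ctx (X.Φ.R K).adj e) :=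
  ((hP.cond _ _ _ _ _ _ _).1 (hC Y hY)).1

/-- The vertex `z` lies in the ball of a good member of the event. -/
def SatGB (K : X.Φ.K) (pos0 : X.Φ.V K → ℕ) (E : Ev P (X.Φ.V K)) (z : X.Φ.V K) : Prop :=
  ∃ Y, E.2.Mem (X.Φ.R K) Y ∧ Gd (X.Φ.R K).adj pos0 E.2.π.hb ((P E.1).sg E.2.i) Y ∧
    Bl (X.Φ.R K).adj E.2.π.hb Y ((P E.1).sg E.2.i) z

/-- From the ball of a good member to a hub, above the hub. -/
theorem SatGB.wr (hP : Good P) {E : Ev P (X.Φ.V K)} (hC : AllC K e E) {z} (hz : SatGB K pos0 E z)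
    {u v} (hv : E.2.h u = some v) : WR (X.Φ.R K).adj pos0 (2 * (P E.1).S) z v := by
  obtain ⟨Y, hY, hg, hz⟩ := hz
  obtain ⟨h1, rfl⟩ := hY.some_iff.1 hv
  have h2 := hP.sg_ge E.1 E.2.i
  have h3 := hP.sg_S E.1 E.2.i E.2.i.2
  exact (hg.wr (X.Φ.R K).adj_symm (hC.satCore hP hY).shape (by omega) le_rfl hz h1).le (by omega)

theorem sat_S_mono (hP : Good P) {l' l : ℕ} (hl : l' ≤ l) : (P l').S ≤ (P l).S := by
  rcases hl.eq_or_lt with rfl | hl
  · exact le_rfl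
  · have := hP.S_Rc l' l hl
    have := hP.Rc_S l
    omega

/-- The hubs of the earlier plantings of low level that meet good balls lie in a small set. -/
theorem Built.sat_hubs (hP : Good P) (h0 : Elim (X.Φ.R K).adj pos0 X.k)
    (h : Built K pos0 enc s e) {E : Ev P (X.Φ.V K)} (hC : AllC K e E) :
    ∃ W : Set (X.Φ.V K), W.ncard ≤ Wb X.k (4 * (P E.1).S) ∧
      ∀ E' a z, s.on E' → Ev.Lt pos0 enc E' E → E'.1 ≤ E.1 → z ∈ nhs E'.2.π.hb (s.Ys E' a) →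
        SatGB K pos0 E z → ∀ u w, E'.2.h u = some w → w ∈ W := by
  rcases Nat.eq_zero_or_pos (E.2.tm pos0) with c | c
  · refine ⟨∅, by simp, fun E' a z _ hlt _ _ _ u w hw => ?_⟩
    have h1 := E'.2.le_tm pos0 hw
    have h2 := hlt.tm_le
    omega
  · obtain ⟨u0, v, hv, htm⟩ := E.2.exists_tm pos0 c
    refine ⟨{w | WR (X.Φ.R K).adj pos0 (4 * (P E.1).S) v w}, h0.WR_bound _ _,
      fun E' a z hE' hlt hle hz hgb u w hw => ?_⟩
    have h1 := E'.2.le_tm pos0 hw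
    have h2 := hlt.tm_le
    have hc := h.cand E' a hE'
    have h3 : SatGB K pos0 E' z :=
      ⟨_, hc.1, (hc.1.gd_iff pos0 _).2 fun y hy => (hc.2 y hy).1, h.bl hP hE' hz⟩
    have h4 := sat_S_mono hP (show E'.1.1 ≤ E.1.1 from hle)
    exact (WR.both (X.Φ.R K).adj_symm (hgb.wr hP hC hv) (h3.wr hP (h.allC E' hE') hw)
      (by omega)).le (by omega)

/-- The vertices planted for events of level at most `l` with hubs in a small set are few. -/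
theorem Sel.sat_harm (hX : X.Ok) (s : Sel P (X.Φ.V K)) (l : ℕ) (W : Set (X.Φ.V K)) {w : ℕ}
    (hW : W.ncard ≤ w) : ∃ H : Set (X.Φ.V K),
      H.ncard ≤ ∑ l' ∈ Finset.range (l + 1), (P l').EB w * (P l').t * ((P l').N + 1) ∧
      ∀ (E' : Ev P (X.Φ.V K)) a z, E'.1.1 ≤ l → (∀ u v, E'.2.h u = some v → v ∈ W) →
        z ∈ nhs E'.2.π.hb (s.Ys E' a) → z ∈ H := by
  have := hX.finσ
  have := hX.finJ
  let G : ℕ → Set (X.Φ.V K) := fun l' =>
    ⋃ E' ∈ {E' : EvL (P l') (X.Φ.V K) | ∀ u v, E'.h u = some v → v ∈ W},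
      ⋃ a ∈ (univ : Set (Fin (P l').t)),
        {z | ∃ hl : l' < X.Q, z ∈ nhs E'.π.hb (s.Ys ⟨⟨l', hl⟩, E'⟩ a)}
  refine ⟨⋃ l' ∈ Finset.range (l + 1), G l', ?_, fun E' a z hle hh hz => ?_⟩
  · refine (Finset.set_ncard_biUnion_le _ _).trans (Finset.sum_le_sum fun l' _ => ?_)
    rw [mul_assoc]
    refine (ncard_biUnion_le _ (toFinite _) _ ((P l').t * ((P l').N + 1)) fun E' _ => ?_).trans
      (Nat.mul_le_mul_right _ (EvL.count (P l') W hW))
    refine (ncard_biUnion_le _ (toFinite _) _ ((P l').N + 1) fun a _ => ?_).trans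
      (by simp [ncard_univ])
    by_cases hl : l' < X.Q
    · have h1 : {z | ∃ hl : l' < X.Q, z ∈ nhs E'.π.hb (s.Ys ⟨⟨l', hl⟩, E'⟩ a)} ⊆
          nhs E'.π.hb (s.Ys ⟨⟨l', hl⟩, E'⟩ a) := fun z ⟨_, hz⟩ => hz
      have h2 := E'.n.2
      exact (ncard_le_ncard h1).trans (ncard_nhs_le.trans (by omega))
    · simp [hl]
  · obtain ⟨⟨l', hl⟩, E'⟩ := E'
    refine mem_biUnion (Finset.mem_coe.2 (Finset.mem_range.2 (Nat.lt_succ_of_le hle))) ?_
    exact mem_biUnion hh (mem_biUnion (mem_univ a) ⟨hl, hz⟩)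

/-- Many far members that are not harmed by plantings of higher level force a planting. -/
theorem Built.sat_on (hX : X.Ok) (hP : Good P) (h0 : Elim (X.Φ.R K).adj pos0 X.k)
    (h : Built K pos0 enc s e) {E : Ev P (X.Φ.V K)} (hC : AllC K e E) {Y0}
    (hY0 : E.2.Mem (X.Φ.R K) Y0)
    (hF : Fm (X.Φ.R K) (P E.1).m E.2.π.hb Y0 ((P E.1).sg E.2.i) (P E.1).Th fun Y =>
      Gd (X.Φ.R K).adj pos0 E.2.π.hb ((P E.1).sg E.2.i) Y →
        ∀ z, Bl (X.Φ.R K).adj E.2.π.hb Y ((P E.1).sg E.2.i) z → ∀ E' a, s.on E' →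
          Ev.Lt pos0 enc E' E → E.1 < E'.1 → z ∉ nhs E'.2.π.hb (s.Ys E' a)) : s.on E := by
  obtain ⟨W, hW, hW'⟩ := h.sat_hubs hP h0 hC
  obtain ⟨H, hH, hH'⟩ := s.sat_harm hX E.1 W hW
  have h1 := hP.Th1 E.1
  have h2 := hP.sg_ge E.1 E.2.i
  have h3 := hP.sg_S E.1 E.2.i E.2.i.2
  have hg := hF.good (T' := (P E.1).t + H.ncard) (g := (P E.1).g) h0
    (δ := (P E.1).lam E.2.i) (by omega)
    (fun Y hY => (hC.satCore hP ((hY0.cls Y).2 hY)).shape) (Wb_mono _ (by omega)) (by omega)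
  obtain ⟨Ys, h4, h5⟩ := hg.avoid (toFinite H) (T' := (P E.1).t) le_rfl
  refine h.maxi E hC Ys (fun a => ?_) (fun a b hab hw => ?_)
  · obtain ⟨c1, ⟨c2, c3⟩, c4⟩ := h4 a
    have hm := (hY0.cls _).2 c1
    refine ⟨hm, fun z hz => ⟨(hm.gd_iff pos0 _).1 c3 z hz, fun E' a' hE' hlt hz' => ?_⟩⟩
    rcases le_or_gt E'.1 E.1 with c | c
    · exact c4 z (hH' E' a' z c (hW' E' a' z hE' hlt c hz' ⟨_, hm, c3, hz⟩) hz')
        (hz.le (by omega))
    · exact c2 c3 z hz E' a' hE' hlt c hz'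
  · rw [Bl, (h4 a).1.hubs_eq] at hw
    exact h5 a b hab hw

theorem Ev.Lt.sat_tm_lt {V : Type} {pos0 : V → ℕ} {enc : Ev P V → ℕ} {E E' : Ev P V}
    (h : Ev.Lt pos0 enc E' E) (hl : E.1 < E'.1) : E'.2.tm pos0 < E.2.tm pos0 := by
  rcases h with h | ⟨-, h | ⟨h, -⟩⟩
  · exact h
  · exact absurd hl (not_lt.2 h.le)
  · exact absurd hl (not_lt.2 h.le)

/-- The good balls of an event lie in the ball of an earlier planting of higher level that meets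
one of them. -/
theorem Built.sat_gb_bl (hP : Good P) (h : Built K pos0 enc s e) {E : Ev P (X.Φ.V K)}
    (hC : AllC K e E) {E' a z z'} (hE' : s.on E') (hlt : Ev.Lt pos0 enc E' E) (hl : E.1 < E'.1)
    (hz : z ∈ nhs E'.2.π.hb (s.Ys E' a)) (h1 : SatGB K pos0 E z) (h2 : SatGB K pos0 E z') :
    Bl (X.Φ.R K).adj E'.2.π.hb (s.Ys E' a) ((P E'.1).sg E'.2.i) z' := by
  have ht := hlt.sat_tm_lt hl
  obtain ⟨u0, v, hv, htm⟩ := E.2.exists_tm pos0 (by omega)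
  have w1 := h1.wr hP hC hv
  have w2 := h2.wr hP hC hv
  have h3 := hP.sg_ge E'.1 E'.2.i
  have h4 := hP.S_Rc E.1 E'.1 hl
  refine (((h.core hP hE' a).shape.bl hz).wk
    ((Wk.trans w1 (Wk.symm (X.Φ.R K).adj_symm w2)).mono ?_)).le (by omega)
  rintro y hy ⟨u, hu, rfl⟩
  have := E'.2.le_tm pos0 ((h.cand E' a hE').1.1 u hu)
  omega

/-- At most one earlier planting of higher level meets the good balls. -/
theorem Built.sat_uniq (hP : Good P) (h : Built K pos0 enc s e) {E : Ev P (X.Φ.V K)}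
    (hC : AllC K e E) {E1 a1 z1 E2 a2 z2} (hE1 : s.on E1) (hlt1 : Ev.Lt pos0 enc E1 E)
    (hl1 : E.1 < E1.1) (hz1 : z1 ∈ nhs E1.2.π.hb (s.Ys E1 a1)) (h1 : SatGB K pos0 E z1)
    (hE2 : s.on E2) (hlt2 : Ev.Lt pos0 enc E2 E) (hl2 : E.1 < E2.1)
    (hz2 : z2 ∈ nhs E2.2.π.hb (s.Ys E2 a2)) (h2 : SatGB K pos0 E z2) :
    z2 ∈ nhs E1.2.π.hb (s.Ys E1 a1) := by
  have b1 := h.sat_gb_bl hP hC hE1 hlt1 hl1 hz1 h1 h2
  have b2 := h.sat_gb_bl hP hC hE2 hlt2 hl2 hz2 h2 h1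
  rcases Ev.Lt.tri pos0 h.enc_inj E1 E2 with c | rfl | c
  · exact absurd hz1 (((h.cand E2 a2 hE2).2 z1 b2).2 E1 a1 hE1 c)
  · by_cases ca : a1 = a2
    · exact ca ▸ hz2
    · exact absurd (h.bl hP hE1 hz2) (h.not_bl hE1 ca b1)
  · exact absurd hz2 (((h.cand E1 a1 hE1).2 z2 b1).2 E2 a2 hE2 c)

theorem Built.sat_ev (hX : X.Ok) (hP : Good P) (h0 : Elim (X.Φ.R K).adj pos0 X.k)
    (h : Built K pos0 enc s e) {E : Ev P (X.Φ.V K)} (hC : AllC K e E) {Y0}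
    (hY0 : E.2.Mem (X.Φ.R K) Y0)
    (hF : Fm (X.Φ.R K) (P E.1).m E.2.π.hb Y0 ((P E.1).sg E.2.i) (2 * (P E.1).Th) fun _ => True) :
    Fm (X.Φ.R K) (P E.1).m E.2.π.hb Y0 ((P E.1).sg E.2.i) (P E.1).t
      (Wit (X.Φ.R K).adj e ((P E.1).sg E.2.i) E.2.π) := by
  by_cases hE : s.on E
  · refine ⟨s.Ys E, fun a => ⟨(hY0.cls _).1 (h.cand E a hE).1, h.wit hP hE a⟩,
      fun a b hab hw => h.far E hE a b hab ?_⟩
    rwa [Bl, ((hY0.cls _).1 (h.cand E a hE).1).hubs_eq]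
  by_cases hex : ∃ E' a z, s.on E' ∧ Ev.Lt pos0 enc E' E ∧ E.1 < E'.1 ∧
      z ∈ nhs E'.2.π.hb (s.Ys E' a) ∧ SatGB K pos0 E z
  swap
  · refine absurd (h.sat_on hX hP h0 hC hY0 (hF.mono (by omega) ?_)) hE
    exact fun Y hY _ hg z hz E' a hE' hlt hl hz' =>
      hex ⟨E', a, z, hE', hlt, hl, hz', Y, (hY0.cls Y).2 hY, hg, hz⟩
  obtain ⟨E', a', z', hE', hlt, hl, hz', hgb⟩ := hex
  have ht := hlt.sat_tm_lt hl
  have hsh : ∀ Y, Cls (X.Φ.R K) (P E.1).m E.2.π.hb Y0 Y →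
      Shape (X.Φ.R K).adj ((P E.1).lam E.2.i) E.2.π.hb Y :=
    fun Y hY => (hC.satCore hP ((hY0.cls Y).2 hY)).shape
  have h2 := hP.sg_ge E.1 E.2.i
  have h3 := hP.sg_S E.1 E.2.i E.2.i.2
  have hm' := (h.cand E' a' hE').1
  rcases ((hP.cond _ _ _ _ _ _ _).1 (h.cond hE' a')).2 E.1 hl E.2.i E.2.i.2 E.2.n
    (Nat.lt_succ_iff.1 E.2.n.2) E.2.π Y0 hsh hF with c | c | c | ⟨c, c'⟩
  · refine absurd (h.sat_on hX hP h0 hC hY0 (c.mono le_rfl ?_)) hE
    intro Y hY hav hg z hz E2 a2 hE2 hlt2 hl2 hz2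
    obtain ⟨b, hb, rfl⟩ := h.sat_uniq hP hC hE' hlt hl hz' hgb hE2 hlt2 hl2 hz2
      ⟨Y, (hY0.cls Y).2 hY, hg, hz⟩
    exact hav b hb hz
  · exfalso
    obtain ⟨Y, hY, ⟨u, hu, hb⟩, hg⟩ := (c.good (T' := 1) (g := (P E.1).g) h0
      (δ := (P E.1).lam E.2.i) (by omega) hsh (Wb_mono _ (by omega)) (by omega)).exists one_pos
    have h4 := (((hY0.cls Y).2 hY).gd_iff pos0 _).1 hg _ hb
    have h5 := E'.2.le_tm pos0 (hm'.1 u hu)
    omega
  · exfalso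
    obtain ⟨u0, v, hv, htm⟩ := E.2.exists_tm pos0 (by omega)
    obtain ⟨h4, rfl⟩ := hY0.some_iff.1 hv
    obtain ⟨u, hu, h5⟩ := c u0 h4
    have h6 := E'.2.le_tm pos0 (hm'.1 u hu)
    rw [h5] at h6
    omega
  · have hw := h.wit hP hE' a'
    have hs := (h.core hP hE' a').shape
    have h4 := hP.sg_ge E'.1 E'.2.i
    have h5 := hP.S_Rc E.1 E'.1 hl
    have h6 := hP.Rc_mono 0 E'.1 (Nat.zero_le _)
    have h7 := hP.R_le
    have h8 := hX.R0_le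
    refine (c' (actx (X.Φ.R K).adj e X.R0 E.2.π.hb Y0) (fun u d c0 => ?_) (fun Y hY => ?_)).mono
      le_rfl fun Y hY hsub => ?_
    · refine and_congr_right fun hu => ?_
      obtain ⟨b, -, hb⟩ := c u hu
      rw [← hb]
      exact (hw.ictx hs (by omega) b d c0).symm
    · rw [← hY0.ctx]
      exact hC Y ((hY0.cls Y).2 hY)
    · refine hsub.wit hw hs (hsh Y hY) (by omega) (fun u hu => ?_) (hC.satCore hP hY0).inn
      obtain ⟨b, -, hb⟩ := c u hu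
      exact ⟨b, hb.trans (hY.1 u hu).symm⟩

end aux

theorem Built.sat {pos0 : X.Φ.V K → ℕ} {enc : Ev P (X.Φ.V K) → ℕ} {s : Sel P (X.Φ.V K)}
    {e : Xp (X.Φ.V K) X.χ X.J} (hX : X.Ok) (hP : Good P) (h0 : Elim (X.Φ.R K).adj pos0 X.k)
    (h : Built K pos0 enc s e) {l : ℕ} (hl : l < X.Q) : Sat (P l) K e := by
  intro i hi n hn π Y0 hF hC
  obtain ⟨hh, τ, hm⟩ := EvL.exists_mem (P l) (X.Φ.R K) ⟨i, hi⟩ ⟨n, Nat.lt_succ_of_le hn⟩ π Y0
  have hY0 := (hm Y0).2 (Cls.refl _ _ _ _)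
  refine h.sat_ev hX hP h0
    (E := ⟨⟨l, hl⟩, ⟨⟨n, Nat.lt_succ_of_le hn⟩, ⟨i, hi⟩, π, hh, τ⟩⟩) (fun Y hY => ?_) hY0 hF
  rw [hY0.ctx]
  exact hC Y ((hm Y).1 hY)

theorem exists_rich (hX : X.Ok) (hP : Good P) (K : X.Φ.K) : ∃ e, Rich P K e := by
  rcases isEmpty_or_nonempty (X.Φ.V K) with hne | hne
  · exact rich_of_empty P K
  obtain ⟨pos0, h0⟩ := hX.wid K
  obtain ⟨enc, s, e, h⟩ := exists_built hX hP K hne h0.1
  exact ⟨e, h.fine hX hP h0, fun l _ => h.valid hX hP h0 l, fun l hl => h.sat hX hP h0 hl⟩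

end Pool.Agent.Work.MP_b730b2_lc.Full
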