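import Pool.Agent.Work.MP_b730b2_lc.Full.Fm

/-! The result of the planting process, and its first properties. -/

namespace Pool.Agent.Work.MP_b730b2_lc.Full

open Set

variable {σ : Type} {X : Cx σ}

/-- Events of all levels. -/
abbrev Ev (P : ℕ → Lv X) (V : Type) : Type := Σ l : Fin X.Q, EvL (P l) V

/-- The time of an event: just after its last hub. -/
noncomputable def EvL.tm {L : Lv X} {V : Type} (pos0 : V → ℕ) (E : EvL L V) : ℕ :=
  Finset.univ.sup fun u => (E.h u).elim 0 fun v => pos0 v + 1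

/-- The actual context of an event. -/
def EvL.ctx {L : Lv X} {V : Type} (adj : V → V → Prop) (e : Xp V X.χ X.J) (E : EvL L V) :
    Ctx X.χ X.R0 E.n := fun u d => {c | ∃ v, E.h u = some v ∧ ∃ z, WR adj e.pos d v z ∧ e.col z = c}

/-- The order in which events are processed. -/
def Ev.Lt {P : ℕ → Lv X} {V : Type} (pos0 : V → ℕ) (enc : Ev P V → ℕ) (E E' : Ev P V) : Prop :=
  E.2.tm pos0 < E'.2.tm pos0 ∨ (E.2.tm pos0 = E'.2.tm pos0 ∧
    (E.1 < E'.1 ∨ (E.1 = E'.1 ∧ enc E < enc E')))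

/-- A selection of tuples for some events. -/
structure Sel (P : ℕ → Lv X) (V : Type) where
  on : Ev P V → Prop
  Ys : ∀ E : Ev P V, Fin (P E.1).t → Fin (E.2.n + 1) → V

variable {P : ℕ → Lv X}

/-- Planted vertices. -/
def Sel.Pl {V : Type} (s : Sel P V) (v : V) : Prop :=
  ∃ E a, s.on E ∧ v ∈ nhs E.2.π.hb (s.Ys E a)

/-- Candidates: members whose ball is after the time of the event and misses earlier plantings. -/
def Sel.Cand {V : Type} (s : Sel P V) (A : Rl σ V) (pos0 : V → ℕ) (enc : Ev P V → ℕ) (E : Ev P V)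
    (Y : Fin (E.2.n + 1) → V) : Prop :=
  E.2.Mem A Y ∧ ∀ z, Bl A.adj E.2.π.hb Y ((P E.1).sg E.2.i) z → E.2.tm pos0 ≤ pos0 z ∧
    ∀ E' a, s.on E' → Ev.Lt pos0 enc E' E → z ∉ nhs E'.2.π.hb (s.Ys E' a)

/-- Far families. -/
def Far {V : Type} (adj : V → V → Prop) {n T : ℕ} (hb : Fin (n + 1) → Prop) (sg : ℕ)
    (Ys : Fin T → Fin (n + 1) → V) : Prop := ∀ a b, a ≠ b → ¬ Bl adj hb (Ys a) (6 * sg) (Ys b 0)

/-- All members of the event satisfy the condition in the actual context. -/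
def AllC (K : X.Φ.K) (e : Xp (X.Φ.V K) X.χ X.J) (E : Ev P (X.Φ.V K)) : Prop :=
  ∀ Y, E.2.Mem (X.Φ.R K) Y → (P E.1).C K E.2.i E.2.n Y E.2.π (E.2.ctx (X.Φ.R K).adj e)

/-- The outcome of the planting process. -/
structure Built (K : X.Φ.K) (pos0 : X.Φ.V K → ℕ) (enc : Ev P (X.Φ.V K) → ℕ)
    (s : Sel P (X.Φ.V K)) (e : Xp (X.Φ.V K) X.χ X.J) : Prop where
  enc_inj : Function.Injective enc
  inj : Function.Injective e.pos
  cand : ∀ E a, s.on E → s.Cand (X.Φ.R K) pos0 enc E (s.Ys E a)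
  far : ∀ E, s.on E → Far (X.Φ.R K).adj E.2.π.hb ((P E.1).sg E.2.i) (s.Ys E)
  allC : ∀ E, s.on E → AllC K e E
  maxi : ∀ E, AllC K e E → ∀ Ys : Fin (P E.1).t → Fin (E.2.n + 1) → X.Φ.V K,
    (∀ a, s.Cand (X.Φ.R K) pos0 enc E (Ys a)) →
    Far (X.Φ.R K).adj E.2.π.hb ((P E.1).sg E.2.i) Ys → s.on E
  o1 : ∀ x y, ¬ s.Pl x → ¬ s.Pl y → (e.pos x < e.pos y ↔ pos0 x < pos0 y)
  o2 : ∀ E a x y, s.on E → x ∈ nhs E.2.π.hb (s.Ys E a) → ¬ s.Pl y →
    (e.pos x < e.pos y ↔ E.2.tm pos0 ≤ pos0 y)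
  o3 : ∀ E a x E' a' y, s.on E → s.on E' → x ∈ nhs E.2.π.hb (s.Ys E a) →
    y ∈ nhs E'.2.π.hb (s.Ys E' a') → Ev.Lt pos0 enc E E' → e.pos x < e.pos y
  o4 : ∀ E a a' x y, s.on E → x ∈ nhs E.2.π.hb (s.Ys E a) → y ∈ nhs E.2.π.hb (s.Ys E a') →
    a < a' → e.pos x < e.pos y
  o5 : ∀ E a b b', s.on E → ¬ E.2.π.hb b → ¬ E.2.π.hb b' → b < b' →
    e.pos (s.Ys E a b) < e.pos (s.Ys E a b')
  col1 : ∀ E a b, s.on E → ¬ E.2.π.hb b → e.col (s.Ys E a b) = E.2.π.cl b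
  col2 : ∀ v, ¬ s.Pl v → (∃ c, ∀ u, WR (X.Φ.R K).adj e.pos X.R0 v u → u ≠ v → e.col u ≠ c) →
    ∀ u, WR (X.Φ.R K).adj e.pos X.R0 v u → u ≠ v → e.col u ≠ e.col v
  f1 : ∀ E a b j, s.on E → E.2.π.inn b → e.f (s.Ys E a b) j = (E.2.π.ch b j).map (s.Ys E a)
  f2 : ∀ v, (∃ E a b, s.on E ∧ E.2.π.inn b ∧ s.Ys E a b = v) ∨ X.Val K v (e.f v)

theorem EvL.le_tm {L : Lv X} {V : Type} (pos0 : V → ℕ) (E : EvL L V) {u v} (h : E.h u = some v) :
    pos0 v + 1 ≤ E.tm pos0 := by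
  have := Finset.le_sup (f := fun u => (E.h u).elim 0 fun v => pos0 v + 1) (Finset.mem_univ u)
  simp only [h, Option.elim_some] at this
  exact this

theorem EvL.exists_tm {L : Lv X} {V : Type} (pos0 : V → ℕ) (E : EvL L V) (h : 0 < E.tm pos0) :
    ∃ u v, E.h u = some v ∧ E.tm pos0 = pos0 v + 1 := by
  obtain ⟨u, -, hu⟩ := Finset.exists_mem_eq_sup Finset.univ Finset.univ_nonempty
    (fun u => (E.h u).elim 0 fun v => pos0 v + 1)
  rw [EvL.tm, hu] at h ⊢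
  rcases e : E.h u with _ | v
  · simp [e] at h
  · exact ⟨u, v, e, rfl⟩

theorem EvL.Mem.some_iff {L : Lv X} {V : Type} {A : Rl σ V} {E : EvL L V}
    {Y : Fin (E.n + 1) → V} (h : E.Mem A Y) {u v} : E.h u = some v ↔ E.π.hb u ∧ Y u = v := by
  by_cases c : E.π.hb u
  · simp [h.1 u c, c]
  · simp [h.2.1 u c, c]

theorem EvL.Mem.ctx {L : Lv X} {V : Type} {A : Rl σ V} {E : EvL L V} {Y : Fin (E.n + 1) → V}
    (h : E.Mem A Y) (adj : V → V → Prop) (e : Xp V X.χ X.J) :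
    E.ctx adj e = actx adj e X.R0 E.π.hb Y := by
  funext u d
  ext c
  simp only [EvL.ctx, actx, h.some_iff, mem_ofPred_eq]
  exact ⟨fun ⟨_, ⟨h1, h2⟩, h3⟩ => ⟨h1, h2 ▸ h3⟩, fun ⟨h1, h3⟩ => ⟨_, ⟨h1, rfl⟩, h3⟩⟩

/-- Being good means lying after the time of the event. -/
theorem EvL.Mem.gd_iff {L : Lv X} {V : Type} {A : Rl σ V} {E : EvL L V} {Y : Fin (E.n + 1) → V}
    (h : E.Mem A Y) (pos0 : V → ℕ) (sg : ℕ) :
    Gd A.adj pos0 E.π.hb sg Y ↔ ∀ z, Bl A.adj E.π.hb Y sg z → E.tm pos0 ≤ pos0 z := by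
  constructor
  · intro hg z hz
    rcases Nat.eq_zero_or_pos (E.tm pos0) with c | c
    · omega
    · obtain ⟨u, v, h1, h2⟩ := E.exists_tm pos0 c
      obtain ⟨h3, rfl⟩ := h.some_iff.1 h1
      exact h2 ▸ hg z u hz h3
  · exact fun hg z u hz hu => (E.le_tm pos0 (h.1 u hu)).trans (hg z hz)

theorem Ev.Lt.tri {V : Type} (pos0 : V → ℕ) {enc : Ev P V → ℕ} (h : Function.Injective enc)
    (E E' : Ev P V) : Ev.Lt pos0 enc E E' ∨ E = E' ∨ Ev.Lt pos0 enc E' E := by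
  by_cases c : E = E'
  · exact Or.inr (Or.inl c)
  · have := h.ne c
    simp only [Ev.Lt, Fin.lt_def, Fin.ext_iff]
    omega

theorem Ev.Lt.tm_le {V : Type} {pos0 : V → ℕ} {enc : Ev P V → ℕ} {E E' : Ev P V}
    (h : Ev.Lt pos0 enc E E') : E.2.tm pos0 ≤ E'.2.tm pos0 := by
  rcases h with h | h
  · exact h.le
  · exact h.1.le

variable {K : X.Φ.K} {pos0 : X.Φ.V K → ℕ} {enc : Ev P (X.Φ.V K) → ℕ} {s : Sel P (X.Φ.V K)}
  {e : Xp (X.Φ.V K) X.χ X.J}

theorem Built.cond (h : Built K pos0 enc s e) {E} (hE : s.on E) (a) :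
    (P E.1).C K E.2.i E.2.n (s.Ys E a) E.2.π
      (actx (X.Φ.R K).adj e X.R0 E.2.π.hb (s.Ys E a)) := by
  rw [← (h.cand E a hE).1.ctx]
  exact h.allC E hE _ (h.cand E a hE).1

theorem Built.core (hP : Good P) (h : Built K pos0 enc s e) {E} (hE : s.on E) (a) :
    Core X K {p | ∃ l' ≤ E.1.1, p = ((P l').Rc, (P l').κ)} (P E.1).Rc ((P E.1).lam E.2.i)
      (s.Ys E a) E.2.π (actx (X.Φ.R K).adj e X.R0 E.2.π.hb (s.Ys E a)) :=
  ((hP.cond _ _ _ _ _ _ _).1 (h.cond hE a)).1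

theorem Built.bl (hP : Good P) (h : Built K pos0 enc s e) {E} (hE : s.on E) {a x}
    (hx : x ∈ nhs E.2.π.hb (s.Ys E a)) :
    Bl (X.Φ.R K).adj E.2.π.hb (s.Ys E a) ((P E.1).sg E.2.i) x :=
  ((h.core hP hE a).shape.bl hx).le (by have := hP.sg_ge E.1 E.2.i; omega)

/-- A planted vertex is after the time of its event in the base order. -/
theorem Built.tm_le (hP : Good P) (h : Built K pos0 enc s e) {E} (hE : s.on E) {a x}
    (hx : x ∈ nhs E.2.π.hb (s.Ys E a)) : E.2.tm pos0 ≤ pos0 x :=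
  ((h.cand E a hE).2 x (h.bl hP hE hx)).1

/-- The balls of different tuples of an event are disjoint. -/
theorem Built.not_bl (h : Built K pos0 enc s e) {E} (hE : s.on E) {a a' z} (ha : a ≠ a')
    (h1 : Bl (X.Φ.R K).adj E.2.π.hb (s.Ys E a) ((P E.1).sg E.2.i) z) :
    ¬ Bl (X.Φ.R K).adj E.2.π.hb (s.Ys E a') ((P E.1).sg E.2.i) z := by
  intro h2
  have c := ((h.cand E a hE).1.cls _).1 (h.cand E a' hE).1
  rw [Bl, c.hubs_eq] at h2
  exact h.far E hE a a' ha ((h1.wk (h2.symm (X.Φ.R K).adj_symm)).le (by omega))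

/-- A vertex which is before a planted vertex or its time. -/
theorem Built.lt_of_tm (hP : Good P) (h : Built K pos0 enc s e) {E} (hE : s.on E) {a x y}
    (hx : x ∈ nhs E.2.π.hb (s.Ys E a)) (hy : pos0 y < E.2.tm pos0) : e.pos y < e.pos x := by
  have hne : y ≠ x := by
    rintro rfl
    exact absurd (h.tm_le hP hE hx) (not_le.2 hy)
  by_cases c : s.Pl y
  · obtain ⟨E', a', hE', hy'⟩ := c
    exact h.o3 E' a' y E a x hE' hE hy' hx (Or.inl ((h.tm_le hP hE' hy').trans_lt hy))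
  · have := (h.o2 E a x y hE hx c).not.2 (not_le.2 hy)
    exact lt_of_le_of_ne (not_lt.1 this) fun e' => hne (h.inj e')

/-- A vertex that is before `v` in the new order but not in the base order was planted early. -/
theorem Built.lt_cases (hP : Good P) (h : Built K pos0 enc s e) {u v} (huv : e.pos u < e.pos v) :
    pos0 u < pos0 v ∨ ∃ E a, s.on E ∧ u ∈ nhs E.2.π.hb (s.Ys E a) ∧ E.2.tm pos0 ≤ pos0 v := by
  by_cases cu : s.Pl u
  · obtain ⟨E, a, hE, hu⟩ := cu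
    refine Or.inr ⟨E, a, hE, hu, ?_⟩
    by_contra c
    exact absurd (h.lt_of_tm hP hE hu (not_le.1 c)) (not_lt.2 huv.le)
  · left
    by_cases cv : s.Pl v
    · obtain ⟨E, a, hE, hv⟩ := cv
      have := (h.o2 E a v u hE hv cu).not.1 (not_lt.2 huv.le)
      exact (not_le.1 this).trans_le (h.tm_le hP hE hv)
    · exact (h.o1 u v cu cv).1 huv

/-- Planted tuples are witnesses. -/
theorem Built.wit (hP : Good P) (h : Built K pos0 enc s e) {E} (hE : s.on E) (a) :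
    Wit (X.Φ.R K).adj e ((P E.1).sg E.2.i) E.2.π (s.Ys E a) := by
  have hc := h.cand E a hE
  refine ⟨fun b b' hb hb' => h.o5 E a b b' hE hb hb', fun z b hz hb hle => ?_,
    fun z u hz hu => ?_, fun b hb => h.col1 E a b hE hb, fun b j hb => h.f1 E a b j hE hb⟩
  · have hx : s.Ys E a b ∈ nhs E.2.π.hb (s.Ys E a) := ⟨b, hb, rfl⟩
    by_cases c : s.Pl z
    · obtain ⟨E', a', hE', hz'⟩ := c
      rcases Ev.Lt.tri pos0 h.enc_inj E E' with c | rfl | c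
      · exact absurd (h.o3 E a _ E' a' z hE hE' hx hz' c) (not_lt.2 hle)
      · by_cases ca : a = a'
        · exact ca ▸ hz'
        · exact absurd (h.bl hP hE hz') (h.not_bl hE ca hz)
      · exact absurd hz' ((hc.2 z hz).2 E' a' hE' c)
    · exact absurd ((h.o2 E a _ z hE hx c).2 (hc.2 z hz).1) (not_lt.2 hle)
  · have h1 := E.2.le_tm pos0 (hc.1.1 u hu)
    have h2 := (hc.2 z hz).1
    by_cases c : s.Pl z
    · obtain ⟨E', a', hE', hz'⟩ := c
      refine h.lt_of_tm hP hE' hz' ?_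
      rcases Ev.Lt.tri pos0 h.enc_inj E E' with c | rfl | c
      · have := c.tm_le; omega
      · omega
      · exact absurd hz' ((hc.2 z hz).2 E' a' hE' c)
    · by_cases c' : s.Pl (s.Ys E a u)
      · obtain ⟨E', a', hE', hz'⟩ := c'
        have := h.tm_le hP hE' hz'
        exact (h.o2 E' a' _ z hE' hz' c).2 (by omega)
      · exact (h.o1 _ z c' c).2 (by omega)

end Pool.Agent.Work.MP_b730b2_lc.Full
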