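import Pool.Agent.Work.MP_b730b2_lc.Full.Walk

/-! The closure operator with small projections.

Proof plan. Call `z` an ancestor of `x` if `∃ n, WR adj pos n x z`. Ancestors of `x` form a chain
(`WR.both`). Let `L X` be the set of all `z` that are, for some `x, x' ∈ X`, the common ancestor of
`x, x'` of largest `pos` (so `X ⊆ L X`). `cl X = ⋃ z ∈ L X, insert z (SR adj pos z)`.
Size: `|L X| ≤ 2 |X|` by induction on `X`: inserting `x` adds only `x` and the highest of the
`lca(x, x')`, since for `x''` with lower `lca(x,x'')` one has `lca(x,x'') = lca(x',x'')`.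
Projection: let `v ∉ cl X`, `C` its component in the complement of `cl X`, `m` the `pos`-least
element of `C`; every element of `C` is a descendant of `m`. An attachment `u` with
`pos u < pos m` lies in `SR m`. Otherwise `u` is a descendant of `m`, `u ∈ insert z (SR z)` with
`z ∈ L X` a descendant of `m`. The elements of `L X` that are descendants of `m` are all
descendants of the `pos`-least such `z0` (two of them have their lca in `L X` and it is a
descendant of `m`). A vertex outside `desc z0` adjacent to `desc z0` is in `SR z0 ⊆ cl X`, and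
`m ∉ desc z0`, so `C` misses `desc z0` and has no neighbour in it; hence `u ∉ desc z0`,
so `u ∈ SR z` and then `u ∈ SR z0`. So the projection is inside `SR m ∪ SR z0`. -/

namespace Pool.Agent.Work.MP_b730b2_lc.Full

open Set

section ClosAux

variable {V : Type} {adj : V → V → Prop} {pos : V → ℕ}

/-- `z` is an ancestor of `x`. -/
def ClAn (adj : V → V → Prop) (pos : V → ℕ) (x z : V) : Prop := ∃ n, WR adj pos n x z

theorem ClAn.refl (x : V) : ClAn adj pos x x := ⟨0, WR.refl⟩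

theorem ClAn.trans {x y z : V} (h : ClAn adj pos x y) (h' : ClAn adj pos y z) :
    ClAn adj pos x z :=
  let ⟨_, h1⟩ := h; let ⟨_, h2⟩ := h'; ⟨_, h1.trans h2⟩

theorem ClAn.pos_le {x z : V} (h : ClAn adj pos x z) : pos z ≤ pos x :=
  let ⟨_, h1⟩ := h; h1.pos_le

theorem ClAn.both (hs : ∀ a b, adj a b → adj b a) {x u u' : V} (h : ClAn adj pos x u)
    (h' : ClAn adj pos x u') (hu : pos u' ≤ pos u) : ClAn adj pos u u' :=
  let ⟨_, h1⟩ := h; let ⟨_, h2⟩ := h'; ⟨_, h1.both hs h2 hu⟩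

theorem ClAn.head {x y z : V} (e : adj x y) (h : ClAn adj pos y z) (hx : pos z ≤ pos x) :
    ClAn adj pos x z :=
  let ⟨n, h1⟩ := h; ⟨n + 1, Wk.head (P := fun w => pos z ≤ pos w) hx e h1⟩

/-- A non-descendant adjacent to a descendant is strongly reachable. -/
theorem ClAn.mem_SR (hs : ∀ a b, adj a b → adj b a) {y t z : V} (hy : ¬ ClAn adj pos y z)
    (e : adj y t) (ht : ClAn adj pos t z) : y ∈ SR adj pos z := by
  refine ⟨not_le.1 fun c => hy (ClAn.head e ht c), ?_⟩
  obtain ⟨n, h1⟩ := ht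
  exact ⟨n, t, Wk.symm hs h1, hs _ _ e⟩

theorem ClAn.of_SR {u z : V} (h : u ∈ SR adj pos z) : ClAn adj pos z u := by
  obtain ⟨h1, n, y, h2, e⟩ := h
  exact ⟨n + 1, Wk.step (h2.mono fun _ hv => h1.le.trans hv) e le_rfl⟩

/-- `z` is the highest common ancestor of `x` and `x'`. -/
def ClLca (adj : V → V → Prop) (pos : V → ℕ) (x x' z : V) : Prop :=
  ClAn adj pos x z ∧ ClAn adj pos x' z ∧
    ∀ w, ClAn adj pos x w → ClAn adj pos x' w → pos w ≤ pos z

theorem ClLca.symm {x x' z : V} (h : ClLca adj pos x x' z) : ClLca adj pos x' x z :=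
  ⟨h.2.1, h.1, fun w h1 h2 => h.2.2 w h2 h1⟩

theorem ClLca.self (x : V) : ClLca adj pos x x x :=
  ⟨ClAn.refl x, ClAn.refl x, fun _ h _ => h.pos_le⟩

theorem ClLca.exists [Finite V] {x x' m : V} (h : ClAn adj pos x m) (h' : ClAn adj pos x' m) :
    ∃ w, ClLca adj pos x x' w := by
  obtain ⟨w, hw, hm⟩ := Set.exists_max_image {w | ClAn adj pos x w ∧ ClAn adj pos x' w} pos
    (toFinite _) ⟨m, h, h'⟩
  exact ⟨w, hw.1, hw.2, fun w' h1 h2 => hm w' ⟨h1, h2⟩⟩

/-- The closure under highest common ancestors. -/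
def ClL (adj : V → V → Prop) (pos : V → ℕ) (X : Set V) : Set V :=
  {z | ∃ x ∈ X, ∃ x' ∈ X, ClLca adj pos x x' z}

theorem ClL_mono {X Y : Set V} (h : X ⊆ Y) : ClL adj pos X ⊆ ClL adj pos Y := by
  rintro z ⟨x, hx, x', hx', hz⟩
  exact ⟨x, h hx, x', h hx', hz⟩

theorem subset_ClL (X : Set V) : X ⊆ ClL adj pos X :=
  fun x hx => ⟨x, hx, x, hx, ClLca.self x⟩

theorem ClL_card [Finite V] (hs : ∀ a b, adj a b → adj b a) (hp : Function.Injective pos)
    (X : Set V) : (ClL adj pos X).ncard ≤ 2 * X.ncard := by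
  induction X, toFinite X using Set.Finite.induction_on with
  | empty =>
    have : ClL adj pos (∅ : Set V) = ∅ := by
      ext z; simp [ClL]
    simp [this]
  | @insert x X hx hX ih =>
    let T : Set V := {z | ∃ x' ∈ X, ClLca adj pos x x' z}
    let H : Set V := {h | h ∈ T ∧ ∀ z ∈ T, pos z ≤ pos h}
    have hH : H.ncard ≤ 1 := by
      rw [ncard_le_one (toFinite H)]
      intro a ha b hb
      exact hp (le_antisymm (hb.2 a ha.1) (ha.2 b hb.1))
    have key : ∀ z ∈ T, z ∈ ClL adj pos X ∪ H := by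
      intro z hz
      obtain ⟨h, hh, hm⟩ := Set.exists_max_image T pos (toFinite _) ⟨z, hz⟩
      by_cases c : pos h ≤ pos z
      · exact Or.inr ⟨hz, fun z' hz' => (hm z' hz').trans c⟩
      · left
        obtain ⟨x'', hx'', hz'⟩ := hz
        obtain ⟨x', hx', hh'⟩ := hh
        have hhz : ClAn adj pos h z := hh'.1.both hs hz'.1 (by omega)
        refine ⟨x', hx', x'', hx'', hh'.2.1.trans hhz, hz'.2.1, fun w h1 h2 => ?_⟩
        by_cases c' : pos w ≤ pos h
        · exact hz'.2.2 w (hh'.1.trans (hh'.2.1.both hs h1 c')) h2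
        · exact absurd (hz'.2.2 h hh'.1 (h2.trans (h1.both hs hh'.2.1 (by omega)))) c
    have sub : ClL adj pos (insert x X) ⊆ insert x (ClL adj pos X ∪ H) := by
      rintro z ⟨a, ha, b, hb, hz⟩
      rcases ha with rfl | ha
      · rcases hb with rfl | hb
        · exact Or.inl (hp (le_antisymm hz.1.pos_le (hz.2.2 _ (ClAn.refl _) (ClAn.refl _))))
        · exact Or.inr (key z ⟨b, hb, hz⟩)
      · rcases hb with rfl | hb
        · exact Or.inr (key z ⟨a, ha, hz.symm⟩)
        · exact Or.inr (Or.inl ⟨a, ha, b, hb, hz⟩)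
    have h1 := ncard_le_ncard sub
    have h2 := ncard_insert_le x (ClL adj pos X ∪ H)
    have h3 := ncard_union_le (ClL adj pos X) H
    rw [ncard_insert_of_notMem hx hX]
    omega

/-- The closure operator. -/
def ClCl (adj : V → V → Prop) (pos : V → ℕ) (X : Set V) : Set V :=
  ⋃ z ∈ ClL adj pos X, insert z (SR adj pos z)

theorem ClCl_proj [Finite V] (hs : ∀ a b, adj a b → adj b a) (hp : Function.Injective pos)
    (Z : Set V) (v : V) (hv : v ∉ ClCl adj pos Z) : ∃ m z0 : V,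
    {u | u ∈ ClCl adj pos Z ∧ ∃ n, Att adj (fun y => y ∉ ClCl adj pos Z) n v u} ⊆
      SR adj pos m ∪ SR adj pos z0 := by
  let C : Set V := {y | ∃ n, Wk adj (fun y => y ∉ ClCl adj pos Z) n v y}
  obtain ⟨m, ⟨nm, hm⟩, hmin⟩ := Set.exists_min_image C pos (toFinite _) ⟨v, 0, Wk.refl hv⟩
  have hC : ∀ y ∈ C, ClAn adj pos y m := by
    rintro y ⟨n, hy⟩
    refine ⟨n + nm, ((hy.symm hs).trans hm).of_ball fun w hw => hmin w ⟨_, hy.trans hw⟩⟩
  -- every attachment is in `SR m` or belongs to the part of a descendant of `m`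
  have first : ∀ u, u ∈ ClCl adj pos Z → ∀ y ∈ C, adj y u → u ∈ SR adj pos m ∨
      ∃ z ∈ ClL adj pos Z, ClAn adj pos z m ∧ u ∈ insert z (SR adj pos z) := by
    intro u hu y hy e
    by_cases c : ClAn adj pos u m
    · right
      obtain ⟨z, hz, hu'⟩ := mem_iUnion₂.1 hu
      refine ⟨z, hz, ?_, hu'⟩
      rcases hu' with rfl | hu'
      · exact c
      · exact (ClAn.of_SR hu').trans c
    · exact Or.inl (ClAn.mem_SR hs c (hs _ _ e) (hC y hy))
  by_cases hD : {z | z ∈ ClL adj pos Z ∧ ClAn adj pos z m}.Nonempty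
  · obtain ⟨z0, ⟨hz0, hz0m⟩, hmin0⟩ := Set.exists_min_image _ pos (toFinite _) hD
    have hdesc : ∀ z ∈ ClL adj pos Z, ClAn adj pos z m → ClAn adj pos z z0 := by
      intro z hz hzm
      have hle := hmin0 z ⟨hz, hzm⟩
      obtain ⟨a, ha, b, hb, hab⟩ := hz
      obtain ⟨c, hc, d, hd, hcd⟩ := hz0
      have ham := hab.1.trans hzm
      have hcm := hcd.1.trans hz0m
      obtain ⟨w, hw⟩ := ClLca.exists ham hcm
      have hwm : ClAn adj pos w m := hw.1.both hs ham (hw.2.2 m ham hcm)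
      have hwz : ClAn adj pos w z0 :=
        hw.2.1.both hs hcd.1 (hmin0 w ⟨⟨a, ha, c, hc, hw⟩, hwm⟩)
      exact hab.1.both hs (hw.1.trans hwz) hle
    have hSR : SR adj pos z0 ⊆ ClCl adj pos Z :=
      fun y hy => mem_iUnion₂.2 ⟨z0, hz0, Or.inr hy⟩
    have hmz : ¬ ClAn adj pos m z0 := by
      intro c
      have e : m = z0 := hp (le_antisymm hz0m.pos_le c.pos_le)
      exact hm.lst (mem_iUnion₂.2 ⟨z0, hz0, Or.inl e⟩)
    have hwalk : ∀ n a b, Wk adj (fun y => y ∉ ClCl adj pos Z) n a b →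
        ¬ ClAn adj pos a z0 → ¬ ClAn adj pos b z0 := by
      intro n a b h
      induction h with
      | refl _ => exact id
      | step h e _ ih => exact fun ha c => h.lst (hSR (ClAn.mem_SR hs (ih ha) e c))
    refine ⟨m, z0, ?_⟩
    rintro u ⟨hu, n, y, hy, e⟩
    rcases first u hu y ⟨n, hy⟩ e with h | ⟨z, hz, hzm, h⟩
    · exact Or.inl h
    · right
      have hyz : ¬ ClAn adj pos y z0 := hwalk _ _ _ ((hm.symm hs).trans hy) hmz
      have huz : ¬ ClAn adj pos u z0 := fun c => hy.lst (hSR (ClAn.mem_SR hs hyz e c))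
      rcases h with rfl | h
      · exact absurd (hdesc _ hz hzm) huz
      · obtain ⟨_, n', y', h2, e'⟩ := h
        exact ClAn.mem_SR hs huz (hs _ _ e')
          (ClAn.trans ⟨n', Wk.symm hs h2⟩ (hdesc z hz hzm))
  · refine ⟨m, m, ?_⟩
    rintro u ⟨hu, n, y, hy, e⟩
    rcases first u hu y ⟨n, hy⟩ e with h | ⟨z, hz, hzm, _⟩
    · exact Or.inl h
    · exact absurd ⟨z, hz, hzm⟩ hD

end ClosAux

theorem exists_cl {V : Type} [Finite V] {adj : V → V → Prop} (hs : ∀ a b, adj a b → adj b a)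
    {pos : V → ℕ} {k : ℕ} (h : Elim adj pos k) :
    ∃ cl : Set V → Set V, Monotone cl ∧ (∀ Z, Z ⊆ cl Z) ∧
      (∀ Z, (cl Z).ncard ≤ 2 * (k + 1) * Z.ncard) ∧
      ∀ Z v, v ∉ cl Z →
        {u | u ∈ cl Z ∧ ∃ n, Att adj (fun y => y ∉ cl Z) n v u}.ncard ≤ 2 * k + 1 := by
  refine ⟨ClCl adj pos, fun X Y hXY => biUnion_subset_biUnion_left (ClL_mono hXY),
    fun Z x hx => mem_iUnion₂.2 ⟨x, subset_ClL Z hx, Or.inl rfl⟩, fun Z => ?_, fun Z v hv => ?_⟩
  · refine (ncard_biUnion_le _ (toFinite _) _ (k + 1) fun z _ =>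
      (ncard_insert_le _ _).trans (Nat.add_le_add_right (h.2 z) 1)).trans ?_
    calc (ClL adj pos Z).ncard * (k + 1) ≤ 2 * Z.ncard * (k + 1) :=
          Nat.mul_le_mul_right _ (ClL_card hs h.1 Z)
      _ = 2 * (k + 1) * Z.ncard := by ring
  · obtain ⟨m, z0, hsub⟩ := ClCl_proj hs h.1 Z v hv
    have h1 := ncard_le_ncard hsub
    have h2 := ncard_union_le (SR adj pos m) (SR adj pos z0)
    have h3 := h.2 m
    have h4 := h.2 z0
    omega

end Pool.Agent.Work.MP_b730b2_lc.Full
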