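import Pool.Agent.Work.MP_b730b2_lc.Full.Fm
import Pool.Agent.Work.MP_b730b2_lc.Full.Clos

/-! Existence of chains of bounded size.

Proof plan. One step: for a set `Z` of size `≤ s` let `Dm Z` contain, for every event
`E : EvL L V` with hubs in `Z` (at most `L.EB s` many by `EvL.count`; for given `hb` use any pattern
with these hub flags, `EvL.exists_mem`) having a member `Y0` without `Fm .. (2 * L.Th) ⊤`, the
centres of a far family of maximal size (`< 2 * L.Th`). By maximality the centre of every member is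
within `6 * sg` of one of these centres (otherwise extend the family by `Fin.cons`; walks are
symmetric and `hubs` only depends on the class). Put
`Z' = cl (Z ∪ WR-closure of Z at radius Rc ∪ values of f on Z ∪ Dm Z)` with `cl` from `exists_cl`;
`WR_bound` bounds the second set. Start with `cl Z0` and iterate `L.D` times; the bound is the
iterate of `s ↦ 2 (k+1) (s + s * Wb κ Rc + s * card J + EB s * (2 Th))`, which is monotone enough
because `EvL.count` holds for any upper bound `w`. The bound must not depend on `L.n1`, `L.M`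
(it is used to choose them), which is automatic from the form of the statement. -/

namespace Pool.Agent.Work.MP_b730b2_lc.Full

open Set

/-- The centres of a maximal far family dominate the class. -/
theorem Fm.maximal {σ V : Type} {n : ℕ} {A : Rl σ V} {m sg : ℕ} {hb : Fin (n + 1) → Prop}
    {Y1 : Fin (n + 1) → V} : ∀ T : ℕ, ¬ Fm A m hb Y1 sg T (fun _ => True) →
      ∃ S : Set V, S.ncard ≤ T ∧ ∀ Y, Cls A m hb Y1 Y → ∃ z ∈ S, Bl A.adj hb Y (6 * sg) z
  | 0, h => absurd Fm.zero h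
  | T + 1, h => by
    by_cases c : Fm A m hb Y1 sg T (fun _ => True)
    · obtain ⟨Ys, h1, h2⟩ := c
      refine ⟨(fun a => Ys a 0) '' univ, ?_, fun Y hY => ?_⟩
      · refine (ncard_image_le (toFinite _)).trans ?_
        simp [ncard_univ]
      · by_contra bad
        have far : ∀ a, ¬ Wk A.adj (fun v => v ∉ hubs hb Y1) (6 * sg) (Y 0) (Ys a 0) := by
          intro a w
          refine bad ⟨_, ⟨a, trivial, rfl⟩, ?_⟩
          rwa [Bl, hY.hubs_eq]
        refine h ⟨Fin.cons Y Ys, fun a => ?_, fun a b => ?_⟩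
        · exact Fin.cases ⟨hY, trivial⟩ (fun a => h1 a) a
        · refine Fin.cases ?_ (fun a => ?_) a <;> refine Fin.cases ?_ (fun b => ?_) b
          · exact fun h => absurd rfl h
          · exact fun _ => far b
          · exact fun _ w => far a (w.symm A.adj_symm)
          · exact fun hab => h2 a b fun e => hab (congrArg Fin.succ e)
    · obtain ⟨S, h1, h2⟩ := Fm.maximal T c
      exact ⟨S, h1.trans (Nat.le_succ T), h2⟩

theorem exists_dom {σ : Type} {X : Cx σ} (hX : X.Ok) (L : Lv X) (K : X.Φ.K)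
    (Z : Set (X.Φ.V K)) :
    ∃ Dm, Dom L K Z Dm ∧ ∀ s, Z.ncard ≤ s → Dm.ncard ≤ L.EB s * (2 * L.Th) := by
  have := hX.finσ
  have := hX.finJ
  have key : ∀ E : EvL L (X.Φ.V K), ∃ S : Set (X.Φ.V K), S.ncard ≤ 2 * L.Th ∧
      ∀ Y0, E.Mem (X.Φ.R K) Y0 →
        Fm (X.Φ.R K) L.m E.π.hb Y0 (L.sg E.i) (2 * L.Th) (fun _ => True) ∨
          ∃ z ∈ S, Bl (X.Φ.R K).adj E.π.hb Y0 (6 * L.sg E.i) z := by
    intro E
    by_cases c : ∃ Y1, E.Mem (X.Φ.R K) Y1 ∧
        ¬ Fm (X.Φ.R K) L.m E.π.hb Y1 (L.sg E.i) (2 * L.Th) (fun _ => True)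
    · obtain ⟨Y1, h1, h2⟩ := c
      obtain ⟨S, h3, h4⟩ := Fm.maximal _ h2
      exact ⟨S, h3, fun Y0 h0 => Or.inr (h4 Y0 ((h1.cls Y0).1 h0))⟩
    · refine ⟨∅, by simp, fun Y0 h0 => Or.inl ?_⟩
      by_contra h
      exact c ⟨Y0, h0, h⟩
  choose S hS hS' using key
  refine ⟨⋃ E ∈ {E : EvL L (X.Φ.V K) | ∀ u v, E.h u = some v → v ∈ Z}, S E, ?_, fun s hs => ?_⟩
  · intro i hi n hn hb Y0 h0
    let π : Pat X.χ X.J n :=
      ⟨hb, fun _ => ⟨0, lt_of_le_of_lt (Nat.zero_le _) hX.chi⟩, fun _ => False, fun _ _ => none⟩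
    obtain ⟨h, τ, hE⟩ := EvL.exists_mem L (X.Φ.R K) ⟨i, hi⟩ ⟨n, Nat.lt_succ_of_le hn⟩ π Y0
    have hm := (hE Y0).2 (Cls.refl _ _ _ _)
    rcases hS' ⟨⟨n, Nat.lt_succ_of_le hn⟩, ⟨i, hi⟩, π, h, τ⟩ Y0 hm with h' | ⟨z, h1, h2⟩
    · exact Or.inl h'
    right
    refine ⟨z, mem_biUnion (x := ⟨⟨n, Nat.lt_succ_of_le hn⟩, ⟨i, hi⟩, π, h, τ⟩)
      (fun u v e => ?_) h1, h2⟩
    by_cases c : hb u
    · exact Option.some.inj ((hm.1 u c).symm.trans e) ▸ h0 u c
    · exact absurd ((hm.2.1 u c).symm.trans e) (by simp)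
  · exact (ncard_biUnion_le _ (toFinite _) S _ fun E _ => hS E).trans
      (Nat.mul_le_mul_right _ (EvL.count L Z hs))

/-- The growth of a chain in one step. -/
noncomputable def chainStep {σ : Type} {X : Cx σ} (L : Lv X) (s : ℕ) : ℕ :=
  2 * (X.k + 1) * (s + s * Wb L.κ L.Rc + s * Nat.card X.J + L.EB s * (2 * L.Th))

theorem exists_chain {σ : Type} {X : Cx σ} (hX : X.Ok) (L : Lv X) (s : ℕ) :
    ∃ n1, ∀ K (e : Xp (X.Φ.V K) X.χ X.J), Function.Injective e.pos → Valid L K e →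
      ∀ Z0 : Set (X.Φ.V K), Z0.ncard ≤ s →
        ∃ Z, Chain L K e Z ∧ Z0 ⊆ Z 0 ∧ (Z L.D).ncard ≤ n1 := by
  have := hX.finJ
  refine ⟨(chainStep L)^[L.D] (2 * (X.k + 1) * s), fun K e he hv Z0 h0 => ?_⟩
  obtain ⟨pos0, hp⟩ := hX.wid K
  obtain ⟨cl, -, c1, c2, c3⟩ := exists_cl (X.Φ.R K).adj_symm hp
  have prj : ∀ Z, Prj L K (cl Z) := fun Z v hv' => by
    refine (ncard_le_ncard ?_).trans (c3 Z v hv')
    exact fun z hz => ⟨hz.1, _, hz.2⟩
  choose Dm d1 d2 using exists_dom hX L K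
  let st : Set (X.Φ.V K) → Set (X.Φ.V K) := fun Z =>
    cl (Z ∪ (⋃ x ∈ Z, {u | WR (X.Φ.R K).adj e.pos L.Rc x u}) ∪
      (⋃ x ∈ Z, {u | ∃ j, e.f x j = some u}) ∪ Dm Z)
  have hst : ∀ Z w, Z.ncard ≤ w → (st Z).ncard ≤ chainStep L w := by
    intro Z w hw
    refine (c2 _).trans (Nat.mul_le_mul_left _ ?_)
    have h1 := (ncard_biUnion_le Z (toFinite _) (fun x => {u | WR (X.Φ.R K).adj e.pos L.Rc x u})
      (Wb L.κ L.Rc) fun x _ => WR_bound he hv le_rfl x).trans (Nat.mul_le_mul_right _ hw)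
    have h2 := (ncard_biUnion_le Z (toFinite _) (fun x => {u | ∃ j, e.f x j = some u})
      (Nat.card X.J) fun x _ => by
        refine (ncard_le_ncard (t := (fun j => (e.f x j).getD x) '' univ) ?_).trans
          ((ncard_image_le (toFinite _)).trans (ncard_univ _).le)
        rintro u ⟨j, hj⟩
        exact ⟨j, trivial, by simp [hj]⟩).trans (Nat.mul_le_mul_right _ hw)
    exact (ncard_union_le _ _).trans (Nat.add_le_add ((ncard_union_le _ _).trans
      (Nat.add_le_add ((ncard_union_le _ _).trans (Nat.add_le_add hw h1)) h2)) (d2 Z w hw))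
  have succ : ∀ j, st^[j + 1] (cl Z0) = st (st^[j] (cl Z0)) := fun j =>
    Function.iterate_succ_apply' st j _
  refine ⟨fun j => st^[j] (cl Z0), ⟨fun j _ x hx => ?_, fun j _ x hx u hu => ?_,
    fun j _ x hx i u hu => ?_, fun j _ => ?_, fun j _ i hi n hn hb Y0 h => ?_⟩, c1 Z0, ?_⟩
  · rw [succ]
    exact c1 _ (Or.inl (Or.inl (Or.inl hx)))
  · rw [succ]
    exact c1 _ (Or.inl (Or.inl (Or.inr (mem_biUnion hx hu))))
  · rw [succ]
    exact c1 _ (Or.inl (Or.inr (mem_biUnion hx ⟨i, hu⟩)))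
  · rcases j with _ | j
    · exact prj Z0
    · rw [succ]
      exact prj _
  · refine (d1 _ i hi n hn hb Y0 h).imp id ?_
    rintro ⟨z, h1, h2⟩
    refine ⟨z, ?_, h2⟩
    rw [succ]
    exact c1 _ (Or.inr h1)
  · show (st^[L.D] (cl Z0)).ncard ≤ _
    induction L.D with
    | zero => exact (c2 Z0).trans (Nat.mul_le_mul_left _ h0)
    | succ j ih =>
      rw [succ, Function.iterate_succ_apply']
      exact hst _ _ ih

end Pool.Agent.Work.MP_b730b2_lc.Full
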