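import Pool.Agent.Work.MP_b730b2_lc.Full.Final

/-! The collapse on an arbitrary class of graphs of bounded tree-width. -/

namespace Pool.Agent.Work.MP_b730b2_lc.Full

open Set FirstOrder FirstOrder.Language

theorem main_class (k c : ℕ) (𝒞 : ∀ V : Type, (gl c).Structure V → Prop)
    (h𝒞 : ∀ V S, 𝒞 V S → Finite V ∧ IsGraph S ∧ TwLe k S)
    (φ : ((gl c).sum Language.order).Sentence)
    (hφ : ∀ V S, 𝒞 V S → ∀ o₁ o₂ : LinearOrder V, Holds φ S o₁ ↔ Holds φ S o₂) :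
    ∃ ψ : (gl c).Sentence, ∀ V S, 𝒞 V S → ∀ o : LinearOrder V,
      (Holds φ S o ↔ @Sentence.Realize (gl c) V S ψ) := by
  obtain ⟨n, hn⟩ := tw_orders k c (qr φ)
  obtain ⟨ψ, hψ⟩ := (MP_b730b2_lc.Df.fall fun τ : Ty (Fin c) Unit n 0 => (df_tp n τ).imp
    (MP_b730b2_lc.Df.const (∃ (W : Type) (S' : (gl c).Structure W)
      (h : 𝒞 W S') (o' : LinearOrder W),
        Holds φ S' o' ∧ tp0 (toGr S' (h𝒞 W S' h).2.1.1).str n = τ)))
  refine ⟨ψ, fun V S hS o => ?_⟩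
  obtain ⟨_, g1, t1⟩ := h𝒞 V S hS
  have e := hψ V S g1.1 Fin.elim0
  have e0 : (default : Fin 0 → V) = Fin.elim0 := Subsingleton.elim _ _
  have e' : @Sentence.Realize (gl c) V S ψ ↔
      @BoundedFormula.Realize _ V S _ _ ψ default Fin.elim0 := by
    rw [← e0]; rfl
  rw [e', e]
  constructor
  · rintro H _ rfl
    exact ⟨V, S, hS, o, H, rfl⟩
  · intro H
    obtain ⟨W, S', hS', o', H', e1⟩ := H _ rfl
    obtain ⟨_, g2, t2⟩ := h𝒞 W S' hS'
    obtain ⟨o1, o2, e2⟩ := hn V W (toGr S g1.1) (toGr S' g2.1) t1 t2 (tp0_iff.1 e1.symm)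
    have := realize_of_EF S S' g1.1 g2.1 o1 o2 φ (qr φ) default default le_rfl
      (by rwa [Set.range_eq_empty])
    exact (hφ V S hS o o1).2 (this.2 ((hφ W S' hS' o' o2).1 H'))

end Pool.Agent.Work.MP_b730b2_lc.Full
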