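import Pool.Agent.Work.MP_b730b2_lc.Full.Fix

/-! Clusters at a good index and a good scale: basic facts.

Notation: `δ = lam i`, `sg = sg i`, `λ' = lam (i+1) ≥ 7 sg + 1`, `δ + 2 Rc + 2 ≤ sg`, and `lam` is
monotone so `λ' ≤ lam I`.
`exists_clu`: enumerate the class of `y` increasingly (it is an equivalence class because
`2 δ ≤ λ'`), its least element is the centre; then list the hubs, at most `2k+1` by `prj`
(e.g. enumerate the union by `exists_pos`/`Finset.orderEmbOfFin` for the key (is hub, pos)). For the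
shape note hubs `⊆ Z`.
`Clu.ball`: split at the first vertex in `Z`; it would be a hub by `sc2`. Then use `far`, `sc1`.
`Clu.below`: take the least vertex `w` of the walk to the hub (`Wk.min_WR`); `w ∈ Z'` by `wr`,
so `w` is not in the ball and is the hub.
`Clu.wf`: as `Wit.wf`; for the first disjunct take the least vertex of the walk, it is weakly
reachable from `Y a`, so in `Y0`, so a non-hub `Y c` with `b ≤ c`.
`Clu.hit`: use `Valid` and, for hubs, the first hub on the walk and `Clu.below`.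
`Clu.prj`: the walk from `v` avoids `Y0` by `Clu.ball`; use `Fix.prj`. -/

namespace Pool.Agent.Work.MP_b730b2_lc.Full

open Set

variable {σ : Type} {X : Cx σ}

/-- The situation at a good index and a good scale. -/
structure Sit (P : ℕ → Lv X) (l : ℕ) (K : X.Φ.K) (e : Xp (X.Φ.V K) X.χ X.J) (i : ℕ)
    (Z Z' U Y0 : Set (X.Φ.V K)) : Prop where
  lt : l < X.Q
  ilt : i < (P l).I
  sub : Z ⊆ Z'
  wr : ∀ x ∈ Z, ∀ u, WR (X.Φ.R K).adj e.pos (P l).Rc x u → u ∈ Z'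
  prj : Prj (P l) K Z
  dom : Dom (P l) K Z Z'
  far : ∀ y ∈ Y0, ∀ z ∈ Z', ¬ Wk (X.Φ.R K).adj (fun v => v ∉ Z) ((P l).lam (P l).I) y z
  sc1 : ∀ y ∈ Y0, ∀ y' ∈ Y0, Wk (X.Φ.R K).adj (fun v => v ∉ Z) ((P l).lam (i + 1)) y y' →
    Wk (X.Φ.R K).adj (fun v => v ∉ Z) ((P l).lam i) y y'
  sc2 : ∀ y ∈ Y0, ∀ z ∈ Z, Att (X.Φ.R K).adj (fun v => v ∉ Z) ((P l).lam (i + 1)) y z →
    Att (X.Φ.R K).adj (fun v => v ∉ Z) ((P l).lam i) y z
  card : Y0.ncard + (2 * X.k + 1) ≤ (P l).N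
  fix : Fix P l K e U Y0

/-- The tuple lists a cluster increasingly, together with the projection of its centre. -/
structure Clu (L : Lv X) (K : X.Φ.K) (e : Xp (X.Φ.V K) X.χ X.J) (i : ℕ) (Z Y0 : Set (X.Φ.V K))
    {n : ℕ} (hb : Fin (n + 1) → Prop) (Y : Fin (n + 1) → X.Φ.V K) : Prop where
  le : n ≤ L.N
  shape : Shape (X.Φ.R K).adj (L.lam i) hb Y
  hubs_eq : ∀ z, z ∈ hubs hb Y ↔ z ∈ Z ∧ Att (X.Φ.R K).adj (fun v => v ∉ Z) (L.lam i) (Y 0) z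
  nhs_eq : ∀ y, y ∈ nhs hb Y ↔ y ∈ Y0 ∧ Wk (X.Φ.R K).adj (fun v => v ∉ Z) (L.lam i) (Y 0) y
  ord : ∀ a b, ¬ hb a → ¬ hb b → a < b → e.pos (Y a) < e.pos (Y b)

variable {P : ℕ → Lv X} {l i : ℕ} {K : X.Φ.K} {e : Xp (X.Φ.V K) X.χ X.J}
  {Z Z' U Y0 : Set (X.Φ.V K)} {n : ℕ} {hb : Fin (n + 1) → Prop} {Y : Fin (n + 1) → X.Φ.V K}

theorem Good.lam_mono (hP : Good P) (l : ℕ) : Monotone (P l).lam :=
  monotone_nat_of_le_succ fun i => by have := hP.sg_ge l i; have := hP.lam_succ l i; omega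

theorem Sit.lam_le (hP : Good P) (h : Sit P l K e i Z Z' U Y0) :
    (P l).lam (i + 1) ≤ (P l).lam (P l).I := hP.lam_mono l h.ilt

/-- Closeness at a good scale is transitive on `Y0`. -/
theorem Sit.trans (hP : Good P) (h : Sit P l K e i Z Z' U Y0) {x y z : X.Φ.V K} (hx : x ∈ Y0)
    (hz : z ∈ Y0) (h1 : Wk (X.Φ.R K).adj (fun v => v ∉ Z) ((P l).lam i) x y)
    (h2 : Wk (X.Φ.R K).adj (fun v => v ∉ Z) ((P l).lam i) y z) :
    Wk (X.Φ.R K).adj (fun v => v ∉ Z) ((P l).lam i) x z :=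
  h.sc1 x hx z hz ((h1.trans h2).le (by have := hP.sg_ge l i; have := hP.lam_succ l i; omega))

/-- Increasing enumeration of a nonempty set. -/
theorem exists_enum {V β : Type} [Finite V] [LinearOrder β] (key : V → β)
    (hk : Function.Injective key) (S : Set V) (hS : S.Nonempty) :
    ∃ (n : ℕ) (Y : Fin (n + 1) → V), n + 1 = S.ncard ∧ range Y = S ∧
      ∀ a b, a < b → key (Y a) < key (Y b) := by
  classical
  let _ : LinearOrder V := LinearOrder.lift' key hk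
  have hfin : S.Finite := toFinite S
  obtain ⟨n, hn⟩ : ∃ n, hfin.toFinset.card = n + 1 := by
    have : 0 < hfin.toFinset.card := Finset.card_pos.2 (by simpa using hS)
    exact ⟨hfin.toFinset.card - 1, by omega⟩
  refine ⟨n, hfin.toFinset.orderEmbOfFin hn, ?_, ?_, fun a b hab => ?_⟩
  · rw [← hn, ncard_eq_toFinset_card S hfin]
  · rw [Finset.range_orderEmbOfFin, Finite.coe_toFinset]
  · exact (hfin.toFinset.orderEmbOfFin hn).strictMono hab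

theorem Clu.hub_mem {L : Lv X} (c : Clu L K e i Z Y0 hb Y) {z : X.Φ.V K} (hz : z ∈ hubs hb Y) :
    z ∈ Z := ((c.hubs_eq z).1 hz).1

theorem Clu.zero_mem {L : Lv X} (c : Clu L K e i Z Y0 hb Y) : Y 0 ∈ Y0 ∧ Y 0 ∉ Z :=
  have h := (c.nhs_eq (Y 0)).1 ⟨0, c.shape.2.1, rfl⟩
  ⟨h.1, h.2.fst⟩

theorem Clu.le_iff {L : Lv X} (c : Clu L K e i Z Y0 hb Y) {a b : Fin (n + 1)} (ha : ¬ hb a)
    (hb' : ¬ hb b) : e.pos (Y a) ≤ e.pos (Y b) ↔ a ≤ b := by
  constructor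
  · intro h'
    by_contra c'
    exact absurd (c.ord b a hb' ha (not_le.1 c')) (not_lt.2 h')
  · intro h'
    rcases h'.eq_or_lt with rfl | h'
    · exact le_rfl
    · exact (c.ord a b ha hb' h').le

theorem exists_clu (hP : Good P) (he : Function.Injective e.pos) (h : Sit P l K e i Z Z' U Y0)
    {y : X.Φ.V K} (hy : y ∈ Y0) (hy' : y ∉ Z) :
    ∃ (n : ℕ) (hb : Fin (n + 1) → Prop) (Y : Fin (n + 1) → X.Φ.V K),
      Clu (P l) K e i Z Y0 hb Y ∧ y ∈ nhs hb Y := by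
  classical
  let C : Set (X.Φ.V K) := {y' | y' ∈ Y0 ∧ Wk (X.Φ.R K).adj (fun v => v ∉ Z) ((P l).lam i) y y'}
  have hyC : y ∈ C := ⟨hy, Wk.refl hy'⟩
  obtain ⟨y0, hy0, hmin⟩ := exists_min_image C e.pos (toFinite C) ⟨y, hyC⟩
  let H : Set (X.Φ.V K) := {z | z ∈ Z ∧ Att (X.Φ.R K).adj (fun v => v ∉ Z) ((P l).lam i) y0 z}
  have hCZ : ∀ v ∈ C, v ∉ Z := fun v hv => hv.2.lst
  have hC : ∀ v, v ∈ C ↔ v ∈ Y0 ∧ Wk (X.Φ.R K).adj (fun v => v ∉ Z) ((P l).lam i) y0 v := by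
    intro v
    constructor
    · exact fun hv => ⟨hv.1, h.trans hP hy0.1 hv.1 (hy0.2.symm (X.Φ.R K).adj_symm) hv.2⟩
    · exact fun hv => ⟨hv.1, h.trans hP hy hv.1 hy0.2 hv.2⟩
  have hH : H.ncard ≤ 2 * X.k + 1 := by
    refine (ncard_le_ncard ?_ (toFinite _)).trans (h.prj y0 (hCZ y0 hy0))
    exact fun z hz => ⟨hz.1, hz.2.le (hP.lam_mono l h.ilt.le)⟩
  let key : X.Φ.V K → ℕ ×ₗ ℕ := fun v => toLex (if v ∈ Z then 1 else 0, e.pos v)
  have hk : Function.Injective key := fun a b hab =>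
    he (congrArg (fun p : ℕ ×ₗ ℕ => (ofLex p).2) hab)
  obtain ⟨n, Y, hn, hr, hord⟩ := exists_enum key hk (C ∪ H) ⟨y, Or.inl hyC⟩
  have hmem : ∀ a, Y a ∈ C ∪ H := fun a => hr ▸ mem_range_self a
  have hsur : ∀ v ∈ C ∪ H, ∃ a, Y a = v := fun v hv => by rw [← hr] at hv; exact hv
  have hlt : ∀ a b, Y b ∉ Z → a < b → Y a ∉ Z ∧ e.pos (Y a) < e.pos (Y b) := by
    intro a b hb' hab
    have := Prod.Lex.toLex_lt_toLex.1 (hord a b hab)
    simp only [if_neg hb'] at this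
    by_cases ha : Y a ∈ Z
    · simp [if_pos ha] at this
    · simp only [if_neg ha, lt_irrefl, false_or, true_and] at this
      exact ⟨ha, this⟩
  have hYC : ∀ a, Y a ∉ Z → Y a ∈ C := fun a ha => (hmem a).resolve_right fun h' => ha h'.1
  have hYH : ∀ a, Y a ∈ Z → Y a ∈ H := fun a ha => (hmem a).resolve_left fun h' => hCZ _ h' ha
  have h0 : Y 0 = y0 := by
    obtain ⟨a, ha⟩ := hsur y0 (Or.inl hy0)
    rcases (Fin.zero_le a).eq_or_lt with rfl | h0a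
    · exact ha
    · have h1 := hlt 0 a (ha ▸ hCZ y0 hy0) h0a
      have h2 := hmin (Y 0) (hYC 0 h1.1)
      rw [ha] at h1
      omega
  have hhub : ∀ z, z ∈ hubs (fun a => Y a ∈ Z) Y ↔ z ∈ H := by
    intro z
    constructor
    · rintro ⟨a, ha, rfl⟩
      exact hYH a ha
    · intro hz
      obtain ⟨a, rfl⟩ := hsur z (Or.inr hz)
      exact ⟨a, hz.1, rfl⟩
  have hnh : ∀ z, z ∈ nhs (fun a => Y a ∈ Z) Y ↔ z ∈ C := by
    intro z
    constructor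
    · rintro ⟨a, ha, rfl⟩
      exact hYC a ha
    · intro hz
      obtain ⟨a, rfl⟩ := hsur z (Or.inl hz)
      exact ⟨a, hCZ _ hz, rfl⟩
  have hav : ∀ v, v ∉ Z → v ∉ hubs (fun a => Y a ∈ Z) Y := fun v hv h' => hv ((hhub v).1 h').1
  refine ⟨n, fun a => Y a ∈ Z, Y, ⟨?_, ⟨fun a b hab => ?_, ?_, fun a ha => ?_, fun u hu => ?_⟩,
    fun z => ?_, fun z => ?_, fun a b _ hb' hab => (hlt a b hb' hab).2⟩, (hnh y).2 hyC⟩
  · have h1 := ncard_union_le C H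
    have h2 : C.ncard ≤ Y0.ncard := ncard_le_ncard (fun v hv => hv.1) (toFinite _)
    have h3 := h.card
    omega
  · rcases lt_trichotomy a b with c | c | c
    · exact absurd (hord a b c) (by rw [hab]; exact lt_irrefl _)
    · exact c
    · exact absurd (hord b a c) (by rw [hab]; exact lt_irrefl _)
  · show Y 0 ∉ Z
    rw [h0]
    exact hCZ y0 hy0
  · show Wk _ _ _ (Y 0) (Y a)
    rw [h0]
    exact ((hC _).1 (hYC a ha)).2.mono hav
  · rw [h0]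
    exact (hYH u hu).2.mono hav
  · rw [hhub, h0]
    exact Iff.rfl
  · rw [hnh, h0]
    exact hC z

theorem Clu.card_hubs (hP : Good P) (h : Sit P l K e i Z Z' U Y0)
    (c : Clu (P l) K e i Z Y0 hb Y) : (hubs hb Y).ncard ≤ 2 * X.k + 1 := by
  refine (ncard_le_ncard ?_ (toFinite _)).trans (h.prj (Y 0) c.zero_mem.2)
  intro z hz
  have := (c.hubs_eq z).1 hz
  exact ⟨this.1, this.2.le (hP.lam_mono l h.ilt.le)⟩

/-- Clusters are disjoint or equal. -/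
theorem Clu.nhs_eq_of_mem (hP : Good P) (h : Sit P l K e i Z Z' U Y0)
    (c : Clu (P l) K e i Z Y0 hb Y) {y : X.Φ.V K} (hy : y ∈ nhs hb Y) (y' : X.Φ.V K) :
    y' ∈ nhs hb Y ↔ y' ∈ Y0 ∧ Wk (X.Φ.R K).adj (fun v => v ∉ Z) ((P l).lam i) y y' := by
  have h1 := (c.nhs_eq y).1 hy
  rw [c.nhs_eq]
  constructor
  · exact fun hv => ⟨hv.1, h.trans hP h1.1 hv.1 (h1.2.symm (X.Φ.R K).adj_symm) hv.2⟩
  · exact fun hv => ⟨hv.1, h.trans hP c.zero_mem.1 hv.1 h1.2 hv.2⟩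

theorem Clu.ball (hP : Good P) (h : Sit P l K e i Z Z' U Y0) (c : Clu (P l) K e i Z Y0 hb Y)
    {r : ℕ} (hr : r ≤ (P l).lam (i + 1)) {z : X.Φ.V K} (hz : Bl (X.Φ.R K).adj hb Y r z) :
    Wk (X.Φ.R K).adj (fun v => v ∉ Z) r (Y 0) z ∧ z ∉ Z' ∧ (z ∈ Y0 → z ∈ nhs hb Y) := by
  have h0 := c.zero_mem
  have hw : Wk (X.Φ.R K).adj (fun v => v ∉ Z) r (Y 0) z := by
    rcases Wk.split (· ∈ Z) hz with h1 | h1 | ⟨n1, n2, y, s, hn, h1, e', hs, h2⟩
    · exact h1.mono fun _ hv => hv.2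
    · exact absurd h1 h0.2
    · refine absurd ((c.hubs_eq s).2 ⟨hs, h.sc2 _ h0.1 s hs ?_⟩) h2.fst
      exact Att.le ⟨y, h1.mono fun _ hv => hv.2, e'⟩ (by omega)
  refine ⟨hw, fun hz' => h.far _ h0.1 z hz' (hw.le (hr.trans (h.lam_le hP))), fun hz' => ?_⟩
  exact (c.nhs_eq z).2 ⟨hz', h.sc1 _ h0.1 z hz' (hw.le hr)⟩

theorem Clu.below (hP : Good P) (he : Function.Injective e.pos) (h : Sit P l K e i Z Z' U Y0)
    (c : Clu (P l) K e i Z Y0 hb Y) {a u : Fin (n + 1)} (ha : ¬ hb a) (hu : hb u) {d : ℕ}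
    (hd : d + 1 ≤ (P l).Rc) (hw : Att (X.Φ.R K).adj (fun v => v ∉ hubs hb Y) d (Y a) (Y u)) :
    Att (X.Φ.R K).adj (fun v => v ∉ hubs hb Y ∧ e.pos (Y u) < e.pos v) d (Y a) (Y u) := by
  have _ := he
  obtain ⟨y, h1, e'⟩ := hw
  obtain ⟨w, n1, n2, hn, h2, h3⟩ := h1.min e.pos
  by_cases hc : e.pos (Y u) < e.pos w
  · exact ⟨y, ((h2.trans h3).le hn).mono fun v hv => ⟨hv.1, hc.trans_le hv.2⟩, e'⟩
  · exfalso
    have h4 : WR (X.Φ.R K).adj e.pos (n2 + 1) (Y u) w :=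
      Wk.head (P := fun z => e.pos w ≤ e.pos z) (not_lt.1 hc) ((X.Φ.R K).adj_symm _ _ e')
        ((h3.symm (X.Φ.R K).adj_symm).mono fun _ hv => hv.2)
    have h5 : w ∈ Z' := h.wr _ (c.hub_mem ⟨u, hu, rfl⟩) w (h4.le (by omega))
    have h6 := (c.shape.2.2.1 a ha).wk (h2.mono fun _ hv => hv.1)
    refine (c.ball hP h ?_ h6).2.1 h5
    have := hP.sg_ge l i
    have := hP.lam_succ l i
    omega

theorem Clu.wf (hP : Good P) (he : Function.Injective e.pos) (h : Sit P l K e i Z Z' U Y0)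
    (c : Clu (P l) K e i Z Y0 hb Y) {a : Fin (n + 1)} (ha : ¬ hb a) {d : ℕ} (hd : d ≤ (P l).Rc)
    (hY : ∀ u, WR (X.Φ.R K).adj e.pos d (Y a) u → u ∈ Y0) (u : X.Φ.V K) :
    WR (X.Φ.R K).adj e.pos d (Y a) u ↔ WF (X.Φ.R K).adj e.pos hb Y d a u := by
  have hbl := c.shape.2.2.1 a ha
  have hle : (P l).lam i + d ≤ (P l).lam (i + 1) := by
    have := hP.sg_ge l i
    have := hP.lam_succ l i
    omega
  constructor
  · intro hw
    rcases Wk.split (· ∈ hubs hb Y) hw with h1 | h1 | ⟨n1, n2, y, s, hn, h1, e', ⟨w, hw', rfl⟩, h2⟩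
    · obtain ⟨b, hb', rfl⟩ := (c.ball hP h hle (hbl.wk (h1.mono fun _ h => h.2))).2.2 (hY u hw)
      refine Or.inl ⟨b, hb', rfl, h1.mono fun v hv => ⟨hv.2, ?_⟩⟩
      rintro c' rfl
      exact (c.le_iff hb' fun hc => hv.2 ⟨c', hc, rfl⟩).1 hv.1
    · exact absurd h1 hbl.not_hub
    · exact Or.inr ⟨w, n1, n2, hw', hn, ⟨y, h1.mono fun _ h => h.2, e'⟩, h2⟩
  · rintro (⟨b, hb', rfl, h1⟩ | ⟨w, d1, d2, hw, hn, h1, h2⟩)
    · obtain ⟨w, w1, -, w3, -, w5⟩ := Wk.min_WR (X.Φ.R K).adj_symm e.pos h1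
      obtain ⟨c', hc', rfl⟩ := (c.ball hP h hle (hbl.wk (w1.mono fun _ h => h.1))).2.2 (hY w w3)
      have h3 := (c.le_iff hb' hc').2 (w1.lst.2 c' rfl)
      exact w5.mono fun v hv => h3.trans hv.2
    · have h3 := c.below hP he h ha hw (by omega) h1
      exact Wk.le (Wk.trans ((h3.mono fun v hv => h2.pos_le.trans hv.2.le).wk h2.pos_le) h2) hn

theorem Clu.fam (hP : Good P) (h : Sit P l K e i Z Z' U Y0) (c : Clu (P l) K e i Z Y0 hb Y) :
    Fm (X.Φ.R K) (P l).m hb Y ((P l).sg i) (2 * (P l).Th) (fun _ => True) := by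
  rcases h.dom i h.ilt n c.le hb Y (fun u hu => c.hub_mem ⟨u, hu, rfl⟩) with h1 | ⟨z, hz, h1⟩
  · exact h1
  · exact absurd hz (c.ball hP h (by have := hP.lam_succ l i; omega) h1).2.1

theorem Clu.hit (hP : Good P) (he : Function.Injective e.pos) (h : Sit P l K e i Z Z' U Y0)
    (c : Clu (P l) K e i Z Y0 hb Y) {r κ : ℕ} (hr : r ≤ (P l).Rc) {a : Fin (n + 1)} (ha : ¬ hb a)
    (hv : Hit (X.Φ.R K).adj r κ (Y a) (fun u => e.pos u < e.pos (Y a))) :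
    Hit (X.Φ.R K).adj r κ (Y a) (fun u => u ∈ hubs hb Y ∨ ∃ b, ¬ hb b ∧ b < a ∧ Y b = u) := by
  obtain ⟨S, h1, h2, h3⟩ := hv
  refine ⟨S, h1, h2, ?_⟩
  rintro u (hu | ⟨b, hb', hba, rfl⟩) hw
  · obtain ⟨n1, n2, s, hn, h4, ⟨w, hw', rfl⟩, h5⟩ :=
      hw.first (· ∈ hubs hb Y) (c.shape.2.2.1 a ha).not_hub hu
    have h6 := c.below hP he h ha hw' (d := n1) (by omega) (h4.mono fun _ hv => hv.2)
    exact h3 _ h6.fst.2 (((h4.mono fun _ hv => hv.1).wk h5.fst).le (by omega))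
  · exact h3 _ (c.ord b a hb' ha hba) hw

theorem Clu.prj (hP : Good P) (h : Sit P l K e i Z Z' U Y0) (c : Clu (P l) K e i Z Y0 hb Y)
    {v : X.Φ.V K} (hv : v ∉ range Y) :
    {y | y ∈ nhs hb Y ∧ Att (X.Φ.R K).adj (fun z => z ∉ range Y) (P l).Rc v y}.ncard ≤
      2 * X.k + 1 := by
  have key : ∀ y, y ∈ nhs hb Y → Att (X.Φ.R K).adj (fun z => z ∉ range Y) (P l).Rc v y →
      Att (X.Φ.R K).adj (fun z => z ∉ Y0) (P l).Rc v y := by
    intro y hy hw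
    have hav : ∀ z, z ∉ range Y → z ∉ hubs hb Y := fun z hz ⟨a, _, ha⟩ => hz ⟨a, ha⟩
    have h1 : Bl (X.Φ.R K).adj hb Y ((P l).lam i + ((P l).Rc + 1)) v := by
      have hbl := c.shape.bl hy
      exact hbl.wk (((hw.mono hav).wk hbl.not_hub).symm (X.Φ.R K).adj_symm)
    refine hw.of_ball fun z hz hz' => ?_
    have h2 := (c.ball hP h (by
      have := hP.sg_ge l i
      have := hP.lam_succ l i
      omega) (h1.wk (hz.mono hav))).2.2 hz'
    obtain ⟨a, -, ha⟩ := h2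
    exact hz.lst ⟨a, ha⟩
  by_cases hv' : v ∈ Y0
  · have _ := hv
    refine (ncard_le_ncard (t := ∅) ?_ (toFinite _)).trans (by simp)
    exact fun y hy => (key y hy.1 hy.2).fst hv'
  · refine (ncard_le_ncard ?_ (toFinite _)).trans (h.fix.prj v hv')
    exact fun y hy => ⟨((c.nhs_eq y).1 hy.1).1, _, key y hy.1 hy.2⟩

end Pool.Agent.Work.MP_b730b2_lc.Full
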