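import Pool.Agent.Work.MP_b730b2_lc.Full.CluCol

/-! The pattern of a cluster is compatible with the lower levels.

Proof plan. Let `δ', sg'` be the constants of the lower event; `δ' + 2 ≤ sg' ≤ S'`, `2 S' ≤ Rc`.
By `Fm.split` either (i) holds or `Th` members have balls meeting `nhs π.hb Y ⊆ Y0`; then `Fix.trig`
applies. By `Fm.split` again (`g + 1 ≤ Th` by `Th1`, `t_ge`) either (iii) holds or some member has a
ball meeting `nhs` and missing the hubs of `Y`; then (`Shape.to_hub`, `Clu.ball`) each of its hubs is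
a hub of `Y` or lies in the ball of `Y` of radius `δ + 2 sg'`, in `U`, so is an inner entry. If (iv)
fails fix a hub `h` of the event which is an inner entry of `Y`. The induced context equals
`actx` of the event (as in `Wit.ictx`, with `Clu.wf`; vertices weakly `R0`-reachable from the hubs
of the event are in `U`, so their colours are recorded). `Sat` and `trig` give `t` far witnesses with
non-hubs in `U`. Key point: the ball of such a witness misses `Z`: for `z ∈ Z` in the ball,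
`Shape.to_hub` and `Wit.abv` give `WR (2 sg') z h`, so `h ∈ Z'`, contradicting `Clu.ball`. Hence the
ball of the witness is inside the ball of `Y` of radius `δ + 2 sg'` and `SubWit` follows from `Wit`,
`Clu.ord` and `PatOf`. -/

namespace Pool.Agent.Work.MP_b730b2_lc.Full

open Set

variable {σ : Type} {X : Cx σ}

theorem Clu.lt_of_pos {L : Lv X} {i : ℕ} {K : X.Φ.K} {e : Xp (X.Φ.V K) X.χ X.J}
    {Z Y0 : Set (X.Φ.V K)} {n : ℕ} {hb : Fin (n + 1) → Prop} {Y : Fin (n + 1) → X.Φ.V K}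
    (c : Clu L K e i Z Y0 hb Y) {a b : Fin (n + 1)} (ha : ¬ hb a) (hb' : ¬ hb b)
    (h : e.pos (Y a) < e.pos (Y b)) : a < b := by
  rcases lt_trichotomy a b with h1 | rfl | h1
  · exact h1
  · exact absurd h (lt_irrefl _)
  · exact absurd (c.ord b a hb' ha h1) (not_lt.2 h.le)

theorem Clu.ictx {P : ℕ → Lv X} (hP : Good P) {l i : ℕ} {K : X.Φ.K}
    {e : Xp (X.Φ.V K) X.χ X.J} (he : Rich P K e) {Z Z' U Y0 : Set (X.Φ.V K)}
    (h : Sit P l K e i Z Z' U Y0) {n : ℕ} {π : Pat X.χ X.J n} {Y : Fin (n + 1) → X.Φ.V K}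
    (c : Clu (P l) K e i Z Y0 π.hb Y) (hπ : PatOf e U π Y) (hX : X.Ok) (a : Fin (n + 1))
    (hU : ∀ z, WR (X.Φ.R K).adj e.pos X.R0 (Y a) z → z ∈ U) (d : Fin (X.R0 + 1)) (x : Fin X.χ) :
    ICtx (X.Φ.R K).adj Y π (actx (X.Φ.R K).adj e X.R0 π.hb Y) (Y a) d x ↔
      ∃ z, WR (X.Φ.R K).adj e.pos d (Y a) z ∧ e.col z = x := by
  have hd : d.1 ≤ X.R0 := Nat.lt_succ_iff.1 d.2
  have hd' : d.1 ≤ (P l).Rc :=
    hd.trans (hX.R0_le.trans (hP.R_le.trans (hP.Rc_mono 0 l (Nat.zero_le _))))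
  have wf : ¬ π.hb a → ∀ u, WR (X.Φ.R K).adj e.pos d (Y a) u ↔
      WF (X.Φ.R K).adj e.pos π.hb Y d a u := fun ha =>
    c.wf hP he.fine.inj h ha hd' fun u hu => h.fix.sub (hU u (hu.le hd))
  constructor
  · rintro (⟨b, -, e', -, h1⟩ | ⟨b, hb', e', h1⟩)
    · exact e' ▸ h1
    · obtain rfl := c.shape.1 e'
      rcases h1 with ⟨b', h1, h2, rfl⟩ | ⟨w, d1, d2, hw, hn, h1, -, z, h2, rfl⟩
      · have h3 := (wf hb' _).2 (Or.inl ⟨b', h1, rfl, h2⟩)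
        exact ⟨Y b', h3, (hπ.cl b' ((hπ.inn b').2 ⟨h1, hU _ (h3.le hd)⟩)).symm⟩
      · exact ⟨z, (wf hb' _).2 (Or.inr ⟨w, d1, d2, hw, hn, h1, h2⟩), rfl⟩
  · rintro ⟨z, h1, rfl⟩
    by_cases ha : π.hb a
    · exact Or.inl ⟨a, ha, rfl, ha, z, h1, rfl⟩
    · refine Or.inr ⟨a, ha, rfl, ?_⟩
      rcases (wf ha _).1 h1 with ⟨b, h2, rfl, h3⟩ | ⟨w, d1, d2, hw, hn, h2, h3⟩
      · exact Or.inl ⟨b, h2, h3, hπ.cl b ((hπ.inn b).2 ⟨h2, hU _ (h1.le hd)⟩)⟩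
      · exact Or.inr ⟨w, ⟨d1, by omega⟩, ⟨d2, by omega⟩, hw, hn, h2, hw, z, h3, rfl⟩

theorem Clu.cp {P : ℕ → Lv X} (hP : Good P) {l i : ℕ} {K : X.Φ.K}
    {e : Xp (X.Φ.V K) X.χ X.J} (he : Rich P K e) {Z Z' U Y0 : Set (X.Φ.V K)}
    (h : Sit P l K e i Z Z' U Y0) {n : ℕ} {π : Pat X.χ X.J n} {Y : Fin (n + 1) → X.Φ.V K}
    (c : Clu (P l) K e i Z Y0 π.hb Y) (hπ : PatOf e U π Y) (hX : X.Ok) {l' : ℕ} (hl : l' < l) :
    CP (P l') K Y π (actx (X.Φ.R K).adj e X.R0 π.hb Y) := by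
  intro i' hi' n' hn' π' Y1 hsh hF
  have hs := (X.Φ.R K).adj_symm
  have k1 := hP.sg_ge l' i'
  have k2 := hP.sg_S l' i' hi'
  have k3 := hP.S_Rc l' l hl
  have k4 := hP.sg_ge l i
  have k5 := hP.lam_succ l i
  have k6 := hP.Th1 l'
  have k7 := hP.t_ge l'
  rcases hF.split (a := (P l').Th) (b := (P l').Th) (by omega) (fun Y' => ∀ a, ¬ π.hb a →
    ¬ Bl (X.Φ.R K).adj π'.hb Y' ((P l').sg i') (Y a)) with hA | hA
  · exact Or.inl (hA.mono le_rfl fun _ _ h => h.2)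
  right
  replace hA : Fm (X.Φ.R K) (P l').m π'.hb Y1 ((P l').sg i') (P l').Th (fun Y' => ∃ a, ¬ π.hb a ∧
      Bl (X.Φ.R K).adj π'.hb Y' ((P l').sg i') (Y a)) := hA.mono le_rfl fun _ _ h => by
    simpa only [not_forall, not_not, exists_prop] using h.2
  obtain ⟨T1, T2⟩ := h.fix.trig l' hl i' hi' n' hn' π' Y1 hsh (hA.mono le_rfl
    fun _ _ ⟨a, ha, h1⟩ => ⟨Y a, ((c.nhs_eq _).1 ⟨a, ha, rfl⟩).1, h1⟩)
  rcases hA.split (a := (P l').g + 1) (b := 1) (by omega) (fun Y' => ∃ u, π.hb u ∧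
    Bl (X.Φ.R K).adj π'.hb Y' ((P l').sg i') (Y u)) with hB | hB
  · exact Or.inl (hB.mono le_rfl fun _ _ h => h.2)
  right
  obtain ⟨Y2, c2, ⟨a0, ha0, b0⟩, hno⟩ := hB.exists one_pos
  have ent : ∀ u', π'.hb u' → Y1 u' ∉ hubs π.hb Y → Y1 u' ∈ nhs π.hb Y := by
    intro u' hu' hn
    have w := (hsh Y2 c2).to_hub hs (sg := (P l').sg i') (by omega) le_rfl b0 hu'
      (Q := fun v => v ∉ hubs π.hb Y) (by
        rintro _ hv ⟨u, hu, rfl⟩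
        exact hno ⟨u, hu, hv⟩) (by rw [c2.1 u' hu']; exact hn)
    rw [c2.1 u' hu'] at w
    exact (c.ball hP h (by omega) ((c.shape.2.2.1 a0 ha0).wk w)).2.2
      (h.fix.sub (T1 u' hu' _ WR.refl))
  by_cases h3 : ∀ u', π'.hb u' → Y1 u' ∈ hubs π.hb Y
  · exact Or.inl h3
  right
  have ent' : ∀ u', π'.hb u' → ∃ a, (π.hb a ∨ π.inn a) ∧ Y a = Y1 u' := by
    intro u' hu'
    by_cases hn : Y1 u' ∈ hubs π.hb Y
    · obtain ⟨a, ha, e'⟩ := hn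
      exact ⟨a, Or.inl ha, e'⟩
    · obtain ⟨a, ha, e'⟩ := ent u' hu' hn
      exact ⟨a, Or.inr ((hπ.inn a).2 ⟨ha, e' ▸ T1 u' hu' _ WR.refl⟩), e'⟩
  refine ⟨ent', fun F' hF' hC => ?_⟩
  obtain rfl : F' = actx (X.Φ.R K).adj e X.R0 π'.hb Y1 := by
    funext u d
    ext x
    rw [hF']
    refine and_congr_right fun hu => ?_
    obtain ⟨a, -, e'⟩ := ent' u hu
    rw [← e']
    exact c.ictx hP he h hπ hX a (e' ▸ T1 u hu) d x
  simp only [not_forall] at h3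
  obtain ⟨u0, hu0, hn0⟩ := h3
  have bl0 := c.shape.bl (ent u0 hu0 hn0)
  have nz0 := (c.ball hP h (by omega) bl0).2.1
  refine (T2 (he.sat l' (hl.trans h.lt) i' hi' n' hn' π' Y1 hF hC)).mono le_rfl ?_
  rintro Y' c' ⟨W, hU⟩
  have sh := hsh Y' c'
  have avoZ : ∀ z, Bl (X.Φ.R K).adj π'.hb Y' ((P l').sg i') z → z ∉ Z := fun z hz hZ => by
    have w := Gd.wr hs (pos0 := e.pos) W.abv sh (by omega) le_rfl hz hu0
    rw [c'.1 u0 hu0] at w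
    exact nz0 (h.wr z hZ _ (w.le (by omega)))
  have avo : ∀ z, Bl (X.Φ.R K).adj π'.hb Y' ((P l').sg i') z → z ∉ hubs π.hb Y :=
    fun z hz hh => avoZ z hz ((c.hubs_eq z).1 hh).1
  have nh : ∀ a, Bl (X.Φ.R K).adj π'.hb Y' ((P l').sg i') (Y a) → ¬ π.hb a :=
    fun a hz ha => avo _ hz ⟨a, ha, rfl⟩
  have blnh : ∀ a', ¬ π'.hb a' → Bl (X.Φ.R K).adj π'.hb Y' ((P l').sg i') (Y' a') :=
    fun a' ha' => (sh.2.2.1 a' ha').le (by omega)
  refine ⟨avo, fun a' ha' => ?_, fun a' b' a b ha' hb' hab e1 e2 => ?_,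
    fun a' a b ha' e1 hba hz => ?_, fun a b ha hh hz => ?_⟩
  · have w := sh.to_hub hs (sg := (P l').sg i') (by omega) le_rfl (blnh a' ha') hu0
      (Q := fun v => v ∉ hubs π.hb Y) avo (by rw [c'.1 u0 hu0]; exact hn0)
    rw [c'.1 u0 hu0] at w
    have hu := hU ⟨a', ha', rfl⟩
    obtain ⟨a, ha, e'⟩ := (c.ball hP h (by omega) (bl0.wk (w.symm hs))).2.2 (h.fix.sub hu)
    have ia := (hπ.inn a).2 ⟨ha, e' ▸ hu⟩
    refine ⟨a, ha, e', ?_, fun hi => ⟨ia, fun j => ?_⟩⟩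
    · rw [hπ.cl a ia, e', W.col a' ha']
    · rw [hπ.ch a j ia, e', W.ch a' j hi]
  · refine c.lt_of_pos (nh a (e1 ▸ blnh a' ha')) (nh b (e2 ▸ blnh b' hb')) ?_
    rw [e1, e2]
    exact W.ord a' b' ha' hb' hab
  · refine W.ini _ a' hz ha' ?_
    rw [← e1]
    rcases hba.eq_or_lt with rfl | hba
    · exact le_rfl
    · exact (c.ord b a (nh b hz) (nh a (e1 ▸ blnh a' ha')) hba).le
  · obtain ⟨u, hu, e'⟩ := hh
    exact c.lt_of_pos ha (nh b hz) (e' ▸ W.abv _ u hz hu)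

theorem Clu.cond (hX : X.Ok) {P : ℕ → Lv X} (hP : Good P) {l i : ℕ} {K : X.Φ.K}
    {e : Xp (X.Φ.V K) X.χ X.J} (he : Rich P K e) {Z Z' U Y0 : Set (X.Φ.V K)}
    (h : Sit P l K e i Z Z' U Y0) {n : ℕ} {hb : Fin (n + 1) → Prop} {Y : Fin (n + 1) → X.Φ.V K}
    (c : Clu (P l) K e i Z Y0 hb Y) :
    ∃ π : Pat X.χ X.J n, π.hb = hb ∧ PatOf e U π Y ∧
      (P l).C K i n Y π (actx (X.Φ.R K).adj e X.R0 hb Y) := by
  obtain ⟨π, rfl, h1, h2⟩ := c.core hX hP he h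
  exact ⟨π, rfl, h1, (hP.cond l K i n Y π _).2 ⟨h2, fun l' hl => c.cp hP he h h1 hX hl⟩⟩

end Pool.Agent.Work.MP_b730b2_lc.Full
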