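import Pool.Agent.Work.MP_b730b2_lc.Full.Clu

/-! The pattern of a cluster satisfies the basic conditions.

Proof plan. `inn a` means `¬ hb a ∧ Y a ∈ U`. Choices: for inner `a` a value `u` of `e.f (Y a)` is in
`Y0` (`Fix.f`) and equal or adjacent to `Y a` (`val_adj`), so it is a hub if it is in `Z` and a
non-hub otherwise (`sc1`); for other `a` take `none`. Colours: keep `e.col` on inner indices and
colour the others greedily by increasing index, avoiding (1) the colours of the `b` with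
`Wloc R0 a b`, `b ≠ a` (then `b < a`): at most `W0` by `reach_bound'` with
`B u z := z ∉ hubs ∧ ∀ b c, Y b = u → Y c = z → b ≤ c`, `Tg := nhs`, radius `R0` and `κ = 3k+1`, where
the hitting set is from `Valid (P 0)` (`kap0`, `R_le`) for non-hubs of the tuple, the projection
`Clu.prj` for vertices outside the tuple, and empty for hubs; (2) the forbidden context colours: by
`Clu.below` they are colours of vertices weakly `R0`-reachable from `Y a`, at most `W0`;
(3) the colours of inner `a'` with `Wloc R0 a' a`: then `WR R0 (Y a') (Y a)` by `Clu.wf` and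
`Fix.wr`, at most `4 W0` since `Y a ∉ U` (`Fix.heavy`). For inner `a` the conditions follow from
`Fine.prop` with `Clu.wf` and `Clu.below`. A general greedy lemma on `Fin (n+1)` is useful. -/

namespace Pool.Agent.Work.MP_b730b2_lc.Full

open Set

variable {σ : Type} {X : Cx σ}

/-- The pattern records the expansion on the inner part. -/
structure PatOf {V J : Type} {χ n : ℕ} (e : Xp V χ J) (U : Set V) (π : Pat χ J n)
    (Y : Fin (n + 1) → V) : Prop where
  inn : ∀ a, π.inn a ↔ ¬ π.hb a ∧ Y a ∈ U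
  cl : ∀ a, π.inn a → π.cl a = e.col (Y a)
  ch : ∀ a j, π.inn a → (π.ch a j).map Y = e.f (Y a) j

/-- Greedy colouring by increasing index, keeping the colours of the fixed indices. -/
theorem colGreedy {n χ : ℕ} (col0 : Fin n → Fin χ) (fx : Fin n → Prop)
    (E : Fin n → Fin n → Prop) (Fb : Fin n → Set (Fin χ)) (hE : ∀ a b, E a b → b < a)
    (hc : ∀ a, ¬ fx a → {b | E a b}.ncard + (Fb a).ncard < χ) :
    ∃ cl : Fin n → Fin χ, (∀ a, fx a → cl a = col0 a) ∧
      ∀ a, ¬ fx a → cl a ∉ Fb a ∧ ∀ b, E a b → cl a ≠ cl b := by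
  classical
  have key : ∀ k : ℕ, ∃ cl : Fin n → Fin χ, (∀ a, fx a → cl a = col0 a) ∧
      ∀ a : Fin n, a.1 < k → ¬ fx a → cl a ∉ Fb a ∧ ∀ b, E a b → cl a ≠ cl b := by
    intro k
    induction k with
    | zero => exact ⟨col0, fun _ _ => rfl, fun _ h => absurd h (Nat.not_lt_zero _)⟩
    | succ k ih =>
      obtain ⟨cl, h1, h2⟩ := ih
      by_cases hk : ∃ a0 : Fin n, a0.1 = k ∧ ¬ fx a0
      · obtain ⟨a0, ha0, hf⟩ := hk
        have h3 : (cl '' {b | E a0 b} ∪ Fb a0).ncard < (univ : Set (Fin χ)).ncard := by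
          rw [ncard_univ, Nat.card_eq_fintype_card, Fintype.card_fin]
          exact lt_of_le_of_lt ((ncard_union_le _ _).trans
            (Nat.add_le_add_right (ncard_image_le (toFinite _)) _)) (hc a0 hf)
        obtain ⟨c, -, hc'⟩ := exists_mem_notMem_of_ncard_lt_ncard h3
        refine ⟨Function.update cl a0 c, fun a ha => ?_, fun a ha hfa => ?_⟩
        · rw [Function.update_of_ne (fun e => hf (by rw [← e]; exact ha)), h1 a ha]
        · by_cases e : a = a0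
          · subst e
            rw [Function.update_self]
            refine ⟨fun h => hc' (Or.inr h), fun b hb => ?_⟩
            rw [Function.update_of_ne (hE _ _ hb).ne]
            exact fun h => hc' (Or.inl ⟨b, hb, h.symm⟩)
          · have h4 : a.1 < k := lt_of_le_of_ne (Nat.lt_succ_iff.1 ha)
              fun h => e (Fin.ext (h.trans ha0.symm))
            rw [Function.update_of_ne e]
            refine ⟨(h2 a h4 hfa).1, fun b hb => ?_⟩
            have h5 : b ≠ a0 := by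
              have := Fin.lt_def.1 (hE _ _ hb)
              exact fun h => by rw [h] at this; omega
            rw [Function.update_of_ne h5]
            exact (h2 a h4 hfa).2 b hb
      · refine ⟨cl, h1, fun a ha hfa => h2 a (lt_of_le_of_ne (Nat.lt_succ_iff.1 ha)
          fun h => hk ⟨a, h, hfa⟩) hfa⟩
  obtain ⟨cl, h1, h2⟩ := key n
  exact ⟨cl, h1, fun a => h2 a a.2⟩

section aux
variable {P : ℕ → Lv X} {l i : ℕ} {K : X.Φ.K} {e : Xp (X.Φ.V K) X.χ X.J}
  {Z Z' U Y0 : Set (X.Φ.V K)} {n : ℕ} {hb : Fin (n + 1) → Prop} {Y : Fin (n + 1) → X.Φ.V K}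

theorem colR0Rc (hX : X.Ok) (hP : Good P) (l : ℕ) : X.R0 ≤ (P l).Rc :=
  hX.R0_le.trans (hP.R_le.trans (hP.Rc_mono 0 l (Nat.zero_le _)))

/-- The choices of inner vertices are entries of the tuple. -/
theorem Clu.colChoice (hX : X.Ok) (hP : Good P) (he : Rich P K e)
    (h : Sit P l K e i Z Z' U Y0) (c : Clu (P l) K e i Z Y0 hb Y) {a : Fin (n + 1)}
    (ha : ¬ hb a) (hU : Y a ∈ U) {j : X.J} {u : X.Φ.V K} (hu : e.f (Y a) j = some u) :
    ∃ b, Y b = u := by
  rcases hX.val_adj K _ _ j u (he.fine.val _) hu with rfl | h1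
  · exact ⟨a, rfl⟩
  · have h2 := ((c.nhs_eq _).1 ⟨a, ha, rfl⟩).2
    by_cases hz : u ∈ Z
    · obtain ⟨b, -, hb'⟩ := (c.hubs_eq u).2 ⟨hz, _, h2, h1⟩
      exact ⟨b, hb'⟩
    · have h3 := h.fix.f _ hU j u hu
      have h4 := ((c.nhs_eq _).1 ⟨0, c.shape.2.1, rfl⟩).1
      have h5 : (P l).lam i + 1 ≤ (P l).lam (i + 1) := by
        have := hP.sg_ge l i
        have := hP.lam_succ l i
        omega
      obtain ⟨b, -, hb'⟩ := (c.nhs_eq u).2 ⟨h3, h.sc1 _ h4 _ h3 ((Wk.step h2 h1 hz).le h5)⟩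
      exact ⟨b, hb'⟩

/-- Few entries are locally weakly reachable. -/
theorem Clu.colCardWloc (hX : X.Ok) (hP : Good P) (he : Rich P K e)
    (h : Sit P l K e i Z Z' U Y0) (c : Clu (P l) K e i Z Y0 hb Y) (a : Fin (n + 1)) :
    {b | ¬ hb b ∧ Wloc (X.Φ.R K).adj hb Y X.R0 a b}.ncard ≤ X.W0 := by
  have hinj := c.shape.1
  have key := reach_bound' (adj := (X.Φ.R K).adj) (κ := 3 * X.k + 1) (r := X.R0)
    (fun u z => z ∉ hubs hb Y ∧ ∀ b c, Y b = u → Y c = z → b ≤ c) (fun u => u ∈ nhs hb Y)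
    (fun v => by
      by_cases hv : v ∈ range Y
      · obtain ⟨a', rfl⟩ := hv
        by_cases ha' : hb a'
        · exact ⟨∅, by simp, notMem_empty _, fun u _ _ hw => hw.fst.1.1 ⟨a', ha', rfl⟩⟩
        · obtain ⟨S, h1, h2, h3⟩ := he.valid 0 (lt_of_le_of_lt (Nat.zero_le _) h.lt) (Y a')
          refine ⟨S, hP.kap0 ▸ h1, h2, ?_⟩
          rintro u ⟨b, hb', rfl⟩ hne hw
          have h4 : b < a' := lt_of_le_of_ne (hw.fst.1.2 b a' rfl rfl) fun e => hne (by rw [e])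
          exact h3 _ (c.ord b a' hb' ha' h4)
            ((hw.mono fun _ h => h.2).le (colR0Rc hX hP 0))
      · refine ⟨_, (c.prj hP h hv).trans (by omega), fun hm => ?_, fun u hu _ hw => ?_⟩
        · obtain ⟨b, -, hb'⟩ := hm.1
          exact hv ⟨b, hb'⟩
        · obtain ⟨b, -, hb'⟩ := hu
          obtain ⟨n1, n2, s, hn, h1, ⟨b', rfl⟩, h2⟩ := hw.first (· ∈ range Y) hv ⟨b, hb'⟩
          have h3 := colR0Rc hX hP l
          exact h2.fst.2 ⟨⟨b', fun hh => h2.fst.1.1 ⟨b', hh, rfl⟩, rfl⟩,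
            (h1.mono fun _ h => h.2).le (by omega)⟩) X.R0 le_rfl (Y a)
  refine le_trans (ncard_le_ncard_of_injOn Y ?_ hinj.injOn) key
  rintro b ⟨h1, h2⟩
  exact ⟨⟨b, h1, rfl⟩, Wk.mono h2 fun z hz => ⟨hz.1, fun b' c' e1 e2 => hinj e1 ▸ hz.2 c' e2⟩⟩

/-- The context colours seen from a non-hub are colours of weakly reachable vertices. -/
theorem Clu.colCtxWr (hX : X.Ok) (hP : Good P) (he : Rich P K e)
    (h : Sit P l K e i Z Z' U Y0) (c : Clu (P l) K e i Z Y0 hb Y) {a w : Fin (n + 1)}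
    (ha : ¬ hb a) (hw : hb w) {d1 d2 : ℕ} (hd : d1 + 1 + d2 ≤ X.R0)
    (hA : Att (X.Φ.R K).adj (fun v => v ∉ hubs hb Y) d1 (Y a) (Y w)) {z : X.Φ.V K}
    (hz : WR (X.Φ.R K).adj e.pos d2 (Y w) z) :
    WR (X.Φ.R K).adj e.pos X.R0 (Y a) z ∧ z ≠ Y a := by
  have h1 := colR0Rc hX hP l
  have h2 := c.below hP he.fine.inj h ha hw (d := d1) (by omega) hA
  have h3 : WR (X.Φ.R K).adj e.pos (d1 + 1) (Y a) (Y w) :=
    (h2.mono (Q := fun v => e.pos (Y w) ≤ e.pos v) fun _ h => h.2.le).wk le_rfl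
  refine ⟨(h3.trans hz).le hd, fun e' => ?_⟩
  have h4 := h2.fst.2
  have h5 := hz.pos_le
  rw [e'] at h5
  omega

end aux

theorem Clu.core (hX : X.Ok) {P : ℕ → Lv X} (hP : Good P) {l i : ℕ} {K : X.Φ.K}
    {e : Xp (X.Φ.V K) X.χ X.J} (he : Rich P K e) {Z Z' U Y0 : Set (X.Φ.V K)}
    (h : Sit P l K e i Z Z' U Y0) {n : ℕ} {hb : Fin (n + 1) → Prop} {Y : Fin (n + 1) → X.Φ.V K}
    (c : Clu (P l) K e i Z Y0 hb Y) :
    ∃ π : Pat X.χ X.J n, π.hb = hb ∧ PatOf e U π Y ∧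
      Core X K {p | ∃ l' ≤ l, p = ((P l').Rc, (P l').κ)} (P l).Rc ((P l).lam i) Y π
        (actx (X.Φ.R K).adj e X.R0 hb Y) := by
  classical
  have hinj := c.shape.1
  have hR := colR0Rc hX hP l
  have hloc : ∀ a b, ¬ hb a → Y a ∈ U → ¬ hb b → Wloc (X.Φ.R K).adj hb Y X.R0 a b →
      WR (X.Φ.R K).adj e.pos X.R0 (Y a) (Y b) := fun a b ha hU hb' hw =>
    (c.wf hP he.fine.inj h ha hR (h.fix.wr _ hU) _).2 (Or.inl ⟨b, hb', rfl, hw⟩)
  obtain ⟨cl, h1, h2⟩ := colGreedy (fun a => e.col (Y a)) (fun a => hb a ∨ Y a ∈ U)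
    (fun a b => b ≠ a ∧ ¬ hb b ∧ Wloc (X.Φ.R K).adj hb Y X.R0 a b)
    (fun a => e.col '' {z | WR (X.Φ.R K).adj e.pos X.R0 (Y a) z} ∪
      e.col '' {x | x ∈ U ∧ WR (X.Φ.R K).adj e.pos X.R0 x (Y a)})
    (fun a b hab => lt_of_le_of_ne ((Wk.fst hab.2.2).2 a rfl) hab.1) (fun a ha => by
      have a1 := (ncard_le_ncard (s := {b | b ≠ a ∧ ¬ hb b ∧ Wloc (X.Φ.R K).adj hb Y X.R0 a b})
        (fun b hb' => hb'.2)).trans (c.colCardWloc hX hP he h a)
      have a2 : (e.col '' {z | WR (X.Φ.R K).adj e.pos X.R0 (Y a) z}).ncard ≤ X.W0 :=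
        (ncard_image_le (toFinite _)).trans (he.fine.bd _ hX.R0_le _)
      have a3 : (e.col '' {x | x ∈ U ∧ WR (X.Φ.R K).adj e.pos X.R0 x (Y a)}).ncard ≤ 4 * X.W0 :=
        (ncard_image_le (toFinite _)).trans
          (not_lt.1 fun hh => ha (Or.inr (h.fix.heavy _ hh)))
      have a4 := ncard_union_le (e.col '' {z | WR (X.Φ.R K).adj e.pos X.R0 (Y a) z})
        (e.col '' {x | x ∈ U ∧ WR (X.Φ.R K).adj e.pos X.R0 x (Y a)})
      have a5 := hX.chi
      omega)
  have hch : ∀ a j, (¬ hb a ∧ Y a ∈ U) →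
      ((e.f (Y a) j).map (Function.invFun Y)).map Y = e.f (Y a) j := fun a j ha => by
    cases hu : e.f (Y a) j with
    | none => rfl
    | some u =>
      simp only [Option.map_some]
      rw [Function.invFun_eq (c.colChoice hX hP he h ha.1 ha.2 hu)]
  refine ⟨⟨hb, cl, fun a => ¬ hb a ∧ Y a ∈ U, fun a j => (e.f (Y a) j).map (Function.invFun Y)⟩,
    rfl, ⟨fun _ => Iff.rfl, fun a ha => h1 a (Or.inr ha.2), hch⟩, c.shape, fun a ha => ha.1,
    ?_, fun v hv => c.prj hP h hv, ?_, ?_, fun a ha => ?_⟩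
  · rintro p ⟨l', hl', rfl⟩ a ha
    exact c.hit hP he.fine.inj h (hP.Rc_mono l' l hl') ha
      (he.valid l' (lt_of_le_of_lt hl' h.lt) _)
  · intro a b ha hb' hne hw
    by_cases hU : Y a ∈ U
    · have a1 := hloc a b ha hU hb' hw
      show cl a ≠ cl b
      rw [h1 a (Or.inr hU)]
      by_cases hU' : Y b ∈ U
      · rw [h1 b (Or.inr hU')]
        exact (he.fine.prop _ _ a1 fun e' => hne (hinj e').symm).symm
      · exact fun e' => (h2 b (not_or.2 ⟨hb', hU'⟩)).1 (Or.inr ⟨Y a, ⟨hU, a1⟩, e'⟩)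
    · exact (h2 a (not_or.2 ⟨ha, hU⟩)).2 b ⟨hne.symm, hb', hw⟩
  · rintro a w d1 d2 ha hw hd hA ⟨-, z, hz, hc⟩
    obtain ⟨a1, a2⟩ := c.colCtxWr hX hP he h ha hw hd hA hz
    by_cases hU : Y a ∈ U
    · exact he.fine.prop _ _ a1 a2 (hc.trans (h1 a (Or.inr hU)))
    · exact (h2 a (not_or.2 ⟨ha, hU⟩)).1 (Or.inl ⟨z, a1, hc⟩)
  · have a1 : (fun j => ((e.f (Y a) j).map (Function.invFun Y)).map Y) = e.f (Y a) :=
      funext fun j => hch a j ha
    show X.Val K (Y a) fun j => ((e.f (Y a) j).map (Function.invFun Y)).map Y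
    rw [a1]
    exact he.fine.val _

end Pool.Agent.Work.MP_b730b2_lc.Full
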