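import Pool.Agent.Work.MP_b730b2_lc.Full.Plant

/-! Finding a good index of a chain and a good scale.

Proof plan for `good_index`. Let `Φ j s` (`s ≤ r`) be the set of pairs `(y, z)`, `y ∈ Y0`,
`z ∈ Z j`, with `y = z` or `Att (· ∉ Z j) s' y z` for some `s' + 1 ≤ s`; it has at most
`c * (a + 1)` elements. If `j` is bad take the least `s ≤ r` such that some `y ∈ Y0`,
`z ∈ Z (j+1)` have `Wk (· ∉ Z j) s y z`. Then `Φ j s' ⊆ Φ (j+1) s'` for `s' ≤ s` (`Wk.of_ball`: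
the vertices of a walk of length `< s` from `Y0` outside `Z j` are outside `Z (j+1)`), strictly for
`s' = s`. So `∑ s, |Φ j s| * (c * (a+1) + 1) ^ (r - s)` strictly increases and is `< gD c a r`.
`good_scale`: the sets of pairs are monotone in the radius and of total size at most
`c ^ 2 + c * a`; if no `i < I` is good the total size at `lam i` is at least `i`. -/

namespace Pool.Agent.Work.MP_b730b2_lc.Full

open Set

/-- The value of a sequence of digits. -/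
def digVal (M : ℕ) (f : ℕ → ℕ) : ℕ → ℕ
  | 0 => 0
  | n + 1 => digVal M f n * M + f n

theorem digVal_lt {M : ℕ} {f : ℕ → ℕ} : ∀ n, (∀ s < n, f s < M) → digVal M f n < M ^ n
  | 0, _ => by simp [digVal]
  | n + 1, h => by
    have h1 := digVal_lt n fun s hs => h s (by omega)
    have h2 := h n (by omega)
    rw [digVal, pow_succ]
    nlinarith

theorem digVal_le {M : ℕ} {f g : ℕ → ℕ} : ∀ n, (∀ s < n, f s ≤ g s) → digVal M f n ≤ digVal M g n
  | 0, _ => le_rfl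
  | n + 1, h =>
    Nat.add_le_add (Nat.mul_le_mul_right _ (digVal_le n fun s hs => h s (by omega)))
      (h n (by omega))

theorem digVal_lex {M s : ℕ} {f g : ℕ → ℕ} (h1 : ∀ t < s, f t ≤ g t) (h2 : f s < g s) :
    ∀ n, s < n → (∀ t < n, f t < M) → digVal M f n < digVal M g n
  | 0, h, _ => absurd h (Nat.not_lt_zero _)
  | n + 1, h, h3 => by
    rcases Nat.lt_succ_iff_lt_or_eq.1 h with c | rfl
    · have h4 := digVal_lex h1 h2 n c fun t ht => h3 t (by omega)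
      have h5 := h3 n (by omega)
      rw [digVal, digVal]
      nlinarith
    · exact Nat.add_lt_add_of_le_of_lt (Nat.mul_le_mul_right _ (digVal_le _ h1)) h2

theorem le_of_steps {f : ℕ → ℕ} : ∀ n, (∀ j < n, f j < f (j + 1)) → n ≤ f n
  | 0, _ => Nat.zero_le _
  | n + 1, h => by
    have h1 := le_of_steps n fun j hj => h j (by omega)
    have h2 := h n (by omega)
    omega

theorem ncard_pairs_le {V : Type} [Finite V] {c b : ℕ} {Y0 : Set V} (hY : Y0.ncard ≤ c)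
    (F : V → V → Prop) (h : ∀ y ∈ Y0, {z | F y z}.ncard ≤ b) :
    {p : V × V | p.1 ∈ Y0 ∧ F p.1 p.2}.ncard ≤ c * b := by
  have sub : {p : V × V | p.1 ∈ Y0 ∧ F p.1 p.2} ⊆ ⋃ y ∈ Y0, Prod.mk y '' {z | F y z} :=
    fun p hp => mem_biUnion hp.1 ⟨p.2, hp.2, rfl⟩
  exact (ncard_le_ncard sub).trans ((ncard_biUnion_le Y0 (toFinite _) _ b fun y hy =>
    (ncard_image_le (toFinite _)).trans (h y hy)).trans (Nat.mul_le_mul_right _ hY))

theorem ncard_att_le {V : Type} [Finite V] {adj : V → V → Prop} {a r s : ℕ} {Z : Set V}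
    (hprj : ∀ v, v ∉ Z → {z | z ∈ Z ∧ Att adj (fun y => y ∉ Z) r v z}.ncard ≤ a) (hs : s ≤ r)
    (y : V) : {z | z ∈ Z ∧ Att adj (fun y => y ∉ Z) s y z}.ncard ≤ a := by
  by_cases c : y ∈ Z
  · have : {z | z ∈ Z ∧ Att adj (fun y => y ∉ Z) s y z} = ∅ :=
      eq_empty_of_forall_notMem fun z hz => hz.2.fst c
    simp [this]
  · refine (ncard_le_ncard ?_).trans (hprj y c)
    exact fun z hz => ⟨hz.1, hz.2.le hs⟩

theorem good_index {V : Type} [Finite V] (adj : V → V → Prop) {c a r D : ℕ} (Z : ℕ → Set V)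
    (Y0 : Set V) (hmono : ∀ j < D, Z j ⊆ Z (j + 1))
    (hprj : ∀ j ≤ D, ∀ v, v ∉ Z j →
      {z | z ∈ Z j ∧ Att adj (fun y => y ∉ Z j) r v z}.ncard ≤ a)
    (hY : Y0.ncard ≤ c) (hD : gD c a r ≤ D) :
    ∃ j < D, ∀ y ∈ Y0, ∀ z ∈ Z (j + 1), ¬ Wk adj (fun v => v ∉ Z j) r y z := by
  classical
  by_contra bad
  push Not at bad
  let Φ : ℕ → ℕ → Set (V × V) := fun j s => {p | p.1 ∈ Y0 ∧ (p.2 ∈ Z j ∧
    (p.1 = p.2 ∨ ∃ t, t + 1 ≤ s ∧ Att adj (fun v => v ∉ Z j) t p.1 p.2))}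
  have bd : ∀ j ≤ D, ∀ s < r + 1, (Φ j s).ncard < c * (a + 1) + 1 := by
    intro j hj s hs
    refine Nat.lt_succ_of_le (ncard_pairs_le hY (fun y z => z ∈ Z j ∧
      (y = z ∨ ∃ t, t + 1 ≤ s ∧ Att adj (fun v => v ∉ Z j) t y z)) fun y _ => ?_)
    refine (ncard_le_ncard (t := insert y {z | z ∈ Z j ∧ Att adj (fun v => v ∉ Z j) r y z})
      ?_).trans ((ncard_insert_le _ _).trans
        (Nat.add_le_add_right (ncard_att_le (hprj j hj) le_rfl y) 1))
    rintro z ⟨h1, rfl | ⟨t, h2, h3⟩⟩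
    · exact Or.inl rfl
    · exact Or.inr ⟨h1, h3.le (by omega)⟩
  have inc : ∀ j < D, digVal (c * (a + 1) + 1) (fun s => (Φ j s).ncard) (r + 1) <
      digVal (c * (a + 1) + 1) (fun s => (Φ (j + 1) s).ncard) (r + 1) := by
    intro j hj
    have ex : ∃ s, ∃ y ∈ Y0, ∃ z ∈ Z (j + 1), Wk adj (fun v => v ∉ Z j) s y z := ⟨r, bad j hj⟩
    have hs : Nat.find ex ≤ r := Nat.find_min' ex (bad j hj)
    have up : ∀ t < Nat.find ex, ∀ y ∈ Y0, ∀ z, Att adj (fun v => v ∉ Z j) t y z →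
        Att adj (fun v => v ∉ Z (j + 1)) t y z := fun t ht y hy z h =>
      h.of_ball fun v hv hz => Nat.find_min ex ht ⟨y, hy, v, hz, hv⟩
    have sub : ∀ s ≤ Nat.find ex, Φ j s ⊆ Φ (j + 1) s := by
      rintro s hs p ⟨h1, h2, h3⟩
      refine ⟨h1, hmono j hj h2, h3.imp id ?_⟩
      rintro ⟨t, h4, h5⟩
      exact ⟨t, h4, up t (by omega) _ h1 _ h5⟩
    refine digVal_lex (s := Nat.find ex) (fun t ht => ncard_le_ncard (sub t ht.le)) ?_ _
      (by omega) (bd j hj.le)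
    obtain ⟨y, hy, z, hz, w⟩ := Nat.find_spec ex
    refine ncard_lt_ncard ⟨sub _ le_rfl, fun h => w.lst (h (a := (y, z)) ⟨hy, hz, ?_⟩).2.1⟩
    generalize Nat.find ex = s at w up
    cases w with
    | refl _ => exact Or.inl rfl
    | step w e _ => exact Or.inr ⟨_, le_rfl, up _ (Nat.lt_succ_self _) y hy z ⟨_, w, e⟩⟩
  have h1 := le_of_steps (f := fun j => digVal (c * (a + 1) + 1) (fun s => (Φ j s).ncard) (r + 1))
    D inc
  have h2 := digVal_lt (f := fun s => (Φ D s).ncard) (r + 1) (bd D le_rfl)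
  exact absurd (hD.trans h1) (not_le.2 h2)

theorem good_scale {V : Type} [Finite V] (adj : V → V → Prop) {c a I : ℕ} (lam : ℕ → ℕ)
    (hl : Monotone lam) (Z Y0 : Set V) (hY : Y0.ncard ≤ c)
    (hprj : ∀ v, v ∉ Z → {z | z ∈ Z ∧ Att adj (fun y => y ∉ Z) (lam I) v z}.ncard ≤ a)
    (hI : c ^ 2 + c * a < I) :
    ∃ i < I, (∀ y ∈ Y0, ∀ y' ∈ Y0, Wk adj (fun v => v ∉ Z) (lam (i + 1)) y y' →
        Wk adj (fun v => v ∉ Z) (lam i) y y') ∧
      ∀ y ∈ Y0, ∀ z ∈ Z, Att adj (fun v => v ∉ Z) (lam (i + 1)) y z →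
        Att adj (fun v => v ∉ Z) (lam i) y z := by
  by_contra bad
  let A : ℕ → Set (V × V) := fun t => {p | p.1 ∈ Y0 ∧ (p.2 ∈ Y0 ∧
    Wk adj (fun v => v ∉ Z) (lam t) p.1 p.2)}
  let B : ℕ → Set (V × V) := fun t => {p | p.1 ∈ Y0 ∧ (p.2 ∈ Z ∧
    Att adj (fun v => v ∉ Z) (lam t) p.1 p.2)}
  have inc : ∀ i < I, (A i).ncard + (B i).ncard < (A (i + 1)).ncard + (B (i + 1)).ncard := by
    intro i hi
    have l := hl (Nat.le_succ i)
    have s1 : A i ⊆ A (i + 1) := fun p hp => ⟨hp.1, hp.2.1, hp.2.2.le l⟩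
    have s2 : B i ⊆ B (i + 1) := fun p hp => ⟨hp.1, hp.2.1, hp.2.2.le l⟩
    by_cases c1 : A (i + 1) ⊆ A i
    · by_cases c2 : B (i + 1) ⊆ B i
      · exact absurd ⟨i, hi, fun y hy y' hy' w => (c1 (a := (y, y')) ⟨hy, hy', w⟩).2.2,
          fun y hy z hz w => (c2 (a := (y, z)) ⟨hy, hz, w⟩).2.2⟩ bad
      · exact Nat.add_lt_add_of_le_of_lt (ncard_le_ncard s1) (ncard_lt_ncard ⟨s2, c2⟩)
    · exact Nat.add_lt_add_of_lt_of_le (ncard_lt_ncard ⟨s1, c1⟩) (ncard_le_ncard s2)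
  have h1 := le_of_steps (f := fun t => (A t).ncard + (B t).ncard) I inc
  have h2 : (A I).ncard ≤ c * c := ncard_pairs_le hY
    (fun y z => z ∈ Y0 ∧ Wk adj (fun v => v ∉ Z) (lam I) y z) fun y _ =>
      (ncard_le_ncard fun z hz => hz.1).trans hY
  have h3 : (B I).ncard ≤ c * a := ncard_pairs_le hY
    (fun y z => z ∈ Z ∧ Att adj (fun v => v ∉ Z) (lam I) y z) fun y _ =>
      ncard_att_le hprj le_rfl y
  rw [sq] at hI
  omega

end Pool.Agent.Work.MP_b730b2_lc.Full
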