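import Pool.Agent.Work.MP_b730b2_lc.Full.CluCP
import Pool.Agent.Work.MP_b730b2_lc.Full.Pigeon

/-! The decomposition into clusters after a move.

Proof plan. Take the chain `Zn` of level `l` from `hP.chain`, `U, Y0` from `exists_fix` (for level
`l + 1`, `Z = Zn D`), `j` from `good_index` and `i` from `good_scale` (with `c = N + 1`), which gives
`Sit`. Let `C` be the set of classes `{y' ∈ Y0 | Wk (· ∉ Z j) (lam i) y y'}`, `y ∈ Y0 \ Z j` (a subtype of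
`Set V`), choose a tuple for each class by `exists_clu` and a pattern by `Clu.cond`; its non-hubs are
the class (`Clu.nhs_eq_of_mem`), so different classes are disjoint. There are at most `|Y0|`
classes, each with at most `2k+1` hubs. -/

namespace Pool.Agent.Work.MP_b730b2_lc.Full

open Set

variable {σ : Type} {X : Cx σ}

theorem exists_clusters (hX : X.Ok) {P : ℕ → Lv X} (hP : Good P) {K : X.Φ.K}
    {e : Xp (X.Φ.V K) X.χ X.J} (he : Rich P K e) {l : ℕ} (hl : l + 1 < X.Q)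
    {Z : ℕ → Set (X.Φ.V K)} (hZ : Chain (P (l + 1)) K e Z) (Z0 : Set (X.Φ.V K))
    (h0 : Z0.ncard ≤ X.Q) :
    ∃ (Zn : ℕ → Set (X.Φ.V K)) (U Y0 : Set (X.Φ.V K)) (j i : ℕ) (C : Type) (_ : Finite C)
      (n : C → ℕ) (π : ∀ c, Pat X.χ X.J (n c)) (Y : ∀ c, Fin (n c + 1) → X.Φ.V K),
      Chain (P l) K e Zn ∧ Z0 ⊆ Zn 0 ∧ (Zn (P l).D).ncard ≤ (P l).n1 ∧ Zn (P l).D ⊆ U ∧
      j < (P (l + 1)).D ∧ Sit P (l + 1) K e i (Z j) (Z (j + 1)) U Y0 ∧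
      (∀ c, Clu (P (l + 1)) K e i (Z j) Y0 (π c).hb (Y c) ∧ PatOf e U (π c) (Y c) ∧
        (P (l + 1)).C K i (n c) (Y c) (π c) (actx (X.Φ.R K).adj e X.R0 (π c).hb (Y c))) ∧
      (∀ y ∈ Y0, y ∉ Z j → ∃ c, y ∈ nhs (π c).hb (Y c)) ∧
      (∀ c c' y, y ∈ nhs (π c).hb (Y c) → y ∈ nhs (π c').hb (Y c') → c = c') ∧
      (Y0 ∪ ⋃ c, hubs (π c).hb (Y c)).ncard ≤ ((P (l + 1)).N + 1) * (2 * X.k + 2) := by
  obtain ⟨Zn, z1, z2, z3⟩ := hP.chain l K e he.fine.inj (he.valid l (by omega)) Z0 h0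
  obtain ⟨U, Y0, u1, u2, u3⟩ := exists_fix hX hP he.fine hl.le (Zn (P l).D) z3
  have hN := hP.N_ge l
  have hY : Y0.ncard ≤ (P (l + 1)).N + 1 := by omega
  obtain ⟨j, hj, far⟩ := good_index (X.Φ.R K).adj Z Y0 hZ.mono hZ.prj hY (hP.D_ge (l + 1))
  obtain ⟨i, hi, s1, s2⟩ := good_scale (X.Φ.R K).adj (P (l + 1)).lam (hP.lam_mono (l + 1)) (Z j)
    Y0 hY (hZ.prj j hj.le) (hP.I_ge (l + 1))
  have hS : Sit P (l + 1) K e i (Z j) (Z (j + 1)) U Y0 :=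
    ⟨hl, hi, hZ.mono j hj, hZ.wr j hj, hZ.prj j hj.le, hZ.dom j hj, far, s1, s2, by omega, u3⟩
  let cs : X.Φ.V K → Set (X.Φ.V K) := fun y =>
    {y' | y' ∈ Y0 ∧ Wk (X.Φ.R K).adj (fun v => v ∉ Z j) ((P (l + 1)).lam i) y y'}
  have key : ∀ c : cs '' (Y0 \ Z j), ∃ (n : ℕ) (π : Pat X.χ X.J n) (Y : Fin (n + 1) → X.Φ.V K),
      (Clu (P (l + 1)) K e i (Z j) Y0 π.hb Y ∧ PatOf e U π Y ∧
        (P (l + 1)).C K i n Y π (actx (X.Φ.R K).adj e X.R0 π.hb Y)) ∧ nhs π.hb Y = c.1 := by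
    rintro ⟨_, y, hy, rfl⟩
    obtain ⟨n, hb, Y, c, hc⟩ := exists_clu hP he.fine.inj hS hy.1 hy.2
    obtain ⟨π, rfl, p1, p2⟩ := c.cond hX hP he hS
    exact ⟨n, π, Y, ⟨c, p1, p2⟩, Set.ext (c.nhs_eq_of_mem hP hS hc)⟩
  choose n π Y k1 k2 using key
  refine ⟨Zn, U, Y0, j, i, cs '' (Y0 \ Z j), inferInstance, n, π, Y, z1, z2, z3, u1, hj, hS, k1,
    fun y hy hy' => ⟨⟨cs y, y, ⟨hy, hy'⟩, rfl⟩, ?_⟩, fun c c' y h h' => Subtype.ext ?_, ?_⟩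
  · rw [k2]
    exact ⟨hy, Wk.refl hy'⟩
  · rw [← k2, ← k2]
    ext y'
    rw [(k1 c).1.nhs_eq_of_mem hP hS h, (k1 c').1.nhs_eq_of_mem hP hS h']
  · have h1 := ncard_biUnion_le (univ : Set (cs '' (Y0 \ Z j))) (toFinite _)
      (fun c => hubs (π c).hb (Y c)) (2 * X.k + 1) fun c _ => (k1 c).1.card_hubs hP hS
    have h2 : (univ : Set (cs '' (Y0 \ Z j))).ncard ≤ (P (l + 1)).N + 1 := by
      rw [ncard_univ, Nat.card_coe_set_eq]
      exact (ncard_image_le (toFinite _)).trans ((ncard_le_ncard sdiff_subset).trans hY)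
    rw [biUnion_univ] at h1
    refine (ncard_union_le _ _).trans ((Nat.add_le_add hY
      (h1.trans (Nat.mul_le_mul_right _ h2))).trans (le_of_eq ?_))
    ring

end Pool.Agent.Work.MP_b730b2_lc.Full
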