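import Pool.Agent.Work.MP_b730b2_lc.Full.Walk
import Mathlib.Combinatorics.SimpleGraph.Acyclic

/-! Width of graphs represented by connected sets.

Proof plan for `wid_comps`. Let `pos0` be an elimination order of `adj0`, `top u` the `pos0`-least
element of `cp u`; order `V` by `pos0 (top u)` with ties broken by any injection (`exists_pos`).
If `u ∈ SR v`, then by induction along the walk every vertex `y` of the walk has `cp y` inside the
component `C0` of `top v` in `{z | pos0 (top v) ≤ pos0 z}`. As `cp u` touches `C0`, either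
`top v ∈ cp u` (if `top u = top v`), or a walk inside `cp u` from the touching element to `top u`
has a first vertex below `top v`, which is in `SR (top v)`. So
`SR v ⊆ ⋃ z ∈ insert (top v) (SR (top v)), {u | z ∈ cp u}`.
`wid_tree`: order by distance from a root; `SR v` is contained in the parent of `v`
(or: induction by removing leaves).
`wid_tw`: apply `wid_comps` to the tree with `cp v0 = univ`, `cp v = {t | v ∈ B t}`.
`wid_star`: apply `wid_comps` with `cp u = {x | WR adj pos R x u}` (use `Wk.of_on`). -/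

namespace Pool.Agent.Work.MP_b730b2_lc.Full

open Set

theorem wid_comps {V0 V : Type} [Finite V0] [Finite V] {adj0 : V0 → V0 → Prop}
    (hs0 : ∀ a b, adj0 a b → adj0 b a) {adj : V → V → Prop} {k0 w : ℕ} (h0 : Wid adj0 k0)
    (cp : V → Set V0) (hne : ∀ u, (cp u).Nonempty)
    (hcon : ∀ u, ∀ a ∈ cp u, ∀ b ∈ cp u, ∃ n, Wk adj0 (fun z => z ∈ cp u) n a b)
    (hw : ∀ z, {u | z ∈ cp u}.ncard ≤ w)
    (hadj : ∀ u v, adj u v → ∃ a ∈ cp u, ∃ b ∈ cp v, a = b ∨ adj0 a b) :
    Wid adj ((k0 + 1) * w) := by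
  obtain ⟨pos0, hinj, h0⟩ := h0
  choose top ht1 ht2 using fun u => exists_min_image (cp u) pos0 (toFinite _) (hne u)
  obtain ⟨ι, hι⟩ := Countable.exists_injective_nat V
  obtain ⟨pos, hp1, hp2⟩ := exists_pos (fun u => toLex (pos0 (top u), ι u)) fun x y e =>
    hι (congrArg (fun p => (ofLex p).2) e)
  have hlt : ∀ x y, pos x < pos y → pos0 (top x) ≤ pos0 (top y) := fun x y h => by
    rcases Prod.Lex.toLex_lt_toLex.1 ((hp2 x y).1 h) with h | h
    · exact h.le
    · exact h.1.le
  have hle : ∀ x y, pos x ≤ pos y → pos0 (top x) ≤ pos0 (top y) := fun x y h => by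
    rcases h.lt_or_eq with h | h
    · exact hlt x y h
    · rw [hp1 h]
  refine ⟨pos, hp1, fun v => ?_⟩
  have hin : ∀ z, pos v ≤ pos z → ∀ b ∈ cp z,
      (∃ m, Wk adj0 (fun a => pos0 (top v) ≤ pos0 a) m (top v) b) → ∀ c ∈ cp z,
      ∃ m, Wk adj0 (fun a => pos0 (top v) ≤ pos0 a) m (top v) c := by
    rintro z hz b hb ⟨m, hm⟩ c hc
    obtain ⟨n, hn⟩ := hcon z b hb c hc
    exact ⟨_, hm.trans (hn.mono fun a ha => (hle v z hz).trans (ht2 z a ha))⟩
  have hA : ∀ n x y, Wk adj (fun z => pos v ≤ pos z) n x y →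
      (∀ a ∈ cp x, ∃ m, Wk adj0 (fun a => pos0 (top v) ≤ pos0 a) m (top v) a) →
      ∀ a ∈ cp y, ∃ m, Wk adj0 (fun a => pos0 (top v) ≤ pos0 a) m (top v) a := by
    intro n x y h
    induction h with
    | refl _ => exact id
    | @step n x y z _ e hz ih =>
      intro hx
      obtain ⟨a, ha, b, hb, hab⟩ := hadj y z e
      obtain ⟨m, hm⟩ := ih hx a ha
      refine hin z hz b hb ?_
      rcases hab with rfl | hab
      · exact ⟨m, hm⟩
      · exact ⟨m + 1, hm.step hab ((hle v z hz).trans (ht2 z b hb))⟩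
  have sub : SR adj pos v ⊆ ⋃ z ∈ insert (top v) (SR adj0 pos0 (top v)), {u | z ∈ cp u} := by
    rintro u ⟨hu, n, y, hy, e⟩
    by_cases c : top v ∈ cp u
    · exact mem_biUnion (mem_insert _ _) c
    have h1 : pos0 (top u) < pos0 (top v) :=
      lt_of_le_of_ne (hlt u v hu) fun e => c (hinj e ▸ ht1 u)
    obtain ⟨a, ha, b, hb, hab⟩ := hadj y u e
    obtain ⟨m, hm⟩ := hA n v y hy (hin v le_rfl (top v) (ht1 v) ⟨0, .refl le_rfl⟩) a ha
    by_cases c2 : pos0 b < pos0 (top v)
    · rcases hab with rfl | hab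
      · exact absurd hm.lst (not_le.2 c2)
      · exact mem_biUnion (mem_insert_of_mem _ ⟨c2, m, a, hm, hab⟩) hb
    · have hm' : ∃ m, Wk adj0 (fun a => pos0 (top v) ≤ pos0 a) m (top v) b := by
        rcases hab with rfl | hab
        · exact ⟨m, hm⟩
        · exact ⟨m + 1, hm.step hab (not_lt.1 c2)⟩
      obtain ⟨m', hm'⟩ := hm'
      obtain ⟨k, hk⟩ := hcon u b hb (top u) (ht1 u)
      obtain ⟨n1, n2, s, -, h2, h3, h4⟩ := hk.first (fun a => pos0 a < pos0 (top v)) c2 h1
      exact mem_biUnion (mem_insert_of_mem _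
        ⟨h3, _, hm'.att (h2.mono fun a ha => not_lt.1 ha.2)⟩) h4.fst
  refine (ncard_le_ncard sub).trans ((ncard_biUnion_le _ (toFinite _) _ w fun z _ => hw z).trans
    (Nat.mul_le_mul_right _ ((ncard_insert_le _ _).trans (Nat.add_le_add_right (h0 _) 1))))

theorem Comps_parent {V : Type} {T : SimpleGraph V} (hT : T.IsTree) (r : V) {x p q : V}
    (hp : T.Adj p x) (hq : T.Adj q x) (h1 : T.dist r p + 1 = T.dist r x)
    (h2 : T.dist r q + 1 = T.dist r x) : p = q := by
  obtain ⟨P, hP⟩ := hT.connected.exists_walk_length_eq_dist r p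
  obtain ⟨Q, hQ⟩ := hT.connected.exists_walk_length_eq_dist r q
  have k1 := (P.concat hp).isPath_of_length_eq_dist (by rw [SimpleGraph.Walk.length_concat, hP, h1])
  have k2 := (Q.concat hq).isPath_of_length_eq_dist (by rw [SimpleGraph.Walk.length_concat, hQ, h2])
  have k3 := (hT.existsUnique_path r x).unique k1 k2
  exact (SimpleGraph.Walk.concat_inj k3).1

theorem Comps_desc {V : Type} {T : SimpleGraph V} (hT : T.IsTree) (r : V) {v y z : V}
    (hy : T.dist r y = T.dist r v + T.dist v y) (e : T.Adj y z)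
    (h : y ≠ v ∨ T.dist r v ≤ T.dist r z) : T.dist r z = T.dist r v + T.dist v z := by
  have t1 := hT.connected.dist_triangle (u := r) (v := v) (w := z)
  have t2 := hT.connected.dist_triangle (u := v) (v := y) (w := z)
  have t3 := SimpleGraph.dist_eq_one_iff_adj.2 e
  rcases hT.dist_eq_dist_add_one_of_adj r e with c | c
  · have hne : y ≠ v := by
      rcases h with h | h
      · exact h
      · rintro rfl
        omega
    obtain ⟨P, hP⟩ := hT.connected.exists_walk_length_eq_dist y v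
    obtain ⟨p, hp, P', rfl⟩ := P.exists_eq_cons_of_ne hne
    have t4 := SimpleGraph.dist_le P'
    rw [SimpleGraph.Walk.length_cons, SimpleGraph.dist_comm] at hP
    rw [SimpleGraph.dist_comm] at t4
    have t5 := hT.connected.dist_triangle (u := r) (v := v) (w := p)
    have t6 := hT.connected.dist_triangle (u := r) (v := p) (w := y)
    have t7 := SimpleGraph.dist_eq_one_iff_adj.2 hp.symm
    have t8 : p = z := Comps_parent hT r hp.symm e.symm (by omega) c.symm
    subst t8
    omega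
  · omega

theorem wid_tree {m : ℕ} {T : SimpleGraph (Fin m)} (hT : T.IsTree) : Wid T.Adj 1 := by
  obtain ⟨r⟩ := hT.connected.nonempty
  obtain ⟨pos, hp1, hp2⟩ := exists_pos (fun u : Fin m => toLex (T.dist r u, u)) fun x y e =>
    congrArg (fun p => (ofLex p).2) e
  have hlt : ∀ x y, pos x < pos y → T.dist r x ≤ T.dist r y := fun x y h => by
    rcases Prod.Lex.toLex_lt_toLex.1 ((hp2 x y).1 h) with h | h
    · exact h.le
    · exact h.1.le
  have hle : ∀ x y, pos x ≤ pos y → T.dist r x ≤ T.dist r y := fun x y h => by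
    rcases h.lt_or_eq with h | h
    · exact hlt x y h
    · rw [hp1 h]
  refine ⟨pos, hp1, fun v => ?_⟩
  have hA : ∀ n x y, Wk T.Adj (fun z => pos v ≤ pos z) n x y →
      T.dist r x = T.dist r v + T.dist v x → T.dist r y = T.dist r v + T.dist v y := by
    intro n x y h
    induction h with
    | refl _ => exact id
    | step _ e hz ih => exact fun hx => Comps_desc hT r (ih hx) e (Or.inr (hle _ _ hz))
  have hB : ∀ u ∈ SR T.Adj pos v, T.Adj u v ∧ T.dist r u + 1 = T.dist r v := by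
    rintro u ⟨hu, n, y, hy, e⟩
    have h1 := hA n v y hy (by simp)
    have h2 := hlt u v hu
    by_cases c : y = v
    · subst c
      refine ⟨e.symm, ?_⟩
      rcases hT.dist_eq_dist_add_one_of_adj r e with c | c <;> omega
    · have h3 := Comps_desc hT r h1 e (Or.inl c)
      have h4 : v = u := hT.connected.dist_eq_zero_iff.1 (by omega)
      subst h4
      exact absurd hu (lt_irrefl _)
  exact (ncard_le_one (toFinite _)).2 fun a ha b hb =>
    Comps_parent hT r (hB a ha).1 (hB b hb).1 (hB a ha).2 (hB b hb).2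

theorem Comps_wk {V : Type} {T : SimpleGraph V} {s : Set V} {a b : s}
    (p : (T.induce s).Walk a b) : ∃ n, Wk T.Adj (fun z => z ∈ s) n a b := by
  induction p with
  | @nil u => exact ⟨0, .refl u.2⟩
  | @cons u v w e _ ih =>
    obtain ⟨n, hn⟩ := ih
    exact ⟨n + 1, Wk.head u.2 e hn⟩

theorem Comps_wk' {V : Type} {T : SimpleGraph V} {a b : V}
    (p : T.Walk a b) : ∃ n, Wk T.Adj (fun _ => True) n a b := by
  induction p with
  | nil => exact ⟨0, .refl trivial⟩
  | cons e _ ih =>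
    obtain ⟨n, hn⟩ := ih
    exact ⟨n + 1, Wk.head trivial e hn⟩

theorem wid_tw {V : Type} [Finite V] {adj : V → V → Prop} {k m : ℕ} (v0 : V)
    {T : SimpleGraph (Fin m)} (B : Fin m → Finset V) (hT : T.IsTree) (h1 : ∀ v, ∃ t, v ∈ B t)
    (h2 : ∀ x y, adj x y → x = v0 ∨ y = v0 ∨ ∃ t, x ∈ B t ∧ y ∈ B t)
    (h3 : ∀ v, (T.induce {t | v ∈ B t}).Connected) (h4 : ∀ t, (B t).card ≤ k + 1) :
    Wid adj (2 * (k + 2)) := by
  refine wid_comps (k0 := 1) (fun _ _ e => e.symm) (wid_tree hT)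
    (fun v => {t | v = v0 ∨ v ∈ B t}) (fun v => ?_) (fun v a ha b hb => ?_) (fun t => ?_)
    fun x y e => ?_
  · obtain ⟨t, ht⟩ := h1 v
    exact ⟨t, Or.inr ht⟩
  · by_cases c : v = v0
    · obtain ⟨p⟩ := hT.connected a b
      obtain ⟨n, hn⟩ := Comps_wk' p
      exact ⟨n, hn.mono fun _ _ => Or.inl c⟩
    · obtain ⟨p⟩ := h3 v ⟨a, ha.resolve_left c⟩ ⟨b, hb.resolve_left c⟩
      obtain ⟨n, hn⟩ := Comps_wk p
      exact ⟨n, hn.mono fun _ h => Or.inr h⟩
  · refine (ncard_insert_le v0 (B t : Set V)).trans ?_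
    rw [ncard_coe_finset]
    exact Nat.add_le_add_right (h4 t) 1
  · rcases h2 x y e with c | c | ⟨t, hx, hy⟩
    · obtain ⟨t, ht⟩ := h1 y
      exact ⟨t, Or.inl c, t, Or.inr ht, Or.inl rfl⟩
    · obtain ⟨t, ht⟩ := h1 x
      exact ⟨t, Or.inr ht, t, Or.inl c, Or.inl rfl⟩
    · exact ⟨t, Or.inr hx, t, Or.inr hy, Or.inl rfl⟩

theorem wid_star {V : Type} [Finite V] {adj adj' : V → V → Prop} (hs : ∀ a b, adj a b → adj b a)
    {k R W : ℕ} (h : Wid adj k) (pos : V → ℕ) (hW : ∀ v, {u | WR adj pos R v u}.ncard ≤ W)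
    (h' : ∀ x y, adj' x y → adj x y ∨ WR adj pos R x y ∨ WR adj pos R y x) :
    Wid adj' ((k + 1) * W) := by
  refine wid_comps hs h (fun u => {x | WR adj pos R x u}) (fun u => ⟨u, WR.refl⟩)
    (fun u a ha b hb => ?_) hW fun x y e => ?_
  · have k : ∀ c, WR adj pos R c u → Wk adj (fun z => WR adj pos R z u) R c u := fun c hc =>
      Wk.of_on hc fun v n1 n2 hn _ h2 => Wk.le h2 (by omega)
    exact ⟨R + R, (k a ha).trans ((k b hb).symm hs)⟩
  · rcases h' x y e with c | c | c
    · exact ⟨x, WR.refl, y, WR.refl, Or.inr c⟩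
    · exact ⟨x, WR.refl, x, c, Or.inl rfl⟩
    · exact ⟨y, c, y, WR.refl, Or.inl rfl⟩

end Pool.Agent.Work.MP_b730b2_lc.Full
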