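import Pool.Agent.Work.MP_b730b2_lc.Full.Game

/-! The planting theorem, by passing to many disjoint copies.

Proof plan. Let `X'` have `K' = K × ℕ`, `V' (K, T) = Fin (T + 1) × V K`, relations holding inside the
copies only, `Q = q + 3`, and `Val' (c, t) f` saying that all values of `f` are in copy `c` and
`Val t` holds for the projected values. Relativisation lemma (for any structures `A` on
`Fin (T+1) × V`, `B` on `Fin (T'+1) × W` whose Gaifman graphs only join points of the same copy and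
in which any two points of a copy are joined by a walk of length `≤ 2`, or more simply for the
expansions, using the reduct): if `EF A B (n + 1) S` where `S` is nonempty with all first components
in copy `c` and all second components in copy `c'`, then an answer to a move in copy `c` lies in
copy `c'` as long as one round remains (common neighbour); so the copies satisfy `EF n`. This gives
`val_df` for `X'` (restrict to the indices `a` and the values of `ch`, use `val_df` for the index type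
`Option J`; being in the same copy is `Wk 2`), and at the end, after one move at `(0, v0)`, the game
on the copies. `wid`: order by copy first. `Abund`: shift the copy index (automorphisms,
`EF.of_inv` or `EF.of_iso`). Equivalence of the multiples: play copy by copy (`EF.gsum` or
`EF.of_inv`). Pull back `pos`, `col`, `f` along `v ↦ (c, v)`; walks from a copy stay in it. -/

namespace Pool.Agent.Work.MP_b730b2_lc.Full

open Set

section copies
variable {σ V W C C' : Type}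

/-- Disjoint copies of a structure. -/
def Cps (C : Type) (A : Rl σ V) : Rl σ (C × V) := fun r x y => x.1 = y.1 ∧ A r x.2 y.2

theorem mul_adj {A : Rl σ V} {x y : C × V} : (Cps C A).adj x y ↔ x.1 = y.1 ∧ A.adj x.2 y.2 := by
  constructor
  · rintro ⟨h1, r, h2 | h2⟩
    · exact ⟨h2.1, fun e => h1 (Prod.ext h2.1 e), r, Or.inl h2.2⟩
    · exact ⟨h2.1.symm, fun e => h1 (Prod.ext h2.1.symm e), r, Or.inr h2.2⟩
  · rintro ⟨h1, h2, r, h3⟩
    exact ⟨fun e => h2 (congrArg Prod.snd e), r, h3.imp (fun h => ⟨h1, h⟩) (fun h => ⟨h1.symm, h⟩)⟩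

/-- Walks stay in their copy. -/
theorem mul_wk {A : Rl σ V} {P : C × V → Prop} {d : ℕ} {x y : C × V}
    (h : Wk (Cps C A).adj P d x y) : x.1 = y.1 ∧ Wk A.adj (fun v => P (x.1, v)) d x.2 y.2 := by
  induction h with
  | refl h => exact ⟨rfl, .refl h⟩
  | @step n x y z _ e hz ih =>
    obtain ⟨e1, e2⟩ := mul_adj.1 e
    refine ⟨ih.1.trans e1, .step ih.2 e2 ?_⟩
    rw [ih.1.trans e1]
    exact hz

theorem wk_mul {A : Rl σ V} {P : C × V → Prop} {d : ℕ} (c : C) {a b : V}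
    (h : Wk A.adj (fun v => P (c, v)) d a b) : Wk (Cps C A).adj P d (c, a) (c, b) := by
  induction h with
  | refl h => exact .refl h
  | step _ e hz ih => exact .step ih (mul_adj.2 ⟨rfl, e⟩) hz

theorem mul_wr {A : Rl σ V} {pos : C × V → ℕ} {d : ℕ} {c : C} {a b : V} :
    WR (Cps C A).adj pos d (c, a) (c, b) ↔ WR A.adj (fun v => pos (c, v)) d a b :=
  ⟨fun h => (mul_wk h).2, fun h => wk_mul (P := fun z => pos (c, b) ≤ pos z) c h⟩

/-- Playing copy by copy. -/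
theorem mul_EF {A : Rl σ V} {B : Rl σ W} (τ : C ≃ C') (n : ℕ) (S : Set ((C × V) × (C' × W)))
    (h1 : ∀ p ∈ S, p.2.1 = τ p.1.1)
    (h2 : ∀ c, EF A.str B.str n {q | ((c, q.1), (τ c, q.2)) ∈ S}) :
    EF (Cps C A).str (Cps C' B).str n S := by
  have step : ∀ (n : ℕ) (S : Set ((C × V) × (C' × W))) (c : C) (a : V) (b : W),
      (∀ p ∈ S, p.2.1 = τ p.1.1) →
      (∀ c, EF A.str B.str (n + 1) {q | ((c, q.1), (τ c, q.2)) ∈ S}) →
      EF A.str B.str n (insert (a, b) {q | ((c, q.1), (τ c, q.2)) ∈ S}) →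
      (∀ p ∈ insert ((c, a), (τ c, b)) S, p.2.1 = τ p.1.1) ∧
        ∀ c', EF A.str B.str n {q | ((c', q.1), (τ c', q.2)) ∈ insert ((c, a), (τ c, b)) S} := by
    intro n S c a b h1 h2 h3
    refine ⟨?_, fun c' => ?_⟩
    · rintro p (rfl | hp)
      · rfl
      · exact h1 p hp
    · by_cases e : c' = c
      · subst e
        refine h3.mono ?_
        rintro ⟨u, v⟩ (hq | hq)
        · simp only [Prod.mk.injEq, true_and] at hq
          exact Or.inl (Prod.ext hq.1 hq.2)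
        · exact Or.inr hq
      · refine (h2 c').pred.mono ?_
        rintro ⟨u, v⟩ (hq | hq)
        · simp only [Prod.mk.injEq] at hq
          exact absurd hq.1.1 e
        · exact hq
  refine EF.of_inv (fun n S => (∀ p ∈ S, p.2.1 = τ p.1.1) ∧
    ∀ c, EF A.str B.str n {q | ((c, q.1), (τ c, q.2)) ∈ S}) ?_ ?_ ?_ n S ⟨h1, h2⟩
  · rintro n S ⟨h1, h2⟩
    refine PI_str.2 ?_
    rintro ⟨⟨c, a⟩, ⟨d, b⟩⟩ hp ⟨⟨c', a'⟩, ⟨d', b'⟩⟩ hp'
    obtain rfl : d = τ c := h1 _ hp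
    obtain rfl : d' = τ c' := h1 _ hp'
    by_cases e : c = c'
    · subst e
      have := PI_str.1 (h2 c).pi (a, b) hp (a', b') hp'
      simp only [Prod.mk.injEq, true_and, Cps]
      exact this
    · have e' : τ c ≠ τ c' := fun h => e (τ.injective h)
      simp [Cps, e, e']
  · rintro n S ⟨h1, h2⟩ ⟨c, a⟩ -
    obtain ⟨b, -, h3⟩ := (h2 c).2.1 a trivial
    exact ⟨(τ c, b), trivial, step n S c a b h1 h2 h3⟩
  · rintro n S ⟨h1, h2⟩ ⟨d, b⟩ -
    obtain ⟨c, rfl⟩ := τ.surjective d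
    obtain ⟨a, -, h3⟩ := (h2 c).2.2 b trivial
    exact ⟨(c, a), trivial, step n S c a b h1 h2 h3⟩

/-- Being in the same copy is preserved by games with two rounds. -/
def Same (A : Rl σ (C × V)) (B : Rl σ (C' × W)) : Prop :=
  ∀ S, EF A.str B.str 2 S → ∀ p ∈ S, ∀ p' ∈ S, (p.1.1 = p'.1.1 ↔ p.2.1 = p'.2.1)

theorem same_mul {A : Rl σ V} {B : Rl σ W} (hA : ∀ x y, Wk A.adj (fun _ => True) 2 x y)
    (hB : ∀ x y, Wk B.adj (fun _ => True) 2 x y) : Same (Cps C A) (Cps C' B) := by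
  rintro S h ⟨⟨c, a⟩, y⟩ hp ⟨⟨c', a'⟩, y'⟩ hp'
  constructor
  · rintro (rfl : c = c')
    exact (mul_wk (EF_wk (S0 := ∅) (Q := fun _ => True) (fun _ _ _ _ => trivial)
      (wk_mul (P := fun _ => True) c (hA a a')) (empty_subset _) h le_rfl hp hp')).1
  · obtain ⟨d, b⟩ := y
    obtain ⟨d', b'⟩ := y'
    rintro (rfl : d = d')
    exact (mul_wk (EF_wk (S0 := ∅) (Q := fun _ => True) (fun _ _ _ _ => trivial)
      (wk_mul (P := fun _ => True) d (hB b b')) (empty_subset _) h.symm le_rfl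
      ⟨_, hp, rfl⟩ ⟨_, hp', rfl⟩)).1

theorem Same.expand {σ' : Type} {A : Rl σ (C × V)} {B : Rl σ (C' × W)} {A' : Rl σ' (C × V)}
    {B' : Rl σ' (C' × W)} (h : Same A B) (g : σ → σ') (hA : ∀ r, A r = A' (g r))
    (hB : ∀ r, B r = B' (g r)) : Same A' B' := by
  intro S e
  refine h S ?_
  have e' : Eqv A' B' 2 (fun p : S => p.1.1) (fun p : S => p.1.2) :=
    EF.mono e (by rintro _ ⟨p, rfl⟩; exact p.2)
  exact EF.mono (e'.reduct g hA hB) (fun p hp => ⟨⟨p, hp⟩, rfl⟩)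

/-- Relativisation to a copy. -/
theorem Same.rel {A' : Rl σ (C × V)} {B' : Rl σ (C' × W)} (h : Same A' B') {A : Rl σ V}
    {B : Rl σ W} {c : C} {c' : C'} (hA : ∀ r x y, A r x y ↔ A' r (c, x) (c, y))
    (hB : ∀ r x y, B r x y ↔ B' r (c', x) (c', y)) {n : ℕ} {S : Set ((C × V) × (C' × W))}
    (e : EF A'.str B'.str (n + 2) S) {v : V} {w : W} (h0 : ((c, v), (c', w)) ∈ S) :
    EF A.str B.str n {q | ((c, q.1), (c', q.2)) ∈ S} := by
  refine EF.of_inv (fun n T => ∃ S, EF A'.str B'.str (n + 2) S ∧ ((c, v), (c', w)) ∈ S ∧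
    T ⊆ {q | ((c, q.1), (c', q.2)) ∈ S}) ?_ ?_ ?_ n _ ⟨S, e, h0, Subset.rfl⟩
  · rintro n T ⟨S, e, -, hT⟩
    refine PI_str.2 fun p hp p' hp' => ?_
    have := PI_str.1 e.pi _ (hT hp) _ (hT hp')
    simp only [Prod.mk.injEq, true_and] at this
    exact ⟨this.1, fun r => by rw [hA, hB]; exact this.2 r⟩
  · rintro n T ⟨S, e, h0, hT⟩ a -
    obtain ⟨⟨d, b⟩, -, e'⟩ := e.2.1 (c, a) trivial
    obtain rfl : d = c' :=
      (h _ (e'.of_le (by omega)) _ (Or.inl rfl) _ (Or.inr h0)).1 rfl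
    refine ⟨b, trivial, _, e', Or.inr h0, ?_⟩
    rintro p (rfl | hp)
    · exact Or.inl rfl
    · exact Or.inr (hT hp)
  · rintro n T ⟨S, e, h0, hT⟩ b -
    obtain ⟨⟨d, a⟩, -, e'⟩ := e.2.2 (c', b) trivial
    obtain rfl : d = c :=
      (h _ (e'.of_le (by omega)) _ (Or.inl rfl) _ (Or.inr h0)).2 rfl
    refine ⟨a, trivial, _, e', Or.inr h0, ?_⟩
    rintro p (rfl | hp)
    · exact Or.inl rfl
    · exact Or.inr (hT hp)

theorem mul_wid [Finite V] {A : Rl σ V} {k T : ℕ} (h : Wid A.adj k) :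
    Wid (Cps (Fin T) A).adj k := by
  obtain ⟨pos, h1, h2⟩ := h
  have mono : ∀ c : ℕ, StrictMono (Nat.pair c) := fun c _ _ h => Nat.pair_lt_pair_right c h
  refine ⟨fun x => Nat.pair x.1 (pos x.2), ?_, ?_⟩
  · intro x y e
    obtain ⟨e1, e2⟩ := Nat.pair_eq_pair.1 e
    exact Prod.ext (Fin.ext e1) (h1 e2)
  · rintro ⟨c, v⟩
    refine (ncard_le_ncard (t := Prod.mk c '' SR A.adj pos v) ?_).trans
      ((ncard_image_le).trans (h2 v))
    rintro ⟨d, u⟩ ⟨hu, n, y, hw, e⟩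
    obtain ⟨e1, hw'⟩ := mul_wk hw
    obtain ⟨e2, e3⟩ := mul_adj.1 e
    obtain rfl : c = d := e1.trans e2
    exact ⟨u, ⟨(mono _).lt_iff_lt.1 hu, n, y.2, hw'.mono fun z hz => (mono _).le_iff_le.1 hz, e3⟩,
      rfl⟩

theorem mul_abund (A : Rl σ V) (T : ℕ) : Abund (Cps (Fin (T + 1)) A) T := by
  intro n m Y
  refine ⟨fun a i => (Equiv.swap (Y 0).1 a.castSucc (Y i).1, (Y i).2), fun a => ?_, ?_⟩
  · refine mul_EF (Equiv.swap (Y 0).1 a.castSucc) m _ ?_ fun c => (EF_diag A.str m).mono ?_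
    · rintro _ ⟨i, rfl⟩
      rfl
    · rintro ⟨u, v⟩ ⟨i, hi⟩
      simp only [Prod.ext_iff] at hi
      exact hi.1.2.symm.trans hi.2.2
  · intro a b hab d hw
    have := (mul_wk hw).1
    simp only [Equiv.swap_apply_left] at this
    exact hab (Fin.castSucc_injective _ this)

/-- The restriction of an expansion to a copy. -/
def Xp.copy {J : Type} {χ : ℕ} (e : Xp (C × V) χ J) (c : C) : Xp V χ J :=
  ⟨fun v => e.pos (c, v), fun v => e.col (c, v), fun v j => (e.f (c, v) j).map Prod.snd⟩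

theorem Xp.copy_rl {J : Type} {χ : ℕ} (e : Xp (C × V) χ J) (c : C) (A : Rl σ V) (R : ℕ)
    (h : ∀ v j u, e.f (c, v) j = some u → u.1 = c) (r : σ ⊕ Fin (R + 1) ⊕ Fin χ ⊕ J) (x y : V) :
    (e.copy c).rl A R r x y ↔ e.rl (Cps C A) R r (c, x) (c, y) := by
  rcases r with r | d | i | j
  · simp [Xp.rl, Cps]
  · exact mul_wr.symm
  · simp [Xp.rl, Xp.copy]
  · simp only [Xp.rl, Xp.copy, Option.map_eq_some_iff]
    constructor
    · rintro ⟨⟨d, u⟩, h1, rfl⟩
      obtain rfl : d = c := h x j _ h1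
      exact h1
    · exact fun h1 => ⟨_, h1, rfl⟩

end copies

variable {σ : Type}

/-- The planting problem for the multiples. -/
def Cx.mul (X : Cx σ) (Q : ℕ) : Cx σ where
  Φ := ⟨X.Φ.K × ℕ, fun K => Fin (K.2 + 1) × X.Φ.V K.1, fun K => Cps _ (X.Φ.R K.1),
    fun _ => inferInstance⟩
  J := X.J
  k := X.k
  R := X.R
  R0 := X.R0
  χ := X.χ
  Q := Q
  Val := fun K x f => (∀ j u, f j = some u → u.1 = x.1) ∧
    X.Val K.1 x.2 (fun j => (f j).map Prod.snd)

theorem Cx.Ok.mul {X : Cx σ} (hX : X.Ok)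
    (hd : ∀ K x y, Wk (X.Φ.R K).adj (fun _ => True) 2 x y) (Q : ℕ) : (X.mul Q).Ok := by
  classical
  refine ⟨hX.finσ, hX.finJ, hX.R0_le, hX.chi, fun K => mul_wid (hX.wid K.1), ?_, ?_, ?_⟩
  · rintro ⟨K, T⟩ ⟨c, v⟩
    obtain ⟨f, hf⟩ := hX.val_ex K v
    refine ⟨fun j => (f j).map (Prod.mk c), fun j u hu => ?_, ?_⟩
    · obtain ⟨_, -, rfl⟩ := Option.map_eq_some_iff.1 hu
      rfl
    · have : (fun j => ((f j).map (Prod.mk c)).map Prod.snd) = f := by
        funext j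
        cases f j <;> rfl
      exact (congrArg (X.Val K v) this).mpr hf
  · rintro ⟨K, T⟩ ⟨c, v⟩ f j ⟨d, u⟩ ⟨h1, h2⟩ hu
    obtain rfl : d = c := h1 j _ hu
    rcases hX.val_adj K v _ j u h2 (by simp only [hu]; rfl) with rfl | h
    · exact Or.inl rfl
    · exact Or.inr (mul_adj.2 ⟨rfl, h⟩)
  · intro α a ch
    obtain ⟨n, hn⟩ := hX.val_df α a ch
    refine ⟨n + 2, ?_⟩
    rintro ⟨K, T⟩ ⟨K', T'⟩ x x' e ⟨h1, h2⟩
    let g : α → α := fun b => if ∃ j, ch j = some b then b else a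
    have ga : g a = a := ite_self a
    have gc : ∀ j b, ch j = some b → g b = b := fun j b h => if_pos ⟨j, h⟩
    have sm : Same (Cps (Fin (T + 1)) (X.Φ.R K)) (Cps (Fin (T' + 1)) (X.Φ.R K')) :=
      same_mul (hd K) (hd K')
    have c1 : ∀ b, (x (g b)).1 = (x a).1 := by
      intro b
      by_cases c : ∃ j, ch j = some b
      · obtain ⟨j, hj⟩ := c
        rw [gc j b hj]
        exact h1 j _ (by simp only [hj]; rfl)
      · rw [show g b = a from if_neg c]
    have c2 : ∀ b, (x' (g b)).1 = (x' a).1 := fun b =>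
      (sm _ (EF.of_le e (by omega)) _ ⟨g b, rfl⟩ _ ⟨a, rfl⟩).1 (c1 b)
    have e' := sm.rel (A := X.Φ.R K) (B := X.Φ.R K') (c := (x a).1) (c' := (x' a).1)
      (fun _ _ _ => ⟨fun h => ⟨rfl, h⟩, fun h => h.2⟩) (fun _ _ _ => ⟨fun h => ⟨rfl, h⟩, fun h => h.2⟩)
      e (v := (x a).2) (w := (x' a).2) ⟨a, rfl⟩
    have e'' : Eqv (X.Φ.R K) (X.Φ.R K') n (fun b => (x (g b)).2) (fun b => (x' (g b)).2) := by
      refine EF.mono e' ?_
      rintro _ ⟨b, rfl⟩
      exact ⟨g b, Prod.ext (Prod.ext (c1 b) rfl) (Prod.ext (c2 b) rfl)⟩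
    have key : ∀ {C V : Type} (y : α → C × V), (fun j => (ch j).map fun b => (y (g b)).2) =
        fun j => ((ch j).map y).map Prod.snd := by
      intro C V y
      funext j
      rcases h : ch j with _ | b
      · rfl
      · simp only [Option.map_some, gc j b h]
    have h3 := hn K K' _ _ e'' (by simp only [ga]; exact (congrArg (X.Val K _) (key x)).mpr h2)
    simp only [ga] at h3
    refine ⟨fun j u hu => ?_, (congrArg (X.Val K' _) (key x')).mp h3⟩
    obtain ⟨b, hb, rfl⟩ := Option.map_eq_some_iff.1 hu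
    rw [← c2 b, gc j b hb]

theorem Cx.Fine.copy {X : Cx σ} {Q : ℕ} {K : X.Φ.K} {T : ℕ}
    {e : Xp (Fin (T + 1) × X.Φ.V K) X.χ X.J} (h : (X.mul Q).Fine (K, T) e) (c : Fin (T + 1)) :
    X.Fine K (e.copy c) := by
  refine ⟨fun u v e' => (Prod.mk.inj (h.inj e')).2, fun d hd v => ?_, fun v u hw hne => ?_,
    fun v => (h.val (c, v)).2⟩
  · refine le_trans ?_ (h.bd d hd (c, v))
    exact ncard_le_ncard_of_injOn (Prod.mk c) (fun u hu => mul_wr.2 hu)
      (fun u _ v _ e' => (Prod.mk.inj e').2)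
  · exact h.prop (c, v) (c, u) (mul_wr.2 hw) fun e' => hne (Prod.mk.inj e').2

theorem planting {σ : Type} {X : Cx σ} (hX : X.Ok) (hne : ∀ K, Nonempty (X.Φ.V K))
    (hd : ∀ K x y, Wk (X.Φ.R K).adj (fun _ => True) 2 x y) (q : ℕ) :
    ∃ m, ∀ K K', EF (X.Φ.R K).str (X.Φ.R K').str m ∅ →
      ∃ e e', X.Fine K e ∧ X.Fine K' e' ∧
        EF (e.rl (X.Φ.R K) X.R).str (e'.rl (X.Φ.R K') X.R).str q ∅ := by
  obtain ⟨m, T, h⟩ := abundant (hX.mul hd (q + 2 + 1 + 1)) (q := q + 2 + 1) rfl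
  refine ⟨m, fun K K' hK => ?_⟩
  obtain ⟨e, e', he, he', h1⟩ := h (K, T) (K', T) (mul_abund _ T) (mul_abund _ T)
    (mul_EF (Equiv.refl _) m ∅ (by simp) fun c => by simpa using hK)
  obtain ⟨v⟩ := hne K
  obtain ⟨⟨c', w⟩, -, h2⟩ := h1.2.1 (0, v) trivial
  refine ⟨Xp.copy e 0, Xp.copy e' c', he.copy 0, he'.copy c', ?_⟩
  have sm : Same (Xp.rl e (Cps (Fin (T + 1)) (X.Φ.R K)) X.R)
      (Xp.rl e' (Cps (Fin (T + 1)) (X.Φ.R K')) X.R) :=
    (same_mul (hd K) (hd K')).expand Sum.inl (fun _ => rfl) (fun _ => rfl)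
  exact (sm.rel (Xp.copy_rl e 0 _ _ fun v j u hu => (he.val (0, v)).1 j u hu)
    (Xp.copy_rl e' c' _ _ fun v j u hu => (he'.val (c', v)).1 j u hu) h2
    (Or.inl rfl)).mono (empty_subset _)

end Pool.Agent.Work.MP_b730b2_lc.Full
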