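import Pool.Agent.Work.MP_b730b2_lc.Full.Eqv

/-! Gluing games along a cover by windows.

Proof plan for `EF_cover`. Invariant for `r` remaining rounds (`EF.of_inv`): all pairs of `S` are in
the domains and have equal labels, and there is a function `cid` on pairs (cluster names) such that
pairs with different names have labels not joined by an `N`-walk of length `≤ 2 ^ r`, and for each
`p ∈ S` there is a window `Wd` with `EF (A.on ..) (B.on ..) r {p' ∈ S | cid p' = cid p}` which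
contains every label within `2 ^ r` of the label of a pair of the cluster. A new point within
`2 ^ (r-1)` of a cluster joins it (it is then farther than `2 ^ (r-1)` from all others), otherwise it
starts a new cluster in the window given by `hw`. -/

namespace Pool.Agent.Work.MP_b730b2_lc.Full

open Set

variable {ι κ V W : Type}

/-- Restriction of a structure to a subset. -/
def restr (A : Str ι κ V) (S : Set V) : Str ι κ V := ⟨A.dom ∩ S, A.U, A.R⟩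

/-- The invariant: the pairs are covered by clusters far from each other, each with a window. -/
def CovInv {Λ : Type} (A : Str ι κ V) (B : Str ι κ W) (l : V → Λ) (l' : W → Λ)
    (N : Λ → Λ → Prop) (r : ℕ) (S : Set (V × W)) : Prop :=
  ∃ C : Set (Set (V × W)), S ⊆ ⋃₀ C ∧
    (∀ T ∈ C, (∀ p ∈ T, p.1 ∈ A.dom ∧ p.2 ∈ B.dom) ∧ ∃ Wd : Set Λ,
      (∀ p ∈ T, ∀ c', Wk N (fun _ => True) (2 ^ r) (l p.1) c' → c' ∈ Wd) ∧
        EF (restr A {a | l a ∈ Wd}) (restr B {b | l' b ∈ Wd}) r T) ∧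
    ∀ T ∈ C, ∀ T' ∈ C, T ≠ T' → ∀ p ∈ T, ∀ p' ∈ T',
      ¬ Wk N (fun _ => True) (2 ^ r) (l p.1) (l p'.1)

theorem CovInv.step {Λ : Type} {A : Str ι κ V} {B : Str ι κ W} {l : V → Λ} {l' : W → Λ}
    {N : Λ → Λ → Prop} (hN : ∀ a b, N a b → N b a) {r : ℕ} {S : Set (V × W)}
    (h : CovInv A B l l' N (r + 1) S) (c : Λ)
    (hw : ∃ Wd : Set Λ, (∀ c', Wk N (fun _ => True) (2 ^ r) c c' → c' ∈ Wd) ∧
      EF (restr A {a | l a ∈ Wd}) (restr B {b | l' b ∈ Wd}) (r + 1) ∅) :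
    ∃ (Wd : Set Λ) (T : Set (V × W)), c ∈ Wd ∧
      EF (restr A {a | l a ∈ Wd}) (restr B {b | l' b ∈ Wd}) (r + 1) T ∧
      ∀ p : V × W, p.1 ∈ A.dom → p.2 ∈ B.dom → l p.1 = c →
        EF (restr A {a | l a ∈ Wd}) (restr B {b | l' b ∈ Wd}) r (insert p T) →
        CovInv A B l l' N r (insert p S) := by
  obtain ⟨C, h1, h2, h3⟩ := h
  have hr : 2 ^ r ≤ 2 ^ (r + 1) := Nat.pow_le_pow_right (by norm_num) (Nat.le_succ r)
  have hr2 : 2 ^ r + 2 ^ r ≤ 2 ^ (r + 1) := by rw [pow_succ]; omega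
  obtain ⟨Wd, T, k1, k2, k3, k4, k5, k6⟩ : ∃ (Wd : Set Λ) (T : Set (V × W)),
      EF (restr A {a | l a ∈ Wd}) (restr B {b | l' b ∈ Wd}) (r + 1) T ∧
      (∀ p ∈ T, p.1 ∈ A.dom ∧ p.2 ∈ B.dom) ∧
      (∀ c', Wk N (fun _ => True) (2 ^ r) c c' → c' ∈ Wd) ∧
      (∀ p ∈ T, ∀ c', Wk N (fun _ => True) (2 ^ r) (l p.1) c' → c' ∈ Wd) ∧
      (∀ T' ∈ C, T' ≠ T → ∀ p' ∈ T', ¬ Wk N (fun _ => True) (2 ^ r) c (l p'.1)) ∧
      ∀ T' ∈ C, T' ≠ T → ∀ p ∈ T, ∀ p' ∈ T',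
        ¬ Wk N (fun _ => True) (2 ^ r) (l p.1) (l p'.1) := by
    by_cases hc : ∃ T ∈ C, ∃ p0 ∈ T, Wk N (fun _ => True) (2 ^ r) (l p0.1) c
    · obtain ⟨T, hT, p0, hp0, w⟩ := hc
      obtain ⟨d, Wd, e1, e2⟩ := h2 T hT
      exact ⟨Wd, T, e2, d, fun c' w' => e1 p0 hp0 c' ((w.trans w').le hr2),
        fun p hp c' w' => e1 p hp c' (w'.le hr),
        fun T' hT' ne p' hp' w' => h3 T hT T' hT' ne.symm p0 hp0 p' hp' ((w.trans w').le hr2),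
        fun T' hT' ne p hp p' hp' w' => h3 T hT T' hT' ne.symm p hp p' hp' (w'.le hr)⟩
    · obtain ⟨Wd, e1, e2⟩ := hw
      exact ⟨Wd, ∅, e2, by simp, e1, by simp,
        fun T' hT' _ p' hp' w' => hc ⟨T', hT', p', hp', w'.symm hN⟩, by simp⟩
  refine ⟨Wd, T, k3 c (.refl trivial), k1, fun p a1 a2 a3 e => ?_⟩
  have sep : ∀ T' ∈ C, T' ≠ T → ∀ p1 ∈ insert p T, ∀ p' ∈ T',
      ¬ Wk N (fun _ => True) (2 ^ r) (l p1.1) (l p'.1) := by
    rintro T' hT' ne p1 (rfl | hp) p' hp'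
    · rw [a3]; exact k5 T' hT' ne p' hp'
    · exact k6 T' hT' ne p1 hp p' hp'
  refine ⟨insert (insert p T) (C \ {T}), ?_, ?_, ?_⟩
  · rintro p1 (rfl | hp)
    · exact ⟨_, Or.inl rfl, Or.inl rfl⟩
    · obtain ⟨T', hT', hp'⟩ := h1 hp
      by_cases ne : T' = T
      · exact ⟨_, Or.inl rfl, Or.inr (ne ▸ hp')⟩
      · exact ⟨T', Or.inr ⟨hT', ne⟩, hp'⟩
  · rintro T' (rfl | ⟨hT', -⟩)
    · refine ⟨?_, Wd, ?_, e⟩
      · rintro p1 (rfl | hp)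
        · exact ⟨a1, a2⟩
        · exact k2 p1 hp
      · rintro p1 (rfl | hp)
        · rw [a3]; exact k3
        · exact k4 p1 hp
    · obtain ⟨d, Wd', e1, e2⟩ := h2 T' hT'
      exact ⟨d, Wd', fun p1 hp c' w => e1 p1 hp c' (w.le hr), e2.pred⟩
  · rintro T1 (rfl | ⟨b1, b2⟩) T2 (rfl | ⟨b3, b4⟩) ne p1 hp1 p2 hp2
    · exact absurd rfl ne
    · exact sep T2 b3 b4 p1 hp1 p2 hp2
    · exact fun w => sep T1 b1 b2 p2 hp2 p1 hp1 (w.symm hN)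
    · exact fun w => h3 T1 b1 T2 b3 ne p1 hp1 p2 hp2 (w.le hr)

theorem EF_cover {Λ : Type} {A : Str ι κ V} {B : Str ι κ W} (l : V → Λ) (l' : W → Λ)
    (N : Λ → Λ → Prop) (hN : ∀ a b, N a b → N b a) {q : ℕ}
    (hl : ∀ a ∈ A.dom, ∀ b ∈ B.dom, Ag A B (a, b) (a, b) → l a = l' b)
    (hfar : ∀ p p' : V × W, p.1 ∈ A.dom → p.2 ∈ B.dom → p'.1 ∈ A.dom → p'.2 ∈ B.dom →
      Ag A B p p → Ag A B p' p' → l p.1 ≠ l p'.1 → ¬ N (l p.1) (l p'.1) → Ag A B p p')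
    (hw : ∀ c : Λ, ((∃ a ∈ A.dom, l a = c) ∨ ∃ b ∈ B.dom, l' b = c) → ∃ Wd : Set Λ,
      (∀ c', Wk N (fun _ => True) (2 ^ q) c c' → c' ∈ Wd) ∧
        EF (restr A {a | l a ∈ Wd}) (restr B {b | l' b ∈ Wd}) q ∅) :
    EF A B q ∅ := by
  refine EF.of_inv (fun r S => r ≤ q ∧ CovInv A B l l' N r S) ?_ ?_ ?_ q ∅
    ⟨le_rfl, ∅, by simp, by simp, by simp⟩
  · rintro r S ⟨-, C, h1, h2, h3⟩ p hp p' hp'
    obtain ⟨T, hT, a⟩ := h1 hp
    obtain ⟨T', hT', a'⟩ := h1 hp'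
    obtain ⟨d, Wd, -, e⟩ := h2 T hT
    by_cases ne : T = T'
    · subst ne
      exact e.pi p a p' a'
    · obtain ⟨d', Wd', -, e'⟩ := h2 T' hT'
      have far := h3 T hT T' hT' ne p a p' a'
      refine hfar p p' (d p a).1 (d p a).2 (d' p' a').1 (d' p' a').2 (e.pi p a p a)
        (e'.pi p' a' p' a') (fun c => far ?_) (fun c => far ?_)
      · rw [c]; exact .refl trivial
      · exact (Wk.one trivial c trivial).le Nat.one_le_two_pow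
  · rintro r S ⟨hr, h⟩ a ha
    obtain ⟨Wd0, w1, w2⟩ := hw (l a) (Or.inl ⟨a, ha, rfl⟩)
    obtain ⟨Wd, T, k1, k2, k3⟩ := h.step hN (l a) ⟨Wd0, fun c' w => w1 c'
      (w.le (Nat.pow_le_pow_right (by norm_num) (by omega))), w2.of_le hr⟩
    obtain ⟨b, hb, e⟩ := k2.2.1 a ⟨ha, k1⟩
    exact ⟨b, hb.1, by omega, k3 (a, b) ha hb.1 rfl e⟩
  · rintro r S ⟨hr, h⟩ b hb
    obtain ⟨Wd0, w1, w2⟩ := hw (l' b) (Or.inr ⟨b, hb, rfl⟩)
    obtain ⟨Wd, T, k1, k2, k3⟩ := h.step hN (l' b) ⟨Wd0, fun c' w => w1 c'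
      (w.le (Nat.pow_le_pow_right (by norm_num) (by omega))), w2.of_le hr⟩
    obtain ⟨a, ha, e⟩ := k2.2.2 b ⟨hb, k1⟩
    exact ⟨a, ha.1, by omega, k3 (a, b) ha.1 hb
      (hl a ha.1 b hb (e.pi _ (Or.inl rfl) _ (Or.inl rfl))) e⟩

/-- Adding a point whose relations to the other points are determined by their atomic types. -/
theorem EF_point {A : Str ι κ V} {B : Str ι κ W} {a : V} {b : W} (ha : a ∈ A.dom) (hb : b ∈ B.dom)
    {q : ℕ} (h0 : Ag A B (a, b) (a, b))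
    (h1 : ∀ p : V × W, p.1 ∈ A.dom → p.2 ∈ B.dom → p.1 ≠ a → p.2 ≠ b → Ag A B p p →
      Ag A B p (a, b) ∧ Ag A B (a, b) p)
    (h : EF (restr A {x | x ≠ a}) (restr B {y | y ≠ b}) q ∅) : EF A B q ∅ := by
  refine EF.of_inv (fun n S => ∃ T : Set (V × W),
    EF (restr A {x | x ≠ a}) (restr B {y | y ≠ b}) n T ∧
      (∀ p ∈ T, (p.1 ∈ A.dom ∧ p.1 ≠ a) ∧ p.2 ∈ B.dom ∧ p.2 ≠ b) ∧ S ⊆ insert (a, b) T)
    ?_ ?_ ?_ q ∅ ⟨∅, h, by simp, empty_subset _⟩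
  · rintro n S ⟨T, e, d, hs⟩ p hp p' hp'
    rcases hs hp with rfl | c <;> rcases hs hp' with rfl | c'
    · exact h0
    · exact (h1 p' (d p' c').1.1 (d p' c').2.1 (d p' c').1.2 (d p' c').2.2 (e.pi p' c' p' c')).2
    · exact (h1 p (d p c).1.1 (d p c).2.1 (d p c).1.2 (d p c).2.2 (e.pi p c p c)).1
    · exact e.pi p c p' c'
  · rintro n S ⟨T, e, d, hs⟩ x hx
    by_cases c : x = a
    · subst c
      exact ⟨b, hb, T, e.pred, d, insert_subset (Or.inl rfl) hs⟩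
    · obtain ⟨y, hy, e'⟩ := e.2.1 x ⟨hx, c⟩
      refine ⟨y, hy.1, _, e', ?_, insert_subset (Or.inr (Or.inl rfl))
        (hs.trans (insert_subset_insert (subset_insert _ _)))⟩
      rintro p (rfl | hp)
      · exact ⟨⟨hx, c⟩, hy⟩
      · exact d p hp
  · rintro n S ⟨T, e, d, hs⟩ y hy
    by_cases c : y = b
    · subst c
      exact ⟨a, ha, T, e.pred, d, insert_subset (Or.inl rfl) hs⟩
    · obtain ⟨x, hx, e'⟩ := e.2.2 y ⟨hy, c⟩
      refine ⟨x, hx.1, _, e', ?_, insert_subset (Or.inr (Or.inl rfl))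
        (hs.trans (insert_subset_insert (subset_insert _ _)))⟩
      rintro p (rfl | hp)
      · exact ⟨hx, hy, c⟩
      · exact d p hp

end Pool.Agent.Work.MP_b730b2_lc.Full
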