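import Pool.Agent.Work.MP_b730b2_lc.Full.Eqv

/-! Uniform definability in a family of finite structures, in semantic form. -/

namespace Pool.Agent.Work.MP_b730b2_lc.Full

open Set

/-- A family of finite structures. -/
structure Fam (σ : Type) where
  K : Type 1
  V : K → Type
  R : ∀ k, Rl σ (V k)
  fin : ∀ k, Finite (V k)

instance {σ : Type} (Φ : Fam σ) (k : Φ.K) : Finite (Φ.V k) := Φ.fin k

variable {σ α β γ : Type} {Φ : Fam σ}

/-- The property `P` of tuples is determined by the rank `n` type. -/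
def Rk (Φ : Fam σ) (n : ℕ) (P : ∀ k, (α → Φ.V k) → Prop) : Prop :=
  ∀ k k' x x', Eqv (Φ.R k) (Φ.R k') n x x' → P k x → P k' x'

/-- The property `P` of tuples is determined by the type of some rank. -/
def Df (Φ : Fam σ) (P : ∀ k, (α → Φ.V k) → Prop) : Prop := ∃ n, Rk Φ n P

theorem Rk.le {n m : ℕ} {P : ∀ k, (α → Φ.V k) → Prop} (h : Rk Φ n P) (hn : n ≤ m) : Rk Φ m P :=
  fun k k' x x' e => h k k' x x' (e.le hn)

theorem Rk.iff {n : ℕ} {P : ∀ k, (α → Φ.V k) → Prop} (h : Rk Φ n P) {k k' x x'}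
    (e : Eqv (Φ.R k) (Φ.R k') n x x') : P k x ↔ P k' x' :=
  ⟨h k k' x x' e, h k' k x' x e.symm⟩

/-- A common rank for finitely many definable properties. -/
theorem Df.common {ι : Type} [Finite ι] {α : ι → Type} {P : ∀ i k, (α i → Φ.V k) → Prop}
    (h : ∀ i, Df Φ (P i)) : ∃ n, ∀ i, Rk Φ n (P i) := by
  choose n hn using h
  obtain ⟨m, hm⟩ := (finite_range n).bddAbove
  exact ⟨m, fun i => (hn i).le (hm ⟨i, rfl⟩)⟩

namespace Df

variable {P Q : ∀ k, (α → Φ.V k) → Prop}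

theorem congr (h : Df Φ P) (e : ∀ k x, P k x ↔ Q k x) : Df Φ Q :=
  let ⟨n, h⟩ := h
  ⟨n, fun k k' x x' e' hq => (e k' x').1 (h k k' x x' e' ((e k x).2 hq))⟩

theorem const (p : Prop) : Df Φ (fun _ (_ : α → _) => p) := ⟨0, fun _ _ _ _ _ h => h⟩

theorem eq (a b : α) : Df Φ (fun _ x => x a = x b) := ⟨0, fun _ _ _ _ e => (e.eq_iff a b).1⟩

theorem rel (r : σ) (a b : α) : Df Φ (fun k x => Φ.R k r (x a) (x b)) :=
  ⟨0, fun _ _ _ _ e => (e.rel r a b).1⟩

theorem adj (a b : α) : Df Φ (fun k x => (Φ.R k).adj (x a) (x b)) :=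
  ⟨0, fun _ _ _ _ e => (e.adj a b).1⟩

theorem not (h : Df Φ P) : Df Φ (fun k x => ¬ P k x) :=
  let ⟨n, h⟩ := h
  ⟨n, fun k k' x x' e hp hq => hp (h k' k x' x e.symm hq)⟩

theorem ne (a b : α) : Df Φ (fun _ x => x a ≠ x b) := (eq a b).not

theorem and (h : Df Φ P) (h' : Df Φ Q) : Df Φ (fun k x => P k x ∧ Q k x) :=
  let ⟨n, h⟩ := h
  let ⟨m, h'⟩ := h'
  ⟨max n m, fun k k' x x' e hp => ⟨h k k' x x' (e.le (le_max_left _ _)) hp.1,
    h' k k' x x' (e.le (le_max_right _ _)) hp.2⟩⟩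

theorem or (h : Df Φ P) (h' : Df Φ Q) : Df Φ (fun k x => P k x ∨ Q k x) :=
  (h.not.and h'.not).not.congr fun _ _ => by tauto

theorem imp (h : Df Φ P) (h' : Df Φ Q) : Df Φ (fun k x => P k x → Q k x) :=
  (h.not.or h').congr fun _ _ => by tauto

theorem iff (h : Df Φ P) (h' : Df Φ Q) : Df Φ (fun k x => P k x ↔ Q k x) :=
  ((h.imp h').and (h'.imp h)).congr fun _ _ => by tauto

/-- A condition which does not depend on the tuple may be assumed. -/
theorem imp_const {p : Prop} {P : p → ∀ k, (α → Φ.V k) → Prop} (h : ∀ hp, Df Φ (P hp)) :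
    Df Φ (fun k x => ∀ hp : p, P hp k x) := by
  by_cases c : p
  · exact (h c).congr fun _ _ => ⟨fun h _ => h, fun h => h c⟩
  · exact (const True).congr fun _ _ => ⟨fun _ h => absurd h c, fun _ => trivial⟩

/-- Finite conjunctions. -/
theorem fall [Finite β] {P : β → ∀ k, (α → Φ.V k) → Prop} (h : ∀ b, Df Φ (P b)) :
    Df Φ (fun k x => ∀ b, P b k x) :=
  let ⟨n, hn⟩ := Df.common (α := fun _ => α) h
  ⟨n, fun k k' x x' e hp b => hn b k k' x x' e (hp b)⟩

/-- Finite disjunctions. -/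
theorem fex [Finite β] {P : β → ∀ k, (α → Φ.V k) → Prop} (h : ∀ b, Df Φ (P b)) :
    Df Φ (fun k x => ∃ b, P b k x) :=
  (fall fun b => (h b).not).not.congr fun _ _ => by simp

/-- Bounded conjunctions over numbers. -/
theorem ball_le (N : ℕ) {P : ℕ → ∀ k, (α → Φ.V k) → Prop} (h : ∀ b ≤ N, Df Φ (P b)) :
    Df Φ (fun k x => ∀ b ≤ N, P b k x) :=
  (fall (β := Fin (N + 1)) fun b => h b (Nat.lt_succ_iff.1 b.2)).congr fun _ _ =>
    ⟨fun h b hb => h ⟨b, Nat.lt_succ_iff.2 hb⟩, fun h b => h b (Nat.lt_succ_iff.1 b.2)⟩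

theorem ball_lt (N : ℕ) {P : ℕ → ∀ k, (α → Φ.V k) → Prop} (h : ∀ b < N, Df Φ (P b)) :
    Df Φ (fun k x => ∀ b < N, P b k x) :=
  (fall (β := Fin N) fun b => h b b.2).congr fun _ _ =>
    ⟨fun h b hb => h ⟨b, hb⟩, fun h b => h b b.2⟩

/-- Bounded disjunctions over pairs of numbers. -/
theorem bex2 (N : ℕ) (c : ℕ → ℕ → Prop) (hc : ∀ a b, c a b → a ≤ N ∧ b ≤ N)
    {P : ℕ → ℕ → ∀ k, (α → Φ.V k) → Prop} (h : ∀ a b, Df Φ (P a b)) :
    Df Φ (fun k x => ∃ a b, c a b ∧ P a b k x) :=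
  (fex (β := Fin (N + 1) × Fin (N + 1)) fun p => (const (c p.1 p.2)).and (h p.1 p.2)).congr
    fun _ _ => ⟨fun ⟨p, h⟩ => ⟨p.1, p.2, h⟩, fun ⟨a, b, h⟩ =>
      ⟨(⟨a, Nat.lt_succ_iff.2 (hc a b h.1).1⟩, ⟨b, Nat.lt_succ_iff.2 (hc a b h.1).2⟩), h⟩⟩

/-- Renaming the variables. -/
theorem comp (h : Df Φ P) (e : α → β) : Df Φ (fun k (x : β → Φ.V k) => P k (fun a => x (e a))) :=
  let ⟨n, h⟩ := h
  ⟨n, fun k k' _ _ e' => h k k' _ _ (e'.comp e)⟩

/-- Existential quantification over a vertex. -/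
theorem ex {P : ∀ k, (α → Φ.V k) → Φ.V k → Prop}
    (h : Df Φ (fun k (y : Option α → Φ.V k) => P k (fun a => y (some a)) (y none))) :
    Df Φ (fun k x => ∃ v, P k x v) := by
  obtain ⟨n, h⟩ := h
  refine ⟨n + 1, ?_⟩
  rintro k k' x x' e ⟨v, hv⟩
  obtain ⟨w, e'⟩ := e.move v
  exact ⟨w, h k k' _ _ e' hv⟩

/-- Universal quantification over a vertex. -/
theorem all {P : ∀ k, (α → Φ.V k) → Φ.V k → Prop}
    (h : Df Φ (fun k (y : Option α → Φ.V k) => P k (fun a => y (some a)) (y none))) :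
    Df Φ (fun k x => ∀ v, P k x v) :=
  (ex (P := fun k x v => ¬ P k x v) h.not).not.congr fun _ _ => by simp

/-- Existential quantification over a tuple. -/
theorem ext [Finite β] {P : ∀ k, (α → Φ.V k) → (β → Φ.V k) → Prop}
    (h : Df Φ (fun k (y : α ⊕ β → Φ.V k) => P k (fun a => y (Sum.inl a)) (fun b => y (Sum.inr b)))) :
    Df Φ (fun k x => ∃ v, P k x v) := by
  obtain ⟨n, h⟩ := h
  refine ⟨n + Nat.card β, ?_⟩
  rintro k k' x x' e ⟨v, hv⟩
  obtain ⟨w, e'⟩ := e.moves' v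
  exact ⟨w, h k k' _ _ e' hv⟩

/-- Universal quantification over a tuple. -/
theorem allt [Finite β] {P : ∀ k, (α → Φ.V k) → (β → Φ.V k) → Prop}
    (h : Df Φ (fun k (y : α ⊕ β → Φ.V k) => P k (fun a => y (Sum.inl a)) (fun b => y (Sum.inr b)))) :
    Df Φ (fun k x => ∀ v, P k x v) :=
  (ext (P := fun k x v => ¬ P k x v) h.not).not.congr fun _ _ => by simp

/-- Existential quantification over a family of tuples. -/
theorem ext2 [Finite β] [Finite γ] {P : ∀ k, (α → Φ.V k) → (β → γ → Φ.V k) → Prop}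
    (h : Df Φ (fun k (y : α ⊕ β × γ → Φ.V k) =>
      P k (fun a => y (Sum.inl a)) (fun b c => y (Sum.inr (b, c))))) :
    Df Φ (fun k x => ∃ v, P k x v) :=
  (ext (P := fun k x (v : β × γ → Φ.V k) => P k x (fun b c => v (b, c))) h).congr fun _ _ =>
    ⟨fun ⟨_, h⟩ => ⟨_, h⟩, fun ⟨v, h⟩ => ⟨fun p => v p.1 p.2, h⟩⟩

/-- Having the same type is definable. -/
theorem eqv (m : ℕ) (a b : β → α) :
    Df Φ (fun k x => Eqv (Φ.R k) (Φ.R k) m (fun i => x (a i)) (fun i => x (b i))) :=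
  ⟨m, fun _ _ _ _ e h => ((e.comp a).symm.trans h).trans (e.comp b)⟩

/-- Having a given type is definable. -/
theorem tp {l : ℕ} (m : ℕ) (a : Fin l → α) (τ : Ty Empty σ m l) :
    Df Φ (fun k x => tp (Φ.R k).str m (fun i => x (a i)) = τ) :=
  ⟨m, fun _ _ _ _ e h => (tp_eq_iff.2 (e.comp a).symm).trans h⟩

theorem inj (a : β → α) : Df Φ (fun _ x => Function.Injective fun i => x (a i)) :=
  ⟨0, fun _ _ _ _ e h i j e' => h ((e.eq_iff (a i) (a j)).2 e')⟩

/-- Membership in a part of a tuple. -/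
theorem mem (p : β → Prop) (a : β → α) (b : α) :
    Df Φ (fun _ x => x b ∈ {u | ∃ i, p i ∧ x (a i) = u}) :=
  ⟨0, fun _ _ _ _ e ⟨i, hi, h⟩ => ⟨i, hi, (e.eq_iff (a i) b).1 h⟩⟩

theorem mem_range (a : β → α) (b : α) : Df Φ (fun _ x => x b ∈ range fun i => x (a i)) :=
  ⟨0, fun _ _ _ _ e ⟨i, h⟩ => ⟨i, (e.eq_iff (a i) b).1 h⟩⟩

theorem mem_image (I : Set α) (b : α) : Df Φ (fun _ x => x b ∈ x '' I) :=
  ⟨0, fun _ _ _ _ e ⟨i, hi, h⟩ => ⟨i, hi, (e.eq_iff i b).1 h⟩⟩

/-- Equality of optional entries. -/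
theorem map_eq (a : β → α) (b : γ → α) (o : Option β) (o' : Option γ) :
    Df Φ (fun _ x => o.map (fun i => x (a i)) = o'.map (fun i => x (b i))) := by
  rcases o with _ | i <;> rcases o' with _ | j
  · exact (const True).congr (by simp)
  · exact (const False).congr (by simp)
  · exact (const False).congr (by simp)
  · exact (eq (a i) (b j)).congr (by simp)

theorem map_some (a : β → α) (b : α) (o : Option β) :
    Df Φ (fun _ x => o.map (fun i => x (a i)) = some (x b)) :=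
  map_eq a id o (some b)

theorem ncard_le_iff {V : Type} [Finite V] (S : Set V) (c : ℕ) : S.ncard ≤ c ↔
    ¬ ∃ y : Fin (c + 1) → V, Function.Injective y ∧ ∀ i, y i ∈ S := by
  constructor
  · rintro h ⟨y, h1, h2⟩
    have : (range y).ncard ≤ S.ncard := ncard_le_ncard (by rintro _ ⟨i, rfl⟩; exact h2 i)
    rw [ncard_range_of_injective h1] at this
    simp at this
    omega
  · intro h
    by_contra hc
    have hc' : c + 1 ≤ Nat.card S := by rw [Nat.card_coe_set_eq]; omega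
    let e := (Finite.equivFin S).symm
    exact h ⟨fun i => (e (Fin.castLE hc' i)).1, fun i j h =>
      Fin.castLE_injective hc' (e.injective (Subtype.ext h)), fun i => (e _).2⟩

/-- Counting. -/
theorem ncard_le {P : ∀ k, (α → Φ.V k) → Φ.V k → Prop}
    (h : Df Φ (fun k (y : Option α → Φ.V k) => P k (fun a => y (some a)) (y none))) (c : ℕ) :
    Df Φ (fun k x => {v | P k x v}.ncard ≤ c) := by
  refine (ext (β := Fin (c + 1)) (P := fun k x y => Function.Injective y ∧ ∀ i, P k x (y i))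
    ((inj Sum.inr).and (fall fun i => ?_))).not.congr fun k x => (ncard_le_iff _ c).symm
  exact h.comp (fun o => o.elim (Sum.inr i) Sum.inl)

theorem ncard_eq {P : ∀ k, (α → Φ.V k) → Φ.V k → Prop}
    (h : Df Φ (fun k (y : Option α → Φ.V k) => P k (fun a => y (some a)) (y none))) (c : ℕ) :
    Df Φ (fun k x => {v | P k x v}.ncard = c) := by
  rcases c with _ | c
  · exact (ncard_le h 0).congr fun _ _ => Nat.le_zero
  · exact ((ncard_le h (c + 1)).and (ncard_le h c).not).congr fun _ _ => by omega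

/-- Walks. -/
theorem wk (n : ℕ) : ∀ {α : Type} {P : ∀ k, (α → Φ.V k) → Φ.V k → Prop},
    Df Φ (fun k (y : Option α → Φ.V k) => P k (fun a => y (some a)) (y none)) → ∀ a b : α,
    Df Φ (fun k x => Wk (Φ.R k).adj (P k x) n (x a) (x b)) := by
  induction n with
  | zero =>
    intro α P h a b
    exact ((eq a b).and (h.comp fun o => o.elim a id)).congr fun _ _ => wk_zero.symm
  | succ n ih =>
    intro α P h a b
    refine ((ih h a b).or (ex (P := fun k x y => Wk (Φ.R k).adj (P k x) n (x a) y ∧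
      (Φ.R k).adj y (x b) ∧ P k x (x b)) ?_)).congr fun _ _ => wk_succ.symm
    refine and ?_ ((adj none (some b)).and (h.comp fun o => o.elim (some b) some))
    exact ih (P := fun k (y : Option α → Φ.V k) v => P k (fun a => y (some a)) v)
      (h.comp fun o => o.elim none (fun a => some (some a))) (some a) none

theorem att (n : ℕ) {P : ∀ k, (α → Φ.V k) → Φ.V k → Prop}
    (h : Df Φ (fun k (y : Option α → Φ.V k) => P k (fun a => y (some a)) (y none))) (a b : α) :
    Df Φ (fun k x => Att (Φ.R k).adj (P k x) n (x a) (x b)) := by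
  refine ex (P := fun k x y => Wk (Φ.R k).adj (P k x) n (x a) y ∧ (Φ.R k).adj y (x b))
    (and ?_ (adj none (some b)))
  exact wk n (P := fun k (y : Option α → Φ.V k) v => P k (fun a => y (some a)) v)
    (h.comp fun o => o.elim none (fun a => some (some a))) (some a) none

theorem hit_iff {V : Type} [Finite V] (adj : V → V → Prop) (r κ : ℕ) (v : V) (Tg : V → Prop) :
    Hit adj r κ v Tg ↔ ∃ y : Fin κ → V, ∀ u, Tg u →
      ¬ Wk adj (fun z => z = v ∨ z ∉ range fun i => y i) r v u := by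
  constructor
  · rintro ⟨K, h1, h2, h3⟩
    let e := Finite.equivFin K
    have h1' : Nat.card K ≤ κ := by rwa [Nat.card_coe_set_eq]
    refine ⟨fun i => if h : i.1 < Nat.card K then (e.symm ⟨i, h⟩).1 else v, fun u hu hw =>
      h3 u hu (hw.mono ?_)⟩
    rintro z (rfl | hz) hK
    · exact h2 hK
    · refine hz ⟨Fin.castLE h1' (e ⟨z, hK⟩), ?_⟩
      have : (Fin.castLE h1' (e ⟨z, hK⟩)).1 < Nat.card K := (e ⟨z, hK⟩).2
      simp only [dif_pos this]
      exact congrArg Subtype.val (e.symm_apply_apply ⟨z, hK⟩)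
  · rintro ⟨y, h⟩
    refine ⟨range y \ {v}, ?_, by simp, fun u hu hw => h u hu (hw.mono fun z hz => ?_)⟩
    · refine (ncard_le_ncard sdiff_subset).trans ?_
      rw [← image_univ]
      exact (ncard_image_le).trans (by simp [ncard_univ])
    · by_cases c : z = v
      · exact Or.inl c
      · exact Or.inr fun h => hz ⟨h, c⟩

/-- Hitting sets. -/
theorem hit (r κ : ℕ) {P : ∀ k, (α → Φ.V k) → Φ.V k → Prop}
    (h : Df Φ (fun k (y : Option α → Φ.V k) => P k (fun a => y (some a)) (y none))) (a : α) :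
    Df Φ (fun k x => Hit (Φ.R k).adj r κ (x a) (P k x)) := by
  refine Df.congr ?_ fun k x => (hit_iff _ r κ _ _).symm
  refine ext (all (imp (h.comp fun o => o.elim none (fun a => some (Sum.inl a))) (not ?_)))
  refine wk r (P := fun k (y : Option (α ⊕ Fin κ) → Φ.V k) z =>
    z = y (some (Sum.inl a)) ∨ z ∉ range fun i => y (some (Sum.inr i))) ?_ (some (Sum.inl a)) none
  exact (eq _ _).or (mem_range (fun i => some (some (Sum.inr i))) none).not

/-- Definability passes to families of expansions. -/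
theorem pull {σ' : Type} {K' : Type 1} (b : K' → Φ.K) (R' : ∀ k, Rl σ' (Φ.V (b k))) (g : σ → σ')
    (hg : ∀ k r, Φ.R (b k) r = R' k (g r)) (h : Df Φ P) :
    Df ⟨K', fun k => Φ.V (b k), R', fun k => Φ.fin (b k)⟩ (fun k x => P (b k) x) :=
  let ⟨n, h⟩ := h
  ⟨n, fun k k' x x' e => h (b k) (b k') x x' (e.reduct g (hg k) (hg k'))⟩

/-- A property which factors through a definable finite invariant is definable. -/
theorem of_inv {Λ : Type} [Finite Λ] (l : ∀ k, (α → Φ.V k) → Λ)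
    (hl : ∀ c, Df Φ (fun k x => l k x = c))
    (hP : ∀ k k' x x', l k x = l k' x' → P k x → P k' x') : Df Φ P :=
  let ⟨n, hn⟩ := Df.common (α := fun _ => α) hl
  ⟨n, fun k k' x x' e => hP k k' x x' (hn _ k k' x x' e rfl).symm⟩

end Df

/-- Definable unary properties. -/
def D1 (Φ : Fam σ) (P : ∀ k, Φ.V k → Prop) : Prop :=
  Df Φ (fun k (x : Unit → Φ.V k) => P k (x ()))

/-- Definable binary properties. -/
def D2 (Φ : Fam σ) (P : ∀ k, Φ.V k → Φ.V k → Prop) : Prop :=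
  Df Φ (fun k (x : Bool → Φ.V k) => P k (x false) (x true))

theorem D1.app {P : ∀ k, Φ.V k → Prop} (h : D1 Φ P) (a : α) : Df Φ (fun k x => P k (x a)) :=
  Df.comp h fun _ => a

theorem D2.app {P : ∀ k, Φ.V k → Φ.V k → Prop} (h : D2 Φ P) (a b : α) :
    Df Φ (fun k x => P k (x a) (x b)) :=
  Df.comp h fun c => cond c b a

end Pool.Agent.Work.MP_b730b2_lc.Full
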