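import Pool.Agent.Work.MP_b730b2_lc.Full.Plant

/-! Lemmas on far families and on witnesses. -/

namespace Pool.Agent.Work.MP_b730b2_lc.Full

open Set

variable {σ V : Type} {n : ℕ} {A : Rl σ V} {m sg T T' δ : ℕ} {hb : Fin (n + 1) → Prop}
  {Y0 Y : Fin (n + 1) → V} {P Q : (Fin (n + 1) → V) → Prop}

theorem Bl.le {adj : V → V → Prop} {r r' : ℕ} {z : V} (h : Bl adj hb Y r z) (hr : r ≤ r') :
    Bl adj hb Y r' z := Wk.le h hr

theorem Bl.not_hub {adj : V → V → Prop} {r : ℕ} {z : V} (h : Bl adj hb Y r z) : z ∉ hubs hb Y :=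
  Wk.lst (P := fun v => v ∉ hubs hb Y) h

theorem Bl.wk {adj : V → V → Prop} {r d : ℕ} {z z' : V} (h : Bl adj hb Y r z)
    (h' : Wk adj (fun v => v ∉ hubs hb Y) d z z') : Bl adj hb Y (r + d) z' := Wk.trans h h'

/-- The walk to a point of the ball stays inside the ball. -/
theorem Bl.inside {adj : V → V → Prop} {r : ℕ} {z : V} (h : Bl adj hb Y r z) {Q : V → Prop}
    (hQ : ∀ v, Bl adj hb Y r v → Q v) : Wk adj Q r (Y 0) z := Wk.of_ball h hQ

theorem Shape.bl {adj : V → V → Prop} (h : Shape adj δ hb Y) {y : V} (hy : y ∈ nhs hb Y) :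
    Bl adj hb Y δ y := by
  obtain ⟨i, hi, rfl⟩ := hy
  exact h.2.2.1 i hi

theorem Shape.hb_iff {adj : V → V → Prop} (h : Shape adj δ hb Y) (a : Fin (n + 1)) :
    Y a ∈ hubs hb Y ↔ hb a :=
  ⟨fun ⟨_, hi, e⟩ => h.1 e ▸ hi, fun ha => ⟨a, ha, rfl⟩⟩

theorem Shape.nh_iff {adj : V → V → Prop} (h : Shape adj δ hb Y) (a : Fin (n + 1)) :
    Y a ∈ nhs hb Y ↔ ¬ hb a :=
  ⟨fun ⟨_, hi, e⟩ => h.1 e ▸ hi, fun ha => ⟨a, ha, rfl⟩⟩

theorem ncard_nhs_le : (nhs hb Y).ncard ≤ n + 1 := by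
  have : nhs hb Y ⊆ Y '' univ := by
    rintro _ ⟨i, _, rfl⟩
    exact ⟨i, trivial, rfl⟩
  refine (ncard_le_ncard this (toFinite _)).trans ((ncard_image_le (toFinite _)).trans ?_)
  simp [ncard_univ]

/-- Selecting a subfamily. -/
theorem Fm.of_set {Ys : Fin T → Fin (n + 1) → V} (B : Set (Fin T)) (hB : T' ≤ B.ncard)
    (h1 : ∀ a ∈ B, Cls A m hb Y0 (Ys a) ∧ P (Ys a))
    (h2 : ∀ a b, a ≠ b → ¬ Wk A.adj (fun v => v ∉ hubs hb Y0) (6 * sg) (Ys a 0) (Ys b 0)) :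
    Fm A m hb Y0 sg T' P := by
  have hB' : T' ≤ Nat.card B := by rwa [Nat.card_coe_set_eq]
  let e := (Finite.equivFin B).symm
  exact ⟨fun a => Ys (e (Fin.castLE hB' a)).1, fun a => h1 _ (e _).2, fun a b hab => h2 _ _
    fun h => hab (Fin.castLE_injective hB' (e.injective (Subtype.ext h)))⟩

theorem Fm.mono (h : Fm A m hb Y0 sg T P) (hT : T' ≤ T)
    (hP : ∀ Y, Cls A m hb Y0 Y → P Y → Q Y) : Fm A m hb Y0 sg T' Q :=
  let ⟨_, h1, h2⟩ := h
  Fm.of_set univ (by simpa [ncard_univ] using hT)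
    (fun a _ => ⟨(h1 a).1, hP _ (h1 a).1 (h1 a).2⟩) h2

theorem Fm.of_cls (h : Fm A m hb Y0 sg T P) (hc : Cls A m hb Y0 Y) : Fm A m hb Y sg T P := by
  obtain ⟨Ys, h1, h2⟩ := h
  exact ⟨Ys, fun a => ⟨hc.symm.trans (h1 a).1, (h1 a).2⟩, by rwa [hc.hubs_eq]⟩

theorem Fm.zero : Fm A m hb Y0 sg 0 P := ⟨Fin.elim0, fun a => a.elim0, fun a => a.elim0⟩

theorem Fm.exists (h : Fm A m hb Y0 sg T P) (hT : 0 < T) : ∃ Y, Cls A m hb Y0 Y ∧ P Y :=
  let ⟨_, h1, _⟩ := h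
  ⟨_, h1 ⟨0, hT⟩⟩

/-- Pigeonhole principle for far families. -/
theorem Fm.split {a b : ℕ} (h : Fm A m hb Y0 sg T P) (hT : a + b ≤ T + 1)
    (Q : (Fin (n + 1) → V) → Prop) :
    Fm A m hb Y0 sg a (fun Y => P Y ∧ Q Y) ∨ Fm A m hb Y0 sg b (fun Y => P Y ∧ ¬ Q Y) := by
  obtain ⟨Ys, h1, h2⟩ := h
  have e := ncard_add_ncard_compl {i | Q (Ys i)}
  simp only [Nat.card_eq_fintype_card, Fintype.card_fin] at e
  by_cases c : a ≤ {i | Q (Ys i)}.ncard
  · exact Or.inl (Fm.of_set _ c (fun i hi => ⟨(h1 i).1, (h1 i).2, hi⟩) h2)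
  · exact Or.inr (Fm.of_set {i | Q (Ys i)}ᶜ (by omega) (fun i hi => ⟨(h1 i).1, (h1 i).2, hi⟩) h2)

/-- The balls of a far family are disjoint. -/
theorem Fm.card_le [Finite V] {S : Set V}
    (h : Fm A m hb Y0 sg T (fun Y => ∃ z ∈ S, Bl A.adj hb Y (3 * sg) z)) : T ≤ S.ncard := by
  obtain ⟨Ys, h1, h2⟩ := h
  choose z hz hz' using fun a => (h1 a).2
  have : Function.Injective z := by
    intro a b e
    by_contra hab
    have e1 := hz' a
    have e2 := hz' b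
    rw [Bl, (h1 _).1.hubs_eq] at e1 e2
    rw [← e] at e2
    exact h2 a b hab ((e1.trans (e2.symm A.adj_symm)).le (by omega))
  have h3 := ncard_le_ncard (show range z ⊆ S by rintro _ ⟨a, rfl⟩; exact hz a)
  rwa [ncard_range_of_injective this, Nat.card_eq_fintype_card, Fintype.card_fin] at h3

/-- Most members of a far family avoid a small set. -/
theorem Fm.avoid {S : Set V} (hS : S.Finite) (h : Fm A m hb Y0 sg T P) (hT : T' + S.ncard ≤ T) :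
    Fm A m hb Y0 sg T' (fun Y => P Y ∧ ∀ z ∈ S, ¬ Bl A.adj hb Y (3 * sg) z) := by
  obtain ⟨Ys, h1, h2⟩ := h
  let B : Set (Fin T) := {a | ∃ z ∈ S, Bl A.adj hb (Ys a) (3 * sg) z}
  have hB : B.ncard ≤ S.ncard := by
    have : ∀ a, ∃ z, a ∈ B → z ∈ S ∧ Bl A.adj hb (Ys a) (3 * sg) z := fun a => by
      by_cases ha : a ∈ B
      · obtain ⟨z, hz⟩ := ha
        exact ⟨z, fun _ => hz⟩
      · exact ⟨Y0 0, fun h => absurd h ha⟩
    choose z hzz using this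
    have hz := fun a ha => (hzz a ha).1
    have hz' := fun a ha => (hzz a ha).2
    refine ncard_le_ncard_of_injOn z hz (fun a ha b hb' e => ?_) hS
    by_contra hab
    have e1 := hz' a ha
    have e2 := hz' b hb'
    rw [Bl, (h1 _).1.hubs_eq] at e1 e2
    rw [← e] at e2
    exact h2 a b hab ((e1.trans (e2.symm A.adj_symm)).le (by omega))
  have e := ncard_add_ncard_compl B
  simp only [Nat.card_eq_fintype_card, Fintype.card_fin] at e
  exact Fm.of_set Bᶜ (by omega)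
    (fun i hi => ⟨(h1 i).1, (h1 i).2, fun z hz hb' => hi ⟨z, hz, hb'⟩⟩) h2

/-- The ball lies above the hubs in the base order. -/
def Gd (adj : V → V → Prop) (pos0 : V → ℕ) (hb : Fin (n + 1) → Prop) (sg : ℕ)
    (Y : Fin (n + 1) → V) : Prop := ∀ z u, Bl adj hb Y sg z → hb u → pos0 (Y u) < pos0 z

/-- From a point of the ball to a hub through the ball. -/
theorem Shape.to_hub {adj : V → V → Prop} (hs : ∀ a b, adj a b → adj b a) (h : Shape adj δ hb Y)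
    (hδ : δ ≤ sg) {z : V} {r : ℕ} (hr : r ≤ sg) (hz : Bl adj hb Y r z) {u : Fin (n + 1)}
    (hu : hb u) {Q : V → Prop} (hQ : ∀ v, Bl adj hb Y sg v → Q v) (hQ' : Q (Y u)) :
    Wk adj Q (r + δ + 1) z (Y u) :=
  (((hz.inside fun v hv => hQ v (hv.le hr)).symm hs).att
    ((h.2.2.2 u hu).of_ball fun v hv => hQ v (Bl.le hv hδ))).wk hQ'

/-- The hubs of a good tuple are weakly reachable from its ball. -/
theorem Gd.wr {adj : V → V → Prop} (hs : ∀ a b, adj a b → adj b a) {pos0 : V → ℕ}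
    (h : Gd adj pos0 hb sg Y) (h' : Shape adj δ hb Y) (hδ : δ ≤ sg) {z : V} {r : ℕ} (hr : r ≤ sg)
    (hz : Bl adj hb Y r z) {u : Fin (n + 1)} (hu : hb u) : WR adj pos0 (r + δ + 1) z (Y u) :=
  h'.to_hub hs hδ hr hz hu (fun v hv => (h v u hv hu).le) le_rfl

/-- Few members of a far family are not good. -/
theorem Fm.not_good [Finite V] {pos0 : V → ℕ} {k : ℕ} (he : Elim A.adj pos0 k) (hδ : δ + 1 ≤ sg)
    (hs : ∀ Y, Cls A m hb Y0 Y → Shape A.adj δ hb Y)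
    (h : Fm A m hb Y0 sg T (fun Y => ¬ Gd A.adj pos0 hb sg Y)) : T ≤ Wb k (2 * sg) := by
  rcases Nat.eq_zero_or_pos T with rfl | hT
  · exact Nat.zero_le _
  obtain ⟨Y1, -, h1⟩ := h.exists hT
  have hne : {u | hb u}.Nonempty := by
    by_contra c
    exact h1 fun z u _ hu => absurd ⟨u, hu⟩ c
  obtain ⟨u0, hu0, hmax⟩ := exists_max_image {u | hb u} (fun u => pos0 (Y0 u)) (toFinite _) hne
  refine (Fm.card_le (S := {w | WR A.adj pos0 (2 * sg) (Y0 u0) w}) (h.mono le_rfl ?_)).trans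
    (he.WR_bound _ _)
  intro Y hc hY
  simp only [Gd, not_forall, not_lt] at hY
  obtain ⟨z, u, hz, hu, hle⟩ := hY
  have hw := (hs Y hc).to_hub A.adj_symm (by omega) le_rfl hz hu0
    (Q := fun v => Bl A.adj hb Y sg v ∨ v = Y u0) (fun v hv => Or.inl hv) (Or.inr rfl)
  obtain ⟨w, w1, -, w3, w4, -⟩ := hw.min_WR A.adj_symm pos0
  rw [hc.1 u0 hu0] at w4
  refine ⟨w, w4.le (by omega), ?_⟩
  rcases w1.lst with h2 | h2
  · exact h2.le (by omega)
  · exfalso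
    have h3 := w3.pos_le
    have h4 := hmax u hu
    rw [h2, hc.1 u0 hu0] at h3
    rw [hc.1 u hu] at hle
    have : z = Y0 u0 := he.1 (by omega)
    exact hz.not_hub ⟨u0, hu0, (hc.1 u0 hu0).trans this.symm⟩

/-- Most members of a far family are good. -/
theorem Fm.good [Finite V] {pos0 : V → ℕ} {k g : ℕ} (he : Elim A.adj pos0 k) (hδ : δ + 1 ≤ sg)
    (hs : ∀ Y, Cls A m hb Y0 Y → Shape A.adj δ hb Y) (h : Fm A m hb Y0 sg T P)
    (hg : Wb k (2 * sg) ≤ g) (hT : T' + g ≤ T) :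
    Fm A m hb Y0 sg T' (fun Y => P Y ∧ Gd A.adj pos0 hb sg Y) := by
  rcases h.split (a := T') (b := g + 1) (by omega) (Gd A.adj pos0 hb sg) with h | h
  · exact h
  · have := Fm.not_good he hδ hs (h.mono le_rfl fun _ _ h => h.2)
    omega

section witness
variable {J : Type} {χ : ℕ} {adj : V → V → Prop} {e : Xp V χ J} {π : Pat χ J n}

theorem Wit.lt_iff (h : Wit adj e sg π Y) {a b : Fin (n + 1)} (ha : ¬ π.hb a) (hb' : ¬ π.hb b) :
    e.pos (Y a) ≤ e.pos (Y b) ↔ a ≤ b := by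
  constructor
  · intro h'
    by_contra c
    exact absurd (h.ord b a hb' ha (not_le.1 c)) (not_lt.2 h')
  · intro h'
    rcases h'.eq_or_lt with rfl | h'
    · exact le_rfl
    · exact (h.ord a b ha hb' h').le

/-- The weakly reachable vertices of a planted vertex are given by the formula. -/
theorem Wit.wf (h : Wit adj e sg π Y) (hs : Shape adj δ π.hb Y) {d : ℕ} (hd : δ + d ≤ sg)
    {a : Fin (n + 1)} (ha : ¬ π.hb a) (u : V) :
    WR adj e.pos d (Y a) u ↔ WF adj e.pos π.hb Y d a u := by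
  have hbl := hs.2.2.1 a ha
  constructor
  · intro hw
    rcases Wk.split (· ∈ hubs π.hb Y) hw with h1 | h1 | ⟨n1, n2, y, s, hn, h1, e', ⟨w, hw', rfl⟩, h2⟩
    · obtain ⟨b, hb', rfl⟩ := h.ini u a ((hbl.wk (h1.mono fun _ h => h.2)).le hd) ha hw.pos_le
      refine Or.inl ⟨b, hb', rfl, h1.mono fun v hv => ⟨hv.2, ?_⟩⟩
      rintro c rfl
      exact (h.lt_iff hb' fun hc => hv.2 ⟨c, hc, rfl⟩).1 hv.1
    · exact absurd h1 hbl.not_hub
    · exact Or.inr ⟨w, n1, n2, hw', hn, ⟨y, h1.mono fun _ h => h.2, e'⟩, h2⟩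
  · rintro (⟨b, hb', rfl, h1⟩ | ⟨w, d1, d2, hw, hn, h1, h2⟩)
    · refine Wk.of_ball h1 fun v hv => ?_
      by_contra c
      obtain ⟨c', hc', rfl⟩ := h.ini v b ((hbl.wk (hv.mono fun _ h => h.1)).le hd) hb'
        (not_le.1 c).le
      exact c ((h.lt_iff hb' hc').2 (hv.lst.2 c' rfl))
    · refine Wk.le (Wk.trans ((h1.of_ball fun v hv => ?_).wk h2.pos_le) h2) hn
      exact h2.pos_le.trans (h.abv v w ((hbl.wk hv).le (by omega)) hw).le

/-- The induced context is the actual context. -/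
theorem Wit.ictx {R0 : ℕ} (h : Wit adj e sg π Y) (hs : Shape adj δ π.hb Y) (hd : δ + R0 ≤ sg)
    (a : Fin (n + 1)) (d : Fin (R0 + 1)) (c : Fin χ) :
    ICtx adj Y π (actx adj e R0 π.hb Y) (Y a) d c ↔ ∃ z, WR adj e.pos d (Y a) z ∧ e.col z = c := by
  have hd' : δ + d.1 ≤ sg := by have := d.2; omega
  constructor
  · rintro (⟨b, -, e', -, h1⟩ | ⟨b, hb', e', h1⟩)
    · exact e' ▸ h1
    · rw [← e']
      rcases h1 with ⟨b', h1, h2, rfl⟩ | ⟨w, d1, d2, hw, hn, h1, -, z, h2, rfl⟩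
      · exact ⟨Y b', (h.wf hs hd' hb' _).2 (Or.inl ⟨b', h1, rfl, h2⟩), h.col b' h1⟩
      · exact ⟨z, (h.wf hs hd' hb' _).2 (Or.inr ⟨w, d1, d2, hw, hn, h1, h2⟩), rfl⟩
  · rintro ⟨z, h1, rfl⟩
    by_cases ha : π.hb a
    · exact Or.inl ⟨a, ha, rfl, ha, z, h1, rfl⟩
    · refine Or.inr ⟨a, ha, rfl, ?_⟩
      have := d.2
      rcases (h.wf hs hd' ha _).1 h1 with ⟨b, h2, rfl, h3⟩ | ⟨w, d1, d2, hw, hn, h2, h3⟩
      · exact Or.inl ⟨b, h2, h3, (h.col b h2).symm⟩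
      · exact Or.inr ⟨w, ⟨d1, by omega⟩, ⟨d2, by omega⟩, hw, hn, h2, hw, z, h3, rfl⟩

/-- Witnesses inside a witness. -/
theorem SubWit.wit {n' sg' δ' : ℕ} {π' : Pat χ J n'} {Y' : Fin (n' + 1) → V}
    (h' : SubWit adj Y π sg' π' Y') (h : Wit adj e sg π Y) (hs : Shape adj δ π.hb Y)
    (hs' : Shape adj δ' π'.hb Y') (hd : δ + sg' ≤ sg)
    (hh : ∀ u, π'.hb u → ∃ a, Y a = Y' u) (hi : ∀ a, π'.inn a → ¬ π'.hb a) :
    Wit adj e sg' π' Y' := by
  have ball : ∀ z, Bl adj π'.hb Y' sg' z → Bl adj π.hb Y sg z := by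
    intro z hz
    obtain ⟨a, ha, e0, -⟩ := h'.sub 0 hs'.2.1
    have := hz.inside h'.avo
    rw [← e0] at this
    exact ((hs.2.2.1 a ha).wk this).le hd
  refine ⟨fun a' b' ha' hb' hab => ?_, fun z a' hz ha' hle => ?_, fun z u hz hu => ?_,
    fun a' ha' => ?_, fun a' j ha' => ?_⟩
  · obtain ⟨a, ha, e1, -⟩ := h'.sub a' ha'
    obtain ⟨b, hb'', e2, -⟩ := h'.sub b' hb'
    rw [← e1, ← e2]
    exact h.ord a b ha hb'' (h'.ord a' b' a b ha' hb' hab e1 e2)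
  · obtain ⟨a, ha, e1, -⟩ := h'.sub a' ha'
    rw [← e1] at hle
    obtain ⟨b, hb'', rfl⟩ := h.ini z a (ball z hz) ha hle
    exact h'.ini a' a b ha' e1 ((h.lt_iff hb'' ha).1 hle) hz
  · obtain ⟨a, e1⟩ := hh u hu
    rw [← e1]
    by_cases ha : π.hb a
    · exact h.abv z a (ball z hz) ha
    · by_contra c
      obtain ⟨b, hb'', rfl⟩ := h.ini z a (ball z hz) ha (not_lt.1 c)
      exact c (h.ord a b ha hb'' (h'.abv a b ha ⟨u, hu, e1.symm⟩ hz))
  · obtain ⟨a, ha, e1, e2, -⟩ := h'.sub a' ha'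
    rw [← e1, ← e2]
    exact h.col a ha
  · obtain ⟨a, -, e1, -, e3⟩ := h'.sub a' (hi a' ha')
    rw [← e1, ← (e3 ha').2 j]
    exact h.ch a j (e3 ha').1

theorem actx_cls {R0 : ℕ} (h : Cls A m hb Y0 Y) : actx adj e R0 hb Y = actx adj e R0 hb Y0 := by
  funext u d
  ext c
  exact and_congr_right fun hu => by rw [h.1 u hu]

end witness

end Pool.Agent.Work.MP_b730b2_lc.Full
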