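import Mathlib.Combinatorics.Enumerative.DoubleCounting
import Mathlib.Order.FixedPoints
import Pool.Agent.Work.MP_b730b2_lc.Full.Fm
import Pool.Agent.Work.MP_b730b2_lc.Full.Clos

/-! The fixed point containing heavy vertices and the packages of triggered events.

Proof plan. Fix an elimination order `pos0` (`hX.wid`) and `cl` from `exists_cl`. Put
`Y0 U = cl (U ∪ WR-closure of U at radius R0 ∪ values of f on U)`, of size `≤ X.cc * |U|`.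
An event `E : EvL (P l') V`, `l' < l`, is triggered by `U` if it has a member `Y1` satisfying the two
hypotheses of `trig` for `Y0 U` (this does not depend on the member, `EvL.Mem.cls`, `Fm.of_cls`).
Its package is the set of vertices weakly `R0`-reachable from its hubs together with the non-hubs
of one chosen far family of `t` witnesses if there is one; size `≤ pk`. Let
`Φ U = Z ∪ heavy U ∪ ⋃ packages`, monotone; take a fixed point (`OrderHom.lfp`). Double counting: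
`|heavy U| * (4 W0 + 1) ≤ |U| * W0`. A triggered event has `Th - g` good far members (`Fm.good`)
whose balls meet `Y0 U`, hence (as in `Fm.card_le`) at least `Th - g` points `y ∈ Y0 U` lie in the
ball of a good member; for such `y` all hubs are in `{u | WR adj pos0 (2 * S) y u}` (`Gd.wr`), so `y`
serves at most `EB g` events (`EvL.count`). With `Th2`, `4 * Q * #triggered * pk ≤ |U|` for each
level. Hence `|U| ≤ n1 + |U| / 4 + |U| / 4`. -/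

namespace Pool.Agent.Work.MP_b730b2_lc.Full

open Set

variable {σ : Type} {X : Cx σ}

/-- The properties of the inner set `U` and the outer set `Y0`. -/
structure Fix (P : ℕ → Lv X) (l : ℕ) (K : X.Φ.K) (e : Xp (X.Φ.V K) X.χ X.J)
    (U Y0 : Set (X.Φ.V K)) : Prop where
  sub : U ⊆ Y0
  wr : ∀ x ∈ U, ∀ u, WR (X.Φ.R K).adj e.pos X.R0 x u → u ∈ Y0
  f : ∀ x ∈ U, ∀ j u, e.f x j = some u → u ∈ Y0
  prj : ∀ v, v ∉ Y0 →
    {u | u ∈ Y0 ∧ ∃ n, Att (X.Φ.R K).adj (fun y => y ∉ Y0) n v u}.ncard ≤ 2 * X.k + 1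
  heavy : ∀ u, 4 * X.W0 < {x | x ∈ U ∧ WR (X.Φ.R K).adj e.pos X.R0 x u}.ncard → u ∈ U
  trig : ∀ l' < l, ∀ i < (P l').I, ∀ n ≤ (P l').N, ∀ (π : Pat X.χ X.J n)
    (Y1 : Fin (n + 1) → X.Φ.V K),
    (∀ Y, Cls (X.Φ.R K) (P l').m π.hb Y1 Y → Shape (X.Φ.R K).adj ((P l').lam i) π.hb Y) →
    Fm (X.Φ.R K) (P l').m π.hb Y1 ((P l').sg i) (P l').Th
      (fun Y => ∃ y ∈ Y0, Bl (X.Φ.R K).adj π.hb Y ((P l').sg i) y) →
    (∀ u, π.hb u → ∀ z, WR (X.Φ.R K).adj e.pos X.R0 (Y1 u) z → z ∈ U) ∧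
      (Fm (X.Φ.R K) (P l').m π.hb Y1 ((P l').sg i) (P l').t
          (Wit (X.Φ.R K).adj e ((P l').sg i) π) →
        Fm (X.Φ.R K) (P l').m π.hb Y1 ((P l').sg i) (P l').t
          (fun Y => Wit (X.Φ.R K).adj e ((P l').sg i) π Y ∧ nhs π.hb Y ⊆ U))

/-- Double counting. -/
theorem fix_dbl {α β : Type} [Finite α] [Finite β] (r : α → β → Prop) (A : Set α) (B : Set β)
    {a b : ℕ} (h1 : ∀ x ∈ A, a ≤ {y | y ∈ B ∧ r x y}.ncard)
    (h2 : ∀ y ∈ B, {x | r x y}.ncard ≤ b) : A.ncard * a ≤ B.ncard * b := by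
  classical
  rw [ncard_eq_toFinset_card A, ncard_eq_toFinset_card B]
  refine Finset.card_mul_le_card_mul r (fun x hx => ?_) (fun y hy => ?_)
  · refine (h1 x (by simpa using hx)).trans (le_of_eq ?_)
    rw [← ncard_coe_finset]
    congr 1
    ext y
    simp [Finset.bipartiteAbove]
  · refine le_trans ?_ (h2 y (by simpa using hy))
    rw [← ncard_coe_finset]
    refine ncard_le_ncard (fun x hx => ?_)
    simp only [Finset.bipartiteBelow, Finset.coe_filter, mem_ofPred_eq] at hx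
    exact hx.2

theorem fix_cancel {a b c u : ℕ} (h : a * (c * b + 1) ≤ u * c) : a * b ≤ u := by
  by_contra hc
  have h1 : c * (u + 1) ≤ c * (a * b) := Nat.mul_le_mul_left _ (by omega)
  have h2 : 0 < a := Nat.pos_of_ne_zero (by rintro rfl; simp at hc)
  nlinarith

/-- Triggered events. -/
def FixTrg (L : Lv X) (K : X.Φ.K) (Y0 : Set (X.Φ.V K)) (E : EvL L (X.Φ.V K)) : Prop :=
  ∃ Y1, E.Mem (X.Φ.R K) Y1 ∧
    (∀ Y, Cls (X.Φ.R K) L.m E.π.hb Y1 Y → Shape (X.Φ.R K).adj (L.lam E.i) E.π.hb Y) ∧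
    Fm (X.Φ.R K) L.m E.π.hb Y1 (L.sg E.i) L.Th
      (fun Y => ∃ y ∈ Y0, Bl (X.Φ.R K).adj E.π.hb Y (L.sg E.i) y)

theorem FixTrg.mono {L : Lv X} {K : X.Φ.K} {Y0 Y0' : Set (X.Φ.V K)} {E : EvL L (X.Φ.V K)}
    (h : FixTrg L K Y0 E) (hs : Y0 ⊆ Y0') : FixTrg L K Y0' E :=
  let ⟨Y1, h1, h2, h3⟩ := h
  ⟨Y1, h1, h2, h3.mono le_rfl fun _ _ ⟨y, hy, hb⟩ => ⟨y, hs hy, hb⟩⟩

/-- The number of triggered events. -/
theorem FixTrg.count (hX : X.Ok) {L : Lv X} {K : X.Φ.K} (hsg : ∀ i, L.lam i + 1 ≤ L.sg i)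
    (hS : ∀ i < L.I, L.sg i ≤ L.S) (hg : L.g ≤ L.Th) (Y0 : Set (X.Φ.V K)) :
    {E | FixTrg L K Y0 E}.ncard * (L.Th - L.g) ≤ Y0.ncard * L.EB L.g := by
  have := hX.finσ
  have := hX.finJ
  obtain ⟨pos0, h0⟩ := hX.wid K
  refine fix_dbl (fun (E : EvL L (X.Φ.V K)) y => ∀ u v, E.h u = some v →
    v ∈ {u | WR (X.Φ.R K).adj pos0 (2 * L.S) y u}) _ _ ?_
    (fun y _ => EvL.count L _ (h0.WR_bound _ y))
  rintro E ⟨Y1, h1, h2, h3⟩
  have hi := hS E.i E.i.2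
  have hl := hsg E.i
  have h4 := Fm.good (T' := L.Th - L.g) (g := L.g) h0 hl h2 h3 (Wb_mono _ (by omega)) (by omega)
  refine Fm.card_le (h4.mono le_rfl ?_)
  rintro Y hc ⟨⟨y, hy, hb⟩, hG⟩
  refine ⟨y, ⟨hy, fun u v huv => ?_⟩, hb.le (by omega)⟩
  have hu : E.π.hb u := by
    by_contra c
    rw [h1.2.1 u c] at huv
    cases huv
  have e1 : Y u = v := by
    rw [h1.1 u hu] at huv
    exact (hc.1 u hu).trans (Option.some.inj huv)
  rw [← e1]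
  exact (Gd.wr (X.Φ.R K).adj_symm hG (h2 Y hc) (by omega) le_rfl hb hu).le (by omega)

/-- The package of an event. -/
theorem fix_pkg (hX : X.Ok) {L : Lv X} {K : X.Φ.K} {e : Xp (X.Φ.V K) X.χ X.J}
    (he : X.Fine K e) (E : EvL L (X.Φ.V K)) : ∃ Pk : Set (X.Φ.V K), Pk.ncard ≤ L.pk ∧
      ∀ Y1, E.Mem (X.Φ.R K) Y1 →
        (∀ u, E.π.hb u → ∀ z, WR (X.Φ.R K).adj e.pos X.R0 (Y1 u) z → z ∈ Pk) ∧
        (Fm (X.Φ.R K) L.m E.π.hb Y1 (L.sg E.i) L.t (Wit (X.Φ.R K).adj e (L.sg E.i) E.π) →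
          Fm (X.Φ.R K) L.m E.π.hb Y1 (L.sg E.i) L.t
            (fun Y => Wit (X.Φ.R K).adj e (L.sg E.i) E.π Y ∧ nhs E.π.hb Y ⊆ Pk)) := by
  have hn : E.n.1 + 1 ≤ L.N + 1 := E.n.2
  let H : Set (X.Φ.V K) := ⋃ u ∈ (univ : Set (Fin (E.n + 1))),
    {z | ∃ v, E.h u = some v ∧ WR (X.Φ.R K).adj e.pos X.R0 v z}
  have hH : H.ncard ≤ (L.N + 1) * (1 + X.W0) := by
    refine (ncard_biUnion_le _ (toFinite _) _ (1 + X.W0) fun u _ => ?_).trans
      (Nat.mul_le_mul_right _ (by simpa [ncard_univ] using hn))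
    rcases hu : E.h u with _ | v
    · simp
    · have := he.bd X.R0 hX.R0_le v
      simp only [Option.some.injEq, exists_eq_left']
      exact this.trans (Nat.le_add_left _ _)
  have hH' : ∀ Y1, E.Mem (X.Φ.R K) Y1 →
      ∀ u, E.π.hb u → ∀ z, WR (X.Φ.R K).adj e.pos X.R0 (Y1 u) z → z ∈ H :=
    fun Y1 h u hu z hz => mem_biUnion (mem_univ u) ⟨_, h.1 u hu, hz⟩
  by_cases c : ∃ Y1, E.Mem (X.Φ.R K) Y1 ∧
      Fm (X.Φ.R K) L.m E.π.hb Y1 (L.sg E.i) L.t (Wit (X.Φ.R K).adj e (L.sg E.i) E.π)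
  · obtain ⟨Y2, hm, Ys, h1, h2⟩ := c
    refine ⟨H ∪ ⋃ a ∈ (univ : Set (Fin L.t)), nhs E.π.hb (Ys a), ?_,
      fun Y1 h => ⟨fun u hu z hz => Or.inl (hH' Y1 h u hu z hz), fun _ => ?_⟩⟩
    · refine (ncard_union_le _ _).trans (Nat.add_le_add hH ?_)
      refine (ncard_biUnion_le _ (toFinite _) _ (L.N + 1) fun a _ =>
        ncard_nhs_le.trans hn).trans ?_
      simp [ncard_univ]
    · refine Fm.of_cls (Y0 := Y2) ⟨Ys, fun a => ⟨(h1 a).1, (h1 a).2, fun z hz => ?_⟩, h2⟩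
        ((hm.cls Y1).1 h)
      exact Or.inr (mem_biUnion (mem_univ a) hz)
  · exact ⟨H, hH.trans (Nat.le_add_right _ _),
      fun Y1 h => ⟨hH' Y1 h, fun h' => absurd ⟨Y1, h, h'⟩ c⟩⟩

/-- The outer set as a function of the inner set. -/
theorem fix_outer (hX : X.Ok) {K : X.Φ.K} {e : Xp (X.Φ.V K) X.χ X.J} (he : X.Fine K e) :
    ∃ O : Set (X.Φ.V K) → Set (X.Φ.V K), Monotone O ∧ (∀ U, (O U).ncard ≤ X.cc * U.ncard) ∧
      (∀ U, U ⊆ O U) ∧ (∀ U, ∀ x ∈ U, ∀ u, WR (X.Φ.R K).adj e.pos X.R0 x u → u ∈ O U) ∧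
      (∀ U, ∀ x ∈ U, ∀ j u, e.f x j = some u → u ∈ O U) ∧ ∀ U v, v ∉ O U →
        {u | u ∈ O U ∧ ∃ n, Att (X.Φ.R K).adj (fun y => y ∉ O U) n v u}.ncard ≤ 2 * X.k + 1 := by
  have := hX.finJ
  obtain ⟨pos0, h0⟩ := hX.wid K
  obtain ⟨cl, c1, c2, c3, c4⟩ := exists_cl (X.Φ.R K).adj_symm h0
  let G : X.Φ.V K → Set (X.Φ.V K) := fun x => {x} ∪ {u | WR (X.Φ.R K).adj e.pos X.R0 x u} ∪
    ⋃ j ∈ (univ : Set X.J), {u | e.f x j = some u}
  have hG : ∀ x, (G x).ncard ≤ 1 + X.W0 + Nat.card X.J := by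
    intro x
    refine (ncard_union_le _ _).trans (Nat.add_le_add ((ncard_union_le _ _).trans
      (Nat.add_le_add (by simp) (he.bd X.R0 hX.R0_le x))) ?_)
    refine (ncard_biUnion_le _ (toFinite _) _ 1 fun j _ => ?_).trans (by simp [ncard_univ])
    rw [ncard_le_one (toFinite _)]
    intro a ha b hb
    exact Option.some.inj (ha.symm.trans hb)
  refine ⟨fun U => cl (⋃ x ∈ U, G x), fun U U' h => c1 (biUnion_subset_biUnion_left h),
    fun U => ?_, fun U x hx => c2 _ (mem_biUnion hx (Or.inl (Or.inl rfl))),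
    fun U x hx u hu => c2 _ (mem_biUnion hx (Or.inl (Or.inr hu))),
    fun U x hx j u hu => c2 _ (mem_biUnion hx (Or.inr (mem_biUnion (mem_univ j) hu))),
    fun U => c4 _⟩
  refine (c3 _).trans ((Nat.mul_le_mul_left _
    (ncard_biUnion_le U (toFinite U) G _ fun x _ => hG x)).trans (le_of_eq ?_))
  rw [Cx.cc]
  ring

theorem exists_fix (hX : X.Ok) {P : ℕ → Lv X} (hP : Good P) {K : X.Φ.K}
    {e : Xp (X.Φ.V K) X.χ X.J} (he : X.Fine K e) {l : ℕ} (hl : l ≤ X.Q) (Z : Set (X.Φ.V K))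
    {n1 : ℕ} (hZ : Z.ncard ≤ n1) :
    ∃ U Y0, Z ⊆ U ∧ Y0.ncard ≤ X.cc * (2 * n1) ∧ Fix P l K e U Y0 := by
  have := hX.finσ
  have := hX.finJ
  obtain ⟨O, o1, o2, o3, o4, o5, o6⟩ := fix_outer hX he
  choose Pk hPk hPk' using fun (l' : ℕ) (E : EvL (P l') (X.Φ.V K)) => fix_pkg hX he E
  let Hv : Set (X.Φ.V K) → Set (X.Φ.V K) := fun U =>
    {u | 4 * X.W0 < {x | x ∈ U ∧ WR (X.Φ.R K).adj e.pos X.R0 x u}.ncard}
  let T : Set (X.Φ.V K) → ℕ → Set (X.Φ.V K) := fun U l' =>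
    ⋃ E ∈ {E | FixTrg (P l') K (O U) E}, Pk l' E
  let F : Set (X.Φ.V K) →o Set (X.Φ.V K) := ⟨fun U => Z ∪ Hv U ∪ ⋃ l' ∈ Iio l, T U l', by
    intro U U' h
    refine union_subset_union (union_subset_union_right _ fun u hu => ?_)
      (iUnion₂_mono fun l' _ => biUnion_subset_biUnion_left fun E hE => FixTrg.mono hE (o1 h))
    have hu' : 4 * X.W0 < {x | x ∈ U ∧ WR (X.Φ.R K).adj e.pos X.R0 x u}.ncard := hu
    show 4 * X.W0 < {x | x ∈ U' ∧ WR (X.Φ.R K).adj e.pos X.R0 x u}.ncard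
    exact lt_of_lt_of_le hu' (ncard_le_ncard fun x hx => And.intro (h hx.1) hx.2)⟩
  obtain ⟨U, hU⟩ : ∃ U, (Z ∪ Hv U ∪ ⋃ l' ∈ Iio l, T U l') = U := ⟨F.lfp, F.map_lfp⟩
  have s1 : Z ⊆ U := fun x hx => hU ▸ Or.inl (Or.inl hx)
  have s2 : Hv U ⊆ U := fun x hx => hU.subset (Or.inl (Or.inr hx))
  have s3 : ∀ l' < l, T U l' ⊆ U := fun l' h x hx =>
    hU.subset (Or.inr (mem_biUnion (show l' ∈ Iio l from h) hx))
  have b1 : (Hv U).ncard * 4 ≤ U.ncard := by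
    refine fix_cancel (c := X.W0) (fix_dbl (fun u x => WR (X.Φ.R K).adj e.pos X.R0 x u) _ _
      (fun u hu => ?_) (fun x _ => he.bd X.R0 hX.R0_le x))
    have : 4 * X.W0 < _ := hu
    omega
  have b2 : ∀ l' ∈ Iio l, (T U l').ncard ≤ U.ncard / (4 * X.Q) := by
    intro l' hl'
    have hl'' : l' < l := hl'
    have t2 := hP.Th2 l'
    have c1 := FixTrg.count hX (L := P l') (K := K) (fun i => by have := hP.sg_ge l' i; omega)
      (hP.sg_S l') (by omega) (O U)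
    have c2 : {E | FixTrg (P l') K (O U) E}.ncard * ((P l').pk * (4 * X.Q)) ≤ U.ncard := by
      refine fix_cancel (c := X.cc * (P l').EB (P l').g) ?_
      refine (Nat.mul_le_mul_left _ ?_).trans (c1.trans
        ((Nat.mul_le_mul_right _ (o2 U)).trans (le_of_eq (by ring))))
      have : X.cc * (P l').EB (P l').g * ((P l').pk * (4 * X.Q)) =
          4 * X.Q * X.cc * (P l').EB (P l').g * (P l').pk := by ring
      omega
    refine (ncard_biUnion_le _ (toFinite _) _ _ fun E _ => hPk l' E).trans ?_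
    rw [Nat.le_div_iff_mul_le (by omega), mul_assoc]
    exact c2
  have b3 : (⋃ l' ∈ Iio l, T U l').ncard * 4 ≤ U.ncard := by
    have h1 := ncard_biUnion_le _ (finite_Iio l) _ _ b2
    have h2 : (Iio l).ncard = l := by
      rw [← Finset.coe_range, ncard_coe_finset, Finset.card_range]
    rw [h2] at h1
    calc _ ≤ X.Q * (U.ncard / (4 * X.Q)) * 4 :=
          Nat.mul_le_mul_right _ (h1.trans (Nat.mul_le_mul_right _ hl))
      _ = 4 * X.Q * (U.ncard / (4 * X.Q)) := by ring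
      _ ≤ U.ncard := Nat.mul_div_le _ _
  have b4 : U.ncard ≤ 2 * n1 := by
    have h1 := ncard_union_le (Z ∪ Hv U) (⋃ l' ∈ Iio l, T U l')
    have h2 := ncard_union_le Z (Hv U)
    rw [hU] at h1
    omega
  refine ⟨U, O U, s1, (o2 U).trans (Nat.mul_le_mul_left _ b4), o3 U, o4 U, o5 U, o6 U,
    fun u hu => s2 hu, fun l' hl' i hi n hn π Y1 h1 h2 => ?_⟩
  obtain ⟨h, τ, hm⟩ := EvL.exists_mem (P l') (X.Φ.R K) ⟨i, hi⟩ ⟨n, Nat.lt_succ_of_le hn⟩ π Y1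
  have hm1 := (hm Y1).2 (Cls.refl _ _ _ _)
  have hs : Pk l' ⟨⟨n, Nat.lt_succ_of_le hn⟩, ⟨i, hi⟩, π, h, τ⟩ ⊆ U := fun z hz =>
    s3 l' hl' (mem_biUnion (show FixTrg (P l') K (O U) _ from ⟨Y1, hm1, h1, h2⟩) hz)
  obtain ⟨p1, p2⟩ := hPk' l' ⟨⟨n, Nat.lt_succ_of_le hn⟩, ⟨i, hi⟩, π, h, τ⟩ Y1 hm1
  exact ⟨fun u hu z hz => hs (p1 u hu z hz),
    fun h' => (p2 h').mono le_rfl fun Y _ hY => ⟨hY.1, hY.2.trans hs⟩⟩

end Pool.Agent.Work.MP_b730b2_lc.Full
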