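import Pool.Agent.Work.MP_b730b2_lc.Full.ChainEx

/-! Definability of the conditions and existence of the constants.

Proof plan. The definability statements follow from the closure properties in `Df.lean`; it is
convenient to prove them for reindexed tuples `fun i => x (a i)` (structures such as `Core`,
`SubWit` are first rewritten as conjunctions with `Df.congr`; `Fm` needs `Df.ext2`).
`exists_good`: construct `P l` by strong recursion from `fun l' : Fin l => P l'`; choose the constants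
in the order `N, Rc, κ, I, lam / sg (recursively), S, D, C (defined by the right hand side of cond),
m, t, Th, n1 (exists_chain with s = X.Q), M`. For `l = 0` take `Rc = R`, `κ = 3k+1`; in general
`Rc = R + ∑ l' < l, (2 * S l' + Rc l')` and `κ` equal to the left side of `kap`, and sums over the lower
levels for `N`, `2 ^ M`, `M`. Since `EB` depends on `m`, build the record in several steps
(`{ L with .. }`); `EB`, `Chain`, `Prj`, `Dom` do not depend on the fields chosen later. Keep the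
invariant that `C` is definable for all `i, n, π, F`; `Df.common` gives common ranks. -/

namespace Pool.Agent.Work.MP_b730b2_lc.Full

open Set

variable {σ : Type} {X : Cx σ}

section aux
variable {Φ : Fam σ} {α : Type} {n : ℕ}

theorem df_hubs (hb : Fin (n + 1) → Prop) (a : Fin (n + 1) → α) (b : α) :
    Df Φ (fun _ x => x b ∈ hubs hb (fun i => x (a i))) := Df.mem hb a b

theorem df_nhs (hb : Fin (n + 1) → Prop) (a : Fin (n + 1) → α) (b : α) :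
    Df Φ (fun _ x => x b ∈ nhs hb (fun i => x (a i))) := Df.mem (fun i => ¬ hb i) a b

theorem df_wkh (hb : Fin (n + 1) → Prop) (a : Fin (n + 1) → α) (r : ℕ) (b c : α) :
    Df Φ (fun K x => Wk (Φ.R K).adj (fun v => v ∉ hubs hb (fun i => x (a i))) r (x b) (x c)) :=
  Df.wk r (P := fun _ x v => v ∉ hubs hb (fun i => x (a i)))
    (df_hubs hb (fun i => some (a i)) none).not b c

theorem df_atth (hb : Fin (n + 1) → Prop) (a : Fin (n + 1) → α) (r : ℕ) (b c : α) :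
    Df Φ (fun K x => Att (Φ.R K).adj (fun v => v ∉ hubs hb (fun i => x (a i))) r (x b) (x c)) :=
  Df.att r (P := fun _ x v => v ∉ hubs hb (fun i => x (a i)))
    (df_hubs hb (fun i => some (a i)) none).not b c

theorem df_bl (hb : Fin (n + 1) → Prop) (a : Fin (n + 1) → α) (r : ℕ) (b : α) :
    Df Φ (fun K x => Bl (Φ.R K).adj hb (fun i => x (a i)) r (x b)) := df_wkh hb a r (a 0) b

theorem df_shape (δ : ℕ) (hb : Fin (n + 1) → Prop) (a : Fin (n + 1) → α) :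
    Df Φ (fun K x => Shape (Φ.R K).adj δ hb (fun i => x (a i))) :=
  (Df.inj a).and ((Df.const _).and
    ((Df.fall fun i => (Df.const _).imp (df_bl hb a δ (a i))).and
      (Df.fall fun u => (Df.const _).imp (df_atth hb a δ (a 0) (a u)))))

theorem df_cls (m : ℕ) (hb : Fin (n + 1) → Prop) (a b : Fin (n + 1) → α) :
    Df Φ (fun K x => Cls (Φ.R K) m hb (fun i => x (a i)) (fun i => x (b i))) :=
  (Df.fall fun u => (Df.const _).imp (Df.eq (b u) (a u))).and (Df.eqv m a b)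

theorem df_wloc (hb : Fin (n + 1) → Prop) (a : Fin (n + 1) → α) (d : ℕ) (i j : Fin (n + 1)) :
    Df Φ (fun K x => Wloc (Φ.R K).adj hb (fun i => x (a i)) d i j) :=
  Df.wk d (P := fun _ x z => z ∉ hubs hb (fun i => x (a i)) ∧ ∀ c, x (a c) = z → j ≤ c)
    ((df_hubs hb (fun i => some (a i)) none).not.and
      (Df.fall fun c => (Df.eq (some (a c)) none).imp (Df.const _))) (a i) (a j)

theorem df_ictx {χ R0 : ℕ} {J : Type} (a : Fin (n + 1) → α) (π : Pat χ J n) (F : Ctx χ R0 n)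
    (b : α) (d : Fin (R0 + 1)) (c : Fin χ) :
    Df Φ (fun K x => ICtx (Φ.R K).adj (fun i => x (a i)) π F (x b) d c) :=
  (Df.fex fun i => (Df.const _).and ((Df.eq (a i) b).and (Df.const _))).or
    (Df.fex fun i => (Df.const _).and ((Df.eq (a i) b).and
      ((Df.fex fun j => (Df.const _).and ((df_wloc π.hb a d i j).and (Df.const _))).or
        (Df.fex fun w => Df.fex fun d1 => Df.fex fun _ => (Df.const _).and ((Df.const _).and
          ((df_atth π.hb a d1.1 (a i) (a w)).and (Df.const _)))))))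

theorem df_subwit {χ n' : ℕ} {J : Type} [Finite J] (a : Fin (n + 1) → α) (π : Pat χ J n) (sg : ℕ)
    (π' : Pat χ J n') (b : Fin (n' + 1) → α) :
    Df Φ (fun K x => SubWit (Φ.R K).adj (fun i => x (a i)) π sg π' (fun i => x (b i))) := by
  have h1 : Df Φ (fun K x => ∀ z, Bl (Φ.R K).adj π'.hb (fun i => x (b i)) sg z →
      z ∉ hubs π.hb (fun i => x (a i))) :=
    Df.all (P := fun K x z => Bl (Φ.R K).adj π'.hb (fun i => x (b i)) sg z →
      z ∉ hubs π.hb (fun i => x (a i)))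
      ((df_bl π'.hb (fun i => some (b i)) sg none).imp
        (df_hubs π.hb (fun i => some (a i)) none).not)
  have h2 : Df Φ (fun _ x => ∀ a', ¬ π'.hb a' → ∃ i, ¬ π.hb i ∧ x (a i) = x (b a') ∧
      π.cl i = π'.cl a' ∧ (π'.inn a' → π.inn i ∧ ∀ j, (π.ch i j).map (fun i => x (a i)) =
        (π'.ch a' j).map (fun i => x (b i)))) :=
    Df.fall fun a' => (Df.const _).imp (Df.fex fun i => (Df.const _).and ((Df.eq _ _).and
      ((Df.const _).and ((Df.const _).imp ((Df.const _).and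
        (Df.fall fun j => Df.map_eq a b _ _))))))
  have h3 : Df Φ (fun _ x => ∀ a' b' i j, ¬ π'.hb a' → ¬ π'.hb b' → a' < b' →
      x (a i) = x (b a') → x (a j) = x (b b') → i < j) :=
    Df.fall fun _ => Df.fall fun _ => Df.fall fun _ => Df.fall fun _ => (Df.const _).imp
      ((Df.const _).imp ((Df.const _).imp ((Df.eq _ _).imp ((Df.eq _ _).imp (Df.const _)))))
  have h4 : Df Φ (fun K x => ∀ a' i j, ¬ π'.hb a' → x (a i) = x (b a') → j ≤ i →
      Bl (Φ.R K).adj π'.hb (fun i => x (b i)) sg (x (a j)) →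
        x (a j) ∈ nhs π'.hb (fun i => x (b i))) :=
    Df.fall fun _ => Df.fall fun _ => Df.fall fun j => (Df.const _).imp ((Df.eq _ _).imp
      ((Df.const _).imp ((df_bl π'.hb b sg (a j)).imp (df_nhs π'.hb b (a j)))))
  have h5 : Df Φ (fun K x => ∀ i j, ¬ π.hb i → x (a i) ∈ hubs π'.hb (fun i => x (b i)) →
      Bl (Φ.R K).adj π'.hb (fun i => x (b i)) sg (x (a j)) → i < j) :=
    Df.fall fun i => Df.fall fun j => (Df.const _).imp ((df_hubs π'.hb b (a i)).imp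
      ((df_bl π'.hb b sg (a j)).imp (Df.const _)))
  exact (h1.and (h2.and (h3.and (h4.and h5)))).congr fun _ _ =>
    ⟨fun h => ⟨h.1, h.2.1, h.2.2.1, h.2.2.2.1, h.2.2.2.2⟩,
      fun h => ⟨h.avo, h.sub, h.ord, h.ini, h.abv⟩⟩

end aux

theorem df_fm {Φ : Fam σ} {α : Type} {n : ℕ} (m : ℕ) (hb : Fin (n + 1) → Prop)
    (a : Fin (n + 1) → α) (sg T : ℕ) {P : ∀ K, (α → Φ.V K) → (Fin (n + 1) → Φ.V K) → Prop}
    (h : Df Φ (fun K (y : α ⊕ Fin (n + 1) → Φ.V K) =>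
      P K (fun b => y (Sum.inl b)) (fun i => y (Sum.inr i)))) :
    Df Φ (fun K x => Fm (Φ.R K) m hb (fun i => x (a i)) sg T (P K x)) :=
  Df.ext2 (β := Fin T) (γ := Fin (n + 1)) (P := fun K x Ys =>
      (∀ t, Cls (Φ.R K) m hb (fun i => x (a i)) (Ys t) ∧ P K x (Ys t)) ∧
        ∀ s t, s ≠ t → ¬ Wk (Φ.R K).adj (fun v => v ∉ hubs hb (fun i => x (a i))) (6 * sg)
          (Ys s 0) (Ys t 0))
    ((Df.fall fun t => (df_cls m hb (fun i => Sum.inl (a i)) (fun i => Sum.inr (t, i))).and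
        (h.comp (Sum.elim Sum.inl fun i => Sum.inr (t, i)))).and
      (Df.fall fun s => Df.fall fun t => (Df.const _).imp
        (df_wkh hb (fun i => Sum.inl (a i)) (6 * sg) (Sum.inr (s, 0)) (Sum.inr (t, 0))).not))

theorem df_core (hX : X.Ok) {H : Set (ℕ × ℕ)} (hH : H.Finite) (Rc δ : ℕ) {n : ℕ}
    (π : Pat X.χ X.J n) (F : Ctx X.χ X.R0 n) :
    Df X.Φ (fun K Y => Core X K H Rc δ Y π F) := by
  have := hH.to_subtype
  have h1 : Df X.Φ (fun K (Y : Fin (n + 1) → _) => Shape (X.Φ.R K).adj δ π.hb Y) :=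
    df_shape δ π.hb id
  have h3 : Df X.Φ (fun K (Y : Fin (n + 1) → _) => ∀ p : H, ∀ a, ¬ π.hb a →
      Hit (X.Φ.R K).adj p.1.1 p.1.2 (Y a)
        (fun u => u ∈ hubs π.hb Y ∨ ∃ b, ¬ π.hb b ∧ b < a ∧ Y b = u)) :=
    Df.fall fun p => Df.fall fun a => (Df.const _).imp
      (Df.hit p.1.1 p.1.2 (P := fun _ (Y : Fin (n + 1) → _) u =>
        u ∈ hubs π.hb Y ∨ ∃ b, ¬ π.hb b ∧ b < a ∧ Y b = u)
        ((df_hubs π.hb some none).or (Df.fex fun b => (Df.const _).and ((Df.const _).and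
          (Df.eq (some b) none)))) a)
  have h4 : Df X.Φ (fun K (Y : Fin (n + 1) → _) => ∀ v, v ∉ range Y →
      {y | y ∈ nhs π.hb Y ∧ Att (X.Φ.R K).adj (fun z => z ∉ range Y) Rc v y}.ncard ≤
        2 * X.k + 1) := by
    refine Df.all (P := fun K (Y : Fin (n + 1) → _) v => v ∉ range Y →
      {y | y ∈ nhs π.hb Y ∧ Att (X.Φ.R K).adj (fun z => z ∉ range Y) Rc v y}.ncard ≤ 2 * X.k + 1)
      ((Df.mem_range some none).not.imp ?_)
    refine Df.ncard_le (P := fun K (x : Option (Fin (n + 1)) → _) y =>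
      y ∈ nhs π.hb (fun a => x (some a)) ∧
        Att (X.Φ.R K).adj (fun z => z ∉ range fun a => x (some a)) Rc (x none) y)
      ((df_nhs π.hb (fun a => some (some a)) none).and ?_) _
    exact Df.att Rc (P := fun _ (x : Option (Option (Fin (n + 1))) → _) z =>
      z ∉ range fun a => x (some (some a)))
      (Df.mem_range (fun a => some (some (some a))) none).not (some none) none
  have h5 : Df X.Φ (fun K (Y : Fin (n + 1) → _) => ∀ a b, ¬ π.hb a → ¬ π.hb b → a ≠ b →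
      Wloc (X.Φ.R K).adj π.hb Y X.R0 a b → π.cl a ≠ π.cl b) :=
    Df.fall fun a => Df.fall fun b => (Df.const _).imp ((Df.const _).imp ((Df.const _).imp
      ((df_wloc π.hb id X.R0 a b).imp (Df.const _))))
  have h6 : Df X.Φ (fun K (Y : Fin (n + 1) → _) => ∀ a w (d1 d2 : Fin (X.R0 + 1)), ¬ π.hb a →
      π.hb w → d1.1 + 1 + d2.1 ≤ X.R0 →
      Att (X.Φ.R K).adj (fun v => v ∉ hubs π.hb Y) d1 (Y a) (Y w) → π.cl a ∉ F w d2) :=
    Df.fall fun a => Df.fall fun w => Df.fall fun d1 => Df.fall fun _ => (Df.const _).imp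
      ((Df.const _).imp ((Df.const _).imp ((df_atth π.hb id d1.1 a w).imp (Df.const _))))
  have h7 : Df X.Φ (fun K (Y : Fin (n + 1) → _) => ∀ a, π.inn a →
      X.Val K (Y a) (fun j => (π.ch a j).map Y)) :=
    Df.fall fun a => (Df.const _).imp (hX.val_df _ a (π.ch a))
  exact (h1.and ((Df.const (∀ a, π.inn a → ¬ π.hb a)).and (h3.and (h4.and (h5.and
    (h6.and h7)))))).congr fun _ _ =>
    ⟨fun h => ⟨h.1, h.2.1, fun p hp => h.2.2.1 ⟨p, hp⟩, h.2.2.2.1, h.2.2.2.2.1, h.2.2.2.2.2.1,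
      h.2.2.2.2.2.2⟩,
     fun h => ⟨h.shape, h.inn, fun p => h.hit p.1 p.2, h.prj, h.cl1, h.cl2, h.val⟩⟩

theorem df_cp (hX : X.Ok) (L : Lv X) (hL : ∀ i n π F, Df X.Φ (fun K Y => L.C K i n Y π F)) {n : ℕ}
    (π : Pat X.χ X.J n) (F : Ctx X.χ X.R0 n) : Df X.Φ (fun K Y => CP L K Y π F) := by
  have := hX.finJ
  unfold CP
  refine Df.ball_lt L.I fun i _ => Df.ball_le L.N fun n' _ => Df.fall fun π' => Df.allt ?_
  refine Df.imp (Df.allt ?_) (Df.imp ?_ (Df.or ?_ (Df.or ?_ (Df.or ?_ (Df.and ?_ ?_)))))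
  · exact (df_cls L.m π'.hb (fun i => Sum.inl (Sum.inr i)) Sum.inr).imp
      (df_shape (L.lam i) π'.hb Sum.inr)
  · exact df_fm L.m π'.hb Sum.inr _ _ (P := fun _ _ _ => True) (Df.const True)
  · exact df_fm L.m π'.hb Sum.inr _ _ (P := fun K x Y' => ∀ a, ¬ π.hb a →
      ¬ Bl (X.Φ.R K).adj π'.hb Y' (L.sg i) (x (Sum.inl a)))
      (Df.fall fun a => (Df.const _).imp
        (df_bl π'.hb Sum.inr (L.sg i) (Sum.inl (Sum.inl a))).not)
  · exact df_fm L.m π'.hb Sum.inr _ _ (P := fun K x Y' => ∃ u, π.hb u ∧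
      Bl (X.Φ.R K).adj π'.hb Y' (L.sg i) (x (Sum.inl u)))
      (Df.fex fun u => (Df.const _).and (df_bl π'.hb Sum.inr (L.sg i) (Sum.inl (Sum.inl u))))
  · exact Df.fall fun u' => (Df.const _).imp (df_hubs π.hb Sum.inl (Sum.inr u'))
  · exact Df.fall fun u' => (Df.const _).imp (Df.fex fun a => (Df.const _).and
      (Df.eq (Sum.inl a) (Sum.inr u')))
  · refine Df.fall fun F' => Df.imp ?_ (Df.imp (Df.allt ?_) ?_)
    · exact Df.fall fun u => Df.fall fun d => Df.fall fun c => (Df.const _).iff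
        ((Df.const _).and (df_ictx Sum.inl π F (Sum.inr u) d c))
    · exact (df_cls L.m π'.hb (fun i => Sum.inl (Sum.inr i)) Sum.inr).imp
        ((hL i n' π' F').comp Sum.inr)
    · exact df_fm L.m π'.hb Sum.inr _ _ (P := fun K x Y' =>
        SubWit (X.Φ.R K).adj (fun a => x (Sum.inl a)) π (L.sg i) π' Y')
        (df_subwit (fun a => Sum.inl (Sum.inl a)) π (L.sg i) π' Sum.inr)

theorem df_prj (L : Lv X) {α : Type} (I : Set α) : Df X.Φ (fun K x => Prj L K (x '' I)) := by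
  unfold Prj
  refine Df.all (Df.imp (Df.mem (fun i => i ∈ I) some none).not ?_)
  refine Df.ncard_le (P := fun K (x : Option α → _) z => z ∈ (fun a => x (some a)) '' I ∧
    Att (X.Φ.R K).adj (fun y => y ∉ (fun a => x (some a)) '' I) (L.lam L.I) (x none) z)
    ((Df.mem (fun i => i ∈ I) (fun a => some (some a)) none).and ?_) _
  exact Df.att (L.lam L.I) (P := fun _ (x : Option (Option α) → _) y =>
    y ∉ (fun a => x (some (some a))) '' I)
    (Df.mem (fun i => i ∈ I) (fun a => some (some (some a))) none).not (some none) none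

theorem df_dom (L : Lv X) {α : Type} (I I' : Set α) :
    Df X.Φ (fun K x => Dom L K (x '' I) (x '' I')) := by
  unfold Dom
  refine Df.ball_lt L.I fun i _ => Df.ball_le L.N fun n _ => Df.fall fun hb => Df.allt ?_
  refine Df.imp ?_ (Df.or ?_ (Df.ex ?_))
  · exact Df.fall fun u => (Df.const _).imp (Df.mem (fun i => i ∈ I) Sum.inl (Sum.inr u))
  · exact df_fm L.m hb Sum.inr _ _ (P := fun _ _ _ => True) (Df.const True)
  · exact (Df.mem (fun i => i ∈ I') (fun a => some (Sum.inl a)) none).and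
      (df_bl hb (fun a => some (Sum.inr a)) (6 * L.sg i) none)

/-- Sequences by strong recursion with an invariant. -/
theorem exists_seq_rec {β : Type*} (I : β → Prop) (S : ∀ l, (Fin l → β) → β → Prop)
    (h : ∀ l Q, (∀ i, I (Q i)) → ∃ b, I b ∧ S l Q b) :
    ∃ P : ℕ → β, ∀ l, I (P l) ∧ S l (fun i => P i) (P l) := by
  have h' : ∀ l (Q : Fin l → Subtype I), ∃ b : Subtype I, S l (fun i => (Q i).1) b.1 :=
    fun l Q => let ⟨b, hb, hs⟩ := h l _ fun i => (Q i).2; ⟨⟨b, hb⟩, hs⟩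
  choose f hf using h'
  let P : ℕ → Subtype I := (Nat.lt_wfRel.wf).fix fun l ih => f l fun i => ih i i.2
  have hP : ∀ l, P l = f l fun i => P i := fun l => WellFounded.fix_eq _ _ l
  refine ⟨fun l => (P l).1, fun l => ⟨(P l).2, ?_⟩⟩
  have := hf l fun i => P i
  rwa [← hP l] at this

/-- The number of events only depends on three of the constants. -/
theorem EB_congr (L L' : Lv X) (hN : L.N = L'.N) (hI : L.I = L'.I) (hm : L.m = L'.m) (w : ℕ) :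
    L.EB w = L'.EB w := by
  have key : ∀ L : Lv X, L.EB w = Nat.card (Σ n : Fin (L.N + 1), Fin L.I × Pat X.χ X.J n ×
      (Fin (n + 1) → Option (Fin w)) × Ty Empty σ L.m (n + 1)) := fun L =>
    Nat.card_congr ⟨fun E => ⟨E.n, E.i, E.π, E.h, E.τ⟩,
      fun p => ⟨p.1, p.2.1, p.2.2.1, p.2.2.2.1, p.2.2.2.2⟩, fun _ => rfl, fun _ => rfl⟩
  rw [key, key, hN, hI, hm]

/-- The requirements on a level, given the lower levels. -/
structure Step (l : ℕ) (Q : Fin l → Lv X) (L : Lv X) : Prop where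
  Rc_eq : L.Rc = X.R + ∑ j, (2 * (Q j).S + (Q j).Rc)
  kap_eq : L.κ = 3 * X.k + 1 + ∑ j, (Q j).EB (Wb X.k (2 * L.Rc)) * (Q j).t * ((Q j).N + 1)
  Rc_S : L.Rc ≤ L.S
  N_ge : ∀ j, X.cc * (2 * (Q j).n1) + (2 * X.k + 1) ≤ L.N
  I_ge : (L.N + 1) ^ 2 + (L.N + 1) * (2 * X.k + 1) < L.I
  sg_ge : ∀ i, L.lam i + 2 * L.Rc + 2 ≤ L.sg i
  sg_M : ∀ j i, L.lam i + 2 ^ (Q j).M + 1 ≤ L.sg i
  lam_succ : ∀ i, 7 * L.sg i + 1 ≤ L.lam (i + 1)
  sg_S : ∀ i < L.I, L.sg i ≤ L.S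
  D_ge : gD (L.N + 1) (2 * X.k + 1) (L.lam L.I) ≤ L.D
  cond : ∀ K i n Y π F, L.C K i n Y π F ↔
    Core X K {p | p = (L.Rc, L.κ) ∨ ∃ j, p = ((Q j).Rc, (Q j).κ)} L.Rc (L.lam i) Y π F ∧
      ∀ j, CP (Q j) K Y π F
  rk_C : ∀ i < L.I, ∀ n ≤ L.N, ∀ π F, Rk X.Φ L.m (fun K Y => L.C K i n Y π F)
  m_S : L.S + 2 ≤ L.m
  m_M : ∀ j, (Q j).M + L.S + 2 ≤ L.m
  t_ge : (L.N + 1) * (2 * X.k + 2) < L.t
  Th1 : L.g + (∑ j, (Q j).EB (Wb X.k (4 * L.S)) * (Q j).t * ((Q j).N + 1) +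
    L.EB (Wb X.k (4 * L.S)) * L.t * (L.N + 1)) + L.t ≤ L.Th
  Th2 : L.g + 4 * X.Q * X.cc * L.EB L.g * L.pk < L.Th
  chain : ∀ K e, Function.Injective e.pos → Valid L K e → ∀ Z0 : Set (X.Φ.V K),
    Z0.ncard ≤ X.Q → ∃ Z, Chain L K e Z ∧ Z0 ⊆ Z 0 ∧ (Z L.D).ncard ≤ L.n1
  rk_chain : ∀ n ≤ L.n1, ∀ I I' : Set (Fin n),
    Rk X.Φ L.M (fun K x => Prj L K (x '' I)) ∧ Rk X.Φ L.M (fun K x => Dom L K (x '' I) (x '' I'))
  rk_fam : ∃ r, r + (L.N + 1) * (2 * X.k + 2) ≤ L.M ∧ L.m ≤ r ∧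
    ∀ i < L.I, ∀ n ≤ L.N, ∀ hb : Fin (n + 1) → Prop,
      Rk X.Φ r (fun K Y => Fm (X.Φ.R K) L.m hb Y (L.sg i) (2 * L.Th) (fun _ => True))

theorem exists_step (hX : X.Ok) (l : ℕ) (Q : Fin l → Lv X)
    (hQ : ∀ j i n π F, Df X.Φ (fun K Y => (Q j).C K i n Y π F)) :
    ∃ L : Lv X, (∀ i n π F, Df X.Φ (fun K Y => L.C K i n Y π F)) ∧ Step l Q L := by
  have := hX.finJ
  have sum_le : ∀ (f : Fin l → ℕ) j, f j ≤ ∑ j, f j := fun f j =>
    Finset.single_le_sum (fun _ _ => Nat.zero_le _) (Finset.mem_univ j)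
  obtain ⟨N, hN⟩ : ∃ N, ∀ j, X.cc * (2 * (Q j).n1) + (2 * X.k + 1) ≤ N :=
    ⟨_, sum_le fun j => X.cc * (2 * (Q j).n1) + (2 * X.k + 1)⟩
  obtain ⟨Rc, hRc⟩ : ∃ Rc, Rc = X.R + ∑ j, (2 * (Q j).S + (Q j).Rc) := ⟨_, rfl⟩
  obtain ⟨κ, hκ⟩ : ∃ κ, κ = 3 * X.k + 1 +
    ∑ j, (Q j).EB (Wb X.k (2 * Rc)) * (Q j).t * ((Q j).N + 1) := ⟨_, rfl⟩
  obtain ⟨I, hI⟩ : ∃ I, (N + 1) ^ 2 + (N + 1) * (2 * X.k + 1) < I := ⟨_, Nat.lt_succ_self _⟩
  obtain ⟨B, hB1, hB2⟩ : ∃ B, 2 * Rc + 2 ≤ B ∧ ∀ j, 2 ^ (Q j).M + 1 ≤ B :=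
    ⟨2 * Rc + 2 + ∑ j, (2 ^ (Q j).M + 1), Nat.le_add_right _ _,
      fun j => (sum_le (fun j => 2 ^ (Q j).M + 1) j).trans (Nat.le_add_left _ _)⟩
  obtain ⟨lam, hlam⟩ : ∃ lam : ℕ → ℕ, ∀ i, 7 * (lam i + B) + 1 ≤ lam (i + 1) :=
    ⟨fun i => Nat.rec 0 (fun _ x => 7 * (x + B) + 1) i, fun _ => le_rfl⟩
  obtain ⟨S, hS1, hS2⟩ : ∃ S, Rc ≤ S ∧ ∀ i < I, lam i + B ≤ S :=
    ⟨Rc + ∑ i ∈ Finset.range I, (lam i + B), Nat.le_add_right _ _, fun i hi =>
      (Finset.single_le_sum (f := fun i => lam i + B) (fun _ _ => Nat.zero_le _)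
        (Finset.mem_range.2 hi)).trans (Nat.le_add_left _ _)⟩
  obtain ⟨C, hC⟩ : ∃ C : ∀ K, ℕ → ∀ n, (Fin (n + 1) → X.Φ.V K) → Pat X.χ X.J n →
      Ctx X.χ X.R0 n → Prop, ∀ K i n Y π F, C K i n Y π F ↔
        Core X K {p | p = (Rc, κ) ∨ ∃ j, p = ((Q j).Rc, (Q j).κ)} Rc (lam i) Y π F ∧
          ∀ j, CP (Q j) K Y π F := ⟨_, fun _ _ _ _ _ _ => Iff.rfl⟩
  have hfin : {p : ℕ × ℕ | p = (Rc, κ) ∨ ∃ j, p = ((Q j).Rc, (Q j).κ)}.Finite :=
    ((finite_range fun j => ((Q j).Rc, (Q j).κ)).insert (Rc, κ)).subset fun _ hp =>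
      hp.imp id fun ⟨j, h⟩ => ⟨j, h.symm⟩
  have hCd : ∀ i n π F, Df X.Φ (fun K Y => C K i n Y π F) := fun i n π F =>
    ((df_core hX hfin Rc (lam i) π F).and (Df.fall fun j => df_cp hX (Q j) (hQ j) π F)).congr
      fun _ _ => (hC _ _ _ _ _ _).symm
  obtain ⟨m, hm1, hm2, hm3⟩ : ∃ m, (∀ i < I, ∀ n ≤ N, ∀ π F,
      Rk X.Φ m (fun K Y => C K i n Y π F)) ∧ S + 2 ≤ m ∧ ∀ j, (Q j).M + S + 2 ≤ m := by
    obtain ⟨m0, h0⟩ := Df.common
      (ι := Fin I × Σ n : Fin (N + 1), Pat X.χ X.J n × Ctx X.χ X.R0 n)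
      (α := fun p => Fin (p.2.1 + 1)) fun p => hCd p.1 p.2.1 p.2.2.1 p.2.2.2
    refine ⟨m0 + (∑ j, (Q j).M + S + 2), fun i hi n hn π F =>
      (h0 (⟨i, hi⟩, ⟨⟨n, Nat.lt_succ_iff.2 hn⟩, π, F⟩)).le (Nat.le_add_right _ _), by omega,
      fun j => ?_⟩
    have := sum_le (fun j => (Q j).M) j
    omega
  obtain ⟨t, ht⟩ : ∃ t, (N + 1) * (2 * X.k + 2) < t := ⟨_, Nat.lt_succ_self _⟩
  let mk : ℕ → ℕ → ℕ → Lv X := fun Th n1 M =>
    ⟨N, Rc, κ, I, lam, fun i => lam i + B, S, gD (N + 1) (2 * X.k + 1) (lam I), C, m, t, Th, n1, M⟩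
  obtain ⟨Th, hT1, hT2⟩ : ∃ Th, Wb X.k (2 * S) +
      (∑ j, (Q j).EB (Wb X.k (4 * S)) * (Q j).t * ((Q j).N + 1) +
        (mk 0 0 0).EB (Wb X.k (4 * S)) * t * (N + 1)) + t ≤ Th ∧
      Wb X.k (2 * S) + 4 * X.Q * X.cc * (mk 0 0 0).EB (Wb X.k (2 * S)) * (mk 0 0 0).pk < Th :=
    ⟨max _ (_ + 1), le_max_left _ _, Nat.lt_of_succ_le (le_max_right _ _)⟩
  obtain ⟨n1, hn1⟩ := exists_chain hX (mk Th 0 0) X.Q
  obtain ⟨M1, hM1⟩ := Df.common (ι := Σ n : Fin (n1 + 1), Set (Fin n))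
    (α := fun p => Fin p.1) fun p => df_prj (mk Th 0 0) p.2
  obtain ⟨M2, hM2⟩ := Df.common (ι := Σ n : Fin (n1 + 1), Set (Fin n) × Set (Fin n))
    (α := fun p => Fin p.1) fun p => df_dom (mk Th 0 0) p.2.1 p.2.2
  obtain ⟨r, hr⟩ := Df.common (Φ := X.Φ) (ι := Fin I × Σ n : Fin (N + 1), (Fin (n + 1) → Prop))
    (α := fun p => Fin (p.2.1 + 1)) fun p => df_fm m p.2.2 id (lam p.1 + B) (2 * Th)
      (P := fun _ _ _ => True) (Df.const True)
  have hE : ∀ M w, (mk Th n1 M).EB w = (mk 0 0 0).EB w := fun M w =>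
    EB_congr (mk Th n1 M) (mk 0 0 0) rfl rfl rfl w
  refine ⟨mk Th n1 (M1 + M2 + (r + m + (N + 1) * (2 * X.k + 2))), hCd, hRc, hκ, hS1, hN, hI,
    fun i => ?_, fun j i => ?_, hlam, hS2, le_rfl, hC, hm1, hm2, hm3, ht, ?_, ?_, ?_, ?_, ?_⟩
  · exact (Nat.add_assoc _ _ _).le.trans (Nat.add_le_add_left hB1 _)
  · exact (Nat.add_assoc _ _ _).le.trans (Nat.add_le_add_left (hB2 j) _)
  · rw [hE]
    exact hT1
  · rw [hE]
    exact hT2
  · intro K e he hv Z0 h0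
    obtain ⟨Z, hZ, h⟩ := hn1 K e he hv Z0 h0
    exact ⟨Z, ⟨hZ.mono, hZ.wr, hZ.f, hZ.prj, hZ.dom⟩, h⟩
  · intro n hn J J'
    exact ⟨(hM1 ⟨⟨n, Nat.lt_succ_iff.2 hn⟩, J⟩).le
        ((Nat.le_add_right _ _).trans (Nat.le_add_right _ _)),
      (hM2 ⟨⟨n, Nat.lt_succ_iff.2 hn⟩, J, J'⟩).le
        ((Nat.le_add_left _ _).trans (Nat.le_add_right _ _))⟩
  · exact ⟨r + m, Nat.le_add_left _ _, Nat.le_add_left _ _, fun i hi n hn hb =>
      (hr (⟨i, hi⟩, ⟨⟨n, Nat.lt_succ_iff.2 hn⟩, hb⟩)).le (Nat.le_add_right _ _)⟩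

theorem exists_good (hX : X.Ok) : ∃ P : ℕ → Lv X, Good P := by
  obtain ⟨P, hP⟩ := exists_seq_rec (fun L : Lv X => ∀ i n π F, Df X.Φ (fun K Y => L.C K i n Y π F))
    Step (exists_step hX)
  have h := fun l => (hP l).2
  have hR : ∀ l' l, l' < l → 2 * (P l').S + (P l').Rc ≤ (P l).Rc := fun l' l hl => by
    rw [(h l).Rc_eq]
    exact (Finset.single_le_sum (f := fun j : Fin l => 2 * (P j).S + (P j).Rc)
      (fun _ _ => Nat.zero_le _) (Finset.mem_univ ⟨l', hl⟩)).trans (Nat.le_add_left _ _)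
  refine ⟨P, ?_, ?_, fun l' l hl => ?_, fun l' l hl => ?_, fun l => (h l).Rc_S, fun l => ?_,
    fun l => (h (l + 1)).N_ge (Fin.last l), fun l => (h l).I_ge, fun l => (h l).sg_ge,
    fun l => (h (l + 1)).sg_M (Fin.last l), fun l => (h l).lam_succ, fun l => (h l).sg_S,
    fun l => (h l).D_ge, fun l K i n Y π F => ?_, fun l => (h l).rk_C, fun l => (h l).m_S,
    fun l => (h (l + 1)).m_M (Fin.last l), fun l => (h l).t_ge, fun l => ?_, fun l => (h l).Th2,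
    fun l => (h l).chain, fun l => (h l).rk_chain, fun l => (h l).rk_fam⟩
  · rw [(h 0).Rc_eq]
    exact Nat.le_add_right _ _
  · rw [(h 0).kap_eq, Finset.univ_eq_empty, Finset.sum_empty, Nat.add_zero]
  · rcases hl.eq_or_lt with rfl | hl
    · exact le_rfl
    · exact (Nat.le_add_left _ _).trans (hR l' l hl)
  · exact (Nat.le_add_right _ _).trans (hR l' l hl)
  · rw [(h l).kap_eq, Finset.sum_range]
  · have e : {p : ℕ × ℕ | p = ((P l).Rc, (P l).κ) ∨ ∃ j : Fin l, p = ((P j).Rc, (P j).κ)} =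
        {p | ∃ l' ≤ l, p = ((P l').Rc, (P l').κ)} := by
      ext p
      constructor
      · rintro (h | ⟨j, h⟩)
        · exact ⟨l, le_rfl, h⟩
        · exact ⟨j, j.2.le, h⟩
      · rintro ⟨l', hl, h⟩
        rcases hl.eq_or_lt with rfl | hl
        · exact Or.inl h
        · exact Or.inr ⟨⟨l', hl⟩, h⟩
    rw [(h l).cond, e]
    exact and_congr_right fun _ => ⟨fun h l' hl => h ⟨l', hl⟩, fun h j => h j j.2⟩
  · rw [Finset.sum_range_succ, Finset.sum_range]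
    exact (h l).Th1

end Pool.Agent.Work.MP_b730b2_lc.Full
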