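import Pool.Agent.Work.MP_b730b2_lc.Full.Transport
import Pool.Agent.Work.MP_b730b2_lc.Full.BuildSat
import Pool.Agent.Work.MP_b730b2_lc.Full.Params

/-! The game on saturated expansions.

Proof plan for `Inv.step`. Apply `exists_clusters` with `Z0 = insert v (fst '' S)` and `transport`.
Enumerate `Zn D` by `y : Fin n' → V K` (`n' ≤ n1`), `I' j = {a | y a ∈ Zn j}`, `y' = ψ ∘ y`. `ψ` is injective
on `B` by `Eqv.eq_iff`. Elements of `Y0` are in `Z j` (then not in a cluster, `ψ (x a) = x' a`) or in a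
cluster (then not in `Z (j+1)`, `Clu.ball`). For `u ∈ Zn j'`, `j' < D`, `d ≤ (P l).Rc` show
(A) `WR d u w → w ∈ Y0 ∧ WR' d (ψ u) (ψ w)` and (B) `WR' d (ψ u) w' → ∃ w, WR d u w ∧ ψ w = w'`
(then `w ∈ Zn (j'+1) ⊆ Y0`). For `u ∈ Z j` use the chains and `Pos.wr`
(`Y0 ∩ Z (j+1) ⊆ Z j` by `Sit.far`). For `u = Y c a` use `Clu.wf` and `Wit.wf`, `Wloc.transfer`,
`Eqv.att`, and the first case for the hubs: if `WR' d2 (ψ hub) w'` then `w' = x' b`,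
`WR d2 hub (x b)`, so `WR d u (x b)` and `x b ∈ Y0 ∩ Z j`. The same for `f` with `PatOf.ch`, `Wit.ch`
(`Zn D ⊆ U`, so cluster elements of `Zn D` are inner), and for colours with `PatOf.cl`, `Wit.col`.
`Prj` and `Dom` are transferred by `rk_chain`. Old pairs of `S` are in `Z 0 ⊆ Z j`.
`abundant`: `exists_good`, `exists_rich`; `m = (P q).M`, `T = 2 (P q).Th`; start with empty tuples
(`Dom` by abundance, `Fm.mono`), `EF.of_inv` with `Inv.step` and `Inv.symm`; `Inv l S` implies `PI`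
because `0 < D` (`D_ge`) and `R ≤ Rc`. If one structure is empty so is the other (`1 ≤ M`). -/

namespace Pool.Agent.Work.MP_b730b2_lc.Full

open Set

variable {σ : Type} {X : Cx σ}

/-- The invariant of the game with `l` remaining rounds. -/
def Inv (P : ℕ → Lv X) (K K' : X.Φ.K) (e : Xp (X.Φ.V K) X.χ X.J) (e' : Xp (X.Φ.V K') X.χ X.J)
    (l : ℕ) (S : Set (X.Φ.V K × X.Φ.V K')) : Prop :=
  ∃ (n : ℕ) (x : Fin n → X.Φ.V K) (x' : Fin n → X.Φ.V K') (I : ℕ → Set (Fin n)),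
    Pos (P l) K K' e e' x x' I ∧ (∀ p ∈ S, ∃ a ∈ I 0, p = (x a, x' a)) ∧ S.ncard + l < X.Q

theorem Inv.symm {P : ℕ → Lv X} {K K' : X.Φ.K} {e : Xp (X.Φ.V K) X.χ X.J}
    {e' : Xp (X.Φ.V K') X.χ X.J} {l : ℕ} {S : Set (X.Φ.V K × X.Φ.V K')}
    (h : Inv P K K' e e' l S) : Inv P K' K e' e l (Prod.swap '' S) := by
  obtain ⟨n, x, x', I, h1, h2, h3⟩ := h
  refine ⟨n, x', x, I, ⟨h1.ch', h1.ch, h1.eqv.symm, fun j hj a ha b d hd =>
    (h1.wr j hj a ha b d hd).symm, fun j hj a ha b i => (h1.f j hj a ha b i).symm,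
    fun a => (h1.col a).symm⟩, ?_, ?_⟩
  · rintro _ ⟨p, hp, rfl⟩
    obtain ⟨a, ha, rfl⟩ := h2 p hp
    exact ⟨a, ha, rfl⟩
  · rwa [ncard_image_of_injective _ Prod.swap_injective]

theorem Chain.game_le {L : Lv X} {K : X.Φ.K} {e : Xp (X.Φ.V K) X.χ X.J} {Z : ℕ → Set (X.Φ.V K)}
    (h : Chain L K e Z) {j j' : ℕ} (hj : j ≤ j') (hj' : j' ≤ L.D) : Z j ⊆ Z j' := by
  induction hj with
  | refl => exact Subset.rfl
  | step _ ih => exact (ih (Nat.le_of_succ_le hj')).trans (h.mono _ hj')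

theorem Chain.game_congr {L : Lv X} {K : X.Φ.K} {e : Xp (X.Φ.V K) X.χ X.J} {Z Z' : ℕ → Set (X.Φ.V K)}
    (h : Chain L K e Z) (hZ : ∀ j ≤ L.D, Z' j = Z j) : Chain L K e Z' := by
  refine ⟨fun j hj => ?_, fun j hj => ?_, fun j hj => ?_, fun j hj => ?_, fun j hj => ?_⟩
  · rw [hZ j hj.le, hZ _ hj]; exact h.mono j hj
  · rw [hZ j hj.le, hZ _ hj]; exact h.wr j hj
  · rw [hZ j hj.le, hZ _ hj]; exact h.f j hj
  · rw [hZ j hj]; exact h.prj j hj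
  · rw [hZ j hj.le, hZ _ hj]; exact h.dom j hj

/-- A map which respects the expansions on a chain gives matched chains. -/
theorem game_pos {P : ℕ → Lv X} (hP : Good P) {K K' : X.Φ.K} {e : Xp (X.Φ.V K) X.χ X.J}
    {e' : Xp (X.Φ.V K') X.χ X.J} {l : ℕ} {Z : ℕ → Set (X.Φ.V K)} (hZ : Chain (P l) K e Z)
    (hn : (Z (P l).D).ncard ≤ (P l).n1) (ψ : X.Φ.V K → X.Φ.V K')
    (h1 : Eqv (X.Φ.R K) (X.Φ.R K') (P l).M (fun b : Z (P l).D => b.1) (fun b => ψ b.1))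
    (h2 : ∀ j < (P l).D, ∀ u ∈ Z j, ∀ d ≤ (P l).Rc, ∀ w', WR (X.Φ.R K').adj e'.pos d (ψ u) w' ↔
      ∃ w, WR (X.Φ.R K).adj e.pos d u w ∧ ψ w = w')
    (h3 : ∀ u ∈ Z (P l).D, ∀ i, e'.f (ψ u) i = (e.f u i).map ψ)
    (h4 : ∀ u ∈ Z (P l).D, e.col u = e'.col (ψ u)) :
    ∃ (n : ℕ) (y : Fin n → X.Φ.V K) (I : ℕ → Set (Fin n)),
      Pos (P l) K K' e e' y (fun a => ψ (y a)) I ∧ ∀ u ∈ Z 0, ∃ a ∈ I 0, y a = u := by
  let g := (Finite.equivFin (Z (P l).D)).symm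
  let y := fun a => (g a).1
  let I := fun j => {a | y a ∈ Z j}
  have hI : ∀ j ≤ (P l).D, y '' I j = Z j := fun j hj => Subset.antisymm
    (by rintro _ ⟨a, ha, rfl⟩; exact ha) fun u hu => by
      have : y (g.symm ⟨u, hZ.game_le hj le_rfl hu⟩) = u := congrArg Subtype.val (g.apply_symm_apply _)
      exact ⟨_, show y _ ∈ Z j by rwa [this], this⟩
  have hI' : ∀ j ≤ (P l).D, ∀ u ∈ Z j, ψ u ∈ (fun a => ψ (y a)) '' I j := fun j hj u hu => by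
    obtain ⟨a, ha, rfl⟩ : u ∈ y '' I j := (hI j hj).symm ▸ hu
    exact ⟨a, ha, rfl⟩
  have inj : ∀ u ∈ Z (P l).D, ∀ w ∈ Z (P l).D, ψ u = ψ w → u = w := fun u hu w hw =>
    (h1.eq_iff ⟨u, hu⟩ ⟨w, hw⟩).2
  have hE : Eqv (X.Φ.R K) (X.Φ.R K') (P l).M y fun a => ψ (y a) := h1.comp g
  have hc := hZ.game_congr hI
  have hr := hP.rk_chain l (Nat.card (Z (P l).D)) (by rwa [Nat.card_coe_set_eq])
  refine ⟨_, y, I, ⟨hc, ⟨fun j hj => image_mono fun a ha => hZ.mono j hj ha, ?_, ?_,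
    fun j hj => (hr _ ∅).1 _ _ _ _ hE (hc.prj j hj), fun j hj => (hr _ _).2 _ _ _ _ hE (hc.dom j hj)⟩,
    hE, fun j hj a ha b d hd => ?_, fun j hj a ha b i => ?_, fun a => h4 _ (g a).2⟩,
    fun u hu => (hI 0 (Nat.zero_le _)).symm.subset hu⟩
  · rintro j hj _ ⟨a, ha, rfl⟩ w' hw
    obtain ⟨w, hw1, rfl⟩ := (h2 j hj _ ha _ le_rfl w').1 hw
    exact hI' _ hj _ (hZ.wr j hj _ ha w hw1)
  · rintro j hj _ ⟨a, ha, rfl⟩ i w' hw
    rw [h3 _ (g a).2, Option.map_eq_some_iff] at hw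
    obtain ⟨w, hw, rfl⟩ := hw
    exact hI' _ hj _ (hZ.f j hj _ ha i w hw)
  · rw [h2 j hj _ ha d hd]
    refine ⟨fun h => ⟨_, h, rfl⟩, fun ⟨w, hw, ew⟩ => ?_⟩
    rwa [← inj w (hZ.game_le hj le_rfl (hZ.wr j hj _ ha w (hw.le hd))) (y b) (g b).2 ew]
  · rw [h3 _ (g a).2, Option.map_eq_some_iff]
    refine ⟨fun h => ⟨_, h, rfl⟩, fun ⟨w, hw, ew⟩ => ?_⟩
    rwa [← inj w (hZ.game_le hj le_rfl (hZ.f j hj _ ha i w hw)) (y b) (g b).2 ew]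

theorem Inv.step (hX : X.Ok) {P : ℕ → Lv X} (hP : Good P) {K K' : X.Φ.K}
    {e : Xp (X.Φ.V K) X.χ X.J} {e' : Xp (X.Φ.V K') X.χ X.J} (he : Rich P K e) (he' : Rich P K' e')
    {l : ℕ} {S : Set (X.Φ.V K × X.Φ.V K')} (h : Inv P K K' e e' (l + 1) S) (v : X.Φ.V K) :
    ∃ v', Inv P K K' e e' l (insert (v, v') S) := by
  obtain ⟨m, x, x', I, hp, hS, hQ⟩ := h
  have hne : Nonempty (X.Φ.V K') := by
    obtain ⟨r, hr, -⟩ := hP.rk_fam (l + 1)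
    have : 0 + 1 ≤ (P (l + 1)).M := le_trans (Nat.mul_pos (by omega) (by omega)) (le_of_add_le_right hr)
    exact ⟨((hp.eqv.le this).move v).choose⟩
  obtain ⟨Zn, U, Y0, j, i, C, _, n, π, Y, hZ, h0, hn, hU, hj, hs, hc, hcov, hdis, hcard⟩ :=
    exists_clusters hX hP he (l := l) (by omega) hp.ch (insert v (Prod.fst '' S))
      ((ncard_insert_le _ _).trans (by have := ncard_image_le (f := Prod.fst) (toFinite S); omega))
  obtain ⟨ψ, E1, E2, E3, -⟩ := transport hX hP he' hne hp hj hs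
    (fun c => ⟨(hc c).1, (hc c).2.2⟩) hdis hcard
  have hRc := hP.Rc_mono l (l + 1) (Nat.le_succ l)
  have far : ∀ w ∈ Y0, w ∈ x '' I (j + 1) → w ∈ x '' I j := fun w hw hw' => by
    by_contra c
    exact hs.far w hw w hw' (.refl c)
  have old : ∀ a, x a ∈ Y0 → x a ∈ x '' I (j + 1) → ψ (x a) = x' a := fun a ha ha' =>
    E2 a (Or.inl ha) fun c hc' => (((hc c).1.nhs_eq _).1 hc').2.lst (far _ ha ha')
  have base : ∀ u ∈ x '' I j, ∀ d ≤ (P (l + 1)).Rc,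
      (∀ w, WR (X.Φ.R K).adj e.pos d u w → w ∈ Y0) → ∀ w', WR (X.Φ.R K').adj e'.pos d (ψ u) w' ↔
        ∃ w, WR (X.Φ.R K).adj e.pos d u w ∧ ψ w = w' := by
    rintro _ ⟨a, ha, rfl⟩ d hd hY w'
    rw [old a (hY _ WR.refl) (hs.sub ⟨a, ha, rfl⟩)]
    constructor
    · intro hw
      obtain ⟨b, hb, rfl⟩ := hp.ch'.wr j hj _ ⟨a, ha, rfl⟩ w' (hw.le hd)
      have := (hp.wr j hj a ha b d hd).2 hw
      exact ⟨_, this, old b (hY _ this) ⟨b, hb, rfl⟩⟩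
    · rintro ⟨w, hw, rfl⟩
      obtain ⟨b, hb, rfl⟩ := hp.ch.wr j hj _ ⟨a, ha, rfl⟩ w (hw.le hd)
      rw [old b (hY _ hw) ⟨b, hb, rfl⟩]
      exact (hp.wr j hj a ha b d hd).1 hw
  have n1 := hP.sg_ge (l + 1) i
  have n2 := hP.sg_S (l + 1) i hs.ilt
  have n3 := hP.m_S (l + 1)
  have sub : Zn (P l).D ⊆ Y0 := hU.trans hs.fix.sub
  have cases : ∀ u ∈ U, (∃ a ∈ I j, x a = u ∧ ψ u = x' a) ∨ ∃ c a, (π c).inn a ∧ Y c a = u := by
    intro u hu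
    by_cases h1 : u ∈ x '' I j
    · obtain ⟨a, ha, rfl⟩ := h1
      exact Or.inl ⟨a, ha, rfl, old a (hs.fix.sub hu) (hs.sub ⟨a, ha, rfl⟩)⟩
    · obtain ⟨c, a, ha, rfl⟩ := hcov u (hs.fix.sub hu) h1
      exact Or.inr ⟨c, a, ((hc c).2.1.inn a).2 ⟨ha, hu⟩, rfl⟩
  refine (game_pos (e' := e') hP hZ hn ψ
    (E1.comp fun b : Zn (P l).D => ⟨b.1, Or.inl (sub b.2)⟩) ?_ ?_ ?_).elim fun n' H => ?_
  rotate_right
  · obtain ⟨y, I', hp', hy⟩ := H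
    refine ⟨ψ v, n', y, _, I', hp', ?_, ?_⟩
    · rintro p (rfl | hp0)
      · obtain ⟨a, ha, rfl⟩ := hy v (h0 (Or.inl rfl))
        exact ⟨a, ha, rfl⟩
      · have h1 := h0 (Or.inr ⟨p, hp0, rfl⟩)
        obtain ⟨b, hb, eb⟩ := hy _ h1
        obtain ⟨a, ha, rfl⟩ := hS p hp0
        refine ⟨b, hb, ?_⟩
        rw [eb, old a (sub (hZ.game_le (Nat.zero_le _) le_rfl h1))
          (hp.ch.game_le (Nat.zero_le _) hj ⟨a, ha, rfl⟩)]
    · have := ncard_insert_le (v, ψ v) S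
      omega
  · intro j' hj' u hu d hd w'
    have hY : ∀ w, WR (X.Φ.R K).adj e.pos d u w → w ∈ Y0 := fun w hw =>
      sub (hZ.game_le hj' le_rfl (hZ.wr j' hj' u hu w (hw.le hd)))
    rcases cases u (hU (hZ.game_le hj'.le le_rfl hu)) with ⟨a, ha, rfl, -⟩ | ⟨c, a, ha, rfl⟩
    · exact base _ ⟨a, ha, rfl⟩ d (hd.trans hRc) hY w'
    have ha' := (((hc c).2.1.inn a).1 ha).1
    have wf := (hc c).1.wf hP he.fine.inj hs ha' (hd.trans hRc) hY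
    have hub : ∀ w d1 d2, (π c).hb w → d1 + 1 + d2 ≤ d →
        Att (X.Φ.R K).adj (fun v => v ∉ hubs (π c).hb (Y c)) d1 (Y c a) (Y c w) →
        (WR (X.Φ.R K').adj e'.pos d2 (ψ (Y c w)) w' ↔
          ∃ z, WR (X.Φ.R K).adj e.pos d2 (Y c w) z ∧ ψ z = w') := fun w d1 d2 hw hn h1 =>
      base _ (((hc c).1.hubs_eq _).1 ⟨w, hw, rfl⟩).1 d2 (by omega)
        (fun z hz => hY z ((wf z).2 (Or.inr ⟨w, d1, d2, hw, hn, h1, hz⟩))) w'
    rw [(E3 c).2.wf ((hc c).1.shape.transfer (E3 c).1 (by omega)) (by omega) ha']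
    constructor
    · rintro (⟨b, hb, rfl, h1⟩ | ⟨w, d1, d2, hw, hn, h1, h2⟩)
      · exact ⟨_, (wf _).2 (Or.inl ⟨b, hb, rfl, h1.transfer (E3 c).1.symm (by omega)⟩), rfl⟩
      · have h3 := (E3 c).1.symm.att (π c).hb (by omega) h1
        obtain ⟨z, hz, rfl⟩ := (hub w d1 d2 hw hn h3).1 h2
        exact ⟨z, (wf z).2 (Or.inr ⟨w, d1, d2, hw, hn, h3, hz⟩), rfl⟩
    · rintro ⟨z, hz, rfl⟩
      rcases (wf z).1 hz with ⟨b, hb, rfl, h1⟩ | ⟨w, d1, d2, hw, hn, h1, h2⟩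
      · exact Or.inl ⟨b, hb, rfl, h1.transfer (E3 c).1 (by omega)⟩
      · exact Or.inr ⟨w, d1, d2, hw, hn, (E3 c).1.att (π c).hb (by omega) h1,
          (hub w d1 d2 hw hn h1).2 ⟨z, h2, rfl⟩⟩
  · intro u hu i'
    rcases cases u (hU hu) with ⟨a, ha, rfl, ea⟩ | ⟨c, a, ha, rfl⟩
    · rw [ea]
      ext w'
      rw [Option.map_eq_some_iff]
      constructor
      · intro hw
        obtain ⟨b, hb, rfl⟩ := hp.ch'.f j hj _ ⟨a, ha, rfl⟩ i' w' hw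
        have := (hp.f j hj a ha b i').2 hw
        exact ⟨_, this, old b (hs.fix.f _ (hU hu) _ _ this) ⟨b, hb, rfl⟩⟩
      · rintro ⟨w, hw, rfl⟩
        obtain ⟨b, hb, rfl⟩ := hp.ch.f j hj _ ⟨a, ha, rfl⟩ i' w hw
        rw [old b (hs.fix.f _ (hU hu) _ _ hw) ⟨b, hb, rfl⟩]
        exact (hp.f j hj a ha b i').1 hw
    · rw [(E3 c).2.ch a i' ha, ← (hc c).2.1.ch a i' ha, Option.map_map]
      rfl
  · intro u hu
    rcases cases u (hU hu) with ⟨a, ha, rfl, ea⟩ | ⟨c, a, ha, rfl⟩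
    · rw [ea, hp.col]
    · rw [(E3 c).2.col a (((hc c).2.1.inn a).1 ha).1, (hc c).2.1.cl a ha]

theorem Inv.pi {P : ℕ → Lv X} (hP : Good P) {K K' : X.Φ.K} {e : Xp (X.Φ.V K) X.χ X.J}
    {e' : Xp (X.Φ.V K') X.χ X.J} {l : ℕ} {S : Set (X.Φ.V K × X.Φ.V K')}
    (h : Inv P K K' e e' l S) : PI (e.rl (X.Φ.R K) X.R).str (e'.rl (X.Φ.R K') X.R).str S := by
  obtain ⟨m, x, x', I, hp, hS, -⟩ := h
  have hD : 0 < (P l).D := lt_of_lt_of_le (Nat.pow_pos (Nat.succ_pos _)) (hP.D_ge l)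
  refine PI_str.2 fun p h1 p' h2 => ?_
  obtain ⟨a, ha, rfl⟩ := hS p h1
  obtain ⟨b, -, rfl⟩ := hS p' h2
  refine ⟨hp.eqv.eq_iff a b, ?_⟩
  rintro (r | d | c | i)
  · exact hp.eqv.rel r a b
  · exact hp.wr 0 hD a ha b d
      ((Nat.lt_succ_iff.1 d.2).trans (hP.R_le.trans (hP.Rc_mono 0 l (Nat.zero_le l))))
  · exact and_congr (hp.eqv.eq_iff a b) (by rw [hp.col a])
  · exact hp.f 0 hD a ha b i

/-- Every tuple has `T` copies in different components. -/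
def Abund {V : Type} (A : Rl σ V) (T : ℕ) : Prop :=
  ∀ (n m : ℕ) (Y : Fin (n + 1) → V), ∃ Ys : Fin T → Fin (n + 1) → V, (∀ a, Eqv A A m Y (Ys a)) ∧
    ∀ a b, a ≠ b → ∀ d, ¬ Wk A.adj (fun _ => True) d (Ys a 0) (Ys b 0)

theorem abundant (hX : X.Ok) {q : ℕ} (hQ : X.Q = q + 1) : ∃ m T, ∀ K K',
    Abund (X.Φ.R K) T → Abund (X.Φ.R K') T → EF (X.Φ.R K).str (X.Φ.R K').str m ∅ →
    ∃ e e', X.Fine K e ∧ X.Fine K' e' ∧
      EF (e.rl (X.Φ.R K) X.R).str (e'.rl (X.Φ.R K') X.R).str q ∅ := by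
  obtain ⟨P, hP⟩ := exists_good hX
  refine ⟨(P q).M, 2 * (P q).Th, fun K K' hA hA' h => ?_⟩
  obtain ⟨e, he⟩ := exists_rich hX hP K
  obtain ⟨e', he'⟩ := exists_rich hX hP K'
  have ch : ∀ K (e : Xp (X.Φ.V K) X.χ X.J) (x : Fin 0 → X.Φ.V K), Abund (X.Φ.R K) (2 * (P q).Th) →
      Chain (P q) K e fun _ => x '' ∅ := fun K e x hA => by
    simp only [image_empty]
    refine ⟨fun _ _ => Subset.rfl, fun _ _ _ h => h.elim, fun _ _ _ h => h.elim,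
      fun _ _ v _ => by simp, fun _ _ i _ n _ hb Y0 hY => Or.inl ?_⟩
    obtain ⟨Ys, h1, h2⟩ := hA n (P q).m Y0
    exact ⟨Ys, fun a => ⟨⟨fun u hu => (hY u hu).elim, h1 a⟩, trivial⟩,
      fun a b hab hw => h2 a b hab _ (hw.mono fun _ _ => trivial)⟩
  refine ⟨e, e', he.fine, he'.fine, EF.of_inv (Inv P K K' e e') (fun _ _ h => h.pi hP)
    (fun l S h a _ => ?_) (fun l S h b _ => ?_) q ∅ ⟨0, Fin.elim0, Fin.elim0, fun _ => ∅,
      ⟨ch K e _ hA, ch K' e' _ hA', eqv_empty.2 h, fun _ _ a => a.elim0, fun _ _ a => a.elim0,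
        fun a => a.elim0⟩, fun _ h => h.elim, by simp [hQ]⟩⟩
  · obtain ⟨b, hb⟩ := h.step hX hP he he' a
    exact ⟨b, trivial, hb⟩
  · obtain ⟨a, ha⟩ := h.symm.step hX hP he' he b
    refine ⟨a, trivial, ?_⟩
    simpa [image_insert_eq, image_image] using ha.symm

end Pool.Agent.Work.MP_b730b2_lc.Full
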