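import Pool.Agent.Work.MP_b730b2_lc.Full.Df

/-! The abstract geometry of views, the marks and the order they define. -/

namespace Pool.Agent.Work.MP_b730b2_lc.Full

open Set

variable {σ0 σ1 : Type}

/-- The data of a geometry on a family. -/
structure Geo (Φ : Fam σ1) where
  View : Type
  lin : LinearOrder View
  finV : Finite View
  Λ : Type
  finΛ : Finite Λ
  el : Λ → ℕ
  W : ℕ
  bt : ∀ K, Φ.V K → ℕ
  lab : ∀ K, Φ.V K → Λ
  anc : ∀ K, Φ.V K → ℕ → Φ.V K
  ps : ∀ K, Φ.V K → Φ.V K → ℕ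
  dom : ∀ K, View → Φ.V K → Prop
  it : ∀ K, View → Φ.V K → Φ.V K
  ow : ∀ K, View → Φ.V K → Φ.V K
  bot : ∀ K, Φ.V K

variable {Φ : Fam σ1}

instance Geo.instLin (G : Geo Φ) : LinearOrder G.View := G.lin
instance Geo.instFinV (G : Geo Φ) : Finite G.View := G.finV
instance Geo.instFinL (G : Geo Φ) : Finite G.Λ := G.finΛ

namespace Geo

variable (G : Geo Φ) (ι : σ0 → σ1)

/-- A region with labels, further unary data `P`, a relation `lt` and the basic relations. -/
def Reg {Ξ : Type} (K : Φ.K) (lt : Φ.V K → Φ.V K → Prop) (P : Φ.V K → Ξ) (S : Set (Φ.V K)) :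
    Str (G.Λ × Ξ) (Option σ0) (Φ.V K) where
  dom := S
  U c x := G.lab K x = c.1 ∧ P x = c.2
  R r := r.elim lt fun r => Φ.R K (ι r)

/-- The relation compares labels first. -/
def LM (K : Φ.K) (lt : Φ.V K → Φ.V K → Prop) : Prop :=
  (∀ x, ¬ lt x x) ∧ ∀ x y, G.lab K x ≠ G.lab K y → (lt x y ↔ G.el (G.lab K x) < G.el (G.lab K y))

/-- The instance of a view with owner `o`. -/
def Inst (K : Φ.K) (v : G.View) (o : Φ.V K) : Set (Φ.V K) := {x | G.dom K v x ∧ G.ow K v x = o}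

/-- The item `u` of a view. -/
def Item (K : Φ.K) (v : G.View) (u : Φ.V K) : Set (Φ.V K) := {x | G.dom K v x ∧ G.it K v x = u}

/-- The items of an instance. -/
def Items (K : Φ.K) (v : G.View) (o : Φ.V K) : Set (Φ.V K) :=
  {u | ∃ x, G.dom K v x ∧ G.ow K v x = o ∧ G.it K v x = u}

/-- The axioms of a geometry. -/
structure Ok (q : ℕ) : Prop where
  el_inj : Function.Injective G.el
  bt_inj : ∀ K, Function.Injective (G.bt K)
  df_lab : ∀ c, D1 Φ (fun K x => G.lab K x = c)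
  df_it : ∀ v, D2 Φ (fun K x u => G.dom K v x ∧ G.it K v x = u)
  df_ow : ∀ v, D2 Φ (fun K x u => G.dom K v x ∧ G.ow K v x = u)
  df_bot : D1 Φ (fun K x => x = G.bot K)
  inv_dom : ∀ K K' x x' v, G.lab K x = G.lab K' x' → G.dom K v x → G.dom K' v x'
  inv_it : ∀ K K' x x' v, G.lab K x = G.lab K' x' → G.dom K v x →
    G.ps K x (G.it K v x) = G.ps K' x' (G.it K' v x')
  inv_ow : ∀ K K' x x' v, G.lab K x = G.lab K' x' → G.dom K v x →
    G.ps K x (G.ow K v x) = G.ps K' x' (G.ow K' v x')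
  inv_self : ∀ K K' x x', G.lab K x = G.lab K' x' → G.ps K x x = G.ps K' x' x'
  anc_top : ∀ K x, G.anc K x G.W = x
  anc_det : ∀ K x y p p', G.lab K x = G.lab K y → G.anc K x p = G.anc K y p → p' ≤ p →
    G.anc K x p' = G.anc K y p'
  anc_it : ∀ K v x, G.dom K v x → G.anc K x (G.ps K x (G.it K v x)) = G.it K v x
  anc_ow : ∀ K v x, G.dom K v x → G.anc K x (G.ps K x (G.ow K v x)) = G.ow K v x
  ow_lt : ∀ K v x, G.dom K v x → G.ps K x (G.ow K v x) < G.ps K x (G.it K v x)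
  cross_ow : ∀ K v v' x, v' < v → G.dom K v x → G.dom K v' x →
    G.ps K x (G.ow K v x) < G.ps K x (G.ow K v' x) → G.ps K x (G.it K v x) ≤ G.ps K x (G.ow K v' x)
  cross_it : ∀ K v v' x, v' < v → G.dom K v x → G.dom K v' x →
    G.ps K x (G.ow K v x) < G.ps K x (G.it K v' x) → G.ps K x (G.it K v x) ≤ G.ps K x (G.it K v' x)
  item_det : ∀ K v x y, G.dom K v x → G.dom K v y → G.it K v x = G.it K v y →
    G.ow K v x = G.ow K v y
  nonadj : ∀ K v x y r, G.dom K v x → G.dom K v y → Φ.R K (ι r) x y → G.it K v x = G.it K v y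
  item_adj : ∀ K v x, G.dom K v x → (Φ.R K).adj (G.ow K v x) (G.it K v x)
  item : ∀ (Ξ : Type) K K' lt lt' (P : Φ.V K → Ξ) (P' : Φ.V K' → Ξ) v u u', G.LM K lt →
    G.LM K' lt' → G.lab K u = G.lab K' u' → P u = P' u' →
    (∀ v' < v, EF (G.Reg ι K lt P (G.Inst K v' u)) (G.Reg ι K' lt' P' (G.Inst K' v' u')) q ∅) →
    EF (G.Reg ι K lt P (G.Item K v u)) (G.Reg ι K' lt' P' (G.Item K' v u')) q ∅
  root : ∀ (Ξ : Type) K K' lt lt' (P : Φ.V K → Ξ) (P' : Φ.V K' → Ξ), G.LM K lt → G.LM K' lt' →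
    G.lab K (G.bot K) = G.lab K' (G.bot K') → P (G.bot K) = P' (G.bot K') →
    (∀ v, EF (G.Reg ι K lt P (G.Inst K v (G.bot K)))
      (G.Reg ι K' lt' P' (G.Inst K' v (G.bot K'))) q ∅) →
    EF (G.Reg ι K lt P univ) (G.Reg ι K' lt' P' univ) q ∅

open Classical in
/-- The marks of the views in `U` whose owner is before the ancestor `u`. -/
noncomputable def LK (K : Φ.K) (μ : G.View → Φ.V K → ℤ) (U : Set G.View) (u x : Φ.V K) :
    G.View → ℤ :=
  fun v => if v ∈ U ∧ G.dom K v x ∧ G.ps K x (G.ow K v x) < G.ps K x u then μ v x else 0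

/-- The cell of a point for a view. -/
noncomputable def cell (K : Φ.K) (μ : G.View → Φ.V K → ℤ) (v : G.View) (x : Φ.V K) :
    G.Λ × (G.View → ℤ) := (G.lab K x, G.LK K μ (Iio v) (G.it K v x) x)

/-- Marks only depend on the item and the cell. -/
def Coh (K : Φ.K) (μ : G.View → Φ.V K → ℤ) (U : Set G.View) : Prop :=
  ∀ v ∈ U, ∀ x y, G.dom K v x → G.dom K v y → G.it K v x = G.it K v y →
    G.cell K μ v x = G.cell K μ v y → μ v x = μ v y

open Classical in
/-- The sorting key. -/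
noncomputable def key (K : Φ.K) (μ : G.View → Φ.V K → ℤ) (x : Φ.V K) :
    ℕ ×ₗ WithBot G.View → ℤ := fun i =>
  (ofLex i).2.recBotCoe (G.bt K (G.anc K x (ofLex i).1) : ℤ) fun v =>
    if G.dom K v x ∧ G.ps K x (G.ow K v x) = (ofLex i).1 then μ v x else 0

/-- The order defined by the marks. -/
def lt (K : Φ.K) (μ : G.View → Φ.V K → ℤ) (x y : Φ.V K) : Prop :=
  G.el (G.lab K x) < G.el (G.lab K y) ∨ (G.lab K x = G.lab K y ∧
    ∃ i, (∀ j < i, G.key K μ x j = G.key K μ y j) ∧ G.key K μ x i < G.key K μ y i)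

end Geo

/-- The basic relations with the order given by a rank function. -/
def OStr {V : Type} (A : Rl σ1 V) (ι : σ0 → σ1) (pos : V → ℕ) : Str Empty (Option σ0) V where
  dom := univ
  U e := e.elim
  R r := r.elim (fun x y => pos x < pos y) fun r => A (ι r)

end Pool.Agent.Work.MP_b730b2_lc.Full
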