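import Pool.Agent.Work.MP_b730b2_lc.Full.GeoDef

/-! Order-theoretic facts about centres, lists and ancestors.

Hints. `WR.both` compares two weak ancestors. `Dn` is a function of `e` (strict monotonicity of the
count, `B.inj`), it is defined for all `e` up to any attained value, and between `Dn e` and
`Dn (e+1)` there is no element of the list. Items and owners of `x` are weakly `(D + r)`-reachable
from `x` (`WR.trans`), `D + r ≤ ρ.s`, and on such vertices `ps x` is strictly monotone in `pos`.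
`cross`: an end point `z` of the earlier view `v'` is weakly `(D + r')`-reachable from `x`; if it is below
the item of `v` it is below the centre `s` of `v`, so weakly `(2 D + r')`-reachable from `s`, and
`2 D + r' ≤ r` unless the nodes are equal, in which case the centres agree (`Cen.unique`).
`anc_det`: reduce to `p, p' ≤ W` (`anc x p = x` for `p ≥ W`); `anc x` is monotone, so
`Dn (2 s) (anc x p) e (anc x p')` for some `e ≤ W`; use `LInv.code` and `Dn.unique`. -/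

namespace Pool.Agent.Work.MP_b730b2_lc.Full

open Set

namespace BaseK

variable {σ : Type} {k χ R0 R W : ℕ} {B : BaseK σ k χ R0 R W} {ρ : Rad χ} {v v' : Vw χ W}
  {x y s s' t u u' o o' : B.V} {c : Fin χ} {d e : ℕ}

theorem geoA_up_lt {S : B.V → Prop} (h' : S u') (h : B.pos u < B.pos u') :
    {z | S z ∧ B.pos u' < B.pos z}.ncard < {z | S z ∧ B.pos u < B.pos z}.ncard :=
  ncard_lt_ncard ⟨fun _ hz => ⟨hz.1, h.trans hz.2⟩, fun hs => lt_irrefl _ (hs ⟨h', h⟩).2⟩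
    (toFinite _)

theorem geoA_dn_lt {S : B.V → Prop} (h' : S u) (h : B.pos u < B.pos u') :
    {z | S z ∧ B.pos z < B.pos u}.ncard < {z | S z ∧ B.pos z < B.pos u'}.ncard :=
  ncard_lt_ncard ⟨fun _ hz => ⟨hz.1, hz.2.trans h⟩, fun hs => lt_irrefl _ (hs ⟨h', h⟩).2⟩
    (toFinite _)

theorem geoA_ps_lt (h' : WR B.A.adj B.pos ρ.s x u) (h : B.pos u < B.pos u') :
    B.ps ρ x u < B.ps ρ x u' := geoA_dn_lt (S := fun z => WR B.A.adj B.pos ρ.s x z) h' h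

theorem geoA_ps_le (h : B.pos u ≤ B.pos u') : B.ps ρ x u ≤ B.ps ρ x u' :=
  ncard_le_ncard (fun _ hz => ⟨hz.1, hz.2.trans_le h⟩) (toFinite _)

theorem geoA_pos_lt (h : B.ps ρ x u < B.ps ρ x u') : B.pos u < B.pos u' :=
  lt_of_not_ge fun h' => absurd (geoA_ps_le (ρ := ρ) (x := x) h') (not_le.2 h)

theorem geoA_lt_iff {e' : ℕ} (h : B.Dn d s e u) (h' : B.Dn d s e' u') :
    B.pos u < B.pos u' ↔ e' < e := by
  refine ⟨fun hl => ?_, fun hl => ?_⟩
  · rw [← h.2, ← h'.2]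
    exact geoA_up_lt (S := fun z => WR B.A.adj B.pos d s z) h'.1 hl
  · by_contra hc
    have : e ≤ e' := by
      rw [← h.2, ← h'.2]
      exact ncard_le_ncard (fun _ hz => ⟨hz.1, (not_lt.1 hc).trans_lt hz.2⟩) (toFinite _)
    omega

theorem geoA_dn_pred {S : B.V → Prop} {p : ℕ}
    (h : {z | S z ∧ B.pos z < B.pos u}.ncard = p + 1) :
    ∃ u', S u' ∧ {z | S z ∧ B.pos z < B.pos u'}.ncard = p := by
  obtain ⟨w, hw, hm⟩ := exists_max_image {z | S z ∧ B.pos z < B.pos u} B.pos (toFinite _)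
    (nonempty_of_ncard_ne_zero (by omega))
  refine ⟨w, hw.1, ?_⟩
  have : {z | S z ∧ B.pos z < B.pos w} = {z | S z ∧ B.pos z < B.pos u} \ {w} := by
    ext z
    refine ⟨fun hz => ⟨⟨hz.1, hz.2.trans hw.2⟩, fun e => ?_⟩, fun hz => ⟨hz.1.1, ?_⟩⟩
    · rw [mem_singleton_iff.1 e] at hz; exact lt_irrefl _ hz.2
    · exact lt_of_le_of_ne (hm z hz.1) fun e => hz.2 (B.inj e)
  rw [this, ncard_sdiff_singleton_of_mem hw, h]
  rfl

theorem geoA_up_pred {S : B.V → Prop} {p : ℕ}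
    (h : {z | S z ∧ B.pos u < B.pos z}.ncard = p + 1) :
    ∃ u', S u' ∧ {z | S z ∧ B.pos u' < B.pos z}.ncard = p := by
  obtain ⟨w, hw, hm⟩ := exists_min_image {z | S z ∧ B.pos u < B.pos z} B.pos (toFinite _)
    (nonempty_of_ncard_ne_zero (by omega))
  refine ⟨w, hw.1, ?_⟩
  have : {z | S z ∧ B.pos w < B.pos z} = {z | S z ∧ B.pos u < B.pos z} \ {w} := by
    ext z
    refine ⟨fun hz => ⟨⟨hz.1, hw.2.trans hz.2⟩, fun e => ?_⟩, fun hz => ⟨hz.1.1, ?_⟩⟩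
    · rw [mem_singleton_iff.1 e] at hz; exact lt_irrefl _ hz.2
    · exact lt_of_le_of_ne (hm z hz.1) fun e => hz.2 (B.inj e).symm
  rw [this, ncard_sdiff_singleton_of_mem hw, h]
  rfl

theorem geoA_ps_exists {p p' : ℕ} (h : ∃ u, WR B.A.adj B.pos ρ.s x u ∧ B.ps ρ x u = p)
    (hp : p' ≤ p) : ∃ u, WR B.A.adj B.pos ρ.s x u ∧ B.ps ρ x u = p' := by
  induction hp with
  | refl => exact h
  | step _ ih =>
    obtain ⟨u, -, h2⟩ := h
    exact ih (geoA_dn_pred (S := fun z => WR B.A.adj B.pos ρ.s x z) h2)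

theorem geoA_anc_WR (x : B.V) (p : ℕ) : WR B.A.adj B.pos ρ.s x (B.anc ρ x p) := by
  unfold anc
  split_ifs with h
  · exact h.choose_spec.1
  · exact WR.refl

theorem geoA_ps_anc {p : ℕ} (h : ∃ u, WR B.A.adj B.pos ρ.s x u ∧ B.ps ρ x u = p) :
    B.ps ρ x (B.anc ρ x p) = p := by
  unfold anc
  rw [dif_pos h]
  exact h.choose_spec.2

theorem geoA_anc_ps (h : WR B.A.adj B.pos ρ.s x u) : B.anc ρ x (B.ps ρ x u) = u := by
  have h1 := geoA_ps_anc (ρ := ρ) ⟨u, h, rfl⟩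
  have h2 := geoA_anc_WR (ρ := ρ) x (B.ps ρ x u)
  apply B.inj
  rcases lt_trichotomy (B.pos (B.anc ρ x (B.ps ρ x u))) (B.pos u) with h3 | h3 | h3
  · exact absurd (geoA_ps_lt h2 h3) (by omega)
  · exact h3
  · exact absurd (geoA_ps_lt h h3) (by omega)

theorem geoA_anc_mono (x : B.V) {p p' : ℕ} (hp : p' ≤ p) :
    B.pos (B.anc ρ x p') ≤ B.pos (B.anc ρ x p) := by
  by_cases h : ∃ u, WR B.A.adj B.pos ρ.s x u ∧ B.ps ρ x u = p
  · have h1 := geoA_ps_anc h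
    have h2 := geoA_ps_anc (geoA_ps_exists h hp)
    by_contra hc
    have := geoA_ps_lt (geoA_anc_WR (ρ := ρ) x p) (not_le.1 hc)
    omega
  · have : B.anc ρ x p = x := by unfold anc; rw [dif_neg h]
    rw [this]
    exact (geoA_anc_WR x p').pos_le

theorem geoA_anc_ge (hR : 4 * ρ.s ≤ R) (x : B.V) {p : ℕ} (hp : W ≤ p) : B.anc ρ x p = x := by
  unfold anc
  rw [dif_neg]
  rintro ⟨u, h1, h2⟩
  have h3 := B.bd ρ.s (by omega) x
  have h4 : B.ps ρ x u < {u | WR B.A.adj B.pos ρ.s x u}.ncard :=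
    ncard_lt_ncard ⟨fun _ hz => hz.1, fun hs => lt_irrefl _ (hs h1).2⟩ (toFinite _)
  omega

theorem geoA_rad (a : Nd χ) : ρ.D + ρ.r a ≤ ρ.s := by
  have := Nat.mul_le_mul_left (2 * ρ.D) (Nat.add_le_add_right (ρ.rk_le a) 1)
  unfold Rad.r Rad.s
  omega

theorem geoA_VR_WR (h : B.VR ρ v x u o) :
    WR B.A.adj B.pos ρ.s x u ∧ WR B.A.adj B.pos ρ.s x o ∧ B.pos o < B.pos u := by
  obtain ⟨c', c, ν, s, t, -, h1, -, -, -, -, -, -, h2, h3⟩ := h
  exact ⟨(h1.1.trans h2.1).le (geoA_rad _), (h1.1.trans h3.1).le (geoA_rad _),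
    (geoA_lt_iff h3 h2).2 (Nat.lt_succ_self _)⟩

theorem geoA_Chn_mem : ∀ {ν : List (Fin χ)} {s : B.V}, B.Chn ρ ν x s → ∀ c ∈ ν,
    ∃ t, B.Cen ρ c x t ∧ B.pos t < B.pos s
  | [], _, _, _, hc => absurd hc List.not_mem_nil
  | _ :: ν, _, ⟨t, h1, h2, h3⟩, c, hc => by
    rcases List.mem_cons.1 hc with rfl | hc
    · exact ⟨t, h1, h2⟩
    · obtain ⟨t', h4, h5⟩ := geoA_Chn_mem h3 c hc
      exact ⟨t', h4, h5.trans h2⟩

theorem Dn.unique (h : B.Dn d s e u) (h' : B.Dn d s e u') : u = u' := by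
  have h1 := geoA_lt_iff h h'
  have h2 := geoA_lt_iff h' h
  exact B.inj (by omega)

theorem Dn.zero (B : BaseK σ k χ R0 R W) (d : ℕ) (s : B.V) : B.Dn d s 0 s := by
  refine ⟨WR.refl, ?_⟩
  rw [ncard_eq_zero (toFinite _), eq_empty_iff_forall_notMem]
  exact fun z hz => absurd hz.1.pos_le (not_le.2 hz.2)

theorem Dn.exists_le (h : B.Dn d s e u) {e' : ℕ} (he : e' ≤ e) : ∃ u', B.Dn d s e' u' := by
  induction he generalizing u with
  | refl => exact ⟨u, h⟩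
  | step _ ih =>
    obtain ⟨w, hw⟩ := geoA_up_pred (S := fun z => WR B.A.adj B.pos d s z) h.2
    exact ih hw

theorem Dn.lt_iff {e' : ℕ} (h : B.Dn d s e u) (h' : B.Dn d s e' u') :
    B.pos u < B.pos u' ↔ e' < e := by
  exact geoA_lt_iff h h'

theorem exists_Dn (hd : d ≤ R) (h : WR B.A.adj B.pos d s u) : ∃ e < W, B.Dn d s e u := by
  refine ⟨_, lt_of_lt_of_le ?_ (B.bd d hd s), h, rfl⟩
  exact ncard_lt_ncard ⟨fun _ hz => hz.1, fun hs => lt_irrefl _ (hs h).2⟩ (toFinite _)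

theorem Cen.unique (h0 : 2 * ρ.D + 1 ≤ R0) (h : B.Cen ρ c x s) (h' : B.Cen ρ c x s') : s = s' := by
  by_contra hne
  rcases le_total (B.pos s') (B.pos s) with hl | hl
  · exact B.prop s s' ((WR.both B.A.adj_symm h.1 h'.1 hl).le (by omega)) (Ne.symm hne)
      (h'.2.trans h.2.symm)
  · exact B.prop s' s ((WR.both B.A.adj_symm h'.1 h.1 hl).le (by omega)) hne
      (h.2.trans h'.2.symm)

theorem Cen.adj (h0 : 2 * ρ.D + 1 ≤ R0) (h : B.Cen ρ c x s) (h' : B.Cen ρ c y s')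
    (e : B.A.adj x y) : s = s' := by
  have key : ∀ {x y s s' : B.V}, B.Cen ρ c x s → B.Cen ρ c y s' → B.A.adj x y →
      B.pos s' ≤ B.pos s → s = s' := by
    intro x y s s' h h' e hl
    by_contra hne
    have w : WR B.A.adj B.pos (ρ.D + (ρ.D + 1)) s s' :=
      Wk.trans (Wk.mono (Wk.symm B.A.adj_symm h.1) fun _ hv => hl.trans hv)
        (Wk.head (hl.trans h.1.pos_le) e h'.1)
    exact B.prop s s' (w.le (by omega)) (Ne.symm hne) (h'.2.trans h.2.symm)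
  rcases le_total (B.pos s') (B.pos s) with hl | hl
  · exact key h h' e hl
  · exact (key h' h (B.A.adj_symm _ _ e) hl).symm

theorem Chn.length_le (h0 : 2 * ρ.D + 1 ≤ R0) {ν : List (Fin χ)} (h : B.Cen ρ c x s)
    (h' : B.Chn ρ ν x s) : (c :: ν).length ≤ χ := by
  have key : ∀ (ν : List (Fin χ)) (c : Fin χ) (s : B.V), B.Cen ρ c x s → B.Chn ρ ν x s →
      (c :: ν).Nodup := by
    intro ν
    induction ν with
    | nil => intro c _ _ _; exact List.nodup_singleton c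
    | cons c' ν ih =>
      intro c s h h'
      refine List.nodup_cons.2 ⟨fun hc => ?_, ?_⟩
      · obtain ⟨t, h1, h2⟩ := geoA_Chn_mem h' c hc
        rw [Cen.unique h0 h1 h] at h2
        exact lt_irrefl _ h2
      · obtain ⟨t, h1, -, h3⟩ := h'
        exact ih c' t h1 h3
  simpa using (key ν c s h h').length_le_card

theorem VR.unique (h0 : 2 * ρ.D + 1 ≤ R0) (h : B.VR ρ v x u o) (h' : B.VR ρ v x u' o') :
    u = u' ∧ o = o' := by
  obtain ⟨c1, c2, ν, s, t, e1, h1, -, -, -, -, -, -, h2, h3⟩ := h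
  obtain ⟨c1', c2', ν', s', t', e1', h1', -, -, -, -, -, -, h2', h3'⟩ := h'
  obtain rfl : c1 = c1' := (List.cons.inj (e1.symm.trans e1')).1
  obtain rfl := Cen.unique h0 h1 h1'
  exact ⟨h2.unique h2', h3.unique h3'⟩

theorem anc_top (hR : 4 * ρ.s ≤ R) (x : B.V) : B.anc ρ x W = x := by
  exact geoA_anc_ge hR x le_rfl

theorem anc_det (hR : 4 * ρ.s ≤ R) (h : LInv ρ B B x y) {p p' : ℕ}
    (e : B.anc ρ x p = B.anc ρ y p) (hp : p' ≤ p) : B.anc ρ x p' = B.anc ρ y p' := by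
  have key : ∀ p ≤ W, p' ≤ p → B.anc ρ x p = B.anc ρ y p → B.anc ρ x p' = B.anc ρ y p' := by
    intro p hW hp e
    have w := WR.both B.A.adj_symm (geoA_anc_WR (ρ := ρ) x p) (geoA_anc_WR (ρ := ρ) x p')
      (geoA_anc_mono x hp)
    obtain ⟨n, hn, hD⟩ := exists_Dn (d := 2 * ρ.s) (by omega) (w.le (by omega))
    have := h.code p hW p' (hp.trans hW) n hn.le hD
    rw [← e] at this
    exact hD.unique this
  rcases le_total p W with hW | hW
  · exact key p hW hp e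
  · rw [geoA_anc_ge hR x hW, geoA_anc_ge hR y hW] at e
    rcases le_total p' W with hW' | hW'
    · exact key W le_rfl hW' (by rw [anc_top hR, anc_top hR, e])
    · rw [geoA_anc_ge hR x hW', geoA_anc_ge hR y hW', e]

theorem anc_it (h : B.dom ρ v x) : B.anc ρ x (B.ps ρ x (B.it ρ v x)) = B.it ρ v x := by
  exact geoA_anc_ps (geoA_VR_WR (B.VR_it_ow ρ h)).1

theorem anc_ow (h : B.dom ρ v x) : B.anc ρ x (B.ps ρ x (B.ow ρ v x)) = B.ow ρ v x := by
  exact geoA_anc_ps (geoA_VR_WR (B.VR_it_ow ρ h)).2.1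

theorem ow_lt (h : B.dom ρ v x) : B.ps ρ x (B.ow ρ v x) < B.ps ρ x (B.it ρ v x) := by
  exact geoA_ps_lt (geoA_VR_WR (B.VR_it_ow ρ h)).2.1 (geoA_VR_WR (B.VR_it_ow ρ h)).2.2

theorem geoA_cross (h0 : 2 * ρ.D + 1 ≤ R0) (hv : ρ.rk v'.nd ≤ ρ.rk v.nd) (h : B.VR ρ v x u o)
    {ν : List (Fin χ)} {z : B.V} (e' : v'.nd.1 = c :: ν) (h1' : B.Cen ρ c x s')
    (hz : WR B.A.adj B.pos (ρ.r v'.nd) s' z) (hp : B.ps ρ x o < B.ps ρ x z) :
    B.ps ρ x u ≤ B.ps ρ x z := by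
  by_contra hc
  have p1 := geoA_pos_lt hp
  have p2 := geoA_pos_lt (not_le.1 hc)
  obtain ⟨c1, c2, ν', s, t, e1, h1, -, -, -, -, -, -, h2, h3⟩ := h
  have w : WR B.A.adj B.pos (ρ.r v.nd) s z := by
    rcases hv.eq_or_lt with hv | hv
    · have e2 := ρ.rk_inj hv
      rw [e2] at e' hz
      obtain rfl : c1 = c := (List.cons.inj (e1.symm.trans e')).1
      obtain rfl := Cen.unique h0 h1 h1'
      exact hz
    · refine (WR.both B.A.adj_symm h1.1 (h1'.1.trans hz) (p2.le.trans h2.1.pos_le)).le ?_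
      have := Nat.mul_le_mul_left (2 * ρ.D) (show ρ.rk v'.nd + 1 + 1 ≤ ρ.rk v.nd + 1 by omega)
      unfold Rad.r
      rw [Nat.mul_add _ _ 1] at this
      omega
  have hD : B.Dn (ρ.r v.nd) s _ z := ⟨w, rfl⟩
  have a := (geoA_lt_iff h3 hD).1 p1
  have b := (geoA_lt_iff hD h2).1 p2
  omega

theorem cross_ow (h0 : 2 * ρ.D + 1 ≤ R0) (hv : ρ.rk v'.nd ≤ ρ.rk v.nd) (h : B.dom ρ v x)
    (h' : B.dom ρ v' x) (hp : B.ps ρ x (B.ow ρ v x) < B.ps ρ x (B.ow ρ v' x)) :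
    B.ps ρ x (B.it ρ v x) ≤ B.ps ρ x (B.ow ρ v' x) := by
  obtain ⟨c1, c2, ν, s', t, e1, h1, -, -, -, -, -, -, h2, h3⟩ := B.VR_it_ow ρ h'
  exact geoA_cross h0 hv (B.VR_it_ow ρ h) e1 h1 h3.1 hp

theorem cross_it (h0 : 2 * ρ.D + 1 ≤ R0) (hv : ρ.rk v'.nd ≤ ρ.rk v.nd) (h : B.dom ρ v x)
    (h' : B.dom ρ v' x) (hp : B.ps ρ x (B.ow ρ v x) < B.ps ρ x (B.it ρ v' x)) :
    B.ps ρ x (B.it ρ v x) ≤ B.ps ρ x (B.it ρ v' x) := by
  obtain ⟨c1, c2, ν, s', t, e1, h1, -, -, -, -, -, -, h2, h3⟩ := B.VR_it_ow ρ h'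
  exact geoA_cross h0 hv (B.VR_it_ow ρ h) e1 h1 h2.1 hp

theorem item_det (h : B.dom ρ v x) (h' : B.dom ρ v y) (e : B.it ρ v x = B.it ρ v y) :
    B.ow ρ v x = B.ow ρ v y := by
  obtain ⟨c1, c2, ν, s, t, -, -, -, -, -, -, h1, h2, h3, h4⟩ := B.VR_it_ow ρ h
  obtain ⟨c1', c2', ν', s', t', -, -, -, -, -, -, h1', -, h3', h4'⟩ := B.VR_it_ow ρ h'
  have a := h1 v.e h2 _ _ h3 h4
  have b := h1' v.e h2 _ _ h3' h4'
  rw [← e] at b
  exact a.unique b

theorem nonadj (h0 : 2 * ρ.D + 1 ≤ R0) (h : B.dom ρ v x) (h' : B.dom ρ v y) {r : σ}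
    (e : B.A r x y) : B.it ρ v x = B.it ρ v y := by
  by_cases hxy : x = y
  · rw [hxy]
  obtain ⟨c1, c2, ν, s, t, e1, h1, -, -, -, -, -, -, h2, -⟩ := B.VR_it_ow ρ h
  obtain ⟨c1', c2', ν', s', t', e1', h1', -, -, -, -, -, -, h2', -⟩ := B.VR_it_ow ρ h'
  obtain rfl : c1 = c1' := (List.cons.inj (e1.symm.trans e1')).1
  obtain rfl := Cen.adj h0 h1 h1' ⟨hxy, r, Or.inl e⟩
  exact h2.unique h2'

theorem item_adj (hR : 4 * ρ.s ≤ R) (h : B.dom ρ v x) : B.rl.adj (B.ow ρ v x) (B.it ρ v x) := by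
  have hlt := (geoA_VR_WR (B.VR_it_ow ρ h)).2.2
  obtain ⟨c1, c2, ν, s, t, -, -, -, -, -, -, h1, h2, h3, h4⟩ := B.VR_it_ow ρ h
  have a := (h1 v.e h2 _ _ h3 h4).1
  have := geoA_rad (ρ := ρ) v.nd
  refine ⟨fun e => by rw [e] at hlt; exact lt_irrefl _ hlt,
    Sum.inr (Sum.inl ⟨R, Nat.lt_succ_self R⟩), Or.inr ?_⟩
  exact a.le (by show _ ≤ R; omega)

end BaseK

end Pool.Agent.Work.MP_b730b2_lc.Full
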