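import Pool.Agent.Work.MP_b730b2_lc.Full.GeoA

/-! Definability of the geometry. -/

namespace Pool.Agent.Work.MP_b730b2_lc.Full

open Set

theorem gb_wk {σ : Type} {Φ : Fam σ} {adj : ∀ k, Φ.V k → Φ.V k → Prop} (ha : D2 Φ adj) (n : ℕ) :
    ∀ {α : Type} {P : ∀ k, (α → Φ.V k) → Φ.V k → Prop},
    Df Φ (fun k (y : Option α → Φ.V k) => P k (fun a => y (some a)) (y none)) → ∀ a b : α,
    Df Φ (fun k x => Wk (adj k) (P k x) n (x a) (x b)) := by
  induction n with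
  | zero =>
    intro α P h a b
    exact ((Df.eq a b).and (h.comp fun o => o.elim a id)).congr fun _ _ => wk_zero.symm
  | succ n ih =>
    intro α P h a b
    refine ((ih h a b).or (Df.ex (P := fun k x y => Wk (adj k) (P k x) n (x a) y ∧
      adj k y (x b) ∧ P k x (x b)) ?_)).congr fun _ _ => wk_succ.symm
    refine Df.and ?_ ((ha.app none (some b)).and (h.comp fun o => o.elim (some b) some))
    exact ih (P := fun k (y : Option α → Φ.V k) v => P k (fun a => y (some a)) v)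
      (h.comp fun o => o.elim none (fun a => some (some a))) (some a) none

variable {σ : Type} [Finite σ] {k χ R0 R W : ℕ} {ρ : Rad χ}

omit [Finite σ] in
theorem gb_WR {d : ℕ} (hd : d ≤ R) :
    D2 (BaseFam σ k χ R0 R W) (fun B x u => WR (BaseK.A B).adj (BaseK.pos B) d x u) :=
  Df.rel (Φ := BaseFam σ k χ R0 R W) (Sum.inr (Sum.inl ⟨d, Nat.lt_succ_of_le hd⟩)) false true

omit [Finite σ] in
theorem gb_col (c : Fin χ) : D1 (BaseFam σ k χ R0 R W) (fun B x => BaseK.col B x = c) :=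
  (Df.rel (Φ := BaseFam σ k χ R0 R W) (Sum.inr (Sum.inr c)) () ()).congr fun _ _ =>
    ⟨fun h => h.2, fun h => ⟨rfl, h⟩⟩

omit [Finite σ] in
theorem gb_A (r : σ) : D2 (BaseFam σ k χ R0 R W) (fun B x y => BaseK.A B r x y) :=
  Df.rel (Φ := BaseFam σ k χ R0 R W) (Sum.inl r) false true

theorem gb_adj : D2 (BaseFam σ k χ R0 R W) (fun B x y => (BaseK.A B).adj x y) :=
  (Df.ne false true).and (Df.fex fun r => ((gb_A r).app false true).or ((gb_A r).app true false))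

omit [Finite σ] in
theorem gb_lt {B : BaseK σ k χ R0 R W} {d : ℕ} {s u z : B.V} (hu : WR B.A.adj B.pos d s u)
    (hz : WR B.A.adj B.pos d s z) :
    (WR B.A.adj B.pos (2 * d) z u ∧ z ≠ u) ↔ B.pos u < B.pos z := by
  constructor
  · rintro ⟨h1, h2⟩
    exact lt_of_le_of_ne h1.pos_le fun e => h2 (B.inj e).symm
  · intro h
    refine ⟨?_, fun e => by rw [e] at h; omega⟩
    rw [two_mul]
    exact WR.both B.A.adj_symm hz hu h.le

omit [Finite σ] in
theorem gb_Dn {d : ℕ} (hd : 2 * d ≤ R) (e : ℕ) :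
    D2 (BaseFam σ k χ R0 R W) (fun B s u => BaseK.Dn B d s e u) := by
  refine (((gb_WR (d := d) (by omega)).app false true).and (Df.ncard_eq
    (P := fun B x z => WR (BaseK.A B).adj (BaseK.pos B) d (x false) z ∧
      (WR (BaseK.A B).adj (BaseK.pos B) (2 * d) z (x true) ∧ z ≠ x true))
    (((gb_WR (d := d) (by omega)).app (some false) none).and
      (((gb_WR hd).app none (some true)).and (Df.ne none (some true)))) e)).congr fun B x => ?_
  refine and_congr_right fun h => ?_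
  refine Eq.congr (congrArg _ (Set.ext fun z => and_congr_right fun hz => gb_lt h hz)) rfl

omit [Finite σ] in
theorem gb_Cen (hd : ρ.D ≤ R) (c : Fin χ) :
    D2 (BaseFam σ k χ R0 R W) (fun B x s => BaseK.Cen B ρ c x s) :=
  ((gb_WR hd).app false true).and ((gb_col c).app true)

omit [Finite σ] in
theorem gb_Chn (hd : 2 * ρ.D ≤ R) (ν : List (Fin χ)) : ∀ c : Fin χ,
    D2 (BaseFam σ k χ R0 R W) (fun B x s => BaseK.Cen B ρ c x s ∧ BaseK.Chn B ρ ν x s) := by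
  induction ν with
  | nil => exact fun c => (gb_Cen (ρ := ρ) (by omega) c).and (Df.const True)
  | cons c' ν ih =>
    intro c
    refine (((gb_Cen (ρ := ρ) (by omega) c).app false true).and (Df.ex
      (P := fun B x t => (BaseK.Cen B ρ c' (x false) t ∧ BaseK.Chn B ρ ν (x false) t) ∧
        (WR (BaseK.A B).adj (BaseK.pos B) (2 * ρ.D) (x true) t ∧ x true ≠ t))
      (((ih c').app (some false) none).and
        (((gb_WR hd).app (some true) none).and (Df.ne (some true) none))))).congr fun B x => ?_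
    refine and_congr_right fun h => exists_congr fun t => ?_
    constructor
    · rintro ⟨⟨h1, h2⟩, h3⟩
      exact ⟨h1, (gb_lt h1.1 h.1).1 h3, h2⟩
    · rintro ⟨h1, h2, h3⟩
      exact ⟨⟨h1, h3⟩, (gb_lt h1.1 h.1).2 h2⟩

omit [Finite σ] in
theorem gb_rad (hR : 4 * ρ.s ≤ R) (a : Nd χ) : 2 * ρ.D ≤ R ∧ 2 * (2 * ρ.r a) ≤ R := by
  have := BaseK.geoA_rad (ρ := ρ) a
  omega

omit [Finite σ] in
theorem gb_VR (hR : 4 * ρ.s ≤ R) (v : Vw χ W) {α : Type} (a b d : α) :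
    Df (BaseFam σ k χ R0 R W) (fun B y => BaseK.VR B ρ v (y a) (y b) (y d)) := by
  obtain ⟨h1, h2⟩ := gb_rad hR v.nd
  have h3 : 2 * ρ.r v.nd ≤ R := by omega
  by_cases hc : ∃ c' c ν, v.nd.1 = c' :: c :: ν
  swap
  · exact (Df.const False).congr fun _ _ =>
      ⟨False.elim, fun ⟨c', c, ν, _, _, e, _⟩ => hc ⟨c', c, ν, e⟩⟩
  obtain ⟨c', c, ν, e⟩ := hc
  refine (Df.ex (P := fun B y s => (BaseK.Cen B ρ c' (y a) s ∧ BaseK.Chn B ρ (c :: ν) (y a) s) ∧
    (∃ t, BaseK.Cen B ρ c (y a) t ∧ (BaseK.Cen B ρ c (y a) t ∧ BaseK.Chn B ρ ν (y a) t) ∧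
      (WR (BaseK.A B).adj (BaseK.pos B) (2 * ρ.D) s t ∧ s ≠ t) ∧
      BaseK.Dn B (ρ.r v.nd) s v.len t) ∧
    (∀ i : Fin (W + 1), i < v.len → ∀ a b, BaseK.Dn B (ρ.r v.nd) s i a →
      BaseK.Dn B (ρ.r v.nd) s (i + 1) b → BaseK.Dn B (2 * ρ.r v.nd) a (v.idx i) b) ∧
    v.e < v.len ∧ BaseK.Dn B (ρ.r v.nd) s v.e (y b) ∧ BaseK.Dn B (ρ.r v.nd) s (v.e + 1) (y d))
    ?_).congr fun B y => ?_
  · refine ((gb_Chn h1 (c :: ν) c').app (some a) none).and (Df.and (Df.ex ?_) (Df.and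
      (Df.fall fun i => (Df.const _).imp (Df.all (Df.all ?_))) ((Df.const _).and
        (((gb_Dn h3 _).app none (some b)).and ((gb_Dn h3 _).app none (some d))))))
    · exact ((gb_Cen (by omega) c).app (some (some a)) none).and
        (((gb_Chn h1 ν c).app (some (some a)) none).and
          ((((gb_WR h1).app (some none) none).and (Df.ne (some none) none)).and
            ((gb_Dn h3 _).app (some none) none)))
    · exact ((gb_Dn h3 _).app (some (some none)) (some none)).imp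
        (((gb_Dn h3 _).app (some (some none)) none).imp ((gb_Dn h2 _).app (some none) none))
  · constructor
    · rintro ⟨s, ⟨a1, -⟩, ⟨t, a2, ⟨-, a3⟩, a4, a5⟩, a6⟩
      exact ⟨c', c, ν, s, t, e, a1, a2, (gb_lt a2.1 a1.1).1 a4, a3, a5, a6⟩
    · rintro ⟨c1, c2, ν1, s, t, e1, a1, a2, a3, a4, a5, a6⟩
      rw [e] at e1
      simp only [List.cons.injEq] at e1
      obtain ⟨rfl, rfl, rfl⟩ := e1
      exact ⟨s, ⟨a1, t, a2, a3, a4⟩, ⟨t, a2, ⟨a2, a4⟩, (gb_lt a2.1 a1.1).2 a3, a5⟩, a6⟩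

omit [Finite σ] in
theorem gb_dom (hR : 4 * ρ.s ≤ R) (v : Vw χ W) :
    D1 (BaseFam σ k χ R0 R W) (fun B x => BaseK.dom B ρ v x) :=
  Df.ex (Df.ex (gb_VR hR v (some (some ())) (some none) none))

omit [Finite σ] in
theorem df_base_it (h0 : 2 * ρ.D + 1 ≤ R0) (hR : 4 * ρ.s ≤ R) (v : Vw χ W) :
    D2 (BaseFam σ k χ R0 R W) (fun B x u => BaseK.dom B ρ v x ∧ BaseK.it B ρ v x = u) := by
  refine (Df.ex (P := fun B y o => BaseK.VR B ρ v (y false) (y true) o)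
    (gb_VR hR v (some false) (some true) none)).congr fun B y => ?_
  constructor
  · rintro ⟨o, h⟩
    exact ⟨⟨_, o, h⟩, ((BaseK.VR_it_ow B ρ ⟨_, o, h⟩).unique h0 h).1⟩
  · rintro ⟨h, e⟩
    exact ⟨_, e ▸ BaseK.VR_it_ow B ρ h⟩

omit [Finite σ] in
theorem df_base_ow (h0 : 2 * ρ.D + 1 ≤ R0) (hR : 4 * ρ.s ≤ R) (v : Vw χ W) :
    D2 (BaseFam σ k χ R0 R W) (fun B x u => BaseK.dom B ρ v x ∧ BaseK.ow B ρ v x = u) := by
  refine (Df.ex (P := fun B y o => BaseK.VR B ρ v (y false) o (y true))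
    (gb_VR hR v (some false) none (some true))).congr fun B y => ?_
  constructor
  · rintro ⟨o, h⟩
    exact ⟨⟨o, _, h⟩, ((BaseK.VR_it_ow B ρ ⟨o, _, h⟩).unique h0 h).2⟩
  · rintro ⟨h, e⟩
    exact ⟨_, e ▸ BaseK.VR_it_ow B ρ h⟩

omit [Finite σ] in
theorem df_base_bot (hR : 2 ≤ R) : D1 (BaseFam σ k χ R0 R W) (fun B x => x = BaseK.bot B) := by
  refine (Df.all (P := fun B y z => WR (BaseK.A B).adj (BaseK.pos B) 2 z (y ()))
    ((gb_WR hR).app none (some ()))).congr fun B y => ?_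
  constructor
  · intro h
    exact BaseK.inj B (le_antisymm (h _).pos_le (BaseK.bot_le B _))
  · intro h z
    rw [h]
    exact (BaseK.diam B z _).mono fun z _ => BaseK.bot_le B z

omit [Finite σ] in
theorem gb_ps (hR : 4 * ρ.s ≤ R) (p : ℕ) : D2 (BaseFam σ k χ R0 R W)
    (fun B x u => WR (BaseK.A B).adj (BaseK.pos B) ρ.s x u ∧ BaseK.ps B ρ x u = p) := by
  refine (((gb_WR (d := ρ.s) (by omega)).app false true).and (Df.ncard_eq
    (P := fun B x z => WR (BaseK.A B).adj (BaseK.pos B) ρ.s (x false) z ∧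
      (WR (BaseK.A B).adj (BaseK.pos B) (2 * ρ.s) (x true) z ∧ x true ≠ z))
    (((gb_WR (d := ρ.s) (by omega)).app (some false) none).and
      (((gb_WR (by omega)).app (some true) none).and (Df.ne (some true) none))) p)).congr
    fun B x => ?_
  refine and_congr_right fun h => ?_
  refine Eq.congr (congrArg _ (Set.ext fun z => and_congr_right fun hz => gb_lt hz h)) rfl

omit [Finite σ] in
theorem gb_anc (hR : 4 * ρ.s ≤ R) (p : ℕ) : D2 (BaseFam σ k χ R0 R W)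
    (fun B x u => BaseK.anc B ρ x p = u) := by
  refine (((gb_ps hR p).app false true).or ((Df.ex
    (P := fun B y u => WR (BaseK.A B).adj (BaseK.pos B) ρ.s (y false) u ∧
      BaseK.ps B ρ (y false) u = p) ((gb_ps hR p).app (some false) none)).not.and
        (Df.eq false true))).congr fun B y => ?_
  constructor
  · rintro (⟨h1, h2⟩ | ⟨h1, h2⟩)
    · rw [← h2]
      exact BaseK.geoA_anc_ps h1
    · exact (dif_neg h1).trans h2
  · intro h
    by_cases c : ∃ u, WR (BaseK.A B).adj (BaseK.pos B) ρ.s (y false) u ∧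
        BaseK.ps B ρ (y false) u = p
    · exact Or.inl (h ▸ ⟨BaseK.geoA_anc_WR _ _, BaseK.geoA_ps_anc c⟩)
    · exact Or.inr ⟨c, (dif_neg c).symm.trans h⟩

theorem gb_Hm (hR : 4 * ρ.s ≤ R) (v : Vw χ W) (j : ℕ) :
    D1 (BaseFam σ k χ R0 R W) (fun B x => BaseK.Hm B ρ v j x) := by
  obtain ⟨h1, -⟩ := gb_rad hR v.nd
  by_cases hc : ∃ c' c ν, v.nd.1 = c' :: c :: ν
  swap
  · exact (Df.const True).congr fun _ _ =>
      ⟨fun _ c' c ν e => absurd ⟨c', c, ν, e⟩ hc, fun _ => trivial⟩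
  obtain ⟨c', c, ν, e⟩ := hc
  refine (Df.all (P := fun B y t => ∀ z, BaseK.Cen B ρ c (y ()) t →
    Wk (BaseK.A B).adj (BaseK.Arena B ρ c ν t) j (y ()) z → BaseK.dom B ρ v z)
    (Df.all ?_)).congr fun B y => ?_
  · refine ((gb_Cen (by omega) c).app (some (some ())) (some none)).imp (Df.imp ?_
      ((gb_dom hR v).app none))
    refine gb_wk gb_adj j (P := fun B (y : Option (Option Unit) → _) z =>
      BaseK.Arena B ρ c ν (y (some none)) z) ?_ (some (some ())) none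
    exact (((gb_Chn h1 ν c).app none (some (some none))).and
      (Df.ne none (some (some none)))).congr fun _ _ =>
        ⟨fun h => ⟨h.1.1, h.2, h.1.2⟩, fun h => ⟨⟨h.1, h.2.2⟩, h.2.1⟩⟩
  · constructor
    · intro h c1 c2 ν1 e1
      rw [e] at e1
      simp only [List.cons.injEq] at e1
      obtain ⟨rfl, rfl, rfl⟩ := e1
      exact h
    · exact fun h => h _ _ _ e

omit [Finite σ] in
theorem gb_common {ι : Type} [Finite ι] {P : ι → ∀ B : BaseK σ k χ R0 R W, B.V → Prop}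
    (h : ∀ i, D1 (BaseFam σ k χ R0 R W) (P i)) : ∃ n, ∀ m, n ≤ m →
      ∀ (B B' : BaseK σ k χ R0 R W) (x : B.V) (x' : B'.V),
      Eqv B.rl B'.rl m (fun _ : Fin 1 => x) (fun _ : Fin 1 => x') → ∀ i, P i B x → P i B' x' := by
  obtain ⟨n, hn⟩ := Df.common (α := fun _ => Fin 1) fun i => (h i).app (0 : Fin 1)
  exact ⟨n, fun m hm B B' x x' e i => (hn i).le hm B B' _ _ e⟩

omit [Finite σ] in
theorem gb_ps_le (hR : 4 * ρ.s ≤ R) (B : BaseK σ k χ R0 R W) (x u : B.V) : B.ps ρ x u < W + 1 :=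
  Nat.lt_succ_of_le ((ncard_le_ncard (fun _ h => h.1) (toFinite _)).trans (B.bd ρ.s (by omega) x))

theorem exists_r0 (h0 : 2 * ρ.D + 1 ≤ R0) (hR : 4 * ρ.s ≤ R) :
    ∃ r0, ∀ (B B' : BaseK σ k χ R0 R W) (x : B.V) (x' : B'.V),
      tp B.rl.str r0 (fun _ : Fin 1 => x) = tp B'.rl.str r0 (fun _ : Fin 1 => x') →
        LInv ρ B B' x x' := by
  have hD : ρ.D ≤ R := by
    have : ρ.D ≤ ρ.s := Nat.le_add_left _ _
    omega
  obtain ⟨n1, h1⟩ := gb_common (σ := σ) (k := k) (R0 := R0) fun v : Vw χ W => gb_dom hR v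
  obtain ⟨n2, h2⟩ := gb_common (σ := σ) (k := k) (R0 := R0)
    (P := fun (i : Vw χ W × Fin (W + 1)) B x => ∃ u, (B.dom ρ i.1 x ∧ B.it ρ i.1 x = u) ∧
      (WR B.A.adj B.pos ρ.s x u ∧ B.ps ρ x u = i.2)) fun i =>
    Df.ex (((df_base_it h0 hR i.1).app (some ()) none).and ((gb_ps hR _).app (some ()) none))
  obtain ⟨n3, h3⟩ := gb_common (σ := σ) (k := k) (R0 := R0)
    (P := fun (i : Vw χ W × Fin (W + 1)) B x => ∃ u, (B.dom ρ i.1 x ∧ B.ow ρ i.1 x = u) ∧
      (WR B.A.adj B.pos ρ.s x u ∧ B.ps ρ x u = i.2)) fun i =>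
    Df.ex (((df_base_ow h0 hR i.1).app (some ()) none).and ((gb_ps hR _).app (some ()) none))
  obtain ⟨n4, h4⟩ := gb_common (σ := σ) (k := k) (R0 := R0)
    (P := fun (i : Fin (W + 1)) B x => WR B.A.adj B.pos ρ.s x x ∧ B.ps ρ x x = i) fun i =>
    (gb_ps hR _).app () ()
  obtain ⟨n5, h5⟩ := gb_common (σ := σ) (k := k) (R0 := R0)
    (P := fun (i : Fin (W + 1) × Fin (W + 1) × Fin (W + 1)) B x => ∃ a b,
      B.anc ρ x i.1 = a ∧ B.anc ρ x i.2.1 = b ∧ B.Dn (2 * ρ.s) a i.2.2 b) fun i =>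
    Df.ex (Df.ex (((gb_anc hR _).app (some (some ())) (some none)).and
      (((gb_anc hR _).app (some (some ())) none).and
        ((gb_Dn (by omega) _).app (some none) none))))
  obtain ⟨n6, h6⟩ := gb_common (σ := σ) (k := k) (R0 := R0) (R := R) (W := W)
    fun c : Fin χ => gb_col c
  obtain ⟨n7, h7⟩ := gb_common (k := k) (χ := χ) (R0 := R0) (R := R) (W := W)
    (P := fun (r : σ) B x => B.A r x x) fun r => (gb_A r).app () ()
  obtain ⟨n8, h8⟩ := gb_common (k := k) (R0 := R0) (W := W)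
    (P := fun (i : σ × Fin χ) B x => ∃ s, B.Cen ρ i.2 x s ∧ B.A i.1 x s) fun i =>
    Df.ex (((gb_Cen hD _).app (some ()) none).and ((gb_A _).app (some ()) none))
  obtain ⟨n9, h9⟩ := gb_common (k := k) (R0 := R0) (W := W)
    (P := fun (i : σ × Fin χ) B x => ∃ s, B.Cen ρ i.2 x s ∧ B.A i.1 s x) fun i =>
    Df.ex (((gb_Cen hD _).app (some ()) none).and ((gb_A _).app none (some ())))
  obtain ⟨n10, h10⟩ := gb_common (σ := σ) (k := k)
    (P := fun (v : Vw χ W) B x => B.dom ρ v x ∧ B.it ρ v x = x) fun v =>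
    (df_base_it h0 hR v).app () ()
  obtain ⟨n11, h11⟩ := gb_common (σ := σ) (k := k) (R0 := R0)
    (P := fun (i : Vw χ W × Fin (ρ.L + 1)) B x => B.Hm ρ i.1 i.2 x) fun i => gb_Hm hR _ _
  refine ⟨n1 + n2 + n3 + n4 + n5 + n6 + n7 + n8 + n9 + n10 + n11, fun B B' x x' e => ?_⟩
  rw [tp_eq_iff] at e
  refine ⟨h1 _ (by omega) B B' x x' e, fun v h => ?_, fun v h => ?_, ?_,
    fun p hp p' hp' i hi h => ?_, (h6 _ (by omega) B B' x x' e _ rfl).symm,
    h7 _ (by omega) B B' x x' e, fun r c => h8 _ (by omega) B B' x x' e (r, c),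
    fun r c => h9 _ (by omega) B B' x x' e (r, c),
    fun v h h' => (h10 _ (by omega) B B' x x' e v ⟨h, h'⟩).2,
    fun v j hj => h11 _ (by omega) B B' x x' e (v, ⟨j, Nat.lt_succ_of_le hj⟩)⟩
  · obtain ⟨u, ⟨-, rfl⟩, -, a⟩ := h2 _ (by omega) B B' x x' e
      (v, ⟨_, gb_ps_le hR B x (B.it ρ v x)⟩)
      ⟨_, ⟨h, rfl⟩, (BaseK.geoA_VR_WR (B.VR_it_ow ρ h)).1, rfl⟩
    exact a.symm
  · obtain ⟨u, ⟨-, rfl⟩, -, a⟩ := h3 _ (by omega) B B' x x' e
      (v, ⟨_, gb_ps_le hR B x (B.ow ρ v x)⟩)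
      ⟨_, ⟨h, rfl⟩, (BaseK.geoA_VR_WR (B.VR_it_ow ρ h)).2.1, rfl⟩
    exact a.symm
  · exact (h4 _ (by omega) B B' x x' e ⟨_, gb_ps_le hR B x x⟩ ⟨WR.refl, rfl⟩).2.symm
  · obtain ⟨a, b, rfl, rfl, h⟩ := h5 _ (by omega) B B' x x' e
      (⟨p, Nat.lt_succ_of_le hp⟩, ⟨p', Nat.lt_succ_of_le hp'⟩, ⟨i, Nat.lt_succ_of_le hi⟩)
      ⟨_, _, rfl, rfl, h⟩
    exact h

end Pool.Agent.Work.MP_b730b2_lc.Full
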