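import Pool.Agent.Work.MP_b730b2_lc.Full.GeoB
import Pool.Agent.Work.MP_b730b2_lc.Full.Cover

/-! The claims for arenas, items and the root; existence of the geometry.

Proof plan for `arena_claim` (`EF_cover` with `l = lab`). Put `H v j c := ∃ B x, lab B x = c ∧ Hm v j x`
(for `j ≤ L` equivalent to `Hm v j x` for any `x` with label `c`, `LInv.hm`), and let `N c c'` say that
for all views `v` whose list has tail `c0 :: ν` and all `j < L`, `H v (j+1) c → H v j c'` and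
`H v (j+1) c' → H v j c`. Adjacent points of an arena have `N`-related labels (`Wk.head`,
`Cen.unique`), so points with different, unrelated labels satisfy no basic relation on either side,
and `LM` gives the order. For `x` in the arena of `t` let `s` be the least vertex of the ball of
radius `L` in the arena; every `y` in the ball has `Cen (col s) y s` (`D = 2 L`); let `len` be the
index of `t` in the list of `s` (`exists_Dn`, `0 < len`), define `idx` by `exists_Dn` and `WR.both`, and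
`v = (col s :: c0 :: ν, len, idx, len - 1)` (`Chn.length_le`); then `Hm v L x`. The window is
`{c | H v 0 c}`, and the arena restricted to it is `Inst v t`. The same with the sides exchanged.
`item`: if `e = e' + 1 < len`, `Item v u = Inst v' u` for the previous step; if `len ≤ e` or the list is
too short both sides are empty; if `e = 0` then `it v x` is the centre, `Item v u \ {u}` is the arena of
`u` restricted to `dom v` (`EF_sub`), and `u` is added by `EF_point` (`LInv.top`, `rel1`, `rel2`, `loop`;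
`u` and the points of the arena have different labels since `col` differs by `B.prop`).
`root`: `univ \ {bot}` is the arena of `[col bot]` at `bot` (`diam`, `bot_le`, `2 ≤ D`). -/

namespace Pool.Agent.Work.MP_b730b2_lc.Full

open Set

variable {σ : Type} [Finite σ] {k χ R0 R W : ℕ}

theorem Rad.r_le (ρ : Rad χ) (a : Nd χ) : ρ.r a + ρ.D ≤ ρ.s :=
  Nat.add_le_add_right (Nat.mul_le_mul_left _ (Nat.succ_le_succ (ρ.rk_le a))) _

theorem Rad.D_le (ρ : Rad χ) (a : Nd χ) : ρ.D ≤ ρ.r a := by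
  have : 2 * ρ.D * 1 ≤ 2 * ρ.D * (ρ.rk a + 1) := Nat.mul_le_mul_left _ (by omega)
  rw [Rad.r]; omega

omit [Finite σ] in
theorem BaseK.VR.it_eq {ρ : Rad χ} {B : BaseK σ k χ R0 R W} (h0 : 2 * ρ.D + 1 ≤ R0) {v : Vw χ W}
    {x u o : B.V} (h : B.VR ρ v x u o) : B.dom ρ v x ∧ B.it ρ v x = u ∧ B.ow ρ v x = o :=
  ⟨⟨u, o, h⟩, (B.VR_it_ow ρ ⟨u, o, h⟩).unique h0 h⟩

omit [Finite σ] in
/-- Every point of an arena has a window containing its ball. -/
theorem BaseK.exists_window {ρ : Rad χ} {B : BaseK σ k χ R0 R W} (h0 : 2 * ρ.D + 1 ≤ R0)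
    (hR : 4 * ρ.s ≤ R) {c0 : Fin χ} {ν : List (Fin χ)} {t x : B.V} (hx : B.Arena ρ c0 ν t x) :
    ∃ (v : Vw χ W) (c' : Fin χ), v.nd.1 = c' :: c0 :: ν ∧ v.e.1 + 1 = v.len ∧ B.Hm ρ v ρ.L x := by
  obtain ⟨s, hs, hmin⟩ := exists_min_image {y | Wk B.A.adj (B.Arena ρ c0 ν t) ρ.L x y} B.pos
    (toFinite _) ⟨x, Wk.refl hx⟩
  have hs' : Wk B.A.adj (B.Arena ρ c0 ν t) ρ.L x s := hs
  have cen : ∀ y, Wk B.A.adj (B.Arena ρ c0 ν t) ρ.L x y → B.Cen ρ (B.col s) y s := by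
    intro y hy
    refine ⟨Wk.le (((hy.of_ball hmin).symm B.A.adj_symm).trans (hs'.of_ball hmin)) ?_, rfl⟩
    rw [Rad.D]; omega
  have hts : B.pos t < B.pos s :=
    lt_of_le_of_ne hs'.lst.1.1.pos_le fun e => hs'.lst.2.1 (B.inj e).symm
  let nd : Nd χ := ⟨B.col s :: c0 :: ν, BaseK.Chn.length_le h0 (cen x (Wk.refl hx))
    ⟨t, hx.1, hts, hx.2.2⟩⟩
  have r1 := ρ.r_le nd
  obtain ⟨len, hlen, hl⟩ := B.exists_Dn (d := ρ.r nd) (by omega)
    (hs'.lst.1.1.le (ρ.D_le nd))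
  have hpos : 0 < len := (hl.lt_iff (BaseK.Dn.zero B _ s)).1 hts
  have hidx : ∀ i : Fin (W + 1), ∃ j : Fin (W + 1), ∀ a b, B.Dn (ρ.r nd) s i a →
      B.Dn (ρ.r nd) s (i + 1) b → B.Dn (2 * ρ.r nd) a j b := by
    intro i
    by_cases c : ∃ a b, B.Dn (ρ.r nd) s i a ∧ B.Dn (ρ.r nd) s (i + 1) b
    · obtain ⟨a, b, ha, hb⟩ := c
      have hw := WR.both B.A.adj_symm ha.1 hb.1 ((hb.lt_iff ha).2 (Nat.lt_succ_self _)).le
      rw [← two_mul] at hw
      obtain ⟨j, hj, h⟩ := B.exists_Dn (by omega) hw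
      refine ⟨⟨j, by omega⟩, fun a' b' ha' hb' => ?_⟩
      rw [ha'.unique ha, hb'.unique hb]
      exact h
    · exact ⟨0, fun a b ha hb => absurd ⟨a, b, ha, hb⟩ c⟩
  choose idx hidx using hidx
  refine ⟨⟨nd, ⟨len, by omega⟩, idx, ⟨len - 1, by omega⟩⟩, B.col s, rfl, by simp only; omega, ?_⟩
  intro c' c ν' e t' y ht' hy
  simp only [nd, List.cons.injEq] at e
  obtain ⟨rfl, rfl, rfl⟩ := e
  obtain rfl := ht'.unique h0 hx.1
  obtain ⟨u, hu⟩ := hl.exists_le (Nat.sub_le len 1)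
  refine ⟨u, t', _, _, _, s, t', rfl, cen y hy, hy.lst.1, hts, hy.lst.2.2, hl,
    fun i _ => hidx i, ?_, hu, ?_⟩
  · simp only [Fin.lt_def]; omega
  · simp only
    rwa [show len - 1 + 1 = len by omega]

omit [Finite σ] in
/-- The last step of a window is the part of the arena in the window. -/
theorem BaseK.inst_last {ρ : Rad χ} {B : BaseK σ k χ R0 R W} (h0 : 2 * ρ.D + 1 ≤ R0) {v : Vw χ W}
    {c' c0 : Fin χ} {ν : List (Fin χ)} (hv : v.nd.1 = c' :: c0 :: ν) (he : v.e.1 + 1 = v.len)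
    (t x : B.V) : (B.dom ρ v x ∧ B.ow ρ v x = t) ↔ B.Arena ρ c0 ν t x ∧ B.Hm ρ v 0 x := by
  have key : B.dom ρ v x → B.Arena ρ c0 ν (B.ow ρ v x) x := by
    intro h
    obtain ⟨c1, c2, ν1, s, t1, e, h1, h2, h3, h4, h5, -, -, -, h6⟩ := B.VR_it_ow ρ h
    rw [hv] at e
    simp only [List.cons.injEq] at e
    obtain ⟨rfl, rfl, rfl⟩ := e
    rw [he] at h6
    rw [h6.unique h5]
    refine ⟨h2, fun e => ?_, h4⟩
    have := h1.1.pos_le
    rw [e] at this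
    omega
  constructor
  · rintro ⟨h, rfl⟩
    refine ⟨key h, fun _ _ _ _ _ y _ hy => ?_⟩
    rwa [← (wk_zero.1 hy).1]
  · rintro ⟨h1, h2⟩
    have h := h2 _ _ _ hv t x h1.1 (Wk.refl h1)
    exact ⟨h, (key h).1.unique h0 h1.1⟩

omit [Finite σ] in
theorem BaseK.Hm.adj {ρ : Rad χ} {B : BaseK σ k χ R0 R W} (h0 : 2 * ρ.D + 1 ≤ R0) {v : Vw χ W}
    {c' c0 : Fin χ} {ν : List (Fin χ)} (hv : v.nd.1 = c' :: c0 :: ν) {t x y : B.V} {j : ℕ}
    (hx : B.Arena ρ c0 ν t x) (hy : B.Arena ρ c0 ν t y) (e : B.A.adj x y)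
    (h : B.Hm ρ v (j + 1) x) : B.Hm ρ v j y := by
  intro c1 c2 ν1 e1 t1 z h1 h2
  rw [hv] at e1
  simp only [List.cons.injEq] at e1
  obtain ⟨rfl, rfl, rfl⟩ := e1
  obtain rfl := h1.unique h0 hy.1
  exact h _ _ _ hv t1 z hx.1 (Wk.head hx e h2)

theorem geoC_EF_congr {ι κ V W : Type} {A A' : Str ι κ V} {B B' : Str ι κ W} {q : ℕ}
    (h : EF A B q ∅) (h1 : A = A') (h2 : B = B') : EF A' B' q ∅ := h1 ▸ h2 ▸ h

theorem geoC_walk {Λ : Type} {N : Λ → Λ → Prop} {H : ℕ → Λ → Prop} {L : ℕ}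
    (hN : ∀ c c', N c c' → ∀ j < L, H (j + 1) c → H j c') {n : ℕ} {c c' : Λ}
    (hw : Wk N (fun _ => True) n c c') :
    ∀ j, n ≤ j → j ≤ L → H j c → ∃ i, j ≤ i + n ∧ i ≤ L ∧ H i c' := by
  induction hw with
  | refl _ => exact fun j _ h2 h3 => ⟨j, by omega, h2, h3⟩
  | @step n a b d _ e _ ih =>
    intro j h1 h2 h3
    obtain ⟨i, i1, i2, i3⟩ := ih j (by omega) h2 h3
    obtain ⟨i, rfl⟩ : ∃ i', i = i' + 1 := ⟨i - 1, by omega⟩
    exact ⟨i, by omega, by omega, hN _ _ e i (by omega) i3⟩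

theorem arena_claim {ρ : Rad χ} {q : ℕ} (hL : ρ.L = 2 ^ q) (h0 : 2 * ρ.D + 1 ≤ R0)
    (hR : 4 * ρ.s ≤ R) (o : LinearOrder (Vw χ W)) {r0 : ℕ}
    (hr : ∀ (B B' : BaseK σ k χ R0 R W) (x : B.V) (x' : B'.V),
      tp B.rl.str r0 (fun _ : Fin 1 => x) = tp B'.rl.str r0 (fun _ : Fin 1 => x') →
        LInv ρ B B' x x')
    {Ξ : Type} {B B' : BaseK σ k χ R0 R W} {lt : B.V → B.V → Prop} {lt' : B'.V → B'.V → Prop}
    (P : B.V → Ξ) (P' : B'.V → Ξ) (h : (baseGeo σ k R0 R W ρ o r0).LM B lt)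
    (h' : (baseGeo σ k R0 R W ρ o r0).LM B' lt') (c0 : Fin χ) (ν : List (Fin χ)) (t : B.V)
    (t' : B'.V)
    (hv : ∀ v : Vw χ W, v.nd.1.length = (c0 :: ν).length + 1 →
      EF ((baseGeo σ k R0 R W ρ o r0).Reg Sum.inl B lt P
          ((baseGeo σ k R0 R W ρ o r0).Inst B v t))
        ((baseGeo σ k R0 R W ρ o r0).Reg Sum.inl B' lt' P'
          ((baseGeo σ k R0 R W ρ o r0).Inst B' v t')) q ∅) :
    EF ((baseGeo σ k R0 R W ρ o r0).Reg Sum.inl B lt P {x | B.Arena ρ c0 ν t x})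
      ((baseGeo σ k R0 R W ρ o r0).Reg Sum.inl B' lt' P' {x | B'.Arena ρ c0 ν t' x}) q ∅ := by
  set G := baseGeo σ k R0 R W ρ o r0 with hG
  let H : Vw χ W → ℕ → G.Λ → Prop := fun v j c =>
    ∃ (C : BaseK σ k χ R0 R W) (x : C.V), G.lab C x = c ∧ C.Hm ρ v j x
  have hH : ∀ v j, j ≤ ρ.L → ∀ (C : BaseK σ k χ R0 R W) (x : C.V),
      H v j (G.lab C x) ↔ C.Hm ρ v j x := fun v j hj C x =>
    ⟨fun ⟨C', x', e, h⟩ => (hr C' C x' x e).hm v j hj h, fun h => ⟨C, x, rfl, h⟩⟩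
  let N : G.Λ → G.Λ → Prop := fun c c' => ∀ (v : Vw χ W) c1, v.nd.1 = c1 :: c0 :: ν →
    ∀ j < ρ.L, (H v (j + 1) c → H v j c') ∧ (H v (j + 1) c' → H v j c)
  have hadj : ∀ (C : BaseK σ k χ R0 R W) (s x y : C.V), C.Arena ρ c0 ν s x → C.Arena ρ c0 ν s y →
      C.A.adj x y → N (G.lab C x) (G.lab C y) := by
    intro C s x y hx hy e v c1 hv j hj
    rw [hH v _ hj, hH v _ hj, hH v _ hj.le, hH v _ hj.le]
    exact ⟨BaseK.Hm.adj h0 hv hx hy e, BaseK.Hm.adj h0 hv hy hx (C.A.adj_symm _ _ e)⟩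
  have hwalk : ∀ (v : Vw χ W) c1, v.nd.1 = c1 :: c0 :: ν → ∀ n c c', Wk N (fun _ => True) n c c' →
      ∀ j, n ≤ j → j ≤ ρ.L → H v j c → H v 0 c' := by
    intro v c1 hv n c c' hw
    have mono : ∀ j c, H v j c → H v 0 c := by
      rintro j c ⟨C, x, e, h⟩
      exact ⟨C, x, e, fun a b d e1 s y h1 h2 => h a b d e1 s y h1 (h2.le (Nat.zero_le _))⟩
    have := geoC_walk (H := H v) (L := ρ.L) (fun a b e j hj => (e v c1 hv j hj).1) hw
    intro j h1 h2 h3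
    obtain ⟨i, -, -, h⟩ := this j h1 h2 h3
    exact mono i c' h
  have hlab : ∀ p : B.V × B'.V, Ag (G.Reg Sum.inl B lt P {x | B.Arena ρ c0 ν t x})
      (G.Reg Sum.inl B' lt' P' {x | B'.Arena ρ c0 ν t' x}) p p → G.lab B p.1 = G.lab B' p.2 :=
    fun p e => (((e.2.1 (G.lab B p.1, P p.1)).1 ⟨rfl, rfl⟩).1).symm
  refine EF_cover (G.lab B) (G.lab B') N (fun a b h v c1 hv j hj => (h v c1 hv j hj).symm)
    (fun a _ b _ e => hlab (a, b) e) ?_ ?_
  · intro p p' h1 h2 h3 h4 a1 a2 hne hN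
    have l1 := hlab p a1
    have l2 := hlab p' a2
    have n1 : p.1 ≠ p'.1 := fun e => hne (by rw [e])
    have n2 : p.2 ≠ p'.2 := fun e => hne (by rw [l1, l2, e])
    refine ⟨iff_of_false n1 n2, a1.2.1, ?_⟩
    rintro (_ | r)
    · exact (h.2 _ _ hne).trans (by rw [l1, l2]; exact (h'.2 _ _ (by rwa [← l1, ← l2])).symm)
    · refine iff_of_false (fun e => hN (hadj B t _ _ h1 h3 ⟨n1, r, Or.inl e⟩)) (fun e => hN ?_)
      rw [l1, l2]
      exact hadj B' t' _ _ h2 h4 ⟨n2, r, Or.inl e⟩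
  · intro c hc
    have : ∃ (v : Vw χ W) (c' : Fin χ), v.nd.1 = c' :: c0 :: ν ∧ v.e.1 + 1 = v.len ∧
        H v ρ.L c := by
      rcases hc with ⟨a, ha, rfl⟩ | ⟨a, ha, rfl⟩
      · obtain ⟨v, c', e1, e2, e3⟩ := BaseK.exists_window h0 hR ha
        exact ⟨v, c', e1, e2, B, a, rfl, e3⟩
      · obtain ⟨v, c', e1, e2, e3⟩ := BaseK.exists_window h0 hR ha
        exact ⟨v, c', e1, e2, B', a, rfl, e3⟩
    obtain ⟨v, c', e1, e2, e3⟩ := this
    refine ⟨{c | H v 0 c}, fun c2 hw => hwalk v c' e1 _ _ _ hw ρ.L hL.ge le_rfl e3, ?_⟩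
    refine geoC_EF_congr (hv v (by rw [e1]; rfl)) ?_ ?_
    · refine congrArg (G.Reg Sum.inl B lt P) (Set.ext fun x => ?_)
      exact (BaseK.inst_last h0 e1 e2 t x).trans
        (and_congr_right fun _ => (hH v 0 (Nat.zero_le _) B x).symm)
    · refine congrArg (G.Reg Sum.inl B' lt' P') (Set.ext fun x => ?_)
      exact (BaseK.inst_last h0 e1 e2 t' x).trans
        (and_congr_right fun _ => (hH v 0 (Nat.zero_le _) B' x).symm)

theorem exists_rad (χ L : ℕ) (hL : 1 ≤ L) : ∃ ρ : Rad χ, ρ.L = L := by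
  have : Finite (Nd χ) := (List.finite_length_le (Fin χ) χ).to_subtype
  obtain ⟨rk, h1, h2⟩ := exists_pos
    (fun a : Nd χ => toLex (χ - a.1.length, (Finite.equivFin (Nd χ) a).1)) (by
      intro a b e
      simp only [toLex_inj, Prod.mk.injEq] at e
      exact (Finite.equivFin (Nd χ)).injective (Fin.ext e.2))
  obtain ⟨M, hM⟩ := (finite_range rk).bddAbove
  refine ⟨⟨L, rk, M, hL, h1, fun a b h => (h2 b a).2 ?_, fun a => hM ⟨a, rfl⟩⟩, rfl⟩
  have := b.2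
  exact Prod.Lex.toLex_lt_toLex.2 (Or.inl (by simp only; omega))

theorem exists_vord (ρ : Rad χ) (W : ℕ) : ∃ o, VOrd ρ W o := by
  refine ⟨LinearOrder.lift' (fun v : Vw χ W => toLex (ρ.rk v.nd, toLex (v.e,
    (Finite.equivFin (Vw χ W) v).1))) ?_, fun v v' h => ?_, fun v v' h _ _ h' => ?_⟩
  · intro a b e
    simp only [toLex_inj, Prod.mk.injEq] at e
    exact (Finite.equivFin (Vw χ W)).injective (Fin.ext e.2.2)
  · exact Prod.Lex.toLex_lt_toLex.2 (Or.inl h)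
  · exact Prod.Lex.toLex_lt_toLex.2 (Or.inr ⟨by rw [h], Prod.Lex.toLex_lt_toLex.2 (Or.inl h')⟩)

/-- Adding the centre to a set of points. -/
theorem geoC_point {ρ : Rad χ} {q : ℕ} (h0 : 2 * ρ.D + 1 ≤ R0) (o : LinearOrder (Vw χ W)) {r0 : ℕ}
    (hr : ∀ (B B' : BaseK σ k χ R0 R W) (x : B.V) (x' : B'.V),
      tp B.rl.str r0 (fun _ : Fin 1 => x) = tp B'.rl.str r0 (fun _ : Fin 1 => x') →
        LInv ρ B B' x x')
    {Ξ : Type} {B B' : BaseK σ k χ R0 R W} {lt : B.V → B.V → Prop} {lt' : B'.V → B'.V → Prop}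
    (P : B.V → Ξ) (P' : B'.V → Ξ) (h : (baseGeo σ k R0 R W ρ o r0).LM B lt)
    (h' : (baseGeo σ k R0 R W ρ o r0).LM B' lt') (c : Fin χ) {u : B.V} {u' : B'.V}
    (hl : (baseGeo σ k R0 R W ρ o r0).lab B u = (baseGeo σ k R0 R W ρ o r0).lab B' u')
    (hP : P u = P' u') {S : Set B.V} {S' : Set B'.V} (hu : u ∈ S) (hu' : u' ∈ S')
    (hS : ∀ x ∈ S, B.Cen ρ c x u) (hS' : ∀ x ∈ S', B'.Cen ρ c x u')
    (hE : EF ((baseGeo σ k R0 R W ρ o r0).Reg Sum.inl B lt P (S ∩ {x | x ≠ u}))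
      ((baseGeo σ k R0 R W ρ o r0).Reg Sum.inl B' lt' P' (S' ∩ {x | x ≠ u'})) q ∅) :
    EF ((baseGeo σ k R0 R W ρ o r0).Reg Sum.inl B lt P S)
      ((baseGeo σ k R0 R W ρ o r0).Reg Sum.inl B' lt' P' S') q ∅ := by
  set G := baseGeo σ k R0 R W ρ o r0 with hG
  have hU : ∀ i, (G.Reg Sum.inl B lt P S).U i u ↔ (G.Reg Sum.inl B' lt' P' S').U i u' :=
    fun i => and_congr (by rw [hl]) (by rw [hP])
  refine EF_point (a := u) (b := u') hu hu' ⟨by simp, hU, ?_⟩ ?_ hE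
  · rintro (_ | r)
    · exact iff_of_false (h.1 u) (h'.1 u')
    · exact ⟨(hr _ _ _ _ hl).loop r, (hr _ _ _ _ hl.symm).loop r⟩
  · rintro ⟨x, x'⟩ h1 h2 n1 n2 a
    have l1 : G.lab B x = G.lab B' x' := (((a.2.1 (G.lab B x, P x)).1 ⟨rfl, rfl⟩).1).symm
    have hne : G.lab B x ≠ G.lab B u := fun e =>
      B.prop x u ((hS x h1).1.le (by omega)) (Ne.symm n1) (hr _ _ _ _ e).col.symm
    have hne' : G.lab B' x' ≠ G.lab B' u' := by rwa [← l1, ← hl]
    have i1 := hr _ _ _ _ l1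
    have i2 := hr _ _ _ _ l1.symm
    refine ⟨⟨iff_of_false n1 n2, a.2.1, ?_⟩, ⟨iff_of_false (Ne.symm n1) (Ne.symm n2), hU, ?_⟩⟩
    · rintro (_ | r)
      · exact (h.2 _ _ hne).trans (by rw [l1, hl]; exact (h'.2 _ _ hne').symm)
      · constructor
        · intro e
          obtain ⟨s, e1, e2⟩ := i1.rel1 r c ⟨u, hS x h1, e⟩
          rwa [e1.unique h0 (hS' x' h2)] at e2
        · intro e
          obtain ⟨s, e1, e2⟩ := i2.rel1 r c ⟨u', hS' x' h2, e⟩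
          rwa [e1.unique h0 (hS x h1)] at e2
    · rintro (_ | r)
      · exact (h.2 _ _ hne.symm).trans (by rw [l1, hl]; exact (h'.2 _ _ hne'.symm).symm)
      · constructor
        · intro e
          obtain ⟨s, e1, e2⟩ := i1.rel2 r c ⟨u, hS x h1, e⟩
          rwa [e1.unique h0 (hS' x' h2)] at e2
        · intro e
          obtain ⟨s, e1, e2⟩ := i2.rel2 r c ⟨u', hS' x' h2, e⟩
          rwa [e1.unique h0 (hS x h1)] at e2

omit [Finite σ] in
theorem BaseK.item_succ {ρ : Rad χ} {B : BaseK σ k χ R0 R W} (h0 : 2 * ρ.D + 1 ≤ R0)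
    {v v' : Vw χ W} (h1 : v'.nd = v.nd) (h2 : v'.len = v.len) (h3 : v'.idx = v.idx)
    (h4 : v'.e.1 + 1 = v.e) (h5 : v.e < v.len) (u x : B.V) :
    (B.dom ρ v' x ∧ B.ow ρ v' x = u) ↔ (B.dom ρ v x ∧ B.it ρ v x = u) := by
  obtain ⟨nd, len, idx, e⟩ := v
  obtain ⟨nd', len', idx', e'⟩ := v'
  simp only at h1 h2 h3 h4 h5
  subst h1 h2 h3
  constructor
  · rintro ⟨h, rfl⟩
    obtain ⟨c1, c2, ν1, s, t1, e1, a1, a2, a3, a4, a5, a6, -, -, a7⟩ := B.VR_it_ow ρ h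
    obtain ⟨o, ho⟩ := a5.exists_le (e' := e.1 + 1) h5
    have := BaseK.VR.it_eq h0 (v := ⟨nd', len', idx', e⟩)
      ⟨c1, c2, ν1, s, t1, e1, a1, a2, a3, a4, a5, a6, h5, h4 ▸ a7, ho⟩
    exact ⟨this.1, this.2.1⟩
  · rintro ⟨h, rfl⟩
    obtain ⟨c1, c2, ν1, s, t1, e1, a1, a2, a3, a4, a5, a6, -, a7, -⟩ := B.VR_it_ow ρ h
    obtain ⟨o, ho⟩ := a7.exists_le (e' := e'.1) (by simp only; omega)
    have := BaseK.VR.it_eq h0 (v := ⟨nd', len', idx', e'⟩)
      ⟨c1, c2, ν1, s, t1, e1, a1, a2, a3, a4, a5, a6, by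
        simp only [Fin.lt_def] at h5 ⊢; omega, ho, by simp only; rw [h4]; exact a7⟩
    exact ⟨this.1, this.2.2⟩

omit [Finite σ] in
theorem BaseK.item_zero {ρ : Rad χ} {B : BaseK σ k χ R0 R W} {v : Vw χ W} {c' : Fin χ}
    {ν : List (Fin χ)} (hv : v.nd.1 = c' :: ν) (he : v.e.1 = 0) {x : B.V} (h : B.dom ρ v x) :
    B.Cen ρ c' x (B.it ρ v x) ∧ B.Chn ρ ν x (B.it ρ v x) := by
  obtain ⟨c1, c2, ν1, s, t1, e1, a1, a2, a3, a4, -, -, -, a7, -⟩ := B.VR_it_ow ρ h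
  rw [hv] at e1
  simp only [List.cons.injEq] at e1
  obtain ⟨rfl, rfl⟩ := e1
  rw [he] at a7
  rw [a7.unique (BaseK.Dn.zero B _ s)]
  exact ⟨a1, t1, a2, a3, a4⟩

theorem geoC_empty {ι κ V W : Type} {A : Str ι κ V} {B : Str ι κ W} (h1 : ∀ a, a ∉ A.dom)
    (h2 : ∀ b, b ∉ B.dom) (q : ℕ) : EF A B q ∅ :=
  EF.of_iso (T := ∅) (fun _ h => h.elim) (fun a h => absurd h (h1 a)) (fun a h => absurd h (h2 a)) q

theorem baseGeo_ok {ρ : Rad χ} {q : ℕ} (hL : ρ.L = 2 ^ q) (h0 : 2 * ρ.D + 1 ≤ R0)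
    (hR : 4 * ρ.s ≤ R) {o : LinearOrder (Vw χ W)} (ho : VOrd ρ W o) {r0 : ℕ}
    (hr : ∀ (B B' : BaseK σ k χ R0 R W) (x : B.V) (x' : B'.V),
      tp B.rl.str r0 (fun _ : Fin 1 => x) = tp B'.rl.str r0 (fun _ : Fin 1 => x') →
        LInv ρ B B' x x') :
    (baseGeo σ k R0 R W ρ o r0).Ok Sum.inl q := by
  have hD : 2 ≤ ρ.D := by have := ρ.L_pos; rw [Rad.D]; omega
  have hs : ρ.D ≤ ρ.s := Nat.le_add_left _ _
  have hrk : ∀ v v' : Vw χ W, o.lt v' v → ρ.rk v'.nd ≤ ρ.rk v.nd := fun v v' h =>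
    not_lt.1 fun c => @lt_asymm _ o.toPreorder _ _ h (ho.rk v v' c)
  refine ⟨fun a b e => (Finite.equivFin _).injective (Fin.ext e), fun B => BaseK.inj B,
    fun c => Df.tp r0 (fun _ => ()) c, df_base_it h0 hR, df_base_ow h0 hR, df_base_bot (by omega),
    fun B B' x x' v e => (hr B B' x x' e).dom v, fun B B' x x' v e => (hr B B' x x' e).it v,
    fun B B' x x' v e => (hr B B' x x' e).ow v, fun B B' x x' e => (hr B B' x x' e).self,
    fun B x => BaseK.anc_top hR x, fun B x y p p' e => BaseK.anc_det hR (hr B B x y e),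
    fun B v x => BaseK.anc_it, fun B v x => BaseK.anc_ow, fun B v x => BaseK.ow_lt,
    fun B v v' x h => BaseK.cross_ow h0 (hrk v v' h),
    fun B v v' x h => BaseK.cross_it h0 (hrk v v' h), fun B v x y => BaseK.item_det,
    fun B v x y r h h' e => BaseK.nonadj h0 h h' e, fun B v x => BaseK.item_adj hR, ?_, ?_⟩
  · intro Ξ B B' lt lt' P P' (v : Vw χ W) u u' h h' hl hP hv
    set G := baseGeo σ k R0 R W ρ o r0 with hG
    by_cases c : v.e < v.len ∧ ∃ c' ν, v.nd.1 = c' :: ν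
    swap
    · have : ∀ (C : BaseK σ k χ R0 R W) x, ¬ C.dom ρ v x := by
        rintro C x ⟨_, _, c1, c2, ν1, s, t1, e1, -, -, -, -, -, -, a, -⟩
        exact c ⟨a, _, _, e1⟩
      refine geoC_empty ?_ ?_ q
      · exact fun a (h : a ∈ G.Item B v u) => this B a h.1
      · exact fun a (h : a ∈ G.Item B' v u') => this B' a h.1
    obtain ⟨hlt, c', ν, e1⟩ := c
    rcases Nat.eq_zero_or_pos v.e.1 with he | he
    · have a1 := arena_claim hL h0 hR o hr P P' h h' c' ν u u' fun v' e =>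
        hv v' (ho.rk v' v (ρ.rk_lt _ _ (by rw [e, e1]; omega)))
      have sub : ∀ (C : BaseK σ k χ R0 R W) (s x : C.V), (x ∈ G.Item C v s ∩ {x | x ≠ s}) ↔
          C.Arena ρ c' ν s x ∧ C.dom ρ v x := by
        intro C s x
        constructor
        · rintro ⟨⟨h1, h2⟩, h3⟩
          have := BaseK.item_zero e1 he h1
          rw [show C.it ρ v x = s from h2] at this
          exact ⟨⟨this.1, h3, this.2⟩, h1⟩
        · rintro ⟨h1, h2⟩
          exact ⟨⟨h2, (BaseK.item_zero e1 he h2).1.unique h0 h1.1⟩, h1.2.1⟩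
      have a2 : EF (G.Reg Sum.inl B lt P (G.Item B v u ∩ {x | x ≠ u}))
          (G.Reg Sum.inl B' lt' P' (G.Item B' v u' ∩ {x | x ≠ u'})) q ∅ := by
        refine EF_sub ?_ ?_ ?_ ?_ a1
        · exact fun x hx => ((sub B u x).1 hx).1
        · exact fun x hx => ((sub B' u' x).1 hx).1
        swap
        · exact fun p p' _ _ _ _ _ _ a _ => a
        intro a ha b hb e
        have l1 : G.lab B a = G.lab B' b := (((e.2.1 (G.lab B a, P a)).1 ⟨rfl, rfl⟩).1).symm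
        exact (sub B u a).trans (Iff.trans ⟨fun h => ⟨hb, (hr _ _ _ _ l1).dom v h.2⟩,
          fun h => ⟨ha, (hr _ _ _ _ l1.symm).dom v h.2⟩⟩ (sub B' u' b).symm)
      have cen : ∀ (C : BaseK σ k χ R0 R W) (s : C.V), ∀ x ∈ G.Item C v s, C.Cen ρ c' x s := by
        rintro C s x ⟨h1, h2⟩
        have := (BaseK.item_zero e1 he h1).1
        rwa [show C.it ρ v x = s from h2] at this
      by_cases cu : u ∈ G.Item B v u
      · exact geoC_point h0 o hr P P' h h' c' hl hP cu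
          ⟨(hr _ _ _ _ hl).dom v cu.1, (hr _ _ _ _ hl).top v cu.1 cu.2⟩ (cen B u) (cen B' u') a2
      · have cu' : u' ∉ G.Item B' v u' := fun cu' => cu
          ⟨(hr _ _ _ _ hl.symm).dom v cu'.1, (hr _ _ _ _ hl.symm).top v cu'.1 cu'.2⟩
        exact geoC_EF_congr a2
          (congrArg _ (inter_eq_left.2 fun x hx (e : x = u) => cu (e ▸ hx)))
          (congrArg _ (inter_eq_left.2 fun x hx (e : x = u') => cu' (e ▸ hx)))
    · let v' : Vw χ W := ⟨v.nd, v.len, v.idx, ⟨v.e - 1, by have := v.e.2; omega⟩⟩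
      have e4 : v'.e.1 + 1 = v.e := by simp only [v']; omega
      refine geoC_EF_congr (hv v' (ho.step v' v rfl rfl rfl (by rw [Fin.lt_def]; omega))) ?_ ?_
      · congr 1
        ext x
        exact BaseK.item_succ (v := v) (v' := v') h0 rfl rfl rfl e4 hlt u x
      · congr 1
        ext x
        exact BaseK.item_succ (v := v) (v' := v') h0 rfl rfl rfl e4 hlt u' x
  · intro Ξ B B' lt lt' P P' h h' hl hP hv
    have cen : ∀ (C : BaseK σ k χ R0 R W) x, C.Cen ρ (C.col C.bot) x C.bot := fun C x =>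
      ⟨Wk.le ((C.diam x C.bot).mono fun z _ => C.bot_le z) hD, rfl⟩
    have hc : BaseK.col B (BaseK.bot B) = BaseK.col B' (BaseK.bot B') := (hr _ _ _ _ hl).col
    refine geoC_point h0 o hr P P' h h' (BaseK.col B (BaseK.bot B)) hl hP trivial trivial
      (fun x _ => cen B x) (fun x _ => hc ▸ cen B' x) ?_
    refine geoC_EF_congr (arena_claim hL h0 hR o hr P P' h h' (BaseK.col B (BaseK.bot B)) []
      (BaseK.bot B) (BaseK.bot B') fun v _ => hv v) ?_ ?_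
    · congr 1
      ext x
      exact ⟨fun h => ⟨trivial, h.2.1⟩, fun h => ⟨cen B x, h.2, trivial⟩⟩
    · congr 1
      ext x
      exact ⟨fun h => ⟨trivial, h.2.1⟩, fun h => ⟨hc ▸ cen B' x, h.2, trivial⟩⟩

theorem exists_geo (σ : Type) [Finite σ] (q χ : ℕ) : ∃ R, 4 * 2 ^ q + 1 ≤ R ∧ ∀ k W,
    ∃ G : Geo (BaseFam σ k χ (4 * 2 ^ q + 1) R W), G.Ok Sum.inl q := by
  obtain ⟨ρ, hL⟩ := exists_rad χ (2 ^ q) Nat.one_le_two_pow
  have h0 : 2 * ρ.D + 1 ≤ 4 * 2 ^ q + 1 := by rw [Rad.D, hL]; omega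
  refine ⟨4 * ρ.s + (4 * 2 ^ q + 1), by omega, fun k W => ?_⟩
  obtain ⟨o, ho⟩ := exists_vord ρ W
  obtain ⟨r0, hr⟩ := exists_r0 (σ := σ) (k := k) (W := W) h0 (Nat.le_add_right _ (4 * 2 ^ q + 1))
  exact ⟨_, baseGeo_ok hL h0 (Nat.le_add_right _ _) ho hr⟩

end Pool.Agent.Work.MP_b730b2_lc.Full
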