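import Pool.Agent.Work.MP_b730b2_lc.Full.Geo
import Mathlib.Data.Set.Finite.List

/-! The geometry of a coloured structure with bounded weak reachability: definitions. -/

namespace Pool.Agent.Work.MP_b730b2_lc.Full

open Set

/-- Structures with an order of bounded weak reachability and a proper colouring. -/
structure BaseK (σ : Type) (k χ R0 R W : ℕ) where
  V : Type
  fin : Finite V
  A : Rl σ V
  pos : V → ℕ
  col : V → Fin χ
  inj : Function.Injective pos
  bd : ∀ d ≤ R, ∀ v, {u | WR A.adj pos d v u}.ncard ≤ W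
  prop : ∀ v u, WR A.adj pos R0 v u → u ≠ v → col u ≠ col v
  ne : Nonempty V
  diam : ∀ x y, Wk A.adj (fun _ => True) 2 x y
  wid : Wid A.adj k

variable {σ : Type} {k χ R0 R W : ℕ}

instance BaseK.finite (B : BaseK σ k χ R0 R W) : Finite B.V := B.fin

/-- The relations of a base structure. -/
def BaseK.rl (B : BaseK σ k χ R0 R W) : Rl (σ ⊕ Fin (R + 1) ⊕ Fin χ) B.V
  | Sum.inl r => B.A r
  | Sum.inr (Sum.inl d) => WR B.A.adj B.pos d
  | Sum.inr (Sum.inr c) => fun x y => x = y ∧ B.col x = c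

/-- The family of base structures. -/
def BaseFam (σ : Type) (k χ R0 R W : ℕ) : Fam (σ ⊕ Fin (R + 1) ⊕ Fin χ) :=
  ⟨BaseK σ k χ R0 R W, BaseK.V, BaseK.rl, BaseK.fin⟩

/-- Short lists of colours. -/
abbrev Nd (χ : ℕ) : Type := {l : List (Fin χ) // l.length ≤ χ}

/-- Views. -/
structure Vw (χ W : ℕ) where
  nd : Nd χ
  len : Fin (W + 1)
  idx : Fin (W + 1) → Fin (W + 1)
  e : Fin (W + 1)

/-- The radii: `L` is the margin, `rk` ranks the nodes, `M` bounds the ranks. -/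
structure Rad (χ : ℕ) where
  L : ℕ
  rk : Nd χ → ℕ
  M : ℕ
  L_pos : 1 ≤ L
  rk_inj : Function.Injective rk
  rk_lt : ∀ a b : Nd χ, a.1.length < b.1.length → rk b < rk a
  rk_le : ∀ a, rk a ≤ M

/-- The radius of centres. -/
def Rad.D (ρ : Rad χ) : ℕ := 2 * ρ.L

/-- The radius of the list of a node. -/
def Rad.r (ρ : Rad χ) (a : Nd χ) : ℕ := 2 * ρ.D * (ρ.rk a + 1)

/-- The radius of the list of ancestors. -/
def Rad.s (ρ : Rad χ) : ℕ := 2 * ρ.D * (ρ.M + 1) + ρ.D

namespace BaseK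

variable (B : BaseK σ k χ R0 R W) (ρ : Rad χ)

/-- `u` is the `e`-th element from the top among the vertices weakly `d`-reachable from `s`. -/
def Dn (d : ℕ) (s : B.V) (e : ℕ) (u : B.V) : Prop :=
  WR B.A.adj B.pos d s u ∧ {z | WR B.A.adj B.pos d s z ∧ B.pos u < B.pos z}.ncard = e

/-- `s` is the centre of colour `c` of `x`. -/
def Cen (c : Fin χ) (x s : B.V) : Prop := WR B.A.adj B.pos ρ.D x s ∧ B.col s = c

/-- The centres of `x` with the listed colours form a decreasing chain below `s`. -/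
def Chn : List (Fin χ) → B.V → B.V → Prop
  | [], _, _ => True
  | c :: ν, x, s => ∃ t, B.Cen ρ c x t ∧ B.pos t < B.pos s ∧ Chn ν x t

/-- The arena of a node with top centre `t`. -/
def Arena (c : Fin χ) (ν : List (Fin χ)) (t x : B.V) : Prop :=
  B.Cen ρ c x t ∧ x ≠ t ∧ B.Chn ρ ν x t

/-- `x` is in the domain of the view, with item `u` and owner `o`. -/
def VR (v : Vw χ W) (x u o : B.V) : Prop :=
  ∃ c' c ν s t, v.nd.1 = c' :: c :: ν ∧ B.Cen ρ c' x s ∧ B.Cen ρ c x t ∧ B.pos t < B.pos s ∧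
    B.Chn ρ ν x t ∧ B.Dn (ρ.r v.nd) s v.len t ∧
    (∀ i : Fin (W + 1), i < v.len → ∀ a b, B.Dn (ρ.r v.nd) s i a → B.Dn (ρ.r v.nd) s (i + 1) b →
      B.Dn (2 * ρ.r v.nd) a (v.idx i) b) ∧
    v.e < v.len ∧ B.Dn (ρ.r v.nd) s v.e u ∧ B.Dn (ρ.r v.nd) s (v.e + 1) o

/-- The domain of a view. -/
def dom (v : Vw χ W) (x : B.V) : Prop := ∃ u o, B.VR ρ v x u o

open Classical in
/-- The item of a point. -/
noncomputable def it (v : Vw χ W) (x : B.V) : B.V := if h : B.dom ρ v x then h.choose else x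

open Classical in
/-- The owner of a point. -/
noncomputable def ow (v : Vw χ W) (x : B.V) : B.V :=
  if h : B.dom ρ v x then h.choose_spec.choose else x

/-- The position of `u` in the list of ancestors of `x`. -/
noncomputable def ps (x u : B.V) : ℕ := {z | WR B.A.adj B.pos ρ.s x z ∧ B.pos z < B.pos u}.ncard

open Classical in
/-- The ancestor at position `p`. -/
noncomputable def anc (x : B.V) (p : ℕ) : B.V :=
  if h : ∃ u, WR B.A.adj B.pos ρ.s x u ∧ B.ps ρ x u = p then h.choose else x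

/-- The least vertex. -/
noncomputable def bot : B.V :=
  (exists_min_image univ B.pos (toFinite _) (@univ_nonempty _ B.ne)).choose

/-- The ball of radius `j` around `x` in its arena is inside the domain of the view. -/
def Hm (v : Vw χ W) (j : ℕ) (x : B.V) : Prop :=
  ∀ c' c ν, v.nd.1 = c' :: c :: ν → ∀ t y, B.Cen ρ c x t →
    Wk B.A.adj (B.Arena ρ c ν t) j x y → B.dom ρ v y

theorem VR_it_ow {v : Vw χ W} {x : B.V} (h : B.dom ρ v x) : B.VR ρ v x (B.it ρ v x) (B.ow ρ v x) := by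
  simp only [it, ow, dif_pos h]
  exact h.choose_spec.choose_spec

theorem bot_le (x : B.V) : B.pos B.bot ≤ B.pos x :=
  (exists_min_image univ B.pos (toFinite _) (@univ_nonempty _ B.ne)).choose_spec.2 x trivial

end BaseK

/-- The properties of a point which are determined by its label. -/
structure LInv (ρ : Rad χ) (B B' : BaseK σ k χ R0 R W) (x : B.V) (x' : B'.V) : Prop where
  dom : ∀ v, B.dom ρ v x → B'.dom ρ v x'
  it : ∀ v, B.dom ρ v x → B.ps ρ x (B.it ρ v x) = B'.ps ρ x' (B'.it ρ v x')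
  ow : ∀ v, B.dom ρ v x → B.ps ρ x (B.ow ρ v x) = B'.ps ρ x' (B'.ow ρ v x')
  self : B.ps ρ x x = B'.ps ρ x' x'
  code : ∀ p ≤ W, ∀ p' ≤ W, ∀ e ≤ W, B.Dn (2 * ρ.s) (B.anc ρ x p) e (B.anc ρ x p') →
    B'.Dn (2 * ρ.s) (B'.anc ρ x' p) e (B'.anc ρ x' p')
  col : B.col x = B'.col x'
  loop : ∀ r, B.A r x x → B'.A r x' x'
  rel1 : ∀ r c, (∃ s, B.Cen ρ c x s ∧ B.A r x s) → ∃ s, B'.Cen ρ c x' s ∧ B'.A r x' s
  rel2 : ∀ r c, (∃ s, B.Cen ρ c x s ∧ B.A r s x) → ∃ s, B'.Cen ρ c x' s ∧ B'.A r s x'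
  top : ∀ v, B.dom ρ v x → B.it ρ v x = x → B'.it ρ v x' = x'
  hm : ∀ v, ∀ j ≤ ρ.L, B.Hm ρ v j x → B'.Hm ρ v j x'

instance Vw.finite (χ W : ℕ) : Finite (Vw χ W) :=
  haveI : Finite (Nd χ) := (List.finite_length_le (Fin χ) χ).to_subtype
  Finite.of_injective (fun v : Vw χ W => (v.nd, v.len, v.idx, v.e)) (by
    rintro ⟨_, _, _, _⟩ ⟨_, _, _, _⟩ h
    simp only [Prod.mk.injEq] at h
    obtain ⟨rfl, rfl, rfl, rfl⟩ := h
    rfl)

/-- A linear order of the views which follows the ranks of the nodes and the steps. -/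
structure VOrd (ρ : Rad χ) (W : ℕ) (o : LinearOrder (Vw χ W)) : Prop where
  rk : ∀ v v' : Vw χ W, ρ.rk v.nd < ρ.rk v'.nd → o.lt v v'
  step : ∀ v v' : Vw χ W, v.nd = v'.nd → v.len = v'.len → v.idx = v'.idx → v.e < v'.e → o.lt v v'

/-- The geometry, for labels given by the types of rank `r0`. -/
noncomputable def baseGeo (σ : Type) [Finite σ] (k R0 R W : ℕ) (ρ : Rad χ)
    (o : LinearOrder (Vw χ W)) (r0 : ℕ) : Geo (BaseFam σ k χ R0 R W) where
  View := Vw χ W
  lin := o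
  finV := inferInstance
  Λ := Ty Empty (σ ⊕ Fin (R + 1) ⊕ Fin χ) r0 1
  finΛ := inferInstance
  el := fun c => Finite.equivFin _ c
  W := W
  bt := fun B => B.pos
  lab := fun B x => tp (BaseK.rl B).str r0 (fun _ : Fin 1 => x)
  anc := fun B => BaseK.anc B ρ
  ps := fun B => BaseK.ps B ρ
  dom := fun B => BaseK.dom B ρ
  it := fun B => BaseK.it B ρ
  ow := fun B => BaseK.ow B ρ
  bot := fun B => BaseK.bot B

end Pool.Agent.Work.MP_b730b2_lc.Full
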