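import Pool.Agent.Work.MP_b730b2_lc.Full.Geo

/-! Properties of the order defined by coherent marks.

Proof plan. Index positions are pairs `(p, ⊥)` and `(p, v)`. Basic lemma (A): let `x, y` have equal
labels and `anc x p0 = anc y p0`; let `i = (p, v')` with `dom v' x`, `ps (ow v') = p` and
`ps (it v') ≤ p0`, and suppose all entries of the keys before `i` agree. Then the entries at `i`
agree: the items agree by `anc_det`, and the cells for `v'` agree because an entry `v'' < v'` of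
`LK (Iio v') (it v' x) x` has `ps (ow v'') < ps (it v')`, hence `ps (ow v'') ≤ p` by `cross_ow`, so it
is a key entry before `i`; use `Coh`. Entries `(p, ⊥)` with `p ≤ p0` agree by `anc_det`.
For `x, y` in the same instance of `v` with equal labels take `p0 = ps (ow v)`: an index before
`(p0, v)` is `(p, ⊥)`, or `(p, v')` with `v' < v` (an entry of `LK (Iio v) (it v x) x`), or has `v < v'`
and `p < p0`, where `cross_ow` gives `ps (it v') ≤ p0` and (A) applies. So the first difference of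
the keys before `(p0, v)` is at an entry of the cell: this gives `lt_cross` (the positions only
depend on labels) and `lt_mark`. For `x, x'` in the same item and cell take `p0 = ps (it v)`: all
entries up to `(p0, ⊥)` agree (an index `(p, v')` strictly between has `v < v'` by `cross_ow`, and
`ps (it v') ≤ p0` by `cross_it`), while points of different items with equal labels differ at
`(p0, ⊥)`; this gives `lt_convex`. `exists_rank`: `Pi.Lex` on functions on a well-order is a linear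
order; the key is injective by `anc_top`; use `exists_pos`. -/

namespace Pool.Agent.Work.MP_b730b2_lc.Full

open Set

namespace Geo

variable {σ0 σ1 : Type} {Φ : Fam σ1} {G : Geo Φ} {ι : σ0 → σ1} {q : ℕ} {K K' : Φ.K}
  {μ : G.View → Φ.V K → ℤ} {μ' : G.View → Φ.V K' → ℤ} {v : G.View}

theorem key_bot (x : Φ.V K) (p : ℕ) : G.key K μ x (toLex (p, ⊥)) = G.bt K (G.anc K x p) := rfl

open Classical in
theorem key_coe (x : Φ.V K) (p : ℕ) (v : G.View) : G.key K μ x (toLex (p, (v : WithBot G.View))) =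
    if G.dom K v x ∧ G.ps K x (G.ow K v x) = p then μ v x else 0 := rfl

theorem key_cell (hG : G.Ok ι q) {x y : Φ.V K} (hl : G.lab K x = G.lab K y) (hx : G.dom K v x) :
    G.key K μ y (toLex (G.ps K x (G.ow K v x), (v : WithBot G.View))) = μ v y := by
  rw [key_coe, if_pos ⟨hG.inv_dom _ _ _ _ _ hl hx, (hG.inv_ow _ _ _ _ _ hl hx).symm⟩]

/-- The entries of the cell of `x` for `v`. -/
def Key_cond (G : Geo Φ) (K : Φ.K) (v : G.View) (x : Φ.V K) (w : G.View) : Prop :=
  w < v ∧ G.dom K w x ∧ G.ps K x (G.ow K w x) < G.ps K x (G.it K v x)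

theorem Key_cond_inv (hG : G.Ok ι q) {x : Φ.V K} {x' : Φ.V K'} (hl : G.lab K x = G.lab K' x')
    (hx : G.dom K v x) {w : G.View} (h : Key_cond G K v x w) : Key_cond G K' v x' w :=
  ⟨h.1, hG.inv_dom _ _ _ _ _ hl h.2.1, by
    rw [← hG.inv_ow _ _ _ _ _ hl h.2.1, ← hG.inv_it _ _ _ _ _ hl hx]; exact h.2.2⟩

theorem Key_cell_eq (hG : G.Ok ι q) {x : Φ.V K} {x' : Φ.V K'} (hl : G.lab K x = G.lab K' x')
    (hx : G.dom K v x) :
    G.cell K μ v x = G.cell K' μ' v x' ↔ ∀ w, Key_cond G K v x w → μ w x = μ' w x' := by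
  constructor
  · intro e w hw
    have := congrFun (congrArg Prod.snd e) w
    simp only [cell, LK] at this
    exact (if_pos hw).symm.trans (this.trans (if_pos (Key_cond_inv hG hl hx hw)))
  · intro e
    refine Prod.ext hl (funext fun w => ?_)
    simp only [cell, LK]
    by_cases hw : Key_cond G K v x w
    · exact (if_pos hw).trans ((e w hw).trans (if_pos (Key_cond_inv hG hl hx hw)).symm)
    · exact (if_neg hw).trans (if_neg fun h => hw
        (Key_cond_inv hG hl.symm (hG.inv_dom _ _ _ _ _ hl hx) h)).symm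

theorem Key_cond_lt (hG : G.Ok ι q) {x : Φ.V K} (hx : G.dom K v x) {w : G.View}
    (h : Key_cond G K v x w) : toLex (G.ps K x (G.ow K w x), (w : WithBot G.View)) <
      toLex (G.ps K x (G.ow K v x), (v : WithBot G.View)) := by
  have : G.ps K x (G.ow K w x) ≤ G.ps K x (G.ow K v x) :=
    not_lt.1 fun e => (hG.cross_ow _ _ _ _ h.1 hx h.2.1 e).not_gt h.2.2
  rw [Prod.Lex.toLex_lt_toLex]
  exact this.lt_or_eq.imp id fun e => ⟨e, WithBot.coe_lt_coe.2 h.1⟩

theorem Key_item (hG : G.Ok ι q) {x y : Φ.V K} (hl : G.lab K x = G.lab K y) {p0 : ℕ}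
    (ha : G.anc K x p0 = G.anc K y p0) (hx : G.dom K v x) (hp : G.ps K x (G.it K v x) ≤ p0) :
    G.it K v x = G.it K v y := by
  rw [← hG.anc_it _ _ _ hx, hG.anc_det _ _ _ _ _ hl ha hp, hG.inv_it _ _ _ _ _ hl hx,
    hG.anc_it _ _ _ (hG.inv_dom _ _ _ _ _ hl hx)]

theorem Key_A (hG : G.Ok ι q) (h : G.Coh K μ univ) {x y : Φ.V K} (hl : G.lab K x = G.lab K y)
    {p0 : ℕ} (ha : G.anc K x p0 = G.anc K y p0) (hx : G.dom K v x)
    (hp : G.ps K x (G.it K v x) ≤ p0)
    (e : ∀ j < toLex (G.ps K x (G.ow K v x), (v : WithBot G.View)),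
      G.key K μ x j = G.key K μ y j) : μ v x = μ v y :=
  h v trivial x y hx (hG.inv_dom _ _ _ _ _ hl hx) (Key_item hG hl ha hx hp)
    ((Key_cell_eq hG hl hx).2 fun w hw => by
      rw [← key_cell (μ := μ) hG rfl hw.2.1, e _ (Key_cond_lt hG hx hw), key_cell hG hl hw.2.1])

/-- Reduction of an entry to the two kinds of active entries. -/
theorem Key_entry (hG : G.Ok ι q) {x y : Φ.V K} (hl : G.lab K x = G.lab K y)
    (i : ℕ ×ₗ WithBot G.View) (h1 : ∀ p, i = toLex (p, ⊥) → G.anc K x p = G.anc K y p)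
    (h2 : ∀ w, G.dom K w x → i = toLex (G.ps K x (G.ow K w x), (w : WithBot G.View)) →
      μ w x = μ w y) : G.key K μ x i = G.key K μ y i := by
  obtain ⟨p, a⟩ := i
  induction a using WithBot.recBotCoe with
  | bot => exact congrArg (fun z => (G.bt K z : ℤ)) (h1 p rfl)
  | coe w =>
    change G.key K μ x (toLex (p, (w : WithBot G.View))) = G.key K μ y (toLex (p, _))
    by_cases c : G.dom K w x ∧ G.ps K x (G.ow K w x) = p
    · obtain ⟨c, rfl⟩ := c
      rw [key_cell hG rfl c, key_cell hG hl c, h2 w c rfl]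
    · rw [key_coe, key_coe, if_neg c, if_neg fun c' => c ⟨hG.inv_dom _ _ _ _ _ hl.symm c'.1,
        (hG.inv_ow _ _ _ _ _ hl.symm c'.1).symm.trans c'.2⟩]

theorem Key_B (hG : G.Ok ι q) (h : G.Coh K μ univ) {x y : Φ.V K} (hl : G.lab K x = G.lab K y)
    (hx : G.dom K v x) (ho : G.ow K v x = G.ow K v y) {i0 : ℕ ×ₗ WithBot G.View}
    (h0 : i0 ≤ toLex (G.ps K x (G.ow K v x), (v : WithBot G.View)))
    (e : ∀ w, Key_cond G K v x w → toLex (G.ps K x (G.ow K w x), (w : WithBot G.View)) < i0 →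
      μ w x = μ w y) : ∀ j < i0, G.key K μ x j = G.key K μ y j := by
  have ha : G.anc K x (G.ps K x (G.ow K v x)) = G.anc K y (G.ps K x (G.ow K v x)) := by
    rw [hG.anc_ow _ _ _ hx, hG.inv_ow _ _ _ _ _ hl hx,
      hG.anc_ow _ _ _ (hG.inv_dom _ _ _ _ _ hl hx), ho]
  intro j
  induction j using WellFoundedLT.induction with
  | ind j ih =>
    intro hj
    have hj' := hj.trans_le h0
    refine Key_entry hG hl j (fun p e' => ?_) fun w hw e' => ?_
    · rw [e', Prod.Lex.toLex_lt_toLex] at hj'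
      exact hG.anc_det _ _ _ _ _ hl ha (hj'.elim le_of_lt fun e => e.1.le)
    · rw [e', Prod.Lex.toLex_lt_toLex] at hj'
      rcases lt_trichotomy w v with c | rfl | c
      · exact e w ⟨c, hw, (hj'.elim le_of_lt fun e => e.1.le).trans_lt (hG.ow_lt _ _ _ hx)⟩
          (e' ▸ hj)
      · simp at hj'
      · refine Key_A hG h hl ha hw (hG.cross_ow _ _ _ _ c hw hx (hj'.resolve_right fun e =>
          c.not_gt (WithBot.coe_lt_coe.1 e.2))) fun j' hj'' => ih j' (e' ▸ hj'') ?_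
        exact (e' ▸ hj'' : j' < j).trans hj

theorem Key_lex {I : Type} [LinearOrder I] {f g : I → ℤ} {i0 : I} (h : ∀ j < i0, f j = g j)
    (hne : f i0 ≠ g i0) : (∃ i, (∀ j < i, f j = g j) ∧ f i < g i) ↔ f i0 < g i0 := by
  refine ⟨fun ⟨i, h1, h2⟩ => ?_, fun e => ⟨i0, h, e⟩⟩
  rcases lt_trichotomy i i0 with c | rfl | c
  · exact absurd (h i c) h2.ne
  · exact h2
  · exact absurd (h1 i0 c) hne

theorem Key_lt (hG : G.Ok ι q) {x y : Φ.V K} (hl : G.lab K x = G.lab K y) : G.lt K μ x y ↔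
    ∃ i, (∀ j < i, G.key K μ x j = G.key K μ y j) ∧ G.key K μ x i < G.key K μ y i := by
  simp [Geo.lt, hl]

theorem Key_E (hG : G.Ok ι q) (h : G.Coh K μ univ) {x y : Φ.V K} (hl : G.lab K x = G.lab K y)
    (hx : G.dom K v x) (ho : G.ow K v x = G.ow K v y) {w : G.View} (hw : Key_cond G K v x w)
    (hne : μ w x ≠ μ w y)
    (e : ∀ w', Key_cond G K v x w' → toLex (G.ps K x (G.ow K w' x), (w' : WithBot G.View)) <
      toLex (G.ps K x (G.ow K w x), (w : WithBot G.View)) → μ w' x = μ w' y) :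
    G.lt K μ x y ↔ μ w x < μ w y := by
  rw [Key_lt hG hl, Key_lex (Key_B hG h hl hx ho (Key_cond_lt hG hx hw).le e)
    (by rwa [key_cell hG rfl hw.2.1, key_cell hG hl hw.2.1]), key_cell hG rfl hw.2.1,
    key_cell hG hl hw.2.1]

theorem Key_C (hG : G.Ok ι q) (h : G.Coh K μ univ) {x y : Φ.V K} (hx : G.dom K v x)
    (e : G.cell K μ v x = G.cell K μ v y) (hi : G.it K v x = G.it K v y) :
    ∀ j ≤ toLex (G.ps K x (G.it K v x), ⊥), G.key K μ x j = G.key K μ y j := by
  have hl : G.lab K x = G.lab K y := congrArg Prod.fst e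
  have hy := hG.inv_dom _ _ _ _ _ hl hx
  have ha : G.anc K x (G.ps K x (G.it K v x)) = G.anc K y (G.ps K x (G.it K v x)) := by
    rw [hG.anc_it _ _ _ hx, hG.inv_it _ _ _ _ _ hl hx, hG.anc_it _ _ _ hy, hi]
  intro j
  induction j using WellFoundedLT.induction with
  | ind j ih =>
    intro hj
    refine Key_entry hG hl j (fun p e' => ?_) fun w hw e' => ?_
    · rw [e', Prod.Lex.toLex_le_toLex] at hj
      exact hG.anc_det _ _ _ _ _ hl ha (hj.elim le_of_lt fun e => e.1.le)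
    · have hj' := hj
      rw [e', Prod.Lex.toLex_le_toLex] at hj'
      have h1 : G.ps K x (G.ow K w x) < G.ps K x (G.it K v x) :=
        hj'.resolve_right fun e => by simpa using e.2
      rcases lt_trichotomy w v with c | rfl | c
      · exact (Key_cell_eq hG hl hx).1 e w ⟨c, hw, h1⟩
      · exact h w trivial x y hx hy hi e
      · refine Key_A hG h hl ha hw (hG.cross_it _ _ _ _ c hw hx h1) fun j' hj'' =>
          ih j' (e' ▸ hj'') ?_
        exact (e' ▸ hj'' : j' < j).le.trans hj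

theorem exists_rank (hG : G.Ok ι q) (μ : G.View → Φ.V K → ℤ) :
    ∃ pos : Φ.V K → ℕ, Function.Injective pos ∧ ∀ x y, pos x < pos y ↔ G.lt K μ x y := by
  obtain ⟨pos, h1, h2⟩ := exists_pos (β := ℕ ×ₗ Lex (ℕ ×ₗ WithBot G.View → ℤ))
    (fun x : Φ.V K => toLex (G.el (G.lab K x), toLex (G.key K μ x))) fun x y e => by
      have : G.key K μ x (toLex (G.W, ⊥)) = G.key K μ y (toLex (G.W, ⊥)) :=
        congrFun (congrArg Prod.snd (toLex.injective e)) (toLex (G.W, ⊥))
      rw [key_bot, key_bot, hG.anc_top, hG.anc_top] at this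
      exact hG.bt_inj K (Nat.cast_injective this)
  refine ⟨pos, h1, fun x y => ?_⟩
  rw [h2, Prod.Lex.toLex_lt_toLex, Geo.lt, hG.el_inj.eq_iff]
  rfl

theorem lt_LM (hG : G.Ok ι q) (μ : G.View → Φ.V K → ℤ) : G.LM K (G.lt K μ) :=
  ⟨fun x => by simp [Geo.lt], fun x y h => by simp [Geo.lt, h]⟩

theorem lt_cross (hG : G.Ok ι q) (h : G.Coh K μ univ) (h' : G.Coh K' μ' univ) {x y : Φ.V K}
    {x' y' : Φ.V K'} (hx : G.dom K v x) (hy : G.dom K v y) (ho : G.ow K v x = G.ow K v y)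
    (ho' : G.ow K' v x' = G.ow K' v y') (e1 : G.cell K μ v x = G.cell K' μ' v x')
    (e2 : G.cell K μ v y = G.cell K' μ' v y') (hne : G.cell K μ v x ≠ G.cell K μ v y) :
    G.lt K μ x y ↔ G.lt K' μ' x' y' := by
  have l1 : G.lab K x = G.lab K' x' := congrArg Prod.fst e1
  have l2 : G.lab K y = G.lab K' y' := congrArg Prod.fst e2
  by_cases hl : G.lab K x = G.lab K y
  swap
  · rw [(lt_LM hG μ).2 x y hl, (lt_LM hG μ').2 x' y' (by rwa [← l1, ← l2]), l1, l2]
  have hx' := hG.inv_dom _ _ _ _ _ l1 hx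
  rw [Key_cell_eq hG l1 hx] at e1
  rw [Key_cell_eq hG l2 hy] at e2
  rw [Ne, Key_cell_eq hG hl hx] at hne
  push Not at hne
  obtain ⟨w, ⟨hw, hw'⟩, hm⟩ := exists_min_image {w | Key_cond G K v x w ∧ μ w x ≠ μ w y}
    (fun w => toLex (G.ps K x (G.ow K w x), (w : WithBot G.View))) (toFinite _) hne
  have a1 := e1 w hw
  have a2 := e2 w (Key_cond_inv hG hl hx hw)
  rw [Key_E hG h hl hx ho hw hw' fun w' h1 h2 => by_contra fun h3 => h2.not_ge (hm w' ⟨h1, h3⟩),
    Key_E hG h' (l1.symm.trans (hl.trans l2)) hx' ho' (Key_cond_inv hG l1 hx hw)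
      (by rwa [← a1, ← a2]) fun w' h1 h2 => ?_, a1, a2]
  have h4 := Key_cond_inv hG l1.symm hx' h1
  rw [← hG.inv_ow _ _ _ _ _ l1 h4.2.1, ← hG.inv_ow _ _ _ _ _ l1 hw.2.1] at h2
  rw [← e1 w' h4, ← e2 w' (Key_cond_inv hG hl hx h4)]
  exact by_contra fun h3 => h2.not_ge (hm w' ⟨h4, h3⟩)

theorem lt_mark (hG : G.Ok ι q) (h : G.Coh K μ univ) {x y : Φ.V K} (hx : G.dom K v x)
    (hy : G.dom K v y) (ho : G.ow K v x = G.ow K v y) (e : G.cell K μ v x = G.cell K μ v y)
    (hm : μ v x < μ v y) : G.lt K μ x y := by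
  have hl : G.lab K x = G.lab K y := congrArg Prod.fst e
  refine (Key_lt hG hl).2 ⟨_, Key_B hG h hl hx ho le_rfl fun w hw _ =>
    (Key_cell_eq hG hl hx).1 e w hw, ?_⟩
  rwa [key_cell hG rfl hx, key_cell hG hl hx]

theorem lt_convex (hG : G.Ok ι q) (h : G.Coh K μ univ) {x y x1 y1 : Φ.V K} (hx : G.dom K v x)
    (hy : G.dom K v y) (hx1 : G.dom K v x1) (hy1 : G.dom K v y1)
    (e : G.cell K μ v x = G.cell K μ v y) (ex : G.cell K μ v x = G.cell K μ v x1)
    (ey : G.cell K μ v y = G.cell K μ v y1) (ix : G.it K v x = G.it K v x1)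
    (iy : G.it K v y = G.it K v y1) (hne : G.it K v x ≠ G.it K v y) :
    G.lt K μ x y ↔ G.lt K μ x1 y1 := by
  have hl : G.lab K x = G.lab K y := congrArg Prod.fst e
  have lx : G.lab K x = G.lab K x1 := congrArg Prod.fst ex
  have ly : G.lab K y = G.lab K y1 := congrArg Prod.fst ey
  have c1 := Key_C hG h hx ex ix
  have c2 := Key_C hG h hy ey iy
  rw [← hG.inv_it _ _ _ _ _ hl hx] at c2
  have c3 : G.key K μ x (toLex (G.ps K x (G.it K v x), ⊥)) ≠
      G.key K μ y (toLex (G.ps K x (G.it K v x), ⊥)) := fun e' => by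
    rw [key_bot, key_bot, hG.anc_it _ _ _ hx, hG.inv_it _ _ _ _ _ hl hx, hG.anc_it _ _ _ hy] at e'
    exact hne (hG.bt_inj K (Nat.cast_injective e'))
  rw [Key_lt hG hl, Key_lt hG (lx.symm.trans (hl.trans ly))]
  constructor
  · rintro ⟨i, h1, h2⟩
    have hi := not_lt.1 fun c => c3 (h1 _ c)
    exact ⟨i, fun j hj => by rw [← c1 j (hj.le.trans hi), ← c2 j (hj.le.trans hi), h1 j hj],
      by rwa [← c1 i hi, ← c2 i hi]⟩
  · rintro ⟨i, h1, h2⟩
    have hi := not_lt.1 fun c => c3 (by rw [c1 _ le_rfl, c2 _ le_rfl, h1 _ c])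
    exact ⟨i, fun j hj => by rw [c1 j (hj.le.trans hi), c2 j (hj.le.trans hi), h1 j hj],
      by rwa [c1 i hi, c2 i hi]⟩

/-- Marks of a later view with an earlier owner are constant on the cells of an instance. -/
theorem mark_const (hG : G.Ok ι q) (h : G.Coh K μ {v}) {v' : G.View} (hv : v' < v) {x y : Φ.V K}
    (hx : G.dom K v' x) (ho : G.ow K v' x = G.ow K v' y) (hl : G.lab K x = G.lab K y)
    (e : G.LK K μ (Iio v) (G.ow K v' x) x = G.LK K μ (Iio v) (G.ow K v' y) y) (hx' : G.dom K v x)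
    (hp : G.ps K x (G.ow K v x) < G.ps K x (G.ow K v' x)) : μ v x = μ v y := by
  have h1 := hG.cross_ow _ _ _ _ hv hx' hx hp
  have ha : G.anc K x (G.ps K x (G.ow K v' x)) = G.anc K y (G.ps K x (G.ow K v' x)) := by
    rw [hG.anc_ow _ _ _ hx, hG.inv_ow _ _ _ _ _ hl hx,
      hG.anc_ow _ _ _ (hG.inv_dom _ _ _ _ _ hl hx), ho]
  refine h v rfl x y hx' (hG.inv_dom _ _ _ _ _ hl hx') (Key_item hG hl ha hx' h1)
    ((Key_cell_eq hG hl hx').2 fun w hw => ?_)
  have := congrFun e w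
  simp only [LK] at this
  rwa [if_pos ⟨hw.1, hw.2.1, hw.2.2.trans_le h1⟩, if_pos ⟨hw.1, hG.inv_dom _ _ _ _ _ hl hw.2.1, by
    rw [← hG.inv_ow _ _ _ _ _ hl hw.2.1, ← hG.inv_ow _ _ _ _ _ hl hx]
    exact hw.2.2.trans_le h1⟩] at this

end Geo

end Pool.Agent.Work.MP_b730b2_lc.Full
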