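import Pool.Agent.Work.MP_b730b2_lc.Full.StageStep
import Pool.Agent.Work.MP_b730b2_lc.Full.GeoC
import Pool.Agent.Work.MP_b730b2_lc.Full.Comps

/-! Equivalent structures of bounded width have equivalent orders. -/

namespace Pool.Agent.Work.MP_b730b2_lc.Full

open Set

/-- Finite structures of width `k` and diameter two. -/
structure WK (σ : Type) (k : ℕ) where
  V : Type
  fin : Finite V
  A : Rl σ V
  ne : Nonempty V
  diam : ∀ x y, Wk A.adj (fun _ => True) 2 x y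
  wid : Wid A.adj k

theorem wid_main (σ : Type) [Finite σ] (k q : ℕ) : ∃ n, ∀ B B' : WK σ k,
    EF B.A.str B'.A.str n ∅ → ∃ pos pos', Function.Injective pos ∧ Function.Injective pos' ∧
      EF (OStr B.A id pos) (OStr B'.A id pos') q ∅ := by
  let R0 := 4 * 2 ^ q + 1
  let χ := 6 * Wb (3 * k + 1) R0 + 1
  obtain ⟨R, hR, hG⟩ := exists_geo σ q χ
  let W := Wb (3 * k + 1) R
  obtain ⟨G, hG⟩ := hG k W
  have adj1 : ∀ (B : BaseK σ k χ R0 R W) x y, B.A.adj x y → B.rl.adj x y :=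
    fun B x y h => ⟨h.1, let ⟨r, h⟩ := h.2; ⟨Sum.inl r, h⟩⟩
  obtain ⟨n1, h1⟩ := geo_main hG (k := (k + 1) * W) (fun B => by
      refine wid_star B.A.adj_symm B.wid B.pos (B.bd R le_rfl) ?_
      rintro x y ⟨hne, r | d | c, h⟩
      · exact Or.inl ⟨hne, r, h⟩
      · exact Or.inr (h.imp (fun h => WR.le h (Nat.lt_succ_iff.1 d.2))
          (fun h => WR.le h (Nat.lt_succ_iff.1 d.2)))
      · exact absurd (h.elim (fun h => h.1) (fun h => h.1.symm)) hne)
    (fun B => B.ne) (fun B x y => (B.diam x y).mono' (adj1 B) fun _ h => h)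
  let X : Cx σ := ⟨⟨WK σ k, WK.V, WK.A, WK.fin⟩, Empty, k, R, R0, χ, 0, fun _ _ _ => True⟩
  have hX : X.Ok := ⟨inferInstance, inferInstanceAs (Finite Empty), hR, Nat.lt_succ_self _,
    fun B => B.wid, fun _ _ => ⟨fun e => e.elim, trivial⟩, fun _ _ _ j => j.elim,
    fun _ _ _ => Df.const True⟩
  obtain ⟨n, hn⟩ := planting hX (fun B => B.ne) (fun B => B.diam) n1
  refine ⟨n, fun B B' h => ?_⟩
  obtain ⟨e, e', f, f', h⟩ := hn B B' h
  let C : BaseK σ k χ R0 R W := ⟨B.V, B.fin, B.A, e.pos, e.col, f.inj,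
    fun d hd v => (f.bd d hd v).trans (Wb_mono _ hd), f.prop, B.ne, B.diam, B.wid⟩
  let C' : BaseK σ k χ R0 R W := ⟨B'.V, B'.fin, B'.A, e'.pos, e'.col, f'.inj,
    fun d hd v => (f'.bd d hd v).trans (Wb_mono _ hd), f'.prop, B'.ne, B'.diam, B'.wid⟩
  have h2 : Eqv C.rl C'.rl n1 (Empty.elim : Empty → _) Empty.elim := by
    refine Eqv.reduct (Sum.map id (Sum.map id Sum.inl)) ?_ ?_ (eqv_empty.2 h)
    · rintro (r | d | c) <;> rfl
    · rintro (r | d | c) <;> rfl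
  exact h1 C C' (eqv_empty.1 h2)

end Pool.Agent.Work.MP_b730b2_lc.Full
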