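import Pool.Agent.Work.MP_b730b2_lc.Full.Df

/-! Definitions for the planting theorem. -/

namespace Pool.Agent.Work.MP_b730b2_lc.Full

open Set

section tuples
variable {σ V : Type} {n : ℕ}

/-- The hubs of a tuple. -/
def hubs (hb : Fin (n + 1) → Prop) (Y : Fin (n + 1) → V) : Set V := {u | ∃ i, hb i ∧ Y i = u}

/-- The entries of a tuple which are not hubs. -/
def nhs (hb : Fin (n + 1) → Prop) (Y : Fin (n + 1) → V) : Set V := {u | ∃ i, ¬ hb i ∧ Y i = u}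

/-- The ball around the centre `Y 0` after removing the hubs. -/
def Bl (adj : V → V → Prop) (hb : Fin (n + 1) → Prop) (Y : Fin (n + 1) → V) (r : ℕ) (z : V) :
    Prop := Wk adj (fun v => v ∉ hubs hb Y) r (Y 0) z

/-- The tuple is injective and everything is close to its centre. -/
def Shape (adj : V → V → Prop) (δ : ℕ) (hb : Fin (n + 1) → Prop) (Y : Fin (n + 1) → V) : Prop :=
  Function.Injective Y ∧ ¬ hb 0 ∧ (∀ i, ¬ hb i → Bl adj hb Y δ (Y i)) ∧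
    ∀ u, hb u → Att adj (fun v => v ∉ hubs hb Y) δ (Y 0) (Y u)

/-- Same hubs and same type. -/
def Cls (A : Rl σ V) (m : ℕ) (hb : Fin (n + 1) → Prop) (Y0 Y : Fin (n + 1) → V) : Prop :=
  (∀ u, hb u → Y u = Y0 u) ∧ Eqv A A m Y0 Y

/-- There are `T` members of the class with property `P` whose centres are far apart. -/
def Fm (A : Rl σ V) (m : ℕ) (hb : Fin (n + 1) → Prop) (Y0 : Fin (n + 1) → V) (sg T : ℕ)
    (P : (Fin (n + 1) → V) → Prop) : Prop :=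
  ∃ Ys : Fin T → Fin (n + 1) → V, (∀ a, Cls A m hb Y0 (Ys a) ∧ P (Ys a)) ∧
    ∀ a b, a ≠ b → ¬ Wk A.adj (fun v => v ∉ hubs hb Y0) (6 * sg) (Ys a 0) (Ys b 0)

/-- Weak reachability inside a tuple whose non-hubs form an initial segment. -/
def Wloc (adj : V → V → Prop) (hb : Fin (n + 1) → Prop) (Y : Fin (n + 1) → V) (d : ℕ)
    (a b : Fin (n + 1)) : Prop :=
  Wk adj (fun z => z ∉ hubs hb Y ∧ ∀ c, Y c = z → b ≤ c) d (Y a) (Y b)

/-- The formula describing the vertices weakly reachable from `Y a`. -/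
def WF (adj : V → V → Prop) (pos : V → ℕ) (hb : Fin (n + 1) → Prop) (Y : Fin (n + 1) → V) (d : ℕ)
    (a : Fin (n + 1)) (u : V) : Prop :=
  (∃ b, ¬ hb b ∧ Y b = u ∧ Wloc adj hb Y d a b) ∨ ∃ w d1 d2, hb w ∧ d1 + 1 + d2 ≤ d ∧
    Att adj (fun v => v ∉ hubs hb Y) d1 (Y a) (Y w) ∧ WR adj pos d2 (Y w) u

theorem Cls.hubs_eq {A : Rl σ V} {m : ℕ} {hb : Fin (n + 1) → Prop} {Y0 Y : Fin (n + 1) → V}
    (h : Cls A m hb Y0 Y) : hubs hb Y = hubs hb Y0 := by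
  ext u
  exact exists_congr fun i => and_congr_right fun hi => by rw [h.1 i hi]

theorem Cls.refl (A : Rl σ V) (m : ℕ) (hb : Fin (n + 1) → Prop) (Y : Fin (n + 1) → V) :
    Cls A m hb Y Y := ⟨fun _ _ => rfl, Eqv.refl A m Y⟩

theorem Cls.symm {A : Rl σ V} {m : ℕ} {hb : Fin (n + 1) → Prop} {Y0 Y : Fin (n + 1) → V}
    (h : Cls A m hb Y0 Y) : Cls A m hb Y Y0 := ⟨fun u hu => (h.1 u hu).symm, h.2.symm⟩

theorem Cls.trans {A : Rl σ V} {m : ℕ} {hb : Fin (n + 1) → Prop} {Y0 Y Y' : Fin (n + 1) → V}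
    (h : Cls A m hb Y0 Y) (h' : Cls A m hb Y Y') : Cls A m hb Y0 Y' :=
  ⟨fun u hu => (h'.1 u hu).trans (h.1 u hu), h.2.trans h'.2⟩

theorem Shape.transfer {W : Type} {A : Rl σ V} {B : Rl σ W} {m δ : ℕ} {hb : Fin (n + 1) → Prop}
    {Y : Fin (n + 1) → V} {Y' : Fin (n + 1) → W} (h : Shape A.adj δ hb Y) (e : Eqv A B m Y Y')
    (hm : δ + 1 ≤ m) : Shape B.adj δ hb Y' :=
  ⟨fun i j e' => h.1 ((e.eq_iff i j).2 e'), h.2.1,
    fun i hi => e.wk hb (by omega) (h.2.2.1 i hi), fun u hu => e.att hb hm (h.2.2.2 u hu)⟩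

theorem Wloc.transfer {W : Type} {A : Rl σ V} {B : Rl σ W} {m d : ℕ} {hb : Fin (n + 1) → Prop}
    {Y : Fin (n + 1) → V} {Y' : Fin (n + 1) → W} {a b : Fin (n + 1)} (h : Wloc A.adj hb Y d a b)
    (e : Eqv A B m Y Y') (hm : d ≤ m) : Wloc B.adj hb Y' d a b :=
  EF_wk (S0 := range fun i => (Y i, Y' i)) (fun v w h hv => ⟨avoid_of_PI hb v w h hv.1,
    fun c e => hv.2 c ((h _ (Or.inr ⟨c, rfl⟩) _ (Or.inl rfl)).1.2 e)⟩) h Subset.rfl e hm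
    ⟨a, rfl⟩ ⟨b, rfl⟩

end tuples

/-- Patterns: hub flags, colours, inner flags and choices. -/
structure Pat (χ : ℕ) (J : Type) (n : ℕ) where
  hb : Fin (n + 1) → Prop
  cl : Fin (n + 1) → Fin χ
  inn : Fin (n + 1) → Prop
  ch : Fin (n + 1) → J → Option (Fin (n + 1))

instance (χ : ℕ) (J : Type) [Finite J] (n : ℕ) : Finite (Pat χ J n) :=
  Finite.of_injective (fun π : Pat χ J n => (π.hb, π.cl, π.inn, π.ch)) (by
    rintro ⟨_, _, _, _⟩ ⟨_, _, _, _⟩ h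
    simp only [Prod.mk.injEq] at h
    obtain ⟨rfl, rfl, rfl, rfl⟩ := h
    rfl)

/-- Contexts: the colours weakly reachable from the hubs. -/
abbrev Ctx (χ R0 n : ℕ) : Type := Fin (n + 1) → Fin (R0 + 1) → Set (Fin χ)

/-- Expansions: an order, a colouring and choices. -/
structure Xp (V : Type) (χ : ℕ) (J : Type) where
  pos : V → ℕ
  col : V → Fin χ
  f : V → J → Option V

/-- The expanded structure. -/
def Xp.rl {σ V J : Type} {χ : ℕ} (e : Xp V χ J) (A : Rl σ V) (R : ℕ) :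
    Rl (σ ⊕ Fin (R + 1) ⊕ Fin χ ⊕ J) V
  | Sum.inl r => A r
  | Sum.inr (Sum.inl d) => WR A.adj e.pos d
  | Sum.inr (Sum.inr (Sum.inl c)) => fun x y => x = y ∧ e.col x = c
  | Sum.inr (Sum.inr (Sum.inr j)) => fun x y => e.f x j = some y

section patterns
variable {σ V J : Type} {χ n : ℕ}

/-- The actual context of a tuple. -/
def actx (adj : V → V → Prop) (e : Xp V χ J) (R0 : ℕ) (hb : Fin (n + 1) → Prop)
    (Y : Fin (n + 1) → V) : Ctx χ R0 n :=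
  fun u d => {c | hb u ∧ ∃ z, WR adj e.pos d (Y u) z ∧ e.col z = c}

/-- The colours weakly reachable from an entry `v` of the tuple, computed from the pattern. -/
def ICtx (adj : V → V → Prop) {R0 : ℕ} (Y : Fin (n + 1) → V) (π : Pat χ J n) (F : Ctx χ R0 n)
    (v : V) (d : Fin (R0 + 1)) (c : Fin χ) : Prop :=
  (∃ a, π.hb a ∧ Y a = v ∧ c ∈ F a d) ∨ ∃ a, ¬ π.hb a ∧ Y a = v ∧
    ((∃ b, ¬ π.hb b ∧ Wloc adj π.hb Y d a b ∧ π.cl b = c) ∨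
      ∃ (w : Fin (n + 1)) (d1 d2 : Fin (R0 + 1)), π.hb w ∧ d1.1 + 1 + d2.1 ≤ d.1 ∧
        Att adj (fun v => v ∉ hubs π.hb Y) d1 (Y a) (Y w) ∧ c ∈ F w d2)

/-- The tuple realises the pattern in the expansion. -/
structure Wit (adj : V → V → Prop) (e : Xp V χ J) (sg : ℕ) (π : Pat χ J n)
    (Y : Fin (n + 1) → V) : Prop where
  ord : ∀ a b, ¬ π.hb a → ¬ π.hb b → a < b → e.pos (Y a) < e.pos (Y b)
  ini : ∀ z a, Bl adj π.hb Y sg z → ¬ π.hb a → e.pos z ≤ e.pos (Y a) → z ∈ nhs π.hb Y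
  abv : ∀ z u, Bl adj π.hb Y sg z → π.hb u → e.pos (Y u) < e.pos z
  col : ∀ a, ¬ π.hb a → e.col (Y a) = π.cl a
  ch : ∀ a j, π.inn a → e.f (Y a) j = (π.ch a j).map Y

/-- The tuple `Y'` realises the pattern `π'` as soon as `Y` realises `π`. -/
structure SubWit (adj : V → V → Prop) (Y : Fin (n + 1) → V) (π : Pat χ J n) {n' : ℕ} (sg' : ℕ)
    (π' : Pat χ J n') (Y' : Fin (n' + 1) → V) : Prop where
  avo : ∀ z, Bl adj π'.hb Y' sg' z → z ∉ hubs π.hb Y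
  sub : ∀ a', ¬ π'.hb a' → ∃ a, ¬ π.hb a ∧ Y a = Y' a' ∧ π.cl a = π'.cl a' ∧
    (π'.inn a' → π.inn a ∧ ∀ j, (π.ch a j).map Y = (π'.ch a' j).map Y')
  ord : ∀ a' b' a b, ¬ π'.hb a' → ¬ π'.hb b' → a' < b' → Y a = Y' a' → Y b = Y' b' → a < b
  ini : ∀ a' a b, ¬ π'.hb a' → Y a = Y' a' → b ≤ a → Bl adj π'.hb Y' sg' (Y b) →
    Y b ∈ nhs π'.hb Y'
  abv : ∀ a b, ¬ π.hb a → Y a ∈ hubs π'.hb Y' → Bl adj π'.hb Y' sg' (Y b) → a < b

end patterns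

/-- The data of the planting problem. -/
structure Cx (σ : Type) where
  Φ : Fam σ
  J : Type
  k : ℕ
  R : ℕ
  R0 : ℕ
  χ : ℕ
  Q : ℕ
  Val : ∀ K, Φ.V K → (J → Option (Φ.V K)) → Prop

variable {σ : Type}

/-- The bound for the sets weakly reachable within `R0`. -/
def Cx.W0 (X : Cx σ) : ℕ := Wb (3 * X.k + 1) X.R0

/-- The growth factor of the closure. -/
noncomputable def Cx.cc (X : Cx σ) : ℕ := 2 * (X.k + 1) * (1 + X.W0 + Nat.card X.J)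

/-- The assumptions on the data. -/
structure Cx.Ok (X : Cx σ) : Prop where
  finσ : Finite σ
  finJ : Finite X.J
  R0_le : X.R0 ≤ X.R
  chi : 6 * X.W0 < X.χ
  wid : ∀ K, Wid (X.Φ.R K).adj X.k
  val_ex : ∀ K v, ∃ f, X.Val K v f
  val_adj : ∀ K v f j u, X.Val K v f → f j = some u → u = v ∨ (X.Φ.R K).adj v u
  val_df : ∀ (α : Type) (a : α) (ch : X.J → Option α),
    Df X.Φ (fun K x => X.Val K (x a) (fun j => (ch j).map x))

/-- The required properties of an expansion. -/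
structure Cx.Fine (X : Cx σ) (K : X.Φ.K) (e : Xp (X.Φ.V K) X.χ X.J) : Prop where
  inj : Function.Injective e.pos
  bd : ∀ d ≤ X.R, ∀ v, {u | WR (X.Φ.R K).adj e.pos d v u}.ncard ≤ Wb (3 * X.k + 1) d
  prop : ∀ v u, WR (X.Φ.R K).adj e.pos X.R0 v u → u ≠ v → e.col u ≠ e.col v
  val : ∀ v, X.Val K v (e.f v)

/-- The constants of a level, together with its admissibility condition. -/
structure Lv (X : Cx σ) where
  N : ℕ
  Rc : ℕ
  κ : ℕ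
  I : ℕ
  lam : ℕ → ℕ
  sg : ℕ → ℕ
  S : ℕ
  D : ℕ
  C : ∀ K, ℕ → ∀ n, (Fin (n + 1) → X.Φ.V K) → Pat X.χ X.J n → Ctx X.χ X.R0 n → Prop
  m : ℕ
  t : ℕ
  Th : ℕ
  n1 : ℕ
  M : ℕ

variable {X : Cx σ}

/-- The number of candidates which are not above their hubs. -/
def Lv.g (L : Lv X) : ℕ := Wb X.k (2 * L.S)

/-- The size of the package of a triggered event. -/
def Lv.pk (L : Lv X) : ℕ := (L.N + 1) * (1 + X.W0) + L.t * (L.N + 1)

/-- Events of a level. -/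
structure EvL (L : Lv X) (Z : Type) where
  n : Fin (L.N + 1)
  i : Fin L.I
  π : Pat X.χ X.J n
  h : Fin (n + 1) → Option Z
  τ : Ty Empty σ L.m (n + 1)

/-- The number of events with hubs in a set of size `w`. -/
noncomputable def Lv.EB (L : Lv X) (w : ℕ) : ℕ := Nat.card (EvL L (Fin w))

/-- The members of an event. -/
def EvL.Mem {L : Lv X} {V : Type} (A : Rl σ V) (E : EvL L V) (Y : Fin (E.n + 1) → V) : Prop :=
  (∀ u, E.π.hb u → E.h u = some (Y u)) ∧ (∀ u, ¬ E.π.hb u → E.h u = none) ∧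
    tp A.str L.m Y = E.τ

/-- The basic conditions on a pattern, for a level with radius `Rc` at scale `δ`; the pairs
`(r, κ)` in `H` are the validity requirements. -/
structure Core (X : Cx σ) (K : X.Φ.K) (H : Set (ℕ × ℕ)) (Rc δ : ℕ) {n : ℕ}
    (Y : Fin (n + 1) → X.Φ.V K) (π : Pat X.χ X.J n) (F : Ctx X.χ X.R0 n) : Prop where
  shape : Shape (X.Φ.R K).adj δ π.hb Y
  inn : ∀ a, π.inn a → ¬ π.hb a
  hit : ∀ p ∈ H, ∀ a, ¬ π.hb a → Hit (X.Φ.R K).adj p.1 p.2 (Y a)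
    (fun u => u ∈ hubs π.hb Y ∨ ∃ b, ¬ π.hb b ∧ b < a ∧ Y b = u)
  prj : ∀ v, v ∉ range Y →
    {y | y ∈ nhs π.hb Y ∧ Att (X.Φ.R K).adj (fun z => z ∉ range Y) Rc v y}.ncard ≤ 2 * X.k + 1
  cl1 : ∀ a b, ¬ π.hb a → ¬ π.hb b → a ≠ b → Wloc (X.Φ.R K).adj π.hb Y X.R0 a b →
    π.cl a ≠ π.cl b
  cl2 : ∀ a w (d1 d2 : Fin (X.R0 + 1)), ¬ π.hb a → π.hb w → d1.1 + 1 + d2.1 ≤ X.R0 →
    Att (X.Φ.R K).adj (fun v => v ∉ hubs π.hb Y) d1 (Y a) (Y w) → π.cl a ∉ F w d2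
  val : ∀ a, π.inn a → X.Val K (Y a) (fun j => (π.ch a j).map Y)

/-- Planting the pattern is compatible with the events of the lower level `L`. -/
def CP (L : Lv X) (K : X.Φ.K) {n : ℕ} (Y : Fin (n + 1) → X.Φ.V K) (π : Pat X.χ X.J n)
    (F : Ctx X.χ X.R0 n) : Prop :=
  ∀ i < L.I, ∀ n' ≤ L.N, ∀ (π' : Pat X.χ X.J n') (Y0 : Fin (n' + 1) → X.Φ.V K),
    (∀ Y', Cls (X.Φ.R K) L.m π'.hb Y0 Y' → Shape (X.Φ.R K).adj (L.lam i) π'.hb Y') →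
    Fm (X.Φ.R K) L.m π'.hb Y0 (L.sg i) (2 * L.Th) (fun _ => True) →
    Fm (X.Φ.R K) L.m π'.hb Y0 (L.sg i) L.Th
        (fun Y' => ∀ a, ¬ π.hb a → ¬ Bl (X.Φ.R K).adj π'.hb Y' (L.sg i) (Y a)) ∨
      Fm (X.Φ.R K) L.m π'.hb Y0 (L.sg i) (L.g + 1)
        (fun Y' => ∃ u, π.hb u ∧ Bl (X.Φ.R K).adj π'.hb Y' (L.sg i) (Y u)) ∨
      (∀ u', π'.hb u' → Y0 u' ∈ hubs π.hb Y) ∨
      ((∀ u', π'.hb u' → ∃ a, (π.hb a ∨ π.inn a) ∧ Y a = Y0 u') ∧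
        ∀ F' : Ctx X.χ X.R0 n',
          (∀ u d c, c ∈ F' u d ↔ π'.hb u ∧ ICtx (X.Φ.R K).adj Y π F (Y0 u) d c) →
          (∀ Y', Cls (X.Φ.R K) L.m π'.hb Y0 Y' → L.C K i n' Y' π' F') →
          Fm (X.Φ.R K) L.m π'.hb Y0 (L.sg i) L.t (SubWit (X.Φ.R K).adj Y π (L.sg i) π'))

/-- Small projections. -/
def Prj (L : Lv X) (K : X.Φ.K) (Z : Set (X.Φ.V K)) : Prop :=
  ∀ v, v ∉ Z → {z | z ∈ Z ∧ Att (X.Φ.R K).adj (fun y => y ∉ Z) (L.lam L.I) v z}.ncard ≤ 2 * X.k + 1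

/-- Every class over `Z` is abundant or close to `Z'`. -/
def Dom (L : Lv X) (K : X.Φ.K) (Z Z' : Set (X.Φ.V K)) : Prop :=
  ∀ i < L.I, ∀ n ≤ L.N, ∀ (hb : Fin (n + 1) → Prop) (Y0 : Fin (n + 1) → X.Φ.V K),
    (∀ u, hb u → Y0 u ∈ Z) → Fm (X.Φ.R K) L.m hb Y0 (L.sg i) (2 * L.Th) (fun _ => True) ∨
      ∃ z, z ∈ Z' ∧ Bl (X.Φ.R K).adj hb Y0 (6 * L.sg i) z

/-- Chains. -/
structure Chain (L : Lv X) (K : X.Φ.K) (e : Xp (X.Φ.V K) X.χ X.J) (Z : ℕ → Set (X.Φ.V K)) :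
    Prop where
  mono : ∀ j < L.D, Z j ⊆ Z (j + 1)
  wr : ∀ j < L.D, ∀ x ∈ Z j, ∀ u, WR (X.Φ.R K).adj e.pos L.Rc x u → u ∈ Z (j + 1)
  f : ∀ j < L.D, ∀ x ∈ Z j, ∀ i u, e.f x i = some u → u ∈ Z (j + 1)
  prj : ∀ j ≤ L.D, Prj L K (Z j)
  dom : ∀ j < L.D, Dom L K (Z j) (Z (j + 1))

/-- The order is valid for the level. -/
def Valid (L : Lv X) (K : X.Φ.K) (e : Xp (X.Φ.V K) X.χ X.J) : Prop :=
  ∀ v, Hit (X.Φ.R K).adj L.Rc L.κ v (fun u => e.pos u < e.pos v)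

/-- The expansion is saturated for the level. -/
def Sat (L : Lv X) (K : X.Φ.K) (e : Xp (X.Φ.V K) X.χ X.J) : Prop :=
  ∀ i < L.I, ∀ n ≤ L.N, ∀ (π : Pat X.χ X.J n) (Y0 : Fin (n + 1) → X.Φ.V K),
    Fm (X.Φ.R K) L.m π.hb Y0 (L.sg i) (2 * L.Th) (fun _ => True) →
    (∀ Y, Cls (X.Φ.R K) L.m π.hb Y0 Y → L.C K i n Y π (actx (X.Φ.R K).adj e X.R0 π.hb Y0)) →
    Fm (X.Φ.R K) L.m π.hb Y0 (L.sg i) L.t (Wit (X.Φ.R K).adj e (L.sg i) π)

/-- The length of chains needed for the potential argument. -/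
def gD (c a r : ℕ) : ℕ := (c * (a + 1) + 1) ^ (r + 1)

/-- The relations between the constants of the levels. -/
structure Good (P : ℕ → Lv X) : Prop where
  R_le : X.R ≤ (P 0).Rc
  kap0 : (P 0).κ = 3 * X.k + 1
  Rc_mono : ∀ l' l, l' ≤ l → (P l').Rc ≤ (P l).Rc
  S_Rc : ∀ l' l, l' < l → 2 * (P l').S ≤ (P l).Rc
  Rc_S : ∀ l, (P l).Rc ≤ (P l).S
  kap : ∀ l, 3 * X.k + 1 + ∑ l' ∈ Finset.range l,
    (P l').EB (Wb X.k (2 * (P l).Rc)) * (P l').t * ((P l').N + 1) ≤ (P l).κ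
  N_ge : ∀ l, X.cc * (2 * (P l).n1) + (2 * X.k + 1) ≤ (P (l + 1)).N
  I_ge : ∀ l, ((P l).N + 1) ^ 2 + ((P l).N + 1) * (2 * X.k + 1) < (P l).I
  sg_ge : ∀ l i, (P l).lam i + 2 * (P l).Rc + 2 ≤ (P l).sg i
  sg_M : ∀ l i, (P (l + 1)).lam i + 2 ^ (P l).M + 1 ≤ (P (l + 1)).sg i
  lam_succ : ∀ l i, 7 * (P l).sg i + 1 ≤ (P l).lam (i + 1)
  sg_S : ∀ l, ∀ i < (P l).I, (P l).sg i ≤ (P l).S
  D_ge : ∀ l, gD ((P l).N + 1) (2 * X.k + 1) ((P l).lam (P l).I) ≤ (P l).D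
  cond : ∀ l K i n Y π F, (P l).C K i n Y π F ↔
    Core X K {p | ∃ l' ≤ l, p = ((P l').Rc, (P l').κ)} (P l).Rc ((P l).lam i) Y π F ∧
      ∀ l' < l, CP (P l') K Y π F
  rk_C : ∀ l, ∀ i < (P l).I, ∀ n ≤ (P l).N, ∀ π F,
    Rk X.Φ (P l).m (fun K Y => (P l).C K i n Y π F)
  m_S : ∀ l, (P l).S + 2 ≤ (P l).m
  m_M : ∀ l, (P l).M + (P (l + 1)).S + 2 ≤ (P (l + 1)).m
  t_ge : ∀ l, ((P l).N + 1) * (2 * X.k + 2) < (P l).t
  Th1 : ∀ l, (P l).g + ∑ l' ∈ Finset.range (l + 1),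
    (P l').EB (Wb X.k (4 * (P l).S)) * (P l').t * ((P l').N + 1) + (P l).t ≤ (P l).Th
  Th2 : ∀ l, (P l).g + 4 * X.Q * X.cc * (P l).EB (P l).g * (P l).pk < (P l).Th
  chain : ∀ l K e, Function.Injective e.pos → Valid (P l) K e → ∀ Z0 : Set (X.Φ.V K),
    Z0.ncard ≤ X.Q → ∃ Z, Chain (P l) K e Z ∧ Z0 ⊆ Z 0 ∧ (Z (P l).D).ncard ≤ (P l).n1
  rk_chain : ∀ l, ∀ n ≤ (P l).n1, ∀ I I' : Set (Fin n),
    Rk X.Φ (P l).M (fun K x => Prj (P l) K (x '' I)) ∧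
      Rk X.Φ (P l).M (fun K x => Dom (P l) K (x '' I) (x '' I'))
  rk_fam : ∀ l, ∃ r, r + ((P l).N + 1) * (2 * X.k + 2) ≤ (P l).M ∧ (P l).m ≤ r ∧
    ∀ i < (P l).I, ∀ n ≤ (P l).N, ∀ hb : Fin (n + 1) → Prop,
      Rk X.Φ r (fun K Y => Fm (X.Φ.R K) (P l).m hb Y ((P l).sg i) (2 * (P l).Th) (fun _ => True))

/-- Saturated valid expansions. -/
structure Rich (P : ℕ → Lv X) (K : X.Φ.K) (e : Xp (X.Φ.V K) X.χ X.J) : Prop where
  fine : X.Fine K e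
  valid : ∀ l < X.Q, Valid (P l) K e
  sat : ∀ l < X.Q, Sat (P l) K e

instance EvL.finite [Finite σ] [Finite X.J] (L : Lv X) (Z : Type) [Finite Z] : Finite (EvL L Z) :=
  Finite.of_injective (fun E : EvL L Z => (⟨E.n, E.i, E.π, E.h, E.τ⟩ : Σ n : Fin (L.N + 1),
    Fin L.I × Pat X.χ X.J n × (Fin (n + 1) → Option Z) × Ty Empty σ L.m (n + 1))) (by
    rintro ⟨_, _, _, _, _⟩ ⟨_, _, _, _, _⟩ h
    simp only [Sigma.mk.injEq] at h
    obtain ⟨rfl, h⟩ := h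
    simp only [heq_eq_eq, Prod.mk.injEq] at h
    obtain ⟨rfl, rfl, rfl, rfl⟩ := h
    rfl)

/-- Counting events with hubs in a small set. -/
theorem EvL.count [Finite σ] [Finite X.J] (L : Lv X) {V : Type} [Finite V] (S : Set V) {w : ℕ}
    (hS : S.ncard ≤ w) : {E : EvL L V | ∀ u v, E.h u = some v → v ∈ S}.ncard ≤ L.EB w := by
  classical
  have hS' : Nat.card S ≤ w := by rwa [Nat.card_coe_set_eq]
  let c : S → Fin w := fun v => Fin.castLE hS' (Finite.equivFin S v)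
  have hc : Function.Injective c := fun a b h =>
    (Finite.equivFin S).injective (Fin.castLE_injective hS' h)
  let c' : Option V → Option (Fin w) := fun o => o.bind fun v =>
    if h : v ∈ S then some (c ⟨v, h⟩) else none
  have hc' : ∀ o o' : Option V, (∀ v, o = some v → v ∈ S) → (∀ v, o' = some v → v ∈ S) →
      c' o = c' o' → o = o' := by
    rintro (_ | a) (_ | b) h1 h2 h
    · rfl
    · simp [c', h2 b rfl] at h
    · simp [c', h1 a rfl] at h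
    · simp only [c', Option.bind_some, dif_pos (h1 a rfl), dif_pos (h2 b rfl),
        Option.some.injEq] at h
      exact congrArg some (congrArg Subtype.val (hc h))
  rw [Lv.EB, ← ncard_univ]
  refine ncard_le_ncard_of_injOn (fun E => ⟨E.n, E.i, E.π, fun u => c' (E.h u), E.τ⟩)
    (fun _ _ => trivial) ?_
  rintro ⟨n, i, π, h, τ⟩ h1 ⟨n', i', π', h', τ'⟩ h2 e
  simp only [EvL.mk.injEq] at e
  obtain ⟨rfl, rfl, e1, e2, e3⟩ := e
  simp only [heq_eq_eq] at e1 e2 e3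
  subst e1 e3
  obtain rfl : h = h' := funext fun u => hc' _ _ (h1 u) (h2 u) (congrFun e2 u)
  rfl

/-- Every tuple determines an event. -/
theorem EvL.exists_mem (L : Lv X) {V : Type} (A : Rl σ V) (i : Fin L.I) (n : Fin (L.N + 1))
    (π : Pat X.χ X.J n) (Y0 : Fin (n + 1) → V) :
    ∃ h τ, ∀ Y, EvL.Mem A (⟨n, i, π, h, τ⟩ : EvL L V) Y ↔ Cls A L.m π.hb Y0 Y := by
  classical
  refine ⟨fun u => if π.hb u then some (Y0 u) else none, tp A.str L.m Y0, fun Y => ?_⟩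
  constructor
  · rintro ⟨h1, -, h3⟩
    refine ⟨fun u hu => ?_, (tp_eq_iff.1 h3).symm⟩
    have := h1 u hu
    simp only [if_pos (show π.hb u from hu), Option.some.injEq] at this
    exact this.symm
  · rintro ⟨h1, h2⟩
    refine ⟨fun u hu => ?_, fun u hu => if_neg hu, tp_eq_iff.2 h2.symm⟩
    simp only [if_pos (show π.hb u from hu), h1 u hu]

theorem EvL.Mem.cls {L : Lv X} {V : Type} {A : Rl σ V} {E : EvL L V} {Y0 : Fin (E.n + 1) → V}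
    (h : E.Mem A Y0) (Y : Fin (E.n + 1) → V) : E.Mem A Y ↔ Cls A L.m E.π.hb Y0 Y := by
  constructor
  · intro h'
    exact ⟨fun u hu => Option.some.inj ((h'.1 u hu).symm.trans (h.1 u hu)),
      tp_eq_iff.1 (h.2.2.trans h'.2.2.symm)⟩
  · intro h'
    exact ⟨fun u hu => (h.1 u hu).trans (congrArg some (h'.1 u hu).symm), h.2.1,
      (tp_eq_iff.2 h'.2.symm).trans h.2.2⟩

end Pool.Agent.Work.MP_b730b2_lc.Full
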