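import Pool.Agent.Work.MP_b730b2_lc.Full.ViewCl
import Pool.Agent.Work.MP_b730b2_lc.Full.Copies

/-! Stages of the construction of the marks: definitions and first facts.

Proof plan. `df_LK_*`: the view type is finite, so `LK .. = c` is a finite conjunction (`funext_iff`,
`Df.fall`); the condition of the `if` only depends on the label (`Df.of_inv` with `df_lab` and
`Df.pull`; `inv_dom`, `inv_ow`, `inv_it`, `inv_self`), and the value is handled by `Stage.df`.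
`Stage.item`: choose `m` above the rank of `claim` and the ranks of `lab = c` and of
`LK (mk k) (Iio v) u u = c` for the finitely many bounded `c` (`Stage.bd`, `Df.common`); apply
`Geo.Ok.item` with `lt_LM`; note `LK μ U = LK (mk k) U` when `μ` agrees with `mk k` on `U`.
`stage_zero`: `Ξ = Empty`, `K = Φ.K`, marks `0` (use `Eqv.reduct` or `EF.reduct`).
`stage_final`: take the rank `r` for `claim`, `df_bot`, `lab`, `LK univ`, plus one; use `mat`, play `bot`,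
apply `claim` with `μ = mk k` and `Geo.Ok.root`, `exists_rank`, and pass to the reduct `OStr`. -/

namespace Pool.Agent.Work.MP_b730b2_lc.Full

open Set

variable {σ0 σ1 : Type} {Φ : Fam σ1}

/-- Expansions of the members of a family by further relations, with marks. -/
structure Ext (G : Geo Φ) where
  Ξ : Type
  K : Type 1
  b : K → Φ.K
  E : ∀ k, Rl Ξ (Φ.V (b k))
  mk' : ∀ k, G.View → Φ.V (b k) → ℤ

/-- The family of expansions. -/
def Ext.fam {G : Geo Φ} (T : Ext G) : Fam (σ1 ⊕ T.Ξ) :=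
  ⟨T.K, fun k => Φ.V (T.b k), fun k => Sum.elim (Φ.R (T.b k)) (T.E k), fun k => Φ.fin (T.b k)⟩

/-- Full coherent marks extending the marks of the stage. -/
def Ext.Fut {G : Geo Φ} (T : Ext G) (U : Set G.View) (k : T.K)
    (μ : G.View → Φ.V (T.b k) → ℤ) : Prop := G.Coh (T.b k) μ univ ∧ ∀ v ∈ U, μ v = T.mk' k v

/-- The marks of the views in `U` have been constructed. -/
structure Stage (G : Geo Φ) (ι : σ0 → σ1) (q : ℕ) (U : Set G.View) (T : Ext G) : Prop where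
  fin : Finite T.Ξ
  adj : ∀ k ξ x y, T.E k ξ x y → x = y ∨ (Φ.R (T.b k)).adj x y
  mat : ∀ r, ∃ n, ∀ B B', EF (Φ.R B).str (Φ.R B').str n ∅ →
    ∃ k k', T.b k = B ∧ T.b k' = B' ∧ EF (T.fam.R k).str (T.fam.R k').str r ∅
  df : ∀ v ∈ U, ∀ z, D1 T.fam (fun k x => T.mk' k v x = z)
  bd : ∃ B : ℕ, ∀ k, ∀ v ∈ U, ∀ x, |T.mk' k v x| ≤ B
  coh : ∀ k, G.Coh (T.b k) (T.mk' k) U
  claim : ∃ r, ∀ v ∈ U, ∀ k k' (o : Φ.V (T.b k)) (o' : Φ.V (T.b k')) μ μ',
    Eqv (T.fam.R k) (T.fam.R k') r (fun _ : Unit => o) (fun _ => o') → T.Fut U k μ →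
    T.Fut U k' μ' →
    EF (G.Reg ι (T.b k) (G.lt (T.b k) μ) (G.LK (T.b k) μ U o) (G.Inst (T.b k) v o))
      (G.Reg ι (T.b k') (G.lt (T.b k') μ') (G.LK (T.b k') μ' U o') (G.Inst (T.b k') v o')) q ∅

variable {G : Geo Φ} {ι : σ0 → σ1} {q : ℕ} {U : Set G.View} {T : Ext G}

theorem Ext.pull (T : Ext G) {α : Type} {P : ∀ k, (α → Φ.V k) → Prop} (h : Df Φ P) :
    Df T.fam (fun k x => P (T.b k) x) :=
  Df.pull T.b (fun k => Sum.elim (Φ.R (T.b k)) (T.E k)) Sum.inl (fun _ _ => rfl) h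

theorem stage_inv (hG : G.Ok ι q) (T : Ext G) {P : ∀ K, Φ.V K → Prop}
    (hP : ∀ K K' x x', G.lab K x = G.lab K' x' → P K x → P K' x') :
    D1 T.fam (fun k x => P (T.b k) x) :=
  T.pull (P := fun K (x : Unit → Φ.V K) => P K (x ()))
    (Df.of_inv (fun K (x : Unit → Φ.V K) => G.lab K (x ())) hG.df_lab
      fun K K' x x' => hP K K' (x ()) (x' ()))

theorem stage_LK_iff {K : Φ.K} (μ : G.View → Φ.V K → ℤ) (u x : Φ.V K) {w : G.View} (hw : w ∈ U)
    (D : Prop) (z : ℤ) :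
    ((D ∧ G.dom K w x ∧ G.ps K x (G.ow K w x) < G.ps K x u) ∧ μ w x = z) ∨
      ((D ∧ ¬ (D ∧ G.dom K w x ∧ G.ps K x (G.ow K w x) < G.ps K x u)) ∧ 0 = z) ↔
      D ∧ G.LK K μ U u x w = z := by
  unfold Geo.LK
  by_cases d : G.dom K w x ∧ G.ps K x (G.ow K w x) < G.ps K x u
  · rw [if_pos ⟨hw, d⟩]
    tauto
  · rw [if_neg fun d' => d d'.2]
    tauto

theorem stage_LK_zero {K : Φ.K} (μ : G.View → Φ.V K → ℤ) (u x : Φ.V K) {w : G.View}
    (hw : w ∉ U) : G.LK K μ U u x w = 0 := by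
  unfold Geo.LK
  rw [if_neg fun d' => hw d'.1]

theorem stage_df_LK (hG : G.Ok ι q) (h : ∀ v ∈ U, ∀ z, D1 T.fam (fun k x => T.mk' k v x = z))
    {D : ∀ K, Φ.V K → Prop} {an : ∀ K, Φ.V K → Φ.V K}
    (hD : ∀ K K' x x', G.lab K x = G.lab K' x' → D K x → D K' x')
    (ha : ∀ K K' x x', G.lab K x = G.lab K' x' → D K x → G.ps K x (an K x) = G.ps K' x' (an K' x'))
    (c : G.View → ℤ) : D1 T.fam (fun k x => D (T.b k) x ∧
      G.LK (T.b k) (T.mk' k) U (an (T.b k) x) x = c) := by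
  have h0 := stage_inv hG T hD
  have h1 : ∀ w, D1 T.fam (fun k x => D (T.b k) x ∧
      G.LK (T.b k) (T.mk' k) U (an (T.b k) x) x w = c w) := by
    intro w
    by_cases hw : w ∈ U
    · have h2 := stage_inv hG T
        (P := fun K x => D K x ∧ G.dom K w x ∧ G.ps K x (G.ow K w x) < G.ps K x (an K x))
        fun K K' x x' e d => ⟨hD K K' x x' e d.1, hG.inv_dom K K' x x' w e d.2.1, by
          rw [← ha K K' x x' e d.1, ← hG.inv_ow K K' x x' w e d.2.1]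
          exact d.2.2⟩
      exact ((Df.and h2 (h w hw (c w))).or
        ((Df.and h0 (Df.not h2)).and (Df.const (0 = c w)))).congr fun k x =>
          stage_LK_iff (T.mk' k) _ _ hw _ _
    · exact (Df.and h0 (Df.const (0 = c w))).congr fun k x => and_congr_right fun _ =>
        ⟨fun d => (stage_LK_zero (T.mk' k) _ _ hw).trans d,
          fun d => (stage_LK_zero (T.mk' k) _ _ hw).symm.trans d⟩
  exact (Df.and h0 (Df.fall h1)).congr fun k x =>
    ⟨fun d => ⟨d.1, funext fun w => (d.2 w).2⟩, fun d => ⟨d.1, fun w => ⟨d.1, congrFun d.2 w⟩⟩⟩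

theorem stage_LK_congr {K : Φ.K} {μ ν : G.View → Φ.V K → ℤ} (h : ∀ v ∈ U, μ v = ν v) :
    G.LK K μ U = G.LK K ν U := by
  funext u x w
  unfold Geo.LK
  split_ifs with c
  · rw [h w c.1]
  · rfl

theorem Ext.df_LK_it (hG : G.Ok ι q) (h : ∀ v ∈ U, ∀ z, D1 T.fam (fun k x => T.mk' k v x = z))
    (v : G.View) (c : G.View → ℤ) : D1 T.fam (fun k x => G.dom (T.b k) v x ∧
      G.LK (T.b k) (T.mk' k) U (G.it (T.b k) v x) x = c) :=
  stage_df_LK hG h (D := fun K x => G.dom K v x) (an := fun K x => G.it K v x)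
    (fun K K' x x' => hG.inv_dom K K' x x' v) (fun K K' x x' => hG.inv_it K K' x x' v) c

theorem Ext.df_LK_ow (hG : G.Ok ι q) (h : ∀ v ∈ U, ∀ z, D1 T.fam (fun k x => T.mk' k v x = z))
    (v : G.View) (c : G.View → ℤ) : D1 T.fam (fun k x => G.dom (T.b k) v x ∧
      G.LK (T.b k) (T.mk' k) U (G.ow (T.b k) v x) x = c) :=
  stage_df_LK hG h (D := fun K x => G.dom K v x) (an := fun K x => G.ow K v x)
    (fun K K' x x' => hG.inv_dom K K' x x' v) (fun K K' x x' => hG.inv_ow K K' x x' v) c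

theorem Ext.df_LK_self (hG : G.Ok ι q) (h : ∀ v ∈ U, ∀ z, D1 T.fam (fun k x => T.mk' k v x = z))
    (c : G.View → ℤ) : D1 T.fam (fun k x => G.LK (T.b k) (T.mk' k) U x x = c) :=
  Df.congr (stage_df_LK hG h (D := fun _ _ => True) (an := fun _ x => x)
    (fun _ _ _ _ _ _ => trivial) (fun K K' x x' e _ => hG.inv_self K K' x x' e) c)
    fun _ _ => ⟨fun d => d.2, fun d => ⟨trivial, d⟩⟩

/-- The values of `LK` lie in a finite set. -/
theorem Ext.fin_LK (h : ∃ B : ℕ, ∀ k, ∀ v ∈ U, ∀ x, |T.mk' k v x| ≤ B) :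
    ∃ S : Set (G.View → ℤ), S.Finite ∧ ∀ k u x, G.LK (T.b k) (T.mk' k) U u x ∈ S := by
  obtain ⟨B, hB⟩ := h
  refine ⟨{f | ∀ w, f w ∈ Icc (-(B : ℤ)) B}, Finite.pi' fun _ => finite_Icc _ _,
    fun k u x w => ?_⟩
  unfold Geo.LK
  split_ifs with c
  · exact abs_le.1 (hB k w c.1 x)
  · exact ⟨by omega, by omega⟩

/-- The label and the marks of a point are determined by its type. -/
theorem Stage.self (hG : G.Ok ι q) (h : Stage G ι q U T) :
    ∃ n, ∀ k k' (u : Φ.V (T.b k)) (u' : Φ.V (T.b k')),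
      Eqv (T.fam.R k) (T.fam.R k') n (fun _ : Unit => u) (fun _ => u') →
      G.lab (T.b k) u = G.lab (T.b k') u' ∧
        G.LK (T.b k) (T.mk' k) U u u = G.LK (T.b k') (T.mk' k') U u' u' := by
  obtain ⟨S, hS, hS'⟩ := Ext.fin_LK h.bd
  have := hS.to_subtype
  obtain ⟨n1, h1⟩ := Df.common (α := fun _ => Unit) fun c : G.Λ =>
    stage_inv hG T (P := fun K x => G.lab K x = c) fun _ _ _ _ e d => e.symm.trans d
  obtain ⟨n2, h2⟩ := Df.common (α := fun _ => Unit) fun c : S => Ext.df_LK_self hG h.df c.1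
  exact ⟨max n1 n2, fun k k' u u' e =>
    ⟨(h1 _ k k' _ _ (e.le (le_max_left _ _)) rfl).symm,
      (h2 ⟨_, hS' k u u⟩ k k' _ _ (e.le (le_max_right _ _)) rfl).symm⟩⟩

theorem Stage.item (hG : G.Ok ι q) {v : G.View} {T : Ext G} (h : Stage G ι q (Iio v) T) :
    ∃ m, ∀ k k' (u : Φ.V (T.b k)) (u' : Φ.V (T.b k')) μ μ',
      Eqv (T.fam.R k) (T.fam.R k') m (fun _ : Unit => u) (fun _ => u') → T.Fut (Iio v) k μ →
      T.Fut (Iio v) k' μ' →
      EF (G.Reg ι (T.b k) (G.lt (T.b k) μ) (G.LK (T.b k) μ (Iio v) u) (G.Item (T.b k) v u))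
        (G.Reg ι (T.b k') (G.lt (T.b k') μ') (G.LK (T.b k') μ' (Iio v) u')
          (G.Item (T.b k') v u')) q ∅ := by
  obtain ⟨r, hr⟩ := h.claim
  obtain ⟨n, hn⟩ := h.self hG
  refine ⟨max r n, fun k k' u u' μ μ' e f f' => ?_⟩
  obtain ⟨a1, a2⟩ := hn k k' u u' (e.le (le_max_right _ _))
  refine hG.item _ _ _ _ _ _ _ v u u' (Geo.lt_LM hG μ) (Geo.lt_LM hG μ') a1 ?_
    fun v' hv' => hr v' hv' k k' u u' μ μ' (e.le (le_max_left _ _)) f f'
  rw [stage_LK_congr f.2, stage_LK_congr f'.2]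
  exact a2

theorem stage_zero (G : Geo Φ) (ι : σ0 → σ1) (q : ℕ) : ∃ T : Ext G, Stage G ι q ∅ T := by
  refine ⟨⟨Empty, Φ.K, id, fun _ e => e.elim, fun _ _ _ => 0⟩, inferInstanceAs (Finite Empty),
    fun _ e => e.elim, fun r => ⟨r, fun B B' e => ⟨B, B', rfl, rfl, ?_⟩⟩, fun _ h => h.elim,
    ⟨0, fun _ _ h => h.elim⟩, fun _ _ h => h.elim, ⟨0, fun _ h => h.elim⟩⟩
  refine EF.reduct ?_ ?_ ?_ e
  · rfl
  · rfl
  refine fun p p' _ _ _ _ _ _ a _ => ⟨a.1, fun i => i.elim, ?_⟩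
  rintro (s | s)
  · exact a.2.2 s
  · exact s.elim

theorem stage_final (hG : G.Ok ι q) (h : Stage G ι q univ T) : ∃ n, ∀ B B',
    EF (Φ.R B).str (Φ.R B').str n ∅ → ∃ pos pos', Function.Injective pos ∧
      Function.Injective pos' ∧ EF (OStr (Φ.R B) ι pos) (OStr (Φ.R B') ι pos') q ∅ := by
  obtain ⟨r, hr⟩ := h.claim
  obtain ⟨n1, h1⟩ := h.self hG
  obtain ⟨n2, h2⟩ := T.pull hG.df_bot
  obtain ⟨n, hn⟩ := h.mat (max r (max n1 n2) + 1)
  refine ⟨n, fun B B' e => ?_⟩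
  obtain ⟨k, k', rfl, rfl, e1⟩ := hn B B' e
  obtain ⟨w, -, e2⟩ := e1.2.1 (G.bot (T.b k)) trivial
  have e3 : Eqv (T.fam.R k) (T.fam.R k') (max r (max n1 n2)) (fun _ : Unit => G.bot (T.b k))
      (fun _ => w) := EF.mono e2 (by rintro _ ⟨_, rfl⟩; exact Or.inl rfl)
  obtain rfl : w = G.bot (T.b k') :=
    h2 k k' _ _ (e3.le ((le_max_right _ _).trans (le_max_right _ _))) rfl
  obtain ⟨a1, a2⟩ := h1 k k' _ _ (e3.le ((le_max_left _ _).trans (le_max_right _ _)))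
  have e4 := hG.root _ _ _ _ _ _ _ (Geo.lt_LM hG (T.mk' k)) (Geo.lt_LM hG (T.mk' k')) a1 a2
    fun v => hr v trivial k k' _ _ _ _ (e3.le (le_max_left _ _)) ⟨h.coh k, fun _ _ => rfl⟩
      ⟨h.coh k', fun _ _ => rfl⟩
  obtain ⟨pos, p1, p2⟩ := Geo.exists_rank hG (T.mk' k)
  obtain ⟨pos', p1', p2'⟩ := Geo.exists_rank hG (T.mk' k')
  refine ⟨pos, pos', p1, p1', EF.reduct ?_ ?_ ?_ e4⟩
  · rfl
  · rfl
  refine fun p p' _ _ _ _ _ _ a _ => ⟨a.1, fun i => i.elim, ?_⟩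
  rintro (_ | s)
  · exact (p2 _ _).trans ((a.2.2 none).trans (p2' _ _).symm)
  · exact a.2.2 (some s)

end Pool.Agent.Work.MP_b730b2_lc.Full
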