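import Pool.Agent.Work.MP_b730b2_lc.Full.Stage

/-! The inductive step and the main theorem for a geometry.

Proof plan for `stage_step`. Let `m` be from `Stage.item`, `Θ = Ty Empty (σ1 ⊕ Ξ) m 1`,
`θ k u = tp (T.fam.R k).str m (fun _ => u)`; `S = univ ×ˢ S0` with `S0` from `Ext.fin_LK`, `enc` an
encoding into a finite type `Γ` injective on `S`; `J, Gd, mark` from `absorb Θ Γ q`.
`Val k o f := Nm (Items v o) f ∧ stt (Items v o) (θ k) f ∈ Gd`. Apply `planting` to the data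
`Φ := T.fam`, `J`, `k`, `R = R0 = 0`, `χ = 7`, `Val` (the Gaifman graph of `T.fam` equals that of `Φ` by
`Stage.adj`; `val_adj` by `item_adj`; `val_df`: `stt .. = s` is definable for each of the finitely many
`s`, with `df_it`, `df_ow`, `Df.tp`). New extension: `Ξ ⊕ J`, `K = Σ k, {f // ∀ o, Val k o (f o)}`,
`E = Sum.elim (E k) (fun j x y => f x j = some y)`, marks unchanged except at `v`, where for
`dom v x` the mark is `mark (stt (Items v o) θ (f o)) (enc (cell (mk' k) v x)) (nameOf (f o) (it v x))`,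
`o = ow v x`, and `0` otherwise. `mat`: reduct of the expansion given by `planting`. `df`: finite case
distinction on the state, the cell and the name (`nameOf (f o) u = some j ↔ f o j = some u` by `Nm`).
`coh`: `item_det`; cells for views `≤ v` only use marks of smaller views. `claim` for `v`:
`Geo.view_claim` (equal states by definability; `LK (Iic v) o x = LK (Iio v) o x` on the instance).
`claim` for `v' < v`: from the old claim by `EF_sub`; if `x, x'` in the two instances have equal labels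
and equal `LK (Iio v)`, then the new entry agrees: transfer `x` to some `x''` in the second instance with
the same label, `LK (Iio v)` and mark at `v` (definability, one move), then `mark_const`.
`geo_main`: induction along the finite linear order of views (e.g. on the cardinality of lower sets). -/

namespace Pool.Agent.Work.MP_b730b2_lc.Full

open Set

section definable
variable {σ α Θ J : Type} {Ψ : Fam σ} {I : ∀ k, (α → Ψ.V k) → Set (Ψ.V k)}
  {θ : ∀ k, Ψ.V k → Θ} {F : ∀ k, (α → Ψ.V k) → J → Option (Ψ.V k)}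

theorem stageStep_stt [Finite Θ] [Finite J]
    (hI : Df Ψ (fun k (y : Option α → Ψ.V k) => y none ∈ I k (fun a => y (some a))))
    (hθ : ∀ τ, D1 Ψ (fun k u => θ k u = τ))
    (hF : ∀ j, Df Ψ (fun k (y : Option α → Ψ.V k) => F k (fun a => y (some a)) j = some (y none)))
    (s : (J → Option Θ) × Set Θ) : Df Ψ (fun k x => stt (I k x) (θ k) (F k x) = s) := by
  have h1 : ∀ j, Df Ψ (fun k x => (F k x j).map (θ k) = s.1 j) := by
    intro j
    rcases s.1 j with _ | τ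
    · refine (Df.ex (P := fun k x u => F k x j = some u) (hF j)).not.congr fun k x => ?_
      cases F k x j <;> simp
    · exact (Df.ex (P := fun k x u => F k x j = some u ∧ θ k u = τ)
        ((hF j).and ((hθ τ).app none))).congr fun k x => Option.map_eq_some_iff.symm
  have h2 : ∀ τ, Df Ψ (fun k x =>
      (∃ u, u ∈ I k x ∧ θ k u = τ ∧ ∀ j, F k x j ≠ some u) ↔ τ ∈ s.2) := fun τ =>
    (Df.ex (P := fun k x u => u ∈ I k x ∧ θ k u = τ ∧ ∀ j, F k x j ≠ some u)
      (hI.and (((hθ τ).app none).and (Df.fall fun j => (hF j).not)))).iff (Df.const _)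
  refine ((Df.fall h1).and (Df.fall h2)).congr fun k x => ?_
  rw [Prod.ext_iff, funext_iff, Set.ext_iff]
  rfl

theorem stageStep_nm [Finite J]
    (hI : Df Ψ (fun k (y : Option α → Ψ.V k) => y none ∈ I k (fun a => y (some a))))
    (hF : ∀ j, Df Ψ (fun k (y : Option α → Ψ.V k) => F k (fun a => y (some a)) j = some (y none))) :
    Df Ψ (fun k x => Nm (I k x) (F k x)) :=
  (Df.fall fun j => Df.fall fun j' =>
    Df.all (P := fun k x u => F k x j = some u → F k x j' = some u → j = j')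
      ((hF j).imp ((hF j').imp (Df.const _)))).and
    (Df.fall fun j => Df.all (P := fun k x u => F k x j = some u → u ∈ I k x) ((hF j).imp hI))

theorem stageStep_name {V : Type} {I : Set V} {f : J → Option V} (h : Nm I f) (u : V)
    (n : Option J) : nameOf f u = n ↔ ∀ j, (f j = some u ↔ n = some j) := by
  constructor
  · rintro rfl j
    refine ⟨nameOf_some h, fun e => ?_⟩
    by_cases c : ∃ j', f j' = some u
    · obtain ⟨j', c⟩ := c
      rw [nameOf_some h c] at e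
      rwa [← Option.some.inj e]
    · rw [nameOf_none fun j' e' => c ⟨j', e'⟩] at e
      exact absurd e (by simp)
  · intro e
    rcases n with _ | j
    · exact nameOf_none fun j e' => by simpa using (e j).1 e'
    · exact nameOf_some h ((e j).2 rfl)

end definable

variable {σ0 σ1 : Type} {Φ : Fam σ1} {G : Geo Φ} {ι : σ0 → σ1} {q : ℕ}

theorem stageStep_reg {Ξ Ξ' : Type} {K K' : Φ.K} {lt : Φ.V K → Φ.V K → Prop}
    {lt' : Φ.V K' → Φ.V K' → Prop} {P : Φ.V K → Ξ} {P' : Φ.V K' → Ξ} {Q : Φ.V K → Ξ'}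
    {Q' : Φ.V K' → Ξ'} {I : Set (Φ.V K)} {I' : Set (Φ.V K')}
    (h : ∀ x ∈ I, ∀ x' ∈ I', G.lab K x = G.lab K' x' → P x = P' x' → Q x = Q' x')
    (e : EF (G.Reg ι K lt P I) (G.Reg ι K' lt' P' I') q ∅) :
    EF (G.Reg ι K lt Q I) (G.Reg ι K' lt' Q' I') q ∅ := by
  refine EF.reduct ?_ ?_ ?_ e
  · rfl
  · rfl
  · refine fun p p' h1 h2 _ _ _ _ a _ => ⟨a.1, fun c => ?_, a.2.2⟩
    obtain ⟨a1, a2⟩ := (a.2.1 (G.lab K p.1, P p.1)).1 ⟨rfl, rfl⟩
    change _ ∧ _ ↔ _ ∧ _
    rw [h p.1 h1 p.2 h2 a1.symm a2.symm, a1]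

theorem stageStep_Iic {K K' : Φ.K} {μ : G.View → Φ.V K → ℤ} {μ' : G.View → Φ.V K' → ℤ}
    {v : G.View} {o x : Φ.V K} {o' x' : Φ.V K'}
    (e : G.LK K μ (Iio v) o x = G.LK K' μ' (Iio v) o' x')
    (hc : (G.dom K v x ∧ G.ps K x (G.ow K v x) < G.ps K x o) ↔
      (G.dom K' v x' ∧ G.ps K' x' (G.ow K' v x') < G.ps K' x' o'))
    (hm : G.dom K v x → G.ps K x (G.ow K v x) < G.ps K x o → μ v x = μ' v x') :
    G.LK K μ (Iic v) o x = G.LK K' μ' (Iic v) o' x' := by
  funext w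
  have e' := congrFun e w
  unfold Geo.LK at e' ⊢
  by_cases c : w = v
  · subst c
    by_cases d : G.dom K w x ∧ G.ps K x (G.ow K w x) < G.ps K x o
    · rw [if_pos ⟨le_rfl, d⟩, if_pos ⟨le_rfl, hc.1 d⟩, hm d.1 d.2]
    · rw [if_neg fun a => d a.2, if_neg fun a => d (hc.2 a.2)]
  · have : w ∈ Iic v ↔ w ∈ Iio v := ⟨fun a => lt_of_le_of_ne a c, fun a => le_of_lt a⟩
    rw [this]
    exact e'

theorem stageStep_cell {K : Φ.K} {μ ν : G.View → Φ.V K → ℤ} {w : G.View}
    (h : ∀ w' ∈ Iio w, μ w' = ν w') (x : Φ.V K) : G.cell K μ w x = G.cell K ν w x := by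
  unfold Geo.cell
  rw [stage_LK_congr h]

/-- Adding the mark of the new view to the unary data. -/
theorem stageStep_up (hG : G.Ok ι q) {v : G.View} {T : Ext G}
    (df : ∀ w ∈ Iic v, ∀ z, D1 T.fam (fun k x => T.mk' k w x = z))
    (bd : ∃ B : ℕ, ∀ k, ∀ w ∈ Iic v, ∀ x, |T.mk' k w x| ≤ B) :
    ∃ n, ∀ w ≤ v, ∀ k k' (o : Φ.V (T.b k)) (o' : Φ.V (T.b k')) μ μ',
      Eqv (T.fam.R k) (T.fam.R k') n (fun _ : Unit => o) (fun _ => o') → T.Fut (Iic v) k μ →
      T.Fut (Iic v) k' μ' →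
      EF (G.Reg ι (T.b k) (G.lt (T.b k) μ) (G.LK (T.b k) μ (Iio v) o) (G.Inst (T.b k) w o))
        (G.Reg ι (T.b k') (G.lt (T.b k') μ') (G.LK (T.b k') μ' (Iio v) o')
          (G.Inst (T.b k') w o')) q ∅ →
      EF (G.Reg ι (T.b k) (G.lt (T.b k) μ) (G.LK (T.b k) μ (Iic v) o) (G.Inst (T.b k) w o))
        (G.Reg ι (T.b k') (G.lt (T.b k') μ') (G.LK (T.b k') μ' (Iic v) o')
          (G.Inst (T.b k') w o')) q ∅ := by
  obtain ⟨B, hB⟩ := bd
  obtain ⟨S, hS, hS'⟩ := Ext.fin_LK (U := Iio v) (T := T) ⟨B, fun k w hw => hB k w (le_of_lt hw)⟩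
  have := hS.to_subtype
  have := (finite_Icc (-(B : ℤ)) B).to_subtype
  obtain ⟨n, hn⟩ := Df.common (Φ := T.fam) (α := fun _ => Unit)
    (P := fun (c : G.View × G.Λ × S × Icc (-(B : ℤ)) B) k y => ∃ x : Φ.V (T.b k),
      (G.dom (T.b k) c.1 x ∧ G.ow (T.b k) c.1 x = y ()) ∧ G.lab (T.b k) x = c.2.1 ∧
      (G.dom (T.b k) c.1 x ∧ G.LK (T.b k) (T.mk' k) (Iio v) (G.ow (T.b k) c.1 x) x = c.2.2.1) ∧
      T.mk' k v x = c.2.2.2) fun c => Df.ex
        ((T.pull ((hG.df_ow c.1).app none (some ()))).and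
          ((T.pull ((hG.df_lab c.2.1).app none)).and
            (((Ext.df_LK_ow hG (fun w hw => df w (le_of_lt hw)) c.1 c.2.2.1).app none).and
              ((df v le_rfl c.2.2.2).app none))))
  refine ⟨n, fun w hw k k' o o' μ μ' e f f' => stageStep_reg ?_⟩
  rintro x ⟨x1, rfl⟩ x' ⟨x1', rfl⟩ hl hk
  have p1 := hG.inv_ow _ _ _ _ w hl x1
  refine stageStep_Iic hk ⟨fun a => ⟨hG.inv_dom _ _ _ _ v hl a.1, ?_⟩,
    fun a => ⟨hG.inv_dom _ _ _ _ v hl.symm a.1, ?_⟩⟩ fun d1 d2 => ?_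
  · rw [← p1, ← hG.inv_ow _ _ _ _ v hl a.1]
    exact a.2
  · rw [p1, ← hG.inv_ow _ _ _ _ v hl.symm a.1]
    exact a.2
  rcases hw.eq_or_lt with rfl | hw
  · exact absurd d2 (lt_irrefl _)
  have c1 := stage_LK_congr (U := Iio v) fun w hw => f.2 w (le_of_lt hw)
  have c2 := stage_LK_congr (U := Iio v) fun w hw => f'.2 w (le_of_lt hw)
  obtain ⟨y, ⟨y1, y2⟩, y3, ⟨-, y4⟩, y5⟩ := hn (w, G.lab _ x, ⟨_, hS' k (G.ow _ w x) x⟩,
    ⟨_, abs_le.1 (hB k v le_rfl x)⟩) k k' _ _ e ⟨x, ⟨x1, rfl⟩, rfl, ⟨x1, rfl⟩, rfl⟩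
  simp only at y1 y2 y3 y4 y5
  rw [Geo.mark_const hG (fun w _ => f'.1 w trivial) hw x1' y2.symm (hl.symm.trans y3.symm)
    (by rw [← hk, c1, c2, y4]) (hG.inv_dom _ _ _ _ v hl d1)
    (by rw [← p1, ← hG.inv_ow _ _ _ _ v hl d1]; exact d2), f.2 v le_rfl, f'.2 v le_rfl, y5]

section step
variable {Θ Γ J : Type} (T : Ext G) (v : G.View) (θ : ∀ k, Φ.V (T.b k) → Θ)
  (Gd : Set ((J → Option Θ) × Set Θ)) (mark : (J → Option Θ) × Set Θ → Γ → Option J → ℤ)
  (enc : G.Λ × (G.View → ℤ) → Γ)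

/-- Valid names for the items of an instance. -/
def stageStepVal (k : T.K) (o : Φ.V (T.b k)) (f : J → Option (Φ.V (T.b k))) : Prop :=
  Nm (G.Items (T.b k) v o) f ∧ stt (G.Items (T.b k) v o) (θ k) f ∈ Gd

open Classical in
/-- The new marks. -/
noncomputable def stageStepMark (k : T.K) (f : Φ.V (T.b k) → J → Option (Φ.V (T.b k)))
    (x : Φ.V (T.b k)) : ℤ :=
  if G.dom (T.b k) v x then
    mark (stt (G.Items (T.b k) v (G.ow (T.b k) v x)) (θ k) (f (G.ow (T.b k) v x)))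
      (enc (G.cell (T.b k) (T.mk' k) v x)) (nameOf (f (G.ow (T.b k) v x)) (G.it (T.b k) v x))
  else 0

/-- The new expansions. -/
noncomputable def stageStepExt : Ext G where
  Ξ := T.Ξ ⊕ J
  K := Σ k : T.K, {f : Φ.V (T.b k) → J → Option (Φ.V (T.b k)) //
    ∀ o, stageStepVal T v θ Gd k o (f o)}
  b k := T.b k.1
  E k := Sum.elim (T.E k.1) fun j x y => k.2.1 x j = some y
  mk' k := Function.update (T.mk' k.1) v (stageStepMark T v θ mark enc k.1 k.2.1)

theorem stageStep_pull {α : Type} {P : ∀ k, (α → T.fam.V k) → Prop} (h : Df T.fam P) :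
    Df (stageStepExt T v θ Gd mark enc).fam (fun k x => P k.1 x) :=
  Df.pull (Φ := T.fam) Sigma.fst (stageStepExt T v θ Gd mark enc).fam.R (Sum.map id Sum.inl)
    (by rintro k (r | r) <;> rfl) h

theorem stageStep_items (hG : G.Ok ι q) {α : Type} (a b : α) :
    Df T.fam (fun k x => x b ∈ G.Items (T.b k) v (x a)) :=
  (Df.ex (P := fun k x y => (G.dom (T.b k) v y ∧ G.ow (T.b k) v y = x a) ∧
    (G.dom (T.b k) v y ∧ G.it (T.b k) v y = x b))
    ((T.pull ((hG.df_ow v).app none (some a))).and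
      (T.pull ((hG.df_it v).app none (some b))))).congr fun _ _ =>
    exists_congr fun _ => ⟨fun h => ⟨h.1.1, h.1.2, h.2.2⟩, fun h => ⟨⟨h.1, h.2.1⟩, h.1, h.2.2⟩⟩

theorem stageStep_val_adj (hG : G.Ok ι q) {k : T.K} {o u : Φ.V (T.b k)}
    {f : J → Option (Φ.V (T.b k))} (h : stageStepVal T v θ Gd k o f) {j : J} (e : f j = some u) :
    (Φ.R (T.b k)).adj o u := by
  obtain ⟨x, h1, rfl, rfl⟩ := h.1.2 j u e
  exact hG.item_adj _ v x h1

theorem stageStep_state [Finite Θ] [Finite J] (hG : G.Ok ι q)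
    (hθ : ∀ τ, D1 T.fam (fun k u => θ k u = τ)) (s : (J → Option Θ) × Set Θ) :
    D1 (stageStepExt T v θ Gd mark enc).fam
      (fun k o => stt (G.Items (T.b k.1) v o) (θ k.1) (k.2.1 o) = s) :=
  stageStep_stt (Ψ := (stageStepExt T v θ Gd mark enc).fam)
    (I := fun k x => G.Items (T.b k.1) v (x ())) (θ := fun k => θ k.1)
    (F := fun k x => k.2.1 (x ()))
    (stageStep_pull T v θ Gd mark enc (stageStep_items T v hG (some ()) none))
    (fun τ => stageStep_pull T v θ Gd mark enc (hθ τ))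
    (fun j => Df.rel (Φ := (stageStepExt T v θ Gd mark enc).fam) (Sum.inr (Sum.inr j))
      (some ()) none) s

theorem stageStep_mark [Finite Θ] [Finite J] (hG : G.Ok ι q) (h : Stage G ι q (Iio v) T)
    (hθ : ∀ τ, D1 T.fam (fun k u => θ k u = τ)) (z : ℤ) :
    D1 (stageStepExt T v θ Gd mark enc).fam
      (fun k x => stageStepMark T v θ mark enc k.1 k.2.1 x = z) := by
  obtain ⟨S, hS, hS'⟩ := Ext.fin_LK h.bd
  have := hS.to_subtype
  have a0 : D1 T.fam (fun k x => G.dom (T.b k) v x) :=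
    stage_inv hG T fun K K' x x' => hG.inv_dom K K' x x' v
  have a1 : ∀ (s : (J → Option Θ) × Set Θ) (n : Option J),
      D1 (stageStepExt T v θ Gd mark enc).fam (fun k x => ∃ o : Φ.V (T.b k.1),
        (G.dom (T.b k.1) v x ∧ G.ow (T.b k.1) v x = o) ∧
        stt (G.Items (T.b k.1) v o) (θ k.1) (k.2.1 o) = s ∧ ∃ u : Φ.V (T.b k.1),
          (G.dom (T.b k.1) v x ∧ G.it (T.b k.1) v x = u) ∧
            ∀ j, (k.2.1 o j = some u ↔ n = some j)) := fun s n =>
    Df.ex (((stageStepExt T v θ Gd mark enc).pull ((hG.df_ow v).app (some ()) none)).and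
      (((stageStep_state T v θ Gd mark enc hG hθ s).app none).and (Df.ex
        (((stageStepExt T v θ Gd mark enc).pull ((hG.df_it v).app (some (some ())) none)).and
          (Df.fall fun j => (Df.rel (Φ := (stageStepExt T v θ Gd mark enc).fam)
            (Sum.inr (Sum.inr j)) (some none) none).iff (Df.const _))))))
  refine (((stageStep_pull T v θ Gd mark enc a0).not.and (Df.const (0 = z))).or
    (Df.fex fun c : ((J → Option Θ) × Set Θ) × Option J × G.Λ × S =>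
      (Df.const (mark c.1 (enc (c.2.2.1, c.2.2.2.1)) c.2.1 = z)).and ((a1 c.1 c.2.1).and
        (((stageStepExt T v θ Gd mark enc).pull (hG.df_lab c.2.2.1)).and
          (stageStep_pull T v θ Gd mark enc (Ext.df_LK_it hG h.df v c.2.2.2.1)))))).congr
    fun k x => ?_
  unfold stageStepMark
  beta_reduce
  constructor
  · rintro (⟨a, b⟩ | ⟨c, b1, ⟨o, ⟨d, rfl⟩, b2, u, ⟨-, rfl⟩, b3⟩, b4, -, b5⟩)
    · rwa [if_neg a]
    · rw [if_pos d, b2, (stageStep_name (k.2.2 _).1 _ _).2 b3, ← b1, ← b4, ← b5]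
      rfl
  · intro e
    by_cases d : G.dom (T.b k.1) v (x ())
    · rw [if_pos d] at e
      exact Or.inr ⟨⟨_, _, _, _, hS' k.1 _ _⟩, e, ⟨_, ⟨d, rfl⟩, rfl, _, ⟨d, rfl⟩,
        (stageStep_name (k.2.2 _).1 _ _).1 rfl⟩, rfl, d, rfl⟩
    · rw [if_neg d] at e
      exact Or.inl ⟨d, e⟩

end step

theorem stage_step [Finite σ1] (hG : G.Ok ι q) {k : ℕ} (hw : ∀ K, Wid (Φ.R K).adj k)
    (hne : ∀ K, Nonempty (Φ.V K)) (hd : ∀ K x y, Wk (Φ.R K).adj (fun _ => True) 2 x y)
    {v : G.View} {T : Ext G} (h : Stage G ι q (Iio v) T) :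
    ∃ T' : Ext G, Stage G ι q (Iic v) T' := by
  have := h.fin
  obtain ⟨m, hm⟩ := h.item hG
  obtain ⟨S0, hS0, hS'⟩ := Ext.fin_LK h.bd
  let S : Set (G.Λ × (G.View → ℤ)) := univ ×ˢ S0
  have : Finite S := (finite_univ.prod hS0).to_subtype
  let enc : G.Λ × (G.View → ℤ) → Set S := fun c => {s | s.1 = c}
  have henc : InjOn enc S := fun c hc c' _ e =>
    show (⟨c, hc⟩ : S) ∈ enc c' from e ▸ (rfl : (⟨c, hc⟩ : S) ∈ enc c)
  let θ : ∀ k, Φ.V (T.b k) → Ty Empty (σ1 ⊕ T.Ξ) m 1 := fun k u =>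
    tp (T.fam.R k).str m fun _ => u
  have hθ : ∀ τ, D1 T.fam (fun k u => θ k u = τ) := fun τ => Df.tp m (fun _ => ()) τ
  obtain ⟨J, _, Gd, mark, ab1, ab2⟩ := absorb (Ty Empty (σ1 ⊕ T.Ξ) m 1) (Set S) q
  have adj1 : ∀ K x y, (Φ.R (T.b K)).adj x y → (T.fam.R K).adj x y :=
    fun K x y h => ⟨h.1, let ⟨r, h⟩ := h.2; ⟨Sum.inl r, h⟩⟩
  let X : Cx (σ1 ⊕ T.Ξ) := ⟨T.fam, J, k, 0, 0, 7, 0, stageStepVal T v θ Gd⟩
  have hX : X.Ok := by
    refine ⟨inferInstance, ‹_›, le_rfl, (by norm_num : 6 * 1 < 7), fun K => (hw (T.b K)).mono ?_,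
      fun K o => ab1 _ _ _, fun K o f j u a b => Or.inr (adj1 _ _ _
        (stageStep_val_adj T v θ Gd hG a b)), fun α a ch => ?_⟩
    · rintro x y ⟨c, r | ξ, a⟩
      · exact ⟨c, r, a⟩
      · exact a.elim (fun a => (h.adj K ξ x y a).resolve_left c) fun a =>
          Rl.adj_symm _ _ _ ((h.adj K ξ y x a).resolve_left (Ne.symm c))
    · have hI := stageStep_items T v hG (some a) none
      have hF : ∀ j, Df T.fam fun k (y : Option α → T.fam.V k) =>
          (ch j).map (fun a => y (some a)) = some (y none) := fun j => Df.map_some some none (ch j)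
      refine ((stageStep_nm (I := fun k x => G.Items (T.b k) v (x a))
        (F := fun k x j => (ch j).map x) hI hF).and (Df.fex fun s => (Df.const (s ∈ Gd)).and
          (stageStep_stt (I := fun k x => G.Items (T.b k) v (x a))
            (F := fun k x j => (ch j).map x) hI hθ hF s))).congr fun K x => ?_
      exact and_congr_right fun _ => ⟨fun ⟨s, a, b⟩ => b ▸ a, fun a => ⟨_, a, rfl⟩⟩
  let T' := stageStepExt T v θ Gd mark enc
  have m1 : ∀ (k : T'.K), ∀ w ∈ Iio v, T'.mk' k w = T.mk' k.1 w := fun k w hw =>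
    Function.update_of_ne (ne_of_lt hw) _ _
  have m2 : ∀ k : T'.K, T'.mk' k v = stageStepMark T v θ mark enc k.1 k.2.1 := fun k =>
    Function.update_self _ _ _
  have df : ∀ w ∈ Iic v, ∀ z, D1 T'.fam (fun k x => T'.mk' k w x = z) := by
    intro w hw z
    rcases (mem_Iic.1 hw).eq_or_lt with rfl | hw
    · exact Df.congr (stageStep_mark T w θ Gd mark enc hG h hθ z) fun k x =>
        (congrFun (m2 k) _).symm.congr_left
    · exact Df.congr (stageStep_pull T v θ Gd mark enc (h.df w hw z)) fun k x =>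
        (congrFun (m1 k w hw) _).symm.congr_left
  have bd : ∃ B : ℕ, ∀ k, ∀ w ∈ Iic v, ∀ x, |T'.mk' k w x| ≤ B := by
    obtain ⟨B, hB⟩ := h.bd
    obtain ⟨C, hC⟩ := (finite_range fun p : _ × _ × _ => (mark p.1 p.2.1 p.2.2).natAbs).bddAbove
    refine ⟨B + C, fun k w hw x => ?_⟩
    rcases (mem_Iic.1 hw).eq_or_lt with rfl | hw
    · rw [m2]
      unfold stageStepMark
      split_ifs
      · rw [Int.abs_eq_natAbs]
        exact_mod_cast (hC ⟨(_, _, _), rfl⟩).trans (Nat.le_add_left _ _)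
      · positivity
    · rw [m1 k w hw]
      exact (hB k.1 w hw x).trans (by exact_mod_cast Nat.le_add_right _ _)
  refine ⟨T', inferInstanceAs (Finite (T.Ξ ⊕ J)), ?_, fun r => ?_, df, bd, ?_, ?_⟩
  · rintro K (ξ | j) x y a
    · exact h.adj K.1 ξ x y a
    · exact Or.inr (stageStep_val_adj T v θ Gd hG (K.2.2 x) a)
  · obtain ⟨n1, h1⟩ := planting hX (fun K => hne (T.b K))
      (fun K x y => (hd (T.b K) x y).mono' (adj1 K) fun _ a => a) r
    obtain ⟨n, h2⟩ := h.mat n1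
    refine ⟨n, fun B B' e => ?_⟩
    obtain ⟨K, K', b1, b2, e⟩ := h2 B B' e
    obtain ⟨x, x', f, f', e⟩ := h1 K K' e
    refine ⟨⟨K, x.f, f.val⟩, ⟨K', x'.f, f'.val⟩, b1, b2, (eqv_empty (α := Empty)
      (x := Empty.elim) (y := Empty.elim)).1 (Eqv.reduct (Sum.elim (fun r => Sum.inl (Sum.inl r))
        (Sum.elim (fun ξ => Sum.inl (Sum.inr ξ)) fun j => Sum.inr (Sum.inr (Sum.inr j)))) ?_ ?_
        (eqv_empty.2 e))⟩
    · rintro (r | ξ | j) <;> rfl
    · rintro (r | ξ | j) <;> rfl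
  · intro K w hw x y hx hy e1 e2
    have c := stageStep_cell (w := w) fun w' hw' => m1 K w' (lt_of_lt_of_le hw' hw)
    rw [c, c] at e2
    rcases (mem_Iic.1 hw).eq_or_lt with rfl | hw
    · rw [m2]
      refine (if_pos hx).trans (Eq.trans ?_ (if_pos hy).symm)
      exact congr (congr (congrArg (fun o => mark (stt (G.Items _ w o) (θ K.1) (K.2.1 o)))
        (hG.item_det _ w x y hx hy e1)) (congrArg enc e2))
        (congr (congrArg (fun o => nameOf (K.2.1 o)) (hG.item_det _ w x y hx hy e1)) e1)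
    · rw [m1 K w hw]
      exact h.coh K.1 w hw x y hx hy e1 e2
  obtain ⟨r0, h0⟩ := h.claim
  obtain ⟨r1, h1⟩ := stageStep_up hG df bd
  obtain ⟨r2, h2⟩ := Df.common (α := fun _ => Unit) (stageStep_state T v θ Gd mark enc hG hθ)
  refine ⟨r0 + r1 + r2, fun w hw K K' o o' μ μ' e f f' =>
    h1 w hw K K' o o' μ μ' (e.le (by omega)) f f' ?_⟩
  have g : T.Fut (Iio v) K.1 μ := ⟨f.1, fun w hw => (f.2 w (le_of_lt hw)).trans (m1 K w hw)⟩
  have g' : T.Fut (Iio v) K'.1 μ' := ⟨f'.1, fun w hw => (f'.2 w (le_of_lt hw)).trans (m1 K' w hw)⟩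
  rcases (mem_Iic.1 hw).eq_or_lt with rfl | hw
  swap
  · refine h0 w hw K.1 K'.1 o o' μ μ' (Eqv.reduct (Sum.map id Sum.inl) ?_ ?_ (e.le (by omega))) g g'
    · rintro (r | r) <;> rfl
    · rintro (r | r) <;> rfl
  have es : stt (G.Items (T.b K'.1) w o') (θ K'.1) (K'.2.1 o') =
      stt (G.Items (T.b K.1) w o) (θ K.1) (K.2.1 o) := h2 _ K K' _ _ (e.le (by omega)) rfl
  refine Geo.view_claim hG f.1 f'.1 w o o' enc henc (fun x => ?_) (fun x => ?_) (θ K.1) (θ K'.1)
    _ _ (fun r r' => ab2 _ _ _ _ _ _ _ _ r r' (K.2.2 o).1 (K'.2.2 o').1 (K.2.2 o).2 es.symm)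
    ?_ ?_ fun u _ u' _ e => hm K.1 K'.1 u u' μ μ' ((tp_eq_iff.1 e).comp fun _ => 0) g g'
  · rw [stageStep_cell g.2]
    exact ⟨trivial, hS' K.1 _ _⟩
  · rw [stageStep_cell g'.2]
    exact ⟨trivial, hS' K'.1 _ _⟩
  · rintro x ⟨x1, rfl⟩
    rw [f.2 w le_rfl, m2, stageStep_cell g.2]
    exact if_pos x1
  · rintro x ⟨x1, rfl⟩
    rw [f'.2 w le_rfl, m2, stageStep_cell g'.2]
    exact (if_pos x1).trans (congrArg (fun s => mark s _ _) es)

theorem geo_main [Finite σ1] (hG : G.Ok ι q) {k : ℕ} (hw : ∀ K, Wid (Φ.R K).adj k)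
    (hne : ∀ K, Nonempty (Φ.V K)) (hd : ∀ K x y, Wk (Φ.R K).adj (fun _ => True) 2 x y) :
    ∃ n, ∀ B B', EF (Φ.R B).str (Φ.R B').str n ∅ → ∃ pos pos', Function.Injective pos ∧
      Function.Injective pos' ∧ EF (OStr (Φ.R B) ι pos) (OStr (Φ.R B') ι pos') q ∅ := by
  have key : ∀ s : Finset G.View, IsLowerSet (s : Set G.View) →
      ∃ T : Ext G, Stage G ι q (s : Set G.View) T := by
    intro s
    induction s using Finset.induction_on_max with
    | empty => exact fun _ => by simpa using stage_zero G ι q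
    | insert a s ha ih =>
      intro hl
      rw [Finset.coe_insert] at hl ⊢
      have e : (s : Set G.View) = Iio a := by
        ext x
        exact ⟨ha x, fun hx => (hl (le_of_lt hx) (mem_insert a _)).resolve_left (ne_of_lt hx)⟩
      rw [e] at ih ⊢
      obtain ⟨T, hT⟩ := ih (isLowerSet_Iio a)
      rw [Iio_insert]
      exact stage_step hG hw hne hd hT
  have := Fintype.ofFinite G.View
  obtain ⟨T, hT⟩ := key Finset.univ (by rw [Finset.coe_univ]; exact isLowerSet_univ)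
  rw [Finset.coe_univ] at hT
  exact stage_final hG hT

end Pool.Agent.Work.MP_b730b2_lc.Full
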