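import Pool.Agent.Work.MP_b730b2_lc.Full.Fm

/-! Exchanging clusters.

Proof plan for `swap`. Write `s` for the common set of hubs, `c = Y 0`, `c' = Y' 0`, and balls for
walks avoiding `s`. Invariant for `r` remaining rounds (`EF.of_inv`): there are radii
`l + 2 ^ r ≤ u ≤ sg` and sets `S1, S2` of pairs with
`EF A A (r + sg + 2) (range (Y, Y') ∪ S1)`, `EF A A (r + sg + 2) (range (Y', Y) ∪ S2)` such that
every pair a, b of the position is in `range (Y,Y') ∪ S1` with `a ∈ ball l c`, `b ∈ ball l c'`,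
or in `S2` with `a ∈ ball l c'`, `b ∈ ball l c`, or has `a = b` outside `ball u c ∪ ball u c'`.
For a move `a` put `mid = l + 2 ^ (r-1)`: in `ball mid c` use the first game (`EF_wk` shows that the
answer is in `ball mid c'`), in `ball mid c'` the second, and set `l := mid`; otherwise answer `a`
and set `u := mid`. Hubs occur as diagonal pairs in both games. Start with `l = δ`, `u = δ + 2 ^ M`.

Proof plan for `multiswap`. Induction on a finite set `T` of processed clusters, with the invariant: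
`z'` agrees with `z` outside the non-hub indices of clusters in `T`; every cluster is in the class
of the original one; clusters in `T` satisfy `Pw`; the avoidance condition holds for all clusters;
`Eqv A A M z z'`. To process `c` use `Fm.avoid` to get a witness whose centre is not within `3 * sg`
(off its hubs) of any entry of the current tuple. The ball of another cluster `c'` avoids the hubs
of `c'` and all entries outside `c'`, in particular all hubs of `c`; so if it contained an entry of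
the witness then the centre of `c'` would be within `sg + δ` of the centre of the witness. -/

namespace Pool.Agent.Work.MP_b730b2_lc.Full

open Set

section aux
variable {σ V : Type} {A : Rl σ V} {n : ℕ} {hb : Fin (n + 1) → Prop} {Y Y' : Fin (n + 1) → V}

theorem swap_tr {T : Set (V × V)} {k d : ℕ} (hT : (range fun i => (Y i, Y' i)) ⊆ T)
    (e : EF A.str A.str k T) (hd : d ≤ k) {a b : V} (hab : (a, b) ∈ T) :
    Bl A.adj hb Y d a ↔ Bl A.adj hb Y' d b := by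
  constructor
  · intro h
    exact EF_wk (avoid_of_PI hb) h hT e hd (hT ⟨0, rfl⟩) hab
  · intro h
    have hT' : (range fun i => (Y' i, Y i)) ⊆ Prod.swap '' T := by
      rintro _ ⟨i, rfl⟩
      exact ⟨_, hT ⟨i, rfl⟩, rfl⟩
    exact EF_wk (avoid_of_PI hb) h hT' e.symm hd (hT' ⟨0, rfl⟩) ⟨_, hab, rfl⟩

theorem swap_far {p p' : V × V} (h1 : p.1 ≠ p'.1) (h2 : ¬ A.adj p.1 p'.1) (h3 : p.2 ≠ p'.2)
    (h4 : ¬ A.adj p.2 p'.2) : Ag A.str A.str p p' ∧ Ag A.str A.str p' p :=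
  ⟨⟨iff_of_false h1 h3, fun e => e.elim, fun r =>
      iff_of_false (fun h => h2 ⟨h1, r, Or.inl h⟩) (fun h => h4 ⟨h3, r, Or.inl h⟩)⟩,
    ⟨iff_of_false h1.symm h3.symm, fun e => e.elim, fun r =>
      iff_of_false (fun h => h2 ⟨h1, r, Or.inr h⟩) (fun h => h4 ⟨h3, r, Or.inr h⟩)⟩⟩

theorem swap_out {l u : ℕ} (hl : l + 1 ≤ u) {x a : V} (hx : Bl A.adj hb Y l x)
    (ha : ¬ Bl A.adj hb Y u a) (hs : a ∉ hubs hb Y) : x ≠ a ∧ ¬ A.adj x a :=
  ⟨fun e => ha (e ▸ hx.le (by omega)), fun e => ha (Bl.le (Wk.step hx e hs) hl)⟩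

theorem swap_two {l sg : ℕ} (hl : l + 1 ≤ sg) (hh : hubs hb Y' = hubs hb Y)
    (h3 : ¬ Bl A.adj hb Y (2 * sg) (Y' 0)) {x y : V} (hx : Bl A.adj hb Y l x)
    (hy : Bl A.adj hb Y' l y) : x ≠ y ∧ ¬ A.adj x y := by
  rw [Bl, hh] at hy
  have hy' := hy.symm A.adj_symm
  refine ⟨fun e => h3 (Bl.le (hx.wk (e ▸ hy')) (by omega)), fun e => h3 ?_⟩
  exact Bl.le (Bl.wk (Wk.step hx e hy.lst) hy') (by omega)

/-- A near pair agrees with a far diagonal pair. -/
theorem swap_mix {T : Set (V × V)} (hT : (range fun i => (Y i, Y' i)) ⊆ T)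
    (e : PI A.str A.str T) (hh : ∀ u, hb u → Y' u = Y u) {l u : ℕ} (hl : l + 1 ≤ u)
    {p p' : V × V} (hp : p ∈ T) (h1 : Bl A.adj hb Y l p.1) (h2 : Bl A.adj hb Y' l p.2)
    (h3 : p'.1 = p'.2) (h4 : ¬ Bl A.adj hb Y u p'.1) (h5 : ¬ Bl A.adj hb Y' u p'.1) :
    Ag A.str A.str p p' ∧ Ag A.str A.str p' p := by
  by_cases hs : p'.1 ∈ hubs hb Y
  · obtain ⟨i, hi, ei⟩ := hs
    have : p' ∈ T := hT ⟨i, Prod.ext ei (((hh i hi).trans ei).trans h3)⟩
    exact ⟨e p hp p' this, e p' this p hp⟩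
  · have hs' : p'.1 ∉ hubs hb Y' := fun ⟨i, hi, ei⟩ => hs ⟨i, hi, (hh i hi).symm.trans ei⟩
    have a1 := swap_out hl h1 h4 hs
    have a2 := swap_out hl h2 h5 hs'
    rw [h3] at a2
    exact swap_far a1.1 a1.2 a2.1 a2.2

/-- The invariant of the exchange game. -/
def SwapInv (A : Rl σ V) (hb : Fin (n + 1) → Prop) (Y Y' : Fin (n + 1) → V) (sg r : ℕ)
    (S : Set (V × V)) : Prop :=
  ∃ (l u : ℕ) (T1 T2 : Set (V × V)), l + 2 ^ r ≤ u ∧ u ≤ sg ∧
    (range fun i => (Y i, Y' i)) ⊆ T1 ∧ (range fun i => (Y' i, Y i)) ⊆ T2 ∧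
    EF A.str A.str (r + sg) T1 ∧ EF A.str A.str (r + sg) T2 ∧
    ∀ p ∈ S, (p ∈ T1 ∧ Bl A.adj hb Y l p.1 ∧ Bl A.adj hb Y' l p.2) ∨
      (p ∈ T2 ∧ Bl A.adj hb Y' l p.1 ∧ Bl A.adj hb Y l p.2) ∨
      (p.1 = p.2 ∧ ¬ Bl A.adj hb Y u p.1 ∧ ¬ Bl A.adj hb Y' u p.1)

theorem SwapInv.pi {sg r : ℕ} {S : Set (V × V)} (h : SwapInv A hb Y Y' sg r S)
    (hh : ∀ u, hb u → Y' u = Y u) (h3 : ¬ Bl A.adj hb Y (2 * sg) (Y' 0)) :
    PI A.str A.str S := by
  obtain ⟨l, u, T1, T2, a1, a2, a3, a4, a5, a6, a7⟩ := h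
  have hl : l + 1 ≤ u := le_trans (Nat.add_le_add_left Nat.one_le_two_pow l) a1
  have hE : hubs hb Y' = hubs hb Y := by
    ext u
    exact exists_congr fun i => and_congr_right fun hi => by rw [hh i hi]
  have hh' : ∀ u, hb u → Y u = Y' u := fun u hu => (hh u hu).symm
  have two : ∀ {p p' : V × V}, Bl A.adj hb Y l p.1 → Bl A.adj hb Y' l p.2 →
      Bl A.adj hb Y' l p'.1 → Bl A.adj hb Y l p'.2 →
      Ag A.str A.str p p' ∧ Ag A.str A.str p' p := by
    intro p p' b1 b2 b3 b4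
    have c1 := swap_two (hl.trans a2) hE h3 b1 b3
    have c2 := swap_two (hl.trans a2) hE h3 b4 b2
    exact swap_far c1.1 c1.2 c2.1.symm fun e => c2.2 (A.adj_symm _ _ e)
  intro p hp p' hp'
  rcases a7 p hp with ⟨b1, b2, b3⟩ | ⟨b1, b2, b3⟩ | ⟨b1, b2, b3⟩ <;>
    rcases a7 p' hp' with ⟨c1, c2, c3⟩ | ⟨c1, c2, c3⟩ | ⟨c1, c2, c3⟩
  · exact a5.pi p b1 p' c1
  · exact (two b2 b3 c2 c3).1
  · exact (swap_mix a3 a5.pi hh hl b1 b2 b3 c1 c2 c3).1
  · exact (two c2 c3 b2 b3).2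
  · exact a6.pi p b1 p' c1
  · exact (swap_mix a4 a6.pi hh' hl b1 b2 b3 c1 c3 c2).1
  · exact (swap_mix a3 a5.pi hh hl c1 c2 c3 b1 b2 b3).2
  · exact (swap_mix a4 a6.pi hh' hl c1 c2 c3 b1 b3 b2).2
  · exact ⟨by rw [b1, c1], fun e => e.elim, fun r => by rw [b1, c1]⟩

theorem SwapInv.fwd {sg r : ℕ} {S : Set (V × V)} (h : SwapInv A hb Y Y' sg (r + 1) S) (a : V) :
    ∃ b, SwapInv A hb Y Y' sg r (insert (a, b) S) := by
  obtain ⟨l, u, T1, T2, a1, a2, a3, a4, a5, a6, a7⟩ := h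
  rw [pow_succ] at a1
  rw [show r + 1 + sg = r + sg + 1 by omega] at a5 a6
  have hm : l + 2 ^ r ≤ r + sg := by omega
  by_cases c1 : Bl A.adj hb Y (l + 2 ^ r) a
  · obtain ⟨b, -, e⟩ := a5.2.1 a trivial
    have a3' := a3.trans (subset_insert (a, b) T1)
    refine ⟨b, l + 2 ^ r, u, _, T2, by omega, a2, a3', a4, e, a6.pred, ?_⟩
    rintro p (rfl | hp)
    · exact Or.inl ⟨Or.inl rfl, c1, (swap_tr a3' e hm (Or.inl rfl)).1 c1⟩
    · rcases a7 p hp with ⟨b1, b2, b3⟩ | ⟨b1, b2, b3⟩ | h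
      · exact Or.inl ⟨Or.inr b1, b2.le (by omega), b3.le (by omega)⟩
      · exact Or.inr (Or.inl ⟨b1, b2.le (by omega), b3.le (by omega)⟩)
      · exact Or.inr (Or.inr h)
  by_cases c2 : Bl A.adj hb Y' (l + 2 ^ r) a
  · obtain ⟨b, -, e⟩ := a6.2.1 a trivial
    have a4' := a4.trans (subset_insert (a, b) T2)
    refine ⟨b, l + 2 ^ r, u, T1, _, by omega, a2, a3, a4', a5.pred, e, ?_⟩
    rintro p (rfl | hp)
    · exact Or.inr (Or.inl ⟨Or.inl rfl, c2, (swap_tr a4' e hm (Or.inl rfl)).1 c2⟩)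
    · rcases a7 p hp with ⟨b1, b2, b3⟩ | ⟨b1, b2, b3⟩ | h
      · exact Or.inl ⟨b1, b2.le (by omega), b3.le (by omega)⟩
      · exact Or.inr (Or.inl ⟨Or.inr b1, b2.le (by omega), b3.le (by omega)⟩)
      · exact Or.inr (Or.inr h)
  refine ⟨a, l, l + 2 ^ r, T1, T2, le_rfl, by omega, a3, a4, a5.pred, a6.pred, ?_⟩
  rintro p (rfl | hp)
  · exact Or.inr (Or.inr ⟨rfl, c1, c2⟩)
  · rcases a7 p hp with h | h | ⟨b1, b2, b3⟩
    · exact Or.inl h
    · exact Or.inr (Or.inl h)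
    · exact Or.inr (Or.inr ⟨b1, fun h => b2 (h.le (by omega)), fun h => b3 (h.le (by omega))⟩)

theorem SwapInv.symm {sg r : ℕ} {S : Set (V × V)} (h : SwapInv A hb Y Y' sg r S) :
    SwapInv A hb Y' Y sg r (Prod.swap '' S) := by
  obtain ⟨l, u, T1, T2, a1, a2, a3, a4, a5, a6, a7⟩ := h
  refine ⟨l, u, Prod.swap '' T1, Prod.swap '' T2, a1, a2, ?_, ?_, a5.symm, a6.symm, ?_⟩
  · rintro _ ⟨i, rfl⟩
    exact ⟨_, a3 ⟨i, rfl⟩, rfl⟩
  · rintro _ ⟨i, rfl⟩
    exact ⟨_, a4 ⟨i, rfl⟩, rfl⟩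
  · rintro _ ⟨p, hp, rfl⟩
    rcases a7 p hp with ⟨b1, b2, b3⟩ | ⟨b1, b2, b3⟩ | ⟨b1, b2, b3⟩
    · exact Or.inl ⟨⟨p, b1, rfl⟩, b3, b2⟩
    · exact Or.inr (Or.inl ⟨⟨p, b1, rfl⟩, b3, b2⟩)
    · rw [b1] at b2 b3
      exact Or.inr (Or.inr ⟨b1.symm, b3, b2⟩)

theorem SwapInv.ef {sg r : ℕ} {S : Set (V × V)} (h : SwapInv A hb Y Y' sg r S)
    (hh : ∀ u, hb u → Y' u = Y u) (h3 : ¬ Bl A.adj hb Y (2 * sg) (Y' 0)) :
    EF A.str A.str r S := by
  refine EF.of_inv (SwapInv A hb Y Y' sg) (fun _ _ h => h.pi hh h3) ?_ ?_ r S h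
  · intro r S h a _
    obtain ⟨b, hb⟩ := h.fwd a
    exact ⟨b, trivial, hb⟩
  · intro r S h b _
    obtain ⟨a, ha⟩ := h.symm.fwd b
    refine ⟨a, trivial, ?_⟩
    have := ha.symm
    rwa [image_insert_eq, image_image, show (fun x : V × V => x.swap.swap) = id from rfl,
      image_id] at this

end aux

theorem swap {σ V α : Type} (A : Rl σ V) {n δ sg m M : ℕ} (hb : Fin (n + 1) → Prop)
    (e : Fin (n + 1) → α) (z z' : α → V) (hsg : δ + 2 ^ M + 1 ≤ sg) (hm : M + sg + 2 ≤ m)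
    (hz : ∀ b, (∀ a, ¬ hb a → e a ≠ b) → z' b = z b)
    (hc : Cls A m hb (fun a => z (e a)) (fun a => z' (e a)))
    (hs : Shape A.adj δ hb (fun a => z (e a)))
    (h1 : ∀ b, (∀ a, ¬ hb a → e a ≠ b) → ¬ Bl A.adj hb (fun a => z (e a)) sg (z b))
    (h2 : ∀ b, (∀ a, ¬ hb a → e a ≠ b) → ¬ Bl A.adj hb (fun a => z' (e a)) sg (z b))
    (h3 : ¬ Bl A.adj hb (fun a => z (e a)) (2 * sg) (z' (e 0))) :
    Eqv A A M z z' := by
  have hp : 0 < 2 ^ M := by positivity
  refine SwapInv.ef (hb := hb) (Y := fun a => z (e a)) (Y' := fun a => z' (e a)) (sg := sg)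
    ⟨δ, δ + 2 ^ M, _, _, le_rfl, by omega, Subset.rfl, Subset.rfl, hc.2.le (by omega),
      hc.2.symm.le (by omega), ?_⟩ hc.1 h3
  rintro _ ⟨b, rfl⟩
  by_cases hb' : ∀ a, ¬ hb a → e a ≠ b
  · exact Or.inr (Or.inr ⟨(hz b hb').symm, fun h => h1 b hb' (h.le (by omega)),
      fun h => h2 b hb' (h.le (by omega))⟩)
  · push Not at hb'
    obtain ⟨a, ha, rfl⟩ := hb'
    exact Or.inl ⟨⟨a, rfl⟩, hs.2.2.1 a ha,
      (swap_tr Subset.rfl hc.2 (by omega) ⟨a, rfl⟩).1 (hs.2.2.1 a ha)⟩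

theorem multiswap {σ V α C : Type} [Finite α] [Finite C] (A : Rl σ V) {δ sg m M t : ℕ}
    (n : C → ℕ) (hb : ∀ c, Fin (n c + 1) → Prop) (e : ∀ c, Fin (n c + 1) → α) (z : α → V)
    (hsg : δ + 2 ^ M + 1 ≤ sg) (hm : M + sg + 2 ≤ m) (ht : Nat.card α < t)
    (hdisj : ∀ c a c' a', ¬ hb c a → e c a = e c' a' →
      (⟨c, a⟩ : Σ c, Fin (n c + 1)) = ⟨c', a'⟩)
    (hs : ∀ c, Shape A.adj δ (hb c) (fun a => z (e c a)))
    (hav : ∀ c b, (∀ a, ¬ hb c a → e c a ≠ b) → ¬ Bl A.adj (hb c) (fun a => z (e c a)) sg (z b))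
    (Pw : ∀ c, (Fin (n c + 1) → V) → Prop)
    (hf : ∀ c, Fm A m (hb c) (fun a => z (e c a)) sg t (Pw c)) :
    ∃ z' : α → V, (∀ b, (∀ c a, ¬ hb c a → e c a ≠ b) → z' b = z b) ∧
      (∀ c, Cls A m (hb c) (fun a => z (e c a)) (fun a => z' (e c a)) ∧
        Pw c (fun a => z' (e c a))) ∧
      (∀ c b, (∀ a, ¬ hb c a → e c a ≠ b) → ¬ Bl A.adj (hb c) (fun a => z' (e c a)) sg (z' b)) ∧
      Eqv A A M z z' := by
  classical
  have hp : 0 < 2 ^ M := by positivity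
  have key : ∀ T : Finset C, ∃ z' : α → V,
      (∀ b, (∀ c ∈ T, ∀ a, ¬ hb c a → e c a ≠ b) → z' b = z b) ∧
      (∀ c, Cls A m (hb c) (fun a => z (e c a)) (fun a => z' (e c a))) ∧
      (∀ c ∈ T, Pw c (fun a => z' (e c a))) ∧
      (∀ c b, (∀ a, ¬ hb c a → e c a ≠ b) →
        ¬ Bl A.adj (hb c) (fun a => z' (e c a)) sg (z' b)) ∧ Eqv A A M z z' := by
    intro T
    induction T using Finset.induction_on with
    | empty =>
      exact ⟨z, fun _ _ => rfl, fun c => Cls.refl _ _ _ _, fun c hc => absurd hc (by simp), hav,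
        Eqv.refl _ _ _⟩
    | insert c T hcT ih =>
      obtain ⟨z', ia, ib, ic, id, ie⟩ := ih
      have hcard : (range z').ncard ≤ Nat.card α := by
        rw [← image_univ, ← ncard_univ]
        exact ncard_image_le (toFinite _)
      obtain ⟨W, w1, w2, w3⟩ :=
        ((hf c).avoid (T' := 1) (finite_range z') (by omega)).exists one_pos
      have w4 : ∀ b r, r ≤ 3 * sg → ¬ Bl A.adj (hb c) W r (z' b) :=
        fun b r hr h => w3 _ ⟨b, rfl⟩ (h.le hr)
      obtain ⟨z'', f1, f2⟩ : ∃ z'' : α → V, (∀ a, ¬ hb c a → z'' (e c a) = W a) ∧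
          ∀ b, (∀ a, ¬ hb c a → e c a ≠ b) → z'' b = z' b := by
        refine ⟨fun b => if h : ∃ a, ¬ hb c a ∧ e c a = b then W h.choose else z' b,
          fun a ha => ?_, fun b h => dif_neg fun ⟨a, ha, ea⟩ => h a ha ea⟩
        have h : ∃ a', ¬ hb c a' ∧ e c a' = e c a := ⟨a, ha, rfl⟩
        simp only [dif_pos h]
        rw [sigma_mk_injective (hdisj c _ c a h.choose_spec.1 h.choose_spec.2)]
      have f3 : (fun a => z'' (e c a)) = W := by
        funext a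
        by_cases ha : hb c a
        · rw [f2 _ fun a' ha' ea => ha' (sigma_mk_injective (hdisj c a' c a ha' ea) ▸ ha),
            w1.1 a ha]
          exact (ib c).1 a ha
        · exact f1 a ha
      have f4 : ∀ c', c' ≠ c → (fun a => z'' (e c' a)) = fun a => z' (e c' a) := by
        intro c' hc'
        funext a
        exact f2 _ fun a' ha' ea => hc' (congrArg Sigma.fst (hdisj c a' c' a ha' ea)).symm
      have sW : Shape A.adj δ (hb c) W := (hs c).transfer w1.2 (by omega)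
      refine ⟨z'', fun b h => ?_, fun c' => ?_, fun c' hc' => ?_, fun c' b h => ?_,
        ie.trans (swap A (hb c) (e c) z' z'' hsg hm f2 ?_ ((hs c).transfer (ib c).2 (by omega))
          (id c) ?_ ?_)⟩
      · rw [f2 b (h c (Finset.mem_insert_self _ _))]
        exact ia b fun c' hc' => h c' (Finset.mem_insert_of_mem hc')
      · by_cases hc' : c' = c
        · subst hc'
          rw [f3]
          exact w1
        · rw [f4 c' hc']
          exact ib c'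
      · by_cases hc'' : c' = c
        · subst hc''
          rw [f3]
          exact w2
        · rw [f4 c' hc'']
          exact ic c' ((Finset.mem_insert.1 hc').resolve_left hc'')
      · by_cases hc' : c' = c
        · subst hc'
          rw [f3, f2 b h]
          exact w4 b sg (by omega)
        rw [f4 c' hc']
        by_cases hb' : ∀ a, ¬ hb c a → e c a ≠ b
        · rw [f2 b hb']
          exact id c' b h
        push Not at hb'
        obtain ⟨a, ha, rfl⟩ := hb'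
        rw [f1 a ha]
        intro hbl
        have h1 := hbl.inside (Q := fun v => v ∉ hubs (hb c) W) (by
          rintro v hv ⟨u, hu, rfl⟩
          rw [w1.1 u hu, ← (ib c).1 u hu] at hv
          exact id c' (e c u)
            (fun a' ha' ea => hc' (congrArg Sigma.fst (hdisj c' a' c u ha' ea))) hv)
        exact w4 (e c' 0) (δ + sg) (by omega) ((sW.2.2.1 a ha).wk (h1.symm A.adj_symm))
      · rw [f3]
        exact (ib c).symm.trans w1
      · intro b _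
        rw [f3]
        exact w4 b sg (by omega)
      · intro h
        rw [f1 0 (hs c).2.1, Bl, (ib c).hubs_eq, ← w1.hubs_eq] at h
        exact w4 (e c 0) (2 * sg) (by omega) (h.symm A.adj_symm)
  have := Fintype.ofFinite C
  obtain ⟨z', ia, ib, ic, id, ie⟩ := key Finset.univ
  exact ⟨z', fun b h => ia b fun c _ => h c, fun c => ⟨ib c, ic c (Finset.mem_univ _)⟩, id, ie⟩

end Pool.Agent.Work.MP_b730b2_lc.Full
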