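import Pool.Agent.Work.MP_b730b2_lc.Full.Clusters
import Pool.Agent.Work.MP_b730b2_lc.Full.Swap

/-! Positions of the game and the transport of the clusters to the other structure.

Proof plan for `transport`. Let `α` be the subtype of `B = Y0 ∪ ⋃ hubs`. With `r` from `rk_fam`,
`Eqv.moves'` gives a reference copy `z : α → V K'` with `Eqv r (Sum.elim x val) (Sum.elim x' z)`.
For a cluster `c` let `e c a = ⟨Y c a, _⟩`. The reference tuple `z ∘ e c` has the shape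
(`Shape.transfer`), `Fm .. (2 Th)` (`Clu.fam`, `rk_fam`), all members of its class satisfy the
condition (`rk_C`) for the context of `Y c`, and this context is the actual context of `z ∘ e c`:
hubs are in `Z j`, use `Chain.wr` on both sides and `Pos.wr`, `Pos.col` (`R0 ≤ Rc`). So `Sat` gives
`t` witnesses. Avoidance holds in `K` by `Clu.ball` and is transferred by `Eqv.wk`. Apply
`multiswap` (`sg_M`, `m_M`, `t_ge`) and let `ψ v = z' ⟨v, _⟩` for `v ∈ B` (arbitrary elsewhere; `V K'`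
is nonempty if `B` is, otherwise use the hypothesis `Nonempty`). -/

namespace Pool.Agent.Work.MP_b730b2_lc.Full

open Set

variable {σ : Type} {X : Cx σ}

/-- Matched chains. -/
structure Pos (L : Lv X) (K K' : X.Φ.K) (e : Xp (X.Φ.V K) X.χ X.J) (e' : Xp (X.Φ.V K') X.χ X.J)
    {n : ℕ} (x : Fin n → X.Φ.V K) (x' : Fin n → X.Φ.V K') (I : ℕ → Set (Fin n)) : Prop where
  ch : Chain L K e (fun j => x '' I j)
  ch' : Chain L K' e' (fun j => x' '' I j)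
  eqv : Eqv (X.Φ.R K) (X.Φ.R K') L.M x x'
  wr : ∀ j < L.D, ∀ a ∈ I j, ∀ b, ∀ d ≤ L.Rc, WR (X.Φ.R K).adj e.pos d (x a) (x b) ↔
    WR (X.Φ.R K').adj e'.pos d (x' a) (x' b)
  f : ∀ j < L.D, ∀ a ∈ I j, ∀ b i, e.f (x a) i = some (x b) ↔ e'.f (x' a) i = some (x' b)
  col : ∀ a, e.col (x a) = e'.col (x' a)

/-- Balls are transferred along a game on a larger tuple. -/
theorem Bl.tr {V W α : Type} {A : Rl σ V} {B : Rl σ W} {x : α → V} {y : α → W} {k d n : ℕ}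
    {hb : Fin (n + 1) → Prop} (h : Eqv A B k x y) (e : Fin (n + 1) → α) (hd : d ≤ k) (b : α)
    (hw : Bl A.adj hb (fun a => x (e a)) d (x b)) : Bl B.adj hb (fun a => y (e a)) d (y b) :=
  EF_wk (avoid_of_PI (x := fun a => x (e a)) (y := fun a => y (e a)) hb) hw
    (by rintro _ ⟨i, rfl⟩; exact ⟨e i, rfl⟩) h hd ⟨e 0, rfl⟩ ⟨b, rfl⟩

/-- Matched vertices of the chains see the same colours. -/
theorem Pos.ctx {L : Lv X} {K K' : X.Φ.K} {e : Xp (X.Φ.V K) X.χ X.J}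
    {e' : Xp (X.Φ.V K') X.χ X.J} {m : ℕ} {x : Fin m → X.Φ.V K} {x' : Fin m → X.Φ.V K'}
    {I : ℕ → Set (Fin m)} (hp : Pos L K K' e e' x x' I) {j : ℕ} (hj : j < L.D) {a : Fin m}
    (ha : a ∈ I j) {d : ℕ} (hd : d ≤ L.Rc) (c : Fin X.χ) :
    (∃ z, WR (X.Φ.R K).adj e.pos d (x a) z ∧ e.col z = c) ↔
      ∃ z, WR (X.Φ.R K').adj e'.pos d (x' a) z ∧ e'.col z = c := by
  constructor
  · rintro ⟨z, h1, rfl⟩
    obtain ⟨b, -, rfl⟩ := hp.ch.wr j hj (x a) ⟨a, ha, rfl⟩ z (h1.le hd)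
    exact ⟨x' b, (hp.wr j hj a ha b d hd).1 h1, (hp.col b).symm⟩
  · rintro ⟨z, h1, rfl⟩
    obtain ⟨b, -, rfl⟩ := hp.ch'.wr j hj (x' a) ⟨a, ha, rfl⟩ z (h1.le hd)
    exact ⟨x b, (hp.wr j hj a ha b d hd).2 h1, hp.col b⟩

theorem transport (hX : X.Ok) {P : ℕ → Lv X} (hP : Good P) {K K' : X.Φ.K}
    {e : Xp (X.Φ.V K) X.χ X.J} {e' : Xp (X.Φ.V K') X.χ X.J} (he' : Rich P K' e') {l : ℕ}
    (hne : Nonempty (X.Φ.V K')) {m : ℕ} {x : Fin m → X.Φ.V K} {x' : Fin m → X.Φ.V K'}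
    {I : ℕ → Set (Fin m)} (hp : Pos (P (l + 1)) K K' e e' x x' I) {U Y0 : Set (X.Φ.V K)} {j i : ℕ}
    {C : Type} [Finite C] {n : C → ℕ} {π : ∀ c, Pat X.χ X.J (n c)}
    {Y : ∀ c, Fin (n c + 1) → X.Φ.V K} (hj : j < (P (l + 1)).D)
    (hs : Sit P (l + 1) K e i (x '' I j) (x '' I (j + 1)) U Y0)
    (hc : ∀ c, Clu (P (l + 1)) K e i (x '' I j) Y0 (π c).hb (Y c) ∧
      (P (l + 1)).C K i (n c) (Y c) (π c) (actx (X.Φ.R K).adj e X.R0 (π c).hb (Y c)))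
    (hdis : ∀ c c' y, y ∈ nhs (π c).hb (Y c) → y ∈ nhs (π c').hb (Y c') → c = c')
    (hcard : (Y0 ∪ ⋃ c, hubs (π c).hb (Y c)).ncard ≤ ((P (l + 1)).N + 1) * (2 * X.k + 2)) :
    ∃ ψ : X.Φ.V K → X.Φ.V K',
      Eqv (X.Φ.R K) (X.Φ.R K') (P l).M
        (fun b : (Y0 ∪ ⋃ c, hubs (π c).hb (Y c) : Set (X.Φ.V K)) => b.1) (fun b => ψ b.1) ∧
      (∀ a, x a ∈ Y0 ∪ ⋃ c, hubs (π c).hb (Y c) → (∀ c, x a ∉ nhs (π c).hb (Y c)) →
        ψ (x a) = x' a) ∧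
      (∀ c, Eqv (X.Φ.R K) (X.Φ.R K') (P (l + 1)).m (Y c) (fun a => ψ (Y c a)) ∧
        Wit (X.Φ.R K').adj e' ((P (l + 1)).sg i) (π c) (fun a => ψ (Y c a))) ∧
      ∀ c, ∀ b ∈ Y0 ∪ ⋃ c, hubs (π c).hb (Y c), b ∉ nhs (π c).hb (Y c) →
        ¬ Bl (X.Φ.R K').adj (π c).hb (fun a => ψ (Y c a)) ((P (l + 1)).sg i) (ψ b) := by
  classical
  generalize hB : (Y0 ∪ ⋃ c, hubs (π c).hb (Y c) : Set (X.Φ.V K)) = B at hcard ⊢
  have hB' : ∀ v, v ∈ B ↔ v ∈ Y0 ∨ ∃ c, v ∈ hubs (π c).hb (Y c) := fun v => by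
    rw [← hB, mem_union, mem_iUnion]
  obtain ⟨r, hr1, hr2, hr3⟩ := hP.rk_fam (l + 1)
  have hcard' : Nat.card B ≤ ((P (l + 1)).N + 1) * (2 * X.k + 2) := by
    rwa [Nat.card_coe_set_eq]
  obtain ⟨z, hz⟩ := (hp.eqv.le (m := r + Nat.card B) (by omega)).moves' (fun b : B => b.1)
  have memB : ∀ c a, Y c a ∈ B := fun c a => by
    by_cases ha : (π c).hb a
    · exact (hB' _).2 (Or.inr ⟨c, a, ha, rfl⟩)
    · exact (hB' _).2 (Or.inl (((hc c).1.nhs_eq _).1 ⟨a, ha, rfl⟩).1)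
  let ee : ∀ c, Fin (n c + 1) → B := fun c a => ⟨Y c a, memB c a⟩
  have hzv : Eqv (X.Φ.R K) (X.Φ.R K') r (fun b : B => b.1) z := hz.comp Sum.inr
  have hzc : ∀ c, Eqv (X.Φ.R K) (X.Φ.R K') r (Y c) (fun a => z (ee c a)) := fun c =>
    hzv.comp (ee c)
  have hzx : ∀ a (b : B), b.1 = x a → z b = x' a := fun a b h =>
    (hz.eq_iff (Sum.inr b) (Sum.inl a)).1 h
  have a1 := hP.sg_ge (l + 1) i
  have a2 := hP.sg_S (l + 1) i hs.ilt
  have a3 := hP.m_S (l + 1)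
  have a4 := hP.m_M l
  have a5 := hP.lam_succ (l + 1) i
  have a6 := hP.t_ge (l + 1)
  have a7 : X.R0 ≤ (P (l + 1)).Rc :=
    hX.R0_le.trans (hP.R_le.trans (hP.Rc_mono 0 (l + 1) (Nat.zero_le _)))
  have hubZ : ∀ c v, v ∈ hubs (π c).hb (Y c) → v ∈ x '' I j := fun c v hv =>
    (((hc c).1.hubs_eq v).1 hv).1
  have hctx : ∀ c, actx (X.Φ.R K').adj e' X.R0 (π c).hb (fun a => z (ee c a)) =
      actx (X.Φ.R K).adj e X.R0 (π c).hb (Y c) := by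
    intro c
    funext u d
    ext col
    refine and_congr_right fun hu => ?_
    obtain ⟨a, ha, ea⟩ := hubZ c _ ⟨u, hu, rfl⟩
    beta_reduce
    rw [hzx a (ee c u) ea.symm, ← ea]
    exact (hp.ctx hj ha ((Nat.lt_succ_iff.1 d.2).trans a7) col).symm
  have hf : ∀ c, Fm (X.Φ.R K') (P (l + 1)).m (π c).hb (fun a => z (ee c a)) ((P (l + 1)).sg i)
      (P (l + 1)).t (Wit (X.Φ.R K').adj e' ((P (l + 1)).sg i) (π c)) := by
    intro c
    refine he'.sat (l + 1) hs.lt i hs.ilt (n c) (hc c).1.le (π c) _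
      (hr3 i hs.ilt (n c) (hc c).1.le (π c).hb K K' _ _ (hzc c) (Clu.fam hP hs (hc c).1)) ?_
    intro Y' hY'
    rw [hctx c]
    exact hP.rk_C (l + 1) i hs.ilt (n c) (hc c).1.le (π c) _ K K' (Y c) Y'
      (((hzc c).le hr2).trans hY'.2) (hc c).2
  have hdisj : ∀ c a c' a', ¬ (π c).hb a → ee c a = ee c' a' →
      (⟨c, a⟩ : Σ c, Fin (n c + 1)) = ⟨c', a'⟩ := by
    intro c a c' a' ha h
    have h' : Y c a = Y c' a' := congrArg Subtype.val h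
    by_cases ha' : (π c').hb a'
    · exact absurd (hubZ c' _ ⟨a', ha', h'.symm⟩)
        (((hc c).1.nhs_eq _).1 ⟨a, ha, rfl⟩).2.lst
    · obtain rfl := hdis c c' _ ⟨a, ha, rfl⟩ ⟨a', ha', h'.symm⟩
      rw [(hc c).1.shape.1 h']
  have hav : ∀ c b, (∀ a, ¬ (π c).hb a → ee c a ≠ b) →
      ¬ Bl (X.Φ.R K').adj (π c).hb (fun a => z (ee c a)) ((P (l + 1)).sg i) (z b) := by
    intro c b hb hw
    have h1 := Clu.ball hP hs (hc c).1 (r := (P (l + 1)).sg i) (by omega)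
      (Bl.tr hzv.symm (ee c) (by omega) b hw)
    rcases (hB' _).1 b.2 with h | ⟨c', h⟩
    · obtain ⟨a, ha, ea⟩ := h1.2.2 h
      exact hb a ha (Subtype.ext ea)
    · exact h1.1.lst (hubZ c' _ h)
  obtain ⟨z', h1, h2, h3, h4⟩ := multiswap (X.Φ.R K') (δ := (P (l + 1)).lam i) (M := (P l).M) n
    (fun c => (π c).hb) ee z (hP.sg_M l i) (by omega) (by omega) hdisj
    (fun c => (hc c).1.shape.transfer (hzc c) (by omega)) hav _ hf
  let ψ : X.Φ.V K → X.Φ.V K' := fun v => if h : v ∈ B then z' ⟨v, h⟩ else Classical.choice hne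
  have hψ : ∀ v (h : v ∈ B), ψ v = z' ⟨v, h⟩ := fun v h => dif_pos h
  have hψc : ∀ c, (fun a => ψ (Y c a)) = fun a => z' (ee c a) := fun c =>
    funext fun a => hψ _ _
  refine ⟨ψ, ?_, fun a ha hn => ?_, fun c => ?_, fun c b hb hn => ?_⟩
  · rw [show (fun b : B => ψ b.1) = z' from funext fun b => hψ _ b.2]
    exact (hzv.le (by omega)).trans h4
  · rw [hψ _ ha, h1 _ fun c a' ha' h => hn c ⟨a', ha', congrArg Subtype.val h⟩]
    exact hzx a _ rfl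
  · rw [hψc c]
    exact ⟨((hzc c).le hr2).trans (h2 c).1.2, (h2 c).2⟩
  · rw [hψc c, hψ _ hb]
    exact h3 c _ fun a ha h => hn ⟨a, ha, congrArg Subtype.val h⟩

end Pool.Agent.Work.MP_b730b2_lc.Full
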