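import Pool.Agent.Work.MP_b730b2_lc.Full.Key
import Pool.Agent.Work.MP_b730b2_lc.Full.Abs

/-! The claim for a view from the claims for its items.

Proof plan. Let `pos` be a rank function of the order (`exists_rank`). Define `r γ u = 2 * pos x` for
a chosen `x ∈ Item v u` with `enc (cell x) = γ` if there is one, and `2 * bt u + 1` otherwise; it is
injective on the items. Apply `EF.gsum` with the arrangements as index structures, `π = it v`,
components `Reg .. (Item v u)` (`item_det`). Same item: `LK (Iio v) o x` is obtained from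
`LK (Iio v) u x` by masking with conditions that only depend on the label (`inv_dom`, `inv_ow`,
`ow_lt`). Different items: no basic relation holds (`nonadj`); the order is given by `lt_cross` if
the cells differ, and otherwise it is the relation `enc (cell x)` of the arrangement by `lt_mark`
(both directions, `lt` is asymmetric via `pos`) and `lt_convex`. -/

namespace Pool.Agent.Work.MP_b730b2_lc.Full

open Set

section aux

variable {σ0 σ1 : Type} {Φ : Fam σ1} {G : Geo Φ} {ι : σ0 → σ1} {q : ℕ} {K K' : Φ.K}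
  {μ : G.View → Φ.V K → ℤ} {μ' : G.View → Φ.V K' → ℤ} {v : G.View}

/-- The marks before the owner are determined by the cell. -/
theorem viewCl_mask (hG : G.Ok ι q) {x : Φ.V K} {x' : Φ.V K'} (hx : G.dom K v x)
    (e : G.cell K μ v x = G.cell K' μ' v x') :
    G.LK K μ (Iio v) (G.ow K v x) x = G.LK K' μ' (Iio v) (G.ow K' v x') x' := by
  have hl : G.lab K x = G.lab K' x' := congrArg Prod.fst e
  have e2 : G.LK K μ (Iio v) (G.it K v x) x = G.LK K' μ' (Iio v) (G.it K' v x') x' :=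
    congrArg Prod.snd e
  have hx' := hG.inv_dom K K' x x' v hl hx
  have a1 := hG.inv_ow K K' x x' v hl hx
  have a2 := hG.ow_lt K v x hx
  have a3 := hG.ow_lt K' v x' hx'
  funext w
  have e3 := congrFun e2 w
  unfold Geo.LK at e3 ⊢
  by_cases c : w ∈ Iio v ∧ G.dom K w x ∧ G.ps K x (G.ow K w x) < G.ps K x (G.ow K v x)
  · have b1 := hG.inv_dom K K' x x' w hl c.2.1
    have b2 := hG.inv_ow K K' x x' w hl c.2.1
    have b3 := c.2.2
    rw [if_pos ⟨c.1, c.2.1, by omega⟩, if_pos ⟨c.1, b1, by omega⟩] at e3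
    rw [if_pos c, if_pos ⟨c.1, b1, by omega⟩, e3]
  · rw [if_neg c, if_neg]
    rintro ⟨c1, c2, c3⟩
    have b1 := hG.inv_dom K' K x' x w hl.symm c2
    have b2 := hG.inv_ow K K' x x' w hl b1
    exact c ⟨c1, b1, by omega⟩

/-- Inside a cell the order of different items is the order of an arrangement. -/
theorem viewCl_rank (hG : G.Ok ι q) (h : G.Coh K μ univ) (o : Φ.V K) {Θ Γ : Type}
    (enc : G.Λ × (G.View → ℤ) → Γ) {S : Set (G.Λ × (G.View → ℤ))} (hS : InjOn enc S)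
    (h1 : ∀ x, G.cell K μ v x ∈ S) (θ : Φ.V K → Θ) (mk : Γ → Φ.V K → ℤ)
    (hμ : ∀ x ∈ G.Inst K v o, μ v x = mk (enc (G.cell K μ v x)) (G.it K v x)) :
    ∃ r : Γ → Φ.V K → ℕ, (∀ γ, Function.Injective (r γ)) ∧ ∀ x ∈ G.Inst K v o,
      ∀ y ∈ G.Inst K v o, G.it K v x ≠ G.it K v y → G.cell K μ v x = G.cell K μ v y →
        (G.lt K μ x y ↔ (Arr (G.Items K v o) θ mk r).R (enc (G.cell K μ v x)) (G.it K v x)
          (G.it K v y)) := by
  classical
  obtain ⟨pos, hp, hlt⟩ := Geo.exists_rank hG μ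
  let P : Γ → Φ.V K → Φ.V K → Prop := fun γ u x =>
    G.dom K v x ∧ G.it K v x = u ∧ enc (G.cell K μ v x) = γ
  let r : Γ → Φ.V K → ℕ := fun γ u =>
    if c : ∃ x, P γ u x then 2 * pos c.choose else 2 * G.bt K u + 1
  have r1 : ∀ γ u, (∃ x, P γ u x) → ∃ x, P γ u x ∧ r γ u = 2 * pos x := fun γ u c =>
    ⟨c.choose, c.choose_spec, dif_pos c⟩
  have r2 : ∀ γ u, (¬ ∃ x, P γ u x) → r γ u = 2 * G.bt K u + 1 := fun γ u c => dif_neg c
  refine ⟨r, fun γ u u' e => ?_, fun x hx y hy hne e => ?_⟩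
  · by_cases c : ∃ x, P γ u x <;> by_cases c' : ∃ x, P γ u' x
    · obtain ⟨x, a1, a2⟩ := r1 γ u c
      obtain ⟨y, b1, b2⟩ := r1 γ u' c'
      obtain rfl : x = y := hp (by omega)
      exact a1.2.1.symm.trans b1.2.1
    · obtain ⟨x, -, a2⟩ := r1 γ u c
      have := r2 γ u' c'
      omega
    · obtain ⟨x, -, a2⟩ := r1 γ u' c'
      have := r2 γ u c
      omega
    · have a1 := r2 γ u c
      have a2 := r2 γ u' c'
      exact hG.bt_inj K (by omega)
  · obtain ⟨x1, a1, a2⟩ := r1 _ _ ⟨x, hx.1, rfl, rfl⟩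
    obtain ⟨y1, b1, b2⟩ := r1 (enc (G.cell K μ v x)) _ ⟨y, hy.1, rfl, by rw [e]⟩
    have c1 : G.cell K μ v x = G.cell K μ v x1 := hS (h1 x) (h1 x1) a1.2.2.symm
    have c2 : G.cell K μ v y = G.cell K μ v y1 := e.symm.trans (hS (h1 x) (h1 y1) b1.2.2.symm)
    have c3 := Geo.lt_convex hG h hx.1 hy.1 a1.1 b1.1 e c1 c2 a1.2.1.symm b1.2.1.symm hne
    have ho : G.ow K v x = G.ow K v y := hx.2.trans hy.2.symm
    have m1 := hμ x hx
    have m2 := hμ y hy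
    rw [← e] at m2
    change _ ↔ _ < _ ∨ (_ = _ ∧ r _ _ < r _ _)
    rw [← m1, ← m2, a2, b2]
    rcases lt_trichotomy (μ v x) (μ v y) with c | c | c
    · exact iff_of_true (Geo.lt_mark hG h hx.1 hy.1 ho e c) (Or.inl c)
    · rw [c3, ← hlt]
      constructor
      · exact fun d => Or.inr ⟨c, by omega⟩
      · rintro (d | d)
        · omega
        · omega
    · have d := (hlt _ _).2 (Geo.lt_mark hG h hy.1 hx.1 ho.symm e.symm c)
      rw [← hlt]
      constructor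
      · intro d'
        omega
      · rintro (d' | d')
        · omega
        · omega

theorem viewCl_cell {lt : Φ.V K → Φ.V K → Prop} {lt' : Φ.V K' → Φ.V K' → Prop}
    {I : Set (Φ.V K)} {I' : Set (Φ.V K')} {p p' : Φ.V K × Φ.V K'}
    (h : Ag (G.Reg ι K lt (G.LK K μ (Iio v) (G.it K v p.1)) I)
      (G.Reg ι K' lt' (G.LK K' μ' (Iio v) (G.it K' v p.2)) I') p p') :
    G.cell K μ v p.1 = G.cell K' μ' v p.2 :=
  have h1 := (h.2.1 (G.cell K μ v p.1)).1 ⟨rfl, rfl⟩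
  Prod.ext h1.1.symm h1.2.symm

theorem viewCl_un (hG : G.Ok ι q) {lt : Φ.V K → Φ.V K → Prop} {lt' : Φ.V K' → Φ.V K' → Prop}
    {o x : Φ.V K} {o' x' : Φ.V K'} (hx : x ∈ G.Inst K v o) (hx' : x' ∈ G.Inst K' v o')
    (e : G.cell K μ v x = G.cell K' μ' v x') (c : G.Λ × (G.View → ℤ)) :
    (G.Reg ι K lt (G.LK K μ (Iio v) o) (G.Inst K v o)).U c x ↔
      (G.Reg ι K' lt' (G.LK K' μ' (Iio v) o') (G.Inst K' v o')).U c x' := by
  have hl : G.lab K x = G.lab K' x' := congrArg Prod.fst e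
  have h2 := viewCl_mask hG hx.1 e
  rw [hx.2, hx'.2] at h2
  change G.lab K x = c.1 ∧ G.LK K μ (Iio v) o x = c.2 ↔
    G.lab K' x' = c.1 ∧ G.LK K' μ' (Iio v) o' x' = c.2
  rw [hl, h2]

theorem viewCl_item (hG : G.Ok ι q) {o u : Φ.V K} (hu : u ∈ G.Items K v o) (a : Φ.V K) :
    a ∈ G.Item K v u ↔ a ∈ G.Inst K v o ∧ G.it K v a = u := by
  obtain ⟨x, h1, h2, h3⟩ := hu
  exact ⟨fun h => ⟨⟨h.1, (hG.item_det K v a x h.1 h1 (h.2.trans h3.symm)).trans h2⟩, h.2⟩,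
    fun h => ⟨h.1.1, h.2⟩⟩

end aux

theorem Geo.view_claim {σ0 σ1 : Type} {Φ : Fam σ1} {G : Geo Φ} {ι : σ0 → σ1} {q : ℕ}
    (hG : G.Ok ι q) {K K' : Φ.K} {μ : G.View → Φ.V K → ℤ} {μ' : G.View → Φ.V K' → ℤ}
    (h : G.Coh K μ univ) (h' : G.Coh K' μ' univ) (v : G.View) (o : Φ.V K) (o' : Φ.V K')
    {Θ Γ : Type} (enc : G.Λ × (G.View → ℤ) → Γ) {S : Set (G.Λ × (G.View → ℤ))} (hS : InjOn enc S)
    (h1 : ∀ x, G.cell K μ v x ∈ S) (h1' : ∀ x, G.cell K' μ' v x ∈ S)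
    (θ : Φ.V K → Θ) (θ' : Φ.V K' → Θ) (mk : Γ → Φ.V K → ℤ) (mk' : Γ → Φ.V K' → ℤ)
    (habs : ∀ (r : Γ → Φ.V K → ℕ) (r' : Γ → Φ.V K' → ℕ), (∀ γ, InjOn (r γ) (G.Items K v o)) →
      (∀ γ, InjOn (r' γ) (G.Items K' v o')) →
      EF (Arr (G.Items K v o) θ mk r) (Arr (G.Items K' v o') θ' mk' r') q ∅)
    (hμ : ∀ x ∈ G.Inst K v o, μ v x = mk (enc (G.cell K μ v x)) (G.it K v x))
    (hμ' : ∀ x ∈ G.Inst K' v o', μ' v x = mk' (enc (G.cell K' μ' v x)) (G.it K' v x))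
    (hit : ∀ u ∈ G.Items K v o, ∀ u' ∈ G.Items K' v o', θ u = θ' u' →
      EF (G.Reg ι K (G.lt K μ) (G.LK K μ (Iio v) u) (G.Item K v u))
        (G.Reg ι K' (G.lt K' μ') (G.LK K' μ' (Iio v) u') (G.Item K' v u')) q ∅) :
    EF (G.Reg ι K (G.lt K μ) (G.LK K μ (Iio v) o) (G.Inst K v o))
      (G.Reg ι K' (G.lt K' μ') (G.LK K' μ' (Iio v) o') (G.Inst K' v o')) q ∅ := by
  obtain ⟨r, r1, r2⟩ := viewCl_rank hG h o enc hS h1 θ mk hμ
  obtain ⟨r', r1', r2'⟩ := viewCl_rank hG h' o' enc hS h1' θ' mk' hμ'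
  refine EF.gsum (G.it K v) (G.it K' v)
    (fun u => G.Reg ι K (G.lt K μ) (G.LK K μ (Iio v) u) (G.Item K v u))
    (fun u => G.Reg ι K' (G.lt K' μ') (G.LK K' μ' (Iio v) u) (G.Item K' v u))
    ?_ ?_ ?_ ?_ ?_ ?_ ?_ (habs r r' (fun γ => (r1 γ).injOn) fun γ => (r1' γ).injOn)
  · exact fun a ha => ⟨a, ha.1, ha.2, rfl⟩
  · exact fun a ha => ⟨a, ha.1, ha.2, rfl⟩
  · exact fun u hu a => viewCl_item hG hu a
  · exact fun u hu a => viewCl_item hG hu a
  · exact fun u hu u' hu' e => hit u hu u' hu' ((e.2.1 (θ u)).1 rfl).symm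
  · intro p p' a1 a2 _ _ _ _ _ e _
    exact ⟨e.1, viewCl_un hG a1 a2 (viewCl_cell e), e.2.2⟩
  · intro p p' a1 a2 a3 a4 n1 n2 x1 _ e e'
    have c1 := viewCl_cell e
    have c2 := viewCl_cell e'
    refine ⟨iff_of_false (fun d => n1 (by rw [d])) (fun d => n2 (by rw [d])),
      viewCl_un hG a1 a2 c1, ?_⟩
    rintro (_ | s)
    · change G.lt K μ p.1 p'.1 ↔ G.lt K' μ' p.2 p'.2
      by_cases c : G.cell K μ v p.1 = G.cell K μ v p'.1
      · rw [r2 _ a1 _ a3 n1 c, r2' _ a2 _ a4 n2 (c1.symm.trans (c.trans c2)), ← c1]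
        exact x1.2.2 _
      · exact Geo.lt_cross hG h h' a1.1 a3.1 (a1.2.trans a3.2.symm) (a2.2.trans a4.2.symm) c1 c2 c
    · exact iff_of_false (fun d => n1 (hG.nonadj K v _ _ s a1.1 a3.1 d))
        fun d => n2 (hG.nonadj K' v _ _ s a2.1 a4.1 d)

end Pool.Agent.Work.MP_b730b2_lc.Full
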