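import Pool.Agent.Work.MP_b730b2_lc.EF

/-! Walks, weak reachability and hitting sets. Orders are given by injective rank functions. -/

namespace Pool.Agent.Work.MP_b730b2_lc.Full

open Set

variable {V : Type}

/-- Walks of length at most `n` all of whose vertices satisfy `P`. -/
inductive Wk (adj : V → V → Prop) (P : V → Prop) : ℕ → V → V → Prop
  | refl {n : ℕ} {x : V} : P x → Wk adj P n x x
  | step {n : ℕ} {x y z : V} : Wk adj P n x y → adj y z → P z → Wk adj P (n + 1) x z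

/-- `s` is adjacent to the end of a walk from `x`. -/
def Att (adj : V → V → Prop) (P : V → Prop) (n : ℕ) (x s : V) : Prop :=
  ∃ y, Wk adj P n x y ∧ adj y s

variable {adj adj' : V → V → Prop} {P Q : V → Prop} {n m : ℕ} {x y z s : V}

theorem Wk.fst (h : Wk adj P n x z) : P x := by
  induction h with
  | refl h => exact h
  | step _ _ _ ih => exact ih

theorem Wk.lst (h : Wk adj P n x z) : P z := by
  cases h with
  | refl h => exact h
  | step _ _ h => exact h

theorem Wk.le (h : Wk adj P n x z) (hn : n ≤ m) : Wk adj P m x z := by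
  induction h generalizing m with
  | refl h => exact .refl h
  | step _ e h ih =>
    obtain ⟨m, rfl⟩ : ∃ m', m = m' + 1 := ⟨m - 1, by omega⟩
    exact .step (ih (by omega)) e h

theorem Wk.mono' (h : Wk adj P n x z) (ha : ∀ a b, adj a b → adj' a b) (hP : ∀ v, P v → Q v) :
    Wk adj' Q n x z := by
  induction h with
  | refl h => exact .refl (hP _ h)
  | step _ e h ih => exact .step ih (ha _ _ e) (hP _ h)

theorem Wk.mono (h : Wk adj P n x z) (hP : ∀ v, P v → Q v) : Wk adj Q n x z :=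
  h.mono' (fun _ _ e => e) hP

theorem wk_zero : Wk adj P 0 x z ↔ x = z ∧ P x := by
  constructor
  · intro h; cases h with
    | refl h => exact ⟨rfl, h⟩
  · rintro ⟨rfl, h⟩; exact .refl h

theorem wk_succ : Wk adj P (n + 1) x z ↔ Wk adj P n x z ∨ ∃ y, Wk adj P n x y ∧ adj y z ∧ P z := by
  constructor
  · intro h; cases h with
    | refl h => exact Or.inl (.refl h)
    | step h e h' => exact Or.inr ⟨_, h, e, h'⟩
  · rintro (h | ⟨y, h, e, h'⟩)
    · exact h.le (Nat.le_succ _)
    · exact .step h e h'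

theorem Wk.trans (h : Wk adj P n x y) (h' : Wk adj P m y z) : Wk adj P (n + m) x z := by
  induction h' with
  | refl _ => exact h.le (Nat.le_add_right _ _)
  | step _ e h'' ih => exact .step (ih h) e h''

theorem Wk.one (hx : P x) (e : adj x y) (hy : P y) : Wk adj P 1 x y := .step (.refl hx) e hy

theorem Wk.head (hx : P x) (e : adj x y) (h : Wk adj P n y z) : Wk adj P (n + 1) x z := by
  have := (Wk.one hx e h.fst).trans h
  rwa [add_comm] at this

theorem Wk.symm (hs : ∀ a b, adj a b → adj b a) (h : Wk adj P n x z) : Wk adj P n z x := by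
  induction h with
  | refl h => exact .refl h
  | step _ e h ih => exact Wk.head h (hs _ _ e) ih

/-- Decomposition at the first step. -/
theorem Wk.cases_head (h : Wk adj P n x z) :
    x = z ∨ ∃ n' y, n = n' + 1 ∧ adj x y ∧ Wk adj P n' y z := by
  induction h with
  | refl _ => exact Or.inl rfl
  | @step n x y z h e hz ih =>
    rcases ih with rfl | ⟨n', y', rfl, e', h'⟩
    · exact Or.inr ⟨n, z, rfl, e, .refl hz⟩
    · exact Or.inr ⟨n' + 1, y', rfl, e', .step h' e hz⟩

/-- A property of all vertices lying on some short walk holds along the walk. -/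
theorem Wk.of_on (h : Wk adj P n x z)
    (hQ : ∀ v n1 n2, n1 + n2 ≤ n → Wk adj P n1 x v → Wk adj P n2 v z → Q v) : Wk adj Q n x z := by
  induction h with
  | refl h => exact .refl (hQ _ 0 0 (Nat.zero_le _) (.refl h) (.refl h))
  | @step n x y z h e hz ih =>
    refine .step (ih fun v n1 n2 hn h1 h2 => hQ v n1 (n2 + 1) (by omega) h1 (.step h2 e hz)) e ?_
    exact hQ z (n + 1) 0 le_rfl (.step h e hz) (.refl hz)

theorem Wk.of_ball (h : Wk adj P n x z) (hQ : ∀ v, Wk adj P n x v → Q v) : Wk adj Q n x z :=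
  h.of_on fun v _ _ hn h1 _ => hQ v (h1.le (by omega))

/-- Splitting a walk at its first vertex in `S`. -/
theorem Wk.split (S : V → Prop) (h : Wk adj P n x z) :
    Wk adj (fun v => P v ∧ ¬ S v) n x z ∨ S x ∨ ∃ n1 n2 y s, n1 + 1 + n2 ≤ n ∧
      Wk adj (fun v => P v ∧ ¬ S v) n1 x y ∧ adj y s ∧ S s ∧ Wk adj P n2 s z := by
  induction h with
  | @refl n x h =>
    by_cases c : S x
    · exact Or.inr (Or.inl c)
    · exact Or.inl (.refl ⟨h, c⟩)
  | @step n x y z _ e hz ih =>
    rcases ih with ih | ih | ⟨n1, n2, y', s, hn, h1, e', hs, h2⟩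
    · by_cases c : S z
      · exact Or.inr (Or.inr ⟨n, 0, y, z, le_rfl, ih, e, c, .refl hz⟩)
      · exact Or.inl (.step ih e ⟨hz, c⟩)
    · exact Or.inr (Or.inl ih)
    · exact Or.inr (Or.inr ⟨n1, n2 + 1, y', s, by omega, h1, e', hs, .step h2 e hz⟩)

/-- Splitting a walk from outside `S` to `S` at its first vertex in `S`. -/
theorem Wk.first (S : V → Prop) (h : Wk adj P n x z) (hx : ¬ S x) (hz : S z) :
    ∃ n1 n2 s, n1 + 1 + n2 ≤ n ∧ Att adj (fun v => P v ∧ ¬ S v) n1 x s ∧ S s ∧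
      Wk adj P n2 s z := by
  rcases h.split S with h | h | ⟨n1, n2, y, s, hn, h1, e, hs, h2⟩
  · exact absurd hz h.lst.2
  · exact absurd h hx
  · exact ⟨n1, n2, s, hn, ⟨y, h1, e⟩, hs, h2⟩

/-- Splitting a walk at a vertex of least rank. -/
theorem Wk.min (pos : V → ℕ) (h : Wk adj P n x z) : ∃ w n1 n2, n1 + n2 ≤ n ∧
    Wk adj (fun v => P v ∧ pos w ≤ pos v) n1 x w ∧ Wk adj (fun v => P v ∧ pos w ≤ pos v) n2 w z := by
  induction h with
  | @refl n x h => exact ⟨x, 0, 0, Nat.zero_le _, .refl ⟨h, le_rfl⟩, .refl ⟨h, le_rfl⟩⟩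
  | @step n x y z _ e hz ih =>
    obtain ⟨w, n1, n2, hn, h1, h2⟩ := ih
    by_cases c : pos w ≤ pos z
    · exact ⟨w, n1, n2 + 1, by omega, h1, .step h2 e ⟨hz, c⟩⟩
    · refine ⟨z, n1 + n2 + 1, 0, by omega, .step ((h1.trans h2).mono ?_) e ⟨hz, le_rfl⟩,
        .refl ⟨hz, le_rfl⟩⟩
      exact fun v hv => ⟨hv.1, by omega⟩

theorem Att.le (h : Att adj P n x s) (hn : n ≤ m) : Att adj P m x s :=
  let ⟨y, h1, e⟩ := h; ⟨y, h1.le hn, e⟩

theorem Att.mono (h : Att adj P n x s) (hP : ∀ v, P v → Q v) : Att adj Q n x s :=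
  let ⟨y, h1, e⟩ := h; ⟨y, h1.mono hP, e⟩

theorem Att.fst (h : Att adj P n x s) : P x := let ⟨_, h1, _⟩ := h; h1.fst

theorem Att.wk (h : Att adj P n x s) (hs : P s) : Wk adj P (n + 1) x s :=
  let ⟨_, h1, e⟩ := h; .step h1 e hs

theorem Wk.att (h : Wk adj P n x y) (h' : Att adj P m y s) : Att adj P (n + m) x s :=
  let ⟨z, h1, e⟩ := h'; ⟨z, h.trans h1, e⟩

theorem Att.of_ball (h : Att adj P n x s) (hQ : ∀ v, Wk adj P n x v → Q v) : Att adj Q n x s :=
  let ⟨y, h1, e⟩ := h; ⟨y, h1.of_ball hQ, e⟩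

/-- Weak reachability: `u` is reached from `x` by a walk of length at most `d` above `u`. -/
def WR (adj : V → V → Prop) (pos : V → ℕ) (d : ℕ) (x u : V) : Prop :=
  Wk adj (fun z => pos u ≤ pos z) d x u

variable {pos : V → ℕ} {d d' : ℕ} {u u' : V}

theorem WR.refl : WR adj pos d x x := Wk.refl le_rfl

theorem WR.le (h : WR adj pos d x u) (hd : d ≤ d') : WR adj pos d' x u := Wk.le h hd

theorem WR.pos_le (h : WR adj pos d x u) : pos u ≤ pos x :=
  Wk.fst (P := fun z => pos u ≤ pos z) h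

theorem WR.trans (h : WR adj pos d x u) (h' : WR adj pos d' u u') : WR adj pos (d + d') x u' :=
  Wk.trans (Wk.mono h fun _ hv => h'.pos_le.trans hv) h'

/-- Two weak ancestors of a vertex are comparable. -/
theorem WR.both (hs : ∀ a b, adj a b → adj b a) (h : WR adj pos d x u) (h' : WR adj pos d' x u')
    (hu : pos u' ≤ pos u) : WR adj pos (d + d') u u' :=
  Wk.trans (Wk.mono (Wk.symm hs h) fun _ hv => hu.trans hv) h'

/-- The least vertex of a walk is weakly reachable from both ends. -/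
theorem Wk.min_WR (hs : ∀ a b, adj a b → adj b a) (pos : V → ℕ) (h : Wk adj P n x z) :
    ∃ w, Wk adj P n x w ∧ Wk adj P n z w ∧ WR adj pos n x w ∧ WR adj pos n z w ∧
      Wk adj (fun v => P v ∧ pos w ≤ pos v) n x z := by
  obtain ⟨w, n1, n2, hn, h1, h2⟩ := h.min pos
  exact ⟨w, (h1.mono fun _ h => h.1).le (by omega), ((h2.symm hs).mono fun _ h => h.1).le (by omega),
    (h1.mono fun _ h => h.2).le (by omega), ((h2.symm hs).mono fun _ h => h.2).le (by omega),
    (h1.trans h2).le hn⟩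

/-- Strong reachability by walks of any length. -/
def SR (adj : V → V → Prop) (pos : V → ℕ) (v : V) : Set V :=
  {u | pos u < pos v ∧ ∃ n, Att adj (fun z => pos v ≤ pos z) n v u}

/-- An elimination order of width `k`. -/
def Elim (adj : V → V → Prop) (pos : V → ℕ) (k : ℕ) : Prop :=
  Function.Injective pos ∧ ∀ v, (SR adj pos v).ncard ≤ k

/-- Width at most `k`. -/
def Wid (adj : V → V → Prop) (k : ℕ) : Prop := ∃ pos, Elim adj pos k

theorem Wid.mono [Finite V] {k : ℕ} (h : Wid adj k) (ha : ∀ a b, adj' a b → adj a b) :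
    Wid adj' k := by
  obtain ⟨pos, h1, h2⟩ := h
  refine ⟨pos, h1, fun v => (ncard_le_ncard ?_).trans (h2 v)⟩
  rintro u ⟨hu, n, y, h3, e⟩
  exact ⟨hu, n, y, h3.mono' ha (fun _ h => h), ha _ _ e⟩

/-- A walk avoiding the strongly reachable set stays above its start. -/
theorem Wk.above (h : Wk adj P n x z) (hP : ∀ v, P v → v ∉ SR adj pos x) :
    Wk adj (fun v => P v ∧ pos x ≤ pos v) n x z := by
  rcases h.split (fun v => pos v < pos x) with h | h | ⟨n1, n2, y, s, _, h1, e, hs, h2⟩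
  · exact h.mono fun v hv => ⟨hv.1, not_lt.1 hv.2⟩
  · exact absurd h (lt_irrefl _)
  · exact absurd ⟨hs, n1, y, h1.mono fun v hv => not_lt.1 hv.2, e⟩ (hP s h2.fst)

/-- A small set meeting all short walks from `v` to the targets. -/
def Hit (adj : V → V → Prop) (r κ : ℕ) (v : V) (Tg : V → Prop) : Prop :=
  ∃ K : Set V, K.ncard ≤ κ ∧ v ∉ K ∧ ∀ u, Tg u → ¬ Wk adj (fun z => z ∉ K) r v u

theorem Hit.mono {r r' κ κ' : ℕ} {v : V} {Tg Tg' : V → Prop} (h : Hit adj r κ v Tg) (hr : r' ≤ r)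
    (hκ : κ ≤ κ') (hT : ∀ u, Tg' u → Tg u) : Hit adj r' κ' v Tg' :=
  let ⟨K, h1, h2, h3⟩ := h
  ⟨K, h1.trans hκ, h2, fun u hu hw => h3 u (hT u hu) (hw.le hr)⟩

theorem Elim.hit {k : ℕ} (h : Elim adj pos k) (r : ℕ) (v : V) :
    Hit adj r k v (fun u => pos u < pos v) :=
  ⟨SR adj pos v, h.2 v, fun h => lt_irrefl _ h.1, fun _ hu hw =>
    absurd (hw.above (pos := pos) fun _ h => h).lst.2 (not_le.2 hu)⟩

/-- The bound for weakly reachable sets. -/
def Wb (κ : ℕ) : ℕ → ℕ
  | 0 => 1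
  | d + 1 => 1 + κ * Wb κ d

theorem Wb_pos (κ : ℕ) : ∀ d, 1 ≤ Wb κ d
  | 0 => le_rfl
  | _ + 1 => Nat.le_add_right _ _

theorem Wb_succ (κ : ℕ) : ∀ d, Wb κ d ≤ Wb κ (d + 1)
  | 0 => Wb_pos κ 1
  | d + 1 => Nat.add_le_add_left (Nat.mul_le_mul_left _ (Wb_succ κ d)) 1

theorem Wb_mono (κ : ℕ) (h : d ≤ d') : Wb κ d ≤ Wb κ d' :=
  monotone_nat_of_le_succ (Wb_succ κ) h

theorem ncard_biUnion_le {α β : Type} [Finite β] (A : Set α) (hA : A.Finite) (F : α → Set β) (b : ℕ)
    (h : ∀ x ∈ A, (F x).ncard ≤ b) : (⋃ x ∈ A, F x).ncard ≤ A.ncard * b := by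
  induction A, hA using Set.Finite.induction_on with
  | empty => simp
  | @insert a A ha hA ih =>
    rw [biUnion_insert, ncard_insert_of_notMem ha hA, add_mul, one_mul, add_comm]
    exact (ncard_union_le _ _).trans
      (Nat.add_le_add (h a (Or.inl rfl)) (ih fun x hx => h x (Or.inr hx)))

/-- A general form of the bound: `B u` is the set of vertices allowed on walks to `u`. -/
theorem reach_bound' [Finite V] {κ r : ℕ} (B : V → V → Prop) (Tg : V → Prop)
    (h : ∀ v, ∃ K : Set V, K.ncard ≤ κ ∧ v ∉ K ∧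
      ∀ u, Tg u → u ≠ v → ¬ Wk adj (fun z => B u z ∧ z ∉ K) r v u) :
    ∀ d ≤ r, ∀ v, {u | Tg u ∧ Wk adj (B u) d v u}.ncard ≤ Wb κ d
  | 0, _, v => by
    refine (ncard_le_ncard (t := {v}) ?_).trans (by simp [Wb])
    rintro u ⟨_, hu⟩
    exact (wk_zero.1 hu).1.symm
  | d + 1, hd, v => by
    obtain ⟨K, h1, h2, h3⟩ := h v
    have sub : {u | Tg u ∧ Wk adj (B u) (d + 1) v u} ⊆
        {v} ∪ ⋃ z ∈ K, {u | Tg u ∧ Wk adj (B u) d z u} := by
      rintro u ⟨hT, hu⟩
      by_cases c : u = v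
      · exact Or.inl c
      · right
        rcases hu.split (· ∈ K) with h4 | h4 | ⟨n1, n2, y, s, hn, _, _, hs, h5⟩
        · exact absurd (h4.le hd) (h3 u hT c)
        · exact absurd h4 h2
        · exact mem_biUnion hs ⟨hT, h5.le (by omega)⟩
    refine (ncard_le_ncard sub).trans ((ncard_union_le _ _).trans ?_)
    rw [ncard_singleton, Wb]
    refine Nat.add_le_add_left ((ncard_biUnion_le K (toFinite K) _ (Wb κ d) ?_).trans
      (Nat.mul_le_mul_right _ h1)) 1
    exact fun z _ => reach_bound' B Tg h d (by omega) z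

theorem reach_bound [Finite V] {κ r : ℕ} (B : V → V → Prop) (Tg : V → Prop)
    (h : ∀ v, Hit adj r κ v (fun u => Tg u ∧ B u v ∧ u ≠ v)) :
    ∀ d ≤ r, ∀ v, {u | Tg u ∧ Wk adj (B u) d v u}.ncard ≤ Wb κ d :=
  reach_bound' B Tg fun v =>
    let ⟨K, h1, h2, h3⟩ := h v
    ⟨K, h1, h2, fun u hu hne hw => h3 u ⟨hu, hw.fst.1, hne⟩ (hw.mono fun _ h => h.2)⟩

theorem WR_bound [Finite V] {κ r : ℕ} (hp : Function.Injective pos)
    (h : ∀ v, Hit adj r κ v (fun u => pos u < pos v)) (hd : d ≤ r) (v : V) :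
    {u | WR adj pos d v u}.ncard ≤ Wb κ d := by
  have := reach_bound (adj := adj) (fun u z => pos u ≤ pos z) (fun _ => True)
    (fun v => (h v).mono le_rfl le_rfl fun u hu =>
      lt_of_le_of_ne hu.2.1 fun e => hu.2.2 (hp e)) d hd v
  simpa only [true_and, WR] using this

theorem Elim.WR_bound [Finite V] {k : ℕ} (h : Elim adj pos k) (d : ℕ) (v : V) :
    {u | WR adj pos d v u}.ncard ≤ Wb k d :=
  Full.WR_bound h.1 (h.hit d) le_rfl v

/-- Every injective key into a linear order is represented by a rank function. -/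
theorem exists_pos [Finite V] {β : Type} [LinearOrder β] (key : V → β)
    (hk : Function.Injective key) :
    ∃ pos : V → ℕ, Function.Injective pos ∧ ∀ x y, pos x < pos y ↔ key x < key y := by
  have h1 : ∀ x y, key x < key y →
      {z | key z < key x}.ncard < {z | key z < key y}.ncard := by
    intro x y h
    refine ncard_lt_ncard ⟨fun z hz => lt_trans hz h, fun hs => ?_⟩
    exact lt_irrefl _ (hs (show x ∈ {z | key z < key y} from h))
  have h2 : ∀ x y, {z | key z < key x}.ncard < {z | key z < key y}.ncard ↔ key x < key y := by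
    intro x y
    refine ⟨fun h => ?_, h1 x y⟩
    rcases lt_trichotomy (key x) (key y) with c | c | c
    · exact c
    · rw [c] at h; exact absurd h (lt_irrefl _)
    · exact absurd (h1 y x c) (not_lt.2 h.le)
  refine ⟨fun x => {z | key z < key x}.ncard, fun x y e => hk ?_, h2⟩
  rcases lt_trichotomy (key x) (key y) with c | c | c
  · exact absurd (h1 x y c) (by simp only at e; omega)
  · exact c
  · exact absurd (h1 y x c) (by simp only at e; omega)

end Pool.Agent.Work.MP_b730b2_lc.Full
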